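import Pool.Agent.Lib.MP_20e1d9_lc.Defs

/-!
The congestion of a spanning tree by a simple search (definitions).
-/

set_option autoImplicit false

namespace Pool.Agent.Lib.MP_20e1d9_lc

/-- The entry of a matrix of truth values. -/
def ent (m : List (List Bool)) (x y : ℕ) : Bool := (m.getD x []).getD y false

/-- The set `s` (a list of `n` truth values) together with its neighbours, without `b`. -/
def grow (n : ℕ) (tm : List (List Bool)) (b : ℕ) (s : List Bool) : List Bool :=
  (List.range n).map fun y => !(decide (y = b)) && (s.getD y false ||
    (List.range n).any fun x => s.getD x false && ent tm x y)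

/-- The set of the vertices that can be reached from `a` without passing through `b`. -/
def reach (n : ℕ) (tm : List (List Bool)) (a b : ℕ) : List Bool :=
  (List.range n).foldl (fun s _ => grow n tm b s) ((List.range n).map fun y => decide (y = a))

/-- The pairs `x, y` with `x` in `s` and `y` not in `s`, and `x, y` adjacent. -/
def cutList (n : ℕ) (gm : List (List Bool)) (s : List Bool) : List ℕ :=
  (List.range n).flatMap fun x => (List.range n).flatMap fun y =>
    if s.getD x false && !(s.getD y false) && ent gm x y then [0] else []

/-- Whether every edge of the tree has congestion at most `K`. -/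
def check (n : ℕ) (gm tm : List (List Bool)) (K : ℕ) : Bool :=
  (List.range n).all fun a => (List.range n).all fun b =>
    !(ent tm a b) || decide ((cutList n gm (reach n tm a b)).length ≤ K)

open scoped Classical in
/-- The adjacency matrix of a graph, as a list of rows. -/
noncomputable def matOf {n : ℕ} (G : SimpleGraph (Fin n)) : List (List Bool) :=
  List.ofFn fun i => List.ofFn fun j => decide (G.Adj i j)

end Pool.Agent.Lib.MP_20e1d9_lc
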