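import Pool.Agent.Lib.MP_20e1d9_lc.PolyRed
import Pool.Agent.Lib.MP_20e1d9_lc.Check

/-!
The check and two variants of the reduction are computable in polynomial time.
-/

set_option autoImplicit false
set_option linter.unusedSimpArgs false
set_option linter.unusedSectionVars false
set_option linter.unusedVariables false

namespace Pool.Agent.Lib.MP_20e1d9_lc

open Pool.Agent.Lib.MP_9c2350_lc (Sym dig Enc word sz PB sz_foldl_le sz_pair sz_cons sz_nil
  sz_reverse sz_take_le length_le_sz sz_bool sz_list_le)

variable {α β γ σ δ : Type} [Enc α] [Enc β] [Enc γ] [Enc σ] [Enc δ]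

namespace PL

theorem isNil {l : α → List γ} (hl : PT l) : PT (fun x => decide (l x = [])) := isNilL hl

@[fun_prop]
theorem all {l : α → List γ} {f : α → γ → Bool} (hl : PT l) (hf : PT fun p : α × γ => f p.1 p.2) :
    PT (fun x => (l x).all fun b => f x b) := by
  have h : PT fun x => (l x).flatMap fun b => if f x b = true then ([] : List Unit) else [()] := by
    fun_prop
  refine (isNilL h).of_eq fun x => ?_
  rw [Bool.eq_iff_iff, decide_eq_true_iff, List.flatMap_eq_nil_iff, List.all_eq_true]
  refine forall₂_congr fun b _ => ?_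
  by_cases hb : f x b = true <;> simp [hb]

@[fun_prop]
theorem any {l : α → List γ} {f : α → γ → Bool} (hl : PT l) (hf : PT fun p : α × γ => f p.1 p.2) :
    PT (fun x => (l x).any fun b => f x b) := by
  have h : PT fun x => !((l x).all fun b => !(f x b)) := by fun_prop
  exact h.of_eq fun x => by simp [List.any_eq_not_all_not]

@[fun_prop]
theorem ent {m : α → List (List Bool)} {x y : α → ℕ} (hm : PT m) (hx : PT x) (hy : PT y) :
    PT (fun a => MP_20e1d9_lc.ent (m a) (x a) (y a)) := by
  simp only [MP_20e1d9_lc.ent]
  fun_prop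

@[fun_prop]
theorem grow {n b : α → ℕ} {tm : α → List (List Bool)} {s : α → List Bool} (hn : PT n)
    (htm : PT tm) (hb : PT b) (hs : PT s) :
    PT (fun x => MP_20e1d9_lc.grow (n x) (tm x) (b x) (s x)) := by
  simp only [MP_20e1d9_lc.grow]
  fun_prop

theorem sz_boolList (l : List Bool) : sz l ≤ l.length * 4 + 1 :=
  sz_list_le l 3 fun a _ => sz_bool a

@[fun_prop]
theorem reach {n a b : α → ℕ} {tm : α → List (List Bool)} (hn : PT n)
    (htm : PT tm) (ha : PT a) (hb : PT b) :
    PT (fun x => MP_20e1d9_lc.reach (n x) (tm x) (a x) (b x)) := by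
  obtain ⟨qn, hqn, Hqn⟩ := hn.size
  have h := MP_9c2350_lc.Poly.foldl (α := α) (l := fun x => List.range (n x))
    (s0 := fun x => (List.range (n x)).map fun y => decide (y = a x))
    (step := fun y : α × (List Bool × ℕ) => MP_20e1d9_lc.grow (n y.1) (tm y.1) (b y.1) y.2.1)
    (range hn) (map (range hn) (by fun_prop))
    (by
      have : PT fun y : α × (List Bool × ℕ) =>
        MP_20e1d9_lc.grow (n y.1) (tm y.1) (b y.1) y.2.1 := by fun_prop
      exact this)
    (q := fun m => qn m * 4 + 1)
    ((hqn.mul (PB.const 4)).add (PB.const 1)) (by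
      intro x l' hl'
      refine (sz_boolList _).trans ?_
      have hlen : (l'.foldl (fun s _ => MP_20e1d9_lc.grow (n x) (tm x) (b x) s)
          ((List.range (n x)).map fun y => decide (y = a x))).length = n x := by
        induction l' using List.reverseRecOn with
        | nil => simp
        | append_singleton l c _ => simp [MP_20e1d9_lc.grow]
      show (l'.foldl (fun s _ => MP_20e1d9_lc.grow (n x) (tm x) (b x) s)
          ((List.range (n x)).map fun y => decide (y = a x))).length * 4 + 1 ≤
            qn (sz x) * 4 + 1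
      rw [hlen]
      have := Hqn x
      rw [sz_nat] at this
      omega)
  exact h

@[fun_prop]
theorem cutList {n : α → ℕ} {gm : α → List (List Bool)} {s : α → List Bool} (hn : PT n)
    (hgm : PT gm) (hs : PT s) : PT (fun x => MP_20e1d9_lc.cutList (n x) (gm x) (s x)) := by
  simp only [MP_20e1d9_lc.cutList]
  fun_prop

@[fun_prop]
theorem check {n K : α → ℕ} {gm tm : α → List (List Bool)} (hn : PT n)
    (hgm : PT gm) (htm : PT tm) (hK : PT K) :
    PT (fun x => MP_20e1d9_lc.check (n x) (gm x) (tm x) (K x)) := by
  simp only [MP_20e1d9_lc.check]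
  fun_prop

/-! ### Splitting at a slash -/

/-- One step of the splitter, which reads the input from right to left. -/
def sstep (s : Bool × List Sym × List Sym) (c : Sym) : Bool × List Sym × List Sym :=
  if c = Sym.slash then (true, s.2.1, s.2.2)
  else if s.1 = true then (true, c :: s.2.1, s.2.2)
  else (false, s.2.1, c :: s.2.2)

theorem sstepPT {s : α → Bool × List Sym × List Sym} {c : α → Sym} (hs : PT s) (hc : PT c) :
    PT (fun x => sstep (s x) (c x)) := by
  simp only [sstep]
  fun_prop

theorem sz_sstep_le (s : Bool × List Sym × List Sym) (c : Sym) : sz (sstep s c) ≤ sz s + 14 := by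
  obtain ⟨b, l, m⟩ := s
  have hb := sz_bool b
  have ht : sz true = 3 := rfl
  have hf : sz false = 1 := rfl
  have hb1 : 1 ≤ sz b := MP_9c2350_lc.sz_pos b
  have hc : sz c ≤ 11 := MP_9c2350_lc.word_sym_length c
  unfold sstep
  simp only
  split_ifs
  · rw [sz_pair, sz_pair, sz_pair, sz_pair]; omega
  · rw [sz_pair, sz_pair, sz_pair, sz_pair, sz_cons]; omega
  · rw [sz_pair, sz_pair, sz_pair, sz_pair, sz_cons]; omega

/-- The part before the slash and the part after it. -/
def split (x : List Sym) : Bool × List Sym × List Sym := x.reverse.foldl sstep (false, [], [])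

@[fun_prop]
theorem splitPT : PT split := by
  have h := MP_9c2350_lc.Poly.foldl (α := List Sym) (l := fun x => x.reverse)
    (s0 := fun _ => (false, ([] : List Sym), ([] : List Sym)))
    (step := fun y => sstep y.2.1 y.2.2)
    (MP_9c2350_lc.Poly.reverse MP_9c2350_lc.Poly.id) (MP_9c2350_lc.Poly.const _)
    (sstepPT (by fun_prop) (by fun_prop))
    (q := fun n => sz (false, ([] : List Sym), ([] : List Sym)) + n * 14)
    ((PB.const _).add (PB.id.mul (PB.const 14))) (by
      intro x l' hl'
      refine (sz_foldl_le (fun s b => sz_sstep_le s b) l' _).trans ?_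
      have := (length_le_sz l').le.trans (sz_take_le hl')
      rw [sz_reverse] at this
      show _ ≤ sz (false, ([] : List Sym), ([] : List Sym)) + sz x * 14
      omega)
  exact h

theorem split_eq (x : List Sym) :
    split x = x.foldr (fun c s => sstep s c) (false, [], []) := by
  unfold split
  rw [List.foldl_reverse]

theorem split_append (x y : List Sym) (hx : Sym.slash ∉ x) (hy : Sym.slash ∉ y) :
    split (x ++ [Sym.slash] ++ y) = (true, x, y) := by
  rw [split_eq, List.foldr_append, List.foldr_append]
  have h1 : ∀ y : List Sym, Sym.slash ∉ y → y.foldr (fun c s => sstep s c) (false, [], []) =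
      (false, [], y) := by
    intro y
    induction y with
    | nil => intro _; rfl
    | cons c y ih =>
      intro h
      rw [List.mem_cons, not_or] at h
      rw [List.foldr_cons, ih h.2]
      simp [sstep, Ne.symm h.1]
  have h2 : ∀ x y : List Sym, Sym.slash ∉ x → x.foldr (fun c s => sstep s c) (true, [], y) =
      (true, x, y) := by
    intro x y
    induction x with
    | nil => intro _; rfl
    | cons c x ih =>
      intro h
      rw [List.mem_cons, not_or] at h
      rw [List.foldr_cons, ih h.2]
      simp [sstep, Ne.symm h.1]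
  rw [h1 y hy]
  exact h2 x y hx

theorem slash_notMem_encGraph {n : ℕ} (G : SimpleGraph (Fin n)) : Sym.slash ∉ encGraph G := by
  rw [encGraph_eq]
  intro h
  rw [List.mem_append, List.mem_flatten] at h
  rcases h with ⟨l, hl, h⟩ | h
  · obtain ⟨r, -, rfl⟩ := List.mem_map.1 hl
    rw [List.mem_append, List.mem_map] at h
    rcases h with ⟨b, -, h⟩ | h
    · cases b <;> cases h
    · simp at h
  · simp at h

theorem slash_notMem_encInst {n : ℕ} (G : SimpleGraph (Fin n)) (k : ℕ) :
    Sym.slash ∉ encInst G k := by
  rw [encInst, List.mem_append, not_or]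
  refine ⟨slash_notMem_encGraph G, fun h => ?_⟩
  have := List.eq_of_mem_replicate h
  cases this

/-- The check, on words. -/
def chk (x : List Sym) : List Sym :=
  if MP_20e1d9_lc.check (parse (split x).2.1).2.2.length (parse (split x).2.1).2.2
    (parse (split x).2.2).2.2 (parse (split x).2.1).1 = true then [Sym.one] else [Sym.zero]

theorem chkPT : PT chk := by
  show PT fun x => if MP_20e1d9_lc.check (parse (split x).2.1).2.2.length
    (parse (split x).2.1).2.2 (parse (split x).2.2).2.2 (parse (split x).2.1).1 = true
    then [Sym.one] else [Sym.zero]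
  fun_prop

/-- The graph of the reduction, with the parameter. -/
def red' (x : List Sym) : List Sym :=
  ((cP (parse x).2.2.length (parse x).1 (parse x).2.2).rows.flatMap fun r =>
    r.map MP_9c2350_lc.dig ++ [Sym.semi]) ++ [Sym.bar] ++
    List.replicate (40 * ((parse x).1 * (parse x).1) + 25) Sym.one

theorem red'PT : PT red' := by
  show PT fun x => ((cP (parse x).2.2.length (parse x).1 (parse x).2.2).rows.flatMap fun r =>
    r.map MP_9c2350_lc.dig ++ [Sym.semi]) ++ [Sym.bar] ++
    List.replicate (40 * ((parse x).1 * (parse x).1) + 25) Sym.one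
  fun_prop

theorem instPT : PT fun x => red x ++ [Sym.slash] := by
  show PT fun x => outWord (cP (parse x).2.2.length (parse x).1 (parse x).2.2) ++ [Sym.slash]
  fun_prop

end PL

theorem exists_poly_check : ∃ f : List Sym → List Sym, MP_9c2350_lc.Poly f ∧
    ∀ (n K : ℕ) (G T : SimpleGraph (Fin n)), f (encInst G K ++ [Sym.slash] ++ encGraph T) =
      if check n (matOf G) (matOf T) K = true then [Sym.one] else [Sym.zero] := by
  refine ⟨PL.chk, PL.chkPT, fun n K G T => ?_⟩
  have hl : (PL.adjRows G).length = n := by simp [PL.adjRows]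
  have hT : PL.parse (encGraph T) = (0, true, PL.adjRows T) := by
    have := PL.parse_encInst T 0
    rwa [encInst, List.replicate_zero, List.append_nil] at this
  rw [PL.chk, PL.split_append _ _ (PL.slash_notMem_encInst G K) (PL.slash_notMem_encGraph T)]
  simp only [PL.parse_encInst, hT, hl]
  rfl

theorem exists_poly_reduction' : ∃ f : List Sym → List Sym, MP_9c2350_lc.Poly f ∧
    ∀ (N κ : ℕ) (Γ : SimpleGraph (Fin N)), f (encInst Γ κ) =
      encInst (cliquePar N κ (adjOf Γ)).outGraph (40 * κ ^ 2 + 25) := by
  refine ⟨PL.red', PL.red'PT, fun N κ Γ => ?_⟩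
  have hl : (PL.adjRows Γ).length = N := by simp [PL.adjRows]
  rw [PL.red', PL.parse_encInst]
  simp only
  rw [hl, encInst, PL.encGraph_eq, PL.adjRows_outGraph, List.flatMap_def]
  unfold cP
  rw [adjM_adjRows, pow_two]

theorem exists_poly_inst : ∃ f : List Sym → List Sym, MP_9c2350_lc.Poly f ∧
    ∀ (N κ : ℕ) (Γ : SimpleGraph (Fin N)), f (encInst Γ κ) =
      encInst (cliquePar N κ (adjOf Γ)).outGraph (cliquePar N κ (adjOf Γ)).K ++ [Sym.slash] := by
  refine ⟨fun x => PL.red x ++ [Sym.slash], PL.instPT, fun N κ Γ => ?_⟩
  have hl : (PL.adjRows Γ).length = N := by simp [PL.adjRows]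
  dsimp only
  rw [PL.red, PL.parse_encInst]
  simp only
  rw [hl, PL.outWord_eq _ (PL.adjRows_outGraph _)]
  unfold cP
  rw [adjM_adjRows]

end Pool.Agent.Lib.MP_20e1d9_lc
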