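import Pool.Agent.Lib.MP_20e1d9_lc.Gadget

/-!
The instance of a clique problem, and the output graph on `Fin n`.
-/

set_option autoImplicit false

namespace Pool.Agent.Lib.MP_20e1d9_lc

/-! ### The output graph as lists -/

namespace Par

variable (P : Par)

/-- The main vertices, as a list. -/
def nodeList : List Nd :=
  ((List.range (P.n + 1)).flatMap fun i => (List.range (P.k + 1)).map fun j => Nd.q i j) ++
  ((List.range (P.n + 2)).flatMap fun i => (List.range P.k).flatMap fun j =>
    [Nd.u i j, Nd.g i j, Nd.v i j])

/-- The bundles, as a list. -/
def bundleList : List Bn :=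
  ((List.range (P.n + 1)).flatMap fun i => (List.range P.k).flatMap fun j =>
    [(.UL, i, j), (.UR, i, j), (.VL, i, j), (.VR, i, j)]) ++
  ((List.range (P.n + 2)).flatMap fun i => (List.range P.k).flatMap fun j =>
    [(.E, i, j), (.D, i, j)])

/-- The edges, as a list of pairs of main vertices. -/
def edgeList : List (Nd × Nd) :=
  P.bundleList.flatMap fun b => List.replicate (P.w b) (bsrc b, btgt b)

/-- Incidence of a main vertex and an edge. -/
def inc (x : Nd) (e : Nd × Nd) : Bool := decide (x = e.1) || decide (x = e.2)

/-- The rows of the adjacency matrix. -/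
def rows : List (List Bool) :=
  (P.nodeList.map fun x => P.nodeList.map (fun _ => false) ++ P.edgeList.map (fun e => inc x e)) ++
  (P.edgeList.map fun e => P.nodeList.map (fun x => inc x e) ++ P.edgeList.map (fun _ => false))

/-- The graph given by a list of main vertices and a list of edges. -/
def listGraph (ns : List Nd) (es : List (Nd × Nd)) : SimpleGraph (Fin ns.length ⊕ Fin es.length) where
  Adj a b := match a, b with
    | .inl x, .inr e => inc (ns.get x) (es.get e) = true
    | .inr e, .inl x => inc (ns.get x) (es.get e) = true
    | .inl _, .inl _ => False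
    | .inr _, .inr _ => False
  symm := ⟨by rintro (x | e) (y | f) h <;> exact h⟩
  loopless := ⟨by rintro (x | e) h <;> exact h⟩

/-- The output graph: first the main vertices, then the edges. -/
def outGraph : SimpleGraph (Fin (P.nodeList.length + P.edgeList.length)) :=
  (listGraph P.nodeList P.edgeList).comap finSumFinEquiv.symm

end Par

/-! ### The instance of a clique problem -/

/-- An item: two colours and two values. -/
abbrev Item : Type := ℕ × ℕ × ℕ × ℕ

/-- The items. -/
def itemList (κ L : ℕ) : List Item :=
  (List.range κ).flatMap fun a => (List.range κ).flatMap fun b =>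
    (List.range L).flatMap fun x => (List.range L).map fun y => (a, b, x, y)

/-- A row: a kind and two colours. The kinds are `0` (first), `1` (cnt), `2` (xp), `3` (xm),
`4` (yp), `5` (ym), `6` (forb), `7` (last). -/
abbrev Row : Type := ℕ × ℕ × ℕ

/-- The rows. -/
def rowList (κ : ℕ) : List Row :=
  [(0, 0, 0)] ++ ((List.range κ).flatMap fun a => (List.range κ).flatMap fun b =>
    [(1, a, b), (2, a, b), (3, a, b), (4, a, b), (5, a, b)]) ++ [(6, 0, 0), (7, 0, 0)]

variable (N κ : ℕ) (adj : ℕ → ℕ → Bool)

/-- Items that may be selected. -/
def allowed : Item → Bool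
  | (a, b, x, y) => decide (x < N) && decide (y < N) && (if a = b then decide (x = y) else adj x y)

/-- Costs of selected items. -/
def alphaOf : Item → Row → ℕ
  | (a, b, x, y), (t, a', b') =>
    if t = 2 then (if (a, b) = (a', b') then x else 0) + (if (a, b) = (a', a') then N - x else 0)
    else if t = 3 then
      (if (a, b) = (a', b') then N - x else 0) + (if (a, b) = (a', a') then x else 0)
    else if t = 4 then
      (if (a, b) = (a', b') then y else 0) + (if (a, b) = (b', b') then N - y else 0)
    else if t = 5 then
      (if (a, b) = (a', b') then N - y else 0) + (if (a, b) = (b', b') then y else 0)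
    else if t = 6 then (if allowed N adj (a, b, x, y) then 0 else 1)
    else 0

/-- Costs of unselected items. -/
def betaOf : Item → Row → ℕ
  | (a, b, _, _), (t, a', b') => if t = 1 ∧ (a, b) = (a', b') then 1 else 0

/-- The number of items. -/
def nItems : ℕ := κ * κ * (N + 1) * (N + 1)

/-- Costs of the third state. -/
def deltaOf : Row → ℕ
  | (t, _, _) => if t = 0 ∨ t = 7 then 1 else nItems N κ + 1

/-- Capacities. -/
def capOf : Row → ℕ
  | (t, _, _) => if t = 0 then κ * κ
    else if t = 1 then (N + 1) * (N + 1) - 1
    else if t ≤ 5 then N
    else if t = 6 then 0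
    else nItems N κ - κ * κ

/-- Table lookup. -/
def tab (l : List (List ℕ)) (i j : ℕ) : ℕ := (l.getD i []).getD j 0

/-- The instance of the clique problem with `N` vertices, adjacency `adj` and clique size `κ`. -/
def cliquePar : Par where
  n := nItems N κ
  k := (rowList κ).length
  s := nItems N κ + 1
  α := tab ((itemList κ (N + 1)).map fun it => (rowList κ).map fun r => alphaOf N adj it r)
  β := tab ((itemList κ (N + 1)).map fun it => (rowList κ).map fun r => betaOf it r)
  δ := tab ((itemList κ (N + 1)).map fun _ => (rowList κ).map fun r => deltaOf N κ r)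
  b := fun j => ((rowList κ).map fun r => capOf N κ r).getD j 0

end Pool.Agent.Lib.MP_20e1d9_lc
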