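import Pool.Agent.Lib.MP_20e1d9_lc.Sub
import Pool.Agent.Lib.MP_20e1d9_lc.Out

section

section

/-!
A levelled multigraph, every edge subdivided once, has an explicit straight-line plane drawing
with `2 * L + 1` horizontal levels; so it is `(2 * L + 1)`-outerplanar.
-/

set_option autoImplicit false

namespace Pool.Agent.Lib.MP_20e1d9_lc

/-- A segment with two different ends is a simple arc. -/
theorem isArc_segment {p q : ℝ × ℝ} (h : p ≠ q) : IsArc (segment ℝ p q) p q := by
  refine ⟨fun t => AffineMap.lineMap p q (t : ℝ), ?_, ?_, ?_, ?_, ?_⟩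
  · exact (AffineMap.lineMap_continuous (R := ℝ) (p := p) (q := q)).comp continuous_subtype_val
  · intro s t hst
    have := AffineMap.lineMap_injective ℝ h hst
    exact Subtype.ext this
  · simp
  · simp
  · rw [segment_eq_image_lineMap]
    ext y
    constructor
    · rintro ⟨t, rfl⟩
      exact ⟨t, t.2, rfl⟩
    · rintro ⟨t, ht, rfl⟩
      exact ⟨⟨t, ht⟩, rfl⟩

section Half

variable {V : Type*} {G : SimpleGraph V} (D : PlaneEmbedding G)

/-- If the drawing of `S` lies in the half plane `y ≤ h`, the points of height `h` are in the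
closure of the outer face. -/
theorem mem_closure_outerFace {S : Set V} {h : ℝ} (hS : ∀ p ∈ D.drawn S, p.2 ≤ h) {p : ℝ × ℝ}
    (hp : p.2 = h) : p ∈ closure (D.outerFace S) := by
  have hconv : Convex ℝ {z : ℝ × ℝ | h < z.2} := by
    have : {z : ℝ × ℝ | h < z.2} = (LinearMap.snd ℝ ℝ ℝ) ⁻¹' (Set.Ioi h) := rfl
    rw [this]
    exact (convex_Ioi h).linear_preimage _
  have hsub : {z : ℝ × ℝ | h < z.2} ⊆ D.outerFace S := by
    intro z hz
    have hz' : h < z.2 := hz
    refine ⟨fun hzS => absurd (hS z hzS) (not_le.mpr hz'), ?_⟩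
    intro hb
    have hUc : {z : ℝ × ℝ | h < z.2} ⊆ (D.drawn S)ᶜ := by
      intro w hw hwS
      exact absurd (hS w hwS) (not_le.mpr hw)
    have h1 : {z : ℝ × ℝ | h < z.2} ⊆ connectedComponentIn (D.drawn S)ᶜ z :=
      hconv.isPreconnected.subset_connectedComponentIn hz hUc
    have h2 := hb.subset h1
    rw [Metric.isBounded_iff_subset_closedBall (0 : ℝ × ℝ)] at h2
    obtain ⟨r, hr⟩ := h2
    have h3 : ((0 : ℝ), max h r + 1) ∈ {z : ℝ × ℝ | h < z.2} := by
      show h < max h r + 1
      have := le_max_left h r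
      linarith
    have h4 := hr h3
    rw [Metric.mem_closedBall, dist_zero_right, Prod.norm_def] at h4
    have h5 : ‖(max h r + 1 : ℝ)‖ ≤ r := le_trans (le_max_right _ _) h4
    rw [Real.norm_eq_abs] at h5
    have h6 := le_abs_self (max h r + 1)
    have h7 := le_max_right h r
    linarith
  refine closure_mono hsub ?_
  rw [Metric.mem_closure_iff]
  intro ε hε
  refine ⟨(p.1, p.2 + ε / 2), ?_, ?_⟩
  · show h < p.2 + ε / 2
    linarith
  · rw [Prod.dist_eq]
    simp only [dist_self]
    rw [Real.dist_eq]
    have : p.2 - (p.2 + ε / 2) = -(ε / 2) := by ring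
    rw [this, abs_neg, abs_of_pos (by linarith)]
    exact max_lt hε (by linarith)

/-- Peeling off one horizontal level after the other. -/
theorem kouter_of_levels (ht : V → ℤ) (hht : ∀ v, (D.pos v).2 = (ht v : ℝ))
    (hseg : ∀ u v, G.Adj u v → D.arc s(u, v) = segment ℝ (D.pos u) (D.pos v)) (N : ℤ)
    (hN : ∀ v, N ≤ ht v) :
    ∀ (n : ℕ) (S : Set V), (∀ v ∈ S, ht v ≤ n + N - 1) → D.KOuter n S := by
  intro n
  induction n with
  | zero =>
    intro S hS
    show S = ∅
    rw [Set.eq_empty_iff_forall_notMem]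
    intro v hv
    have h1 := hS v hv
    have h2 := hN v
    push_cast at h1
    omega
  | succ n ih =>
    intro S hS
    show D.KOuter n (S \ D.outerVerts S)
    apply ih
    rintro v ⟨hv, hv'⟩
    have h1 := hS v hv
    push_cast at h1
    by_contra hcon
    have h2 : ht v = n + N := by omega
    apply hv'
    refine ⟨hv, mem_closure_outerFace D (h := (ht v : ℝ)) ?_ (hht v)⟩
    have hle : ∀ w ∈ S, (D.pos w).2 ≤ (ht v : ℝ) := by
      intro w hw
      rw [hht w]
      have := hS w hw
      push_cast at this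
      exact_mod_cast (by omega : ht w ≤ ht v)
    have hconv : Convex ℝ {z : ℝ × ℝ | z.2 ≤ (ht v : ℝ)} := by
      have : {z : ℝ × ℝ | z.2 ≤ (ht v : ℝ)} = (LinearMap.snd ℝ ℝ ℝ) ⁻¹' (Set.Iic (ht v : ℝ)) := rfl
      rw [this]
      exact (convex_Iic _).linear_preimage _
    intro p hp
    rcases hp with ⟨w, hw, rfl⟩ | hp
    · exact hle w hw
    · simp only [Set.mem_iUnion] at hp
      obtain ⟨e, ⟨he, heS⟩, hpe⟩ := hp
      induction e using Sym2.ind with
      | _ a b =>
        rw [hseg a b he] at hpe
        have ha : D.pos a ∈ {z : ℝ × ℝ | z.2 ≤ (ht v : ℝ)} := hle a (heS a (Sym2.mem_mk_left a b))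
        have hb : D.pos b ∈ {z : ℝ × ℝ | z.2 ≤ (ht v : ℝ)} := hle b (heS b (Sym2.mem_mk_right a b))
        exact hconv.segment_subset ha hb hpe

end Half

section Draw

variable {M E : Type*} (src tgt : E → M) (lev : M → ℕ) (x : M → ℤ) (off : E → ℝ)

/-- The height of a vertex. -/
def hgt : M ⊕ E → ℤ
  | .inl m => -2 * (lev m : ℤ)
  | .inr e => -(2 * (lev (src e) : ℤ) + 1)

/-- The first coordinate of a vertex. -/
noncomputable def xco : M ⊕ E → ℝ
  | .inl m => x m
  | .inr e => ((x (src e) : ℝ) + x (tgt e)) / 2 + off e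

/-- The position of a vertex. -/
noncomputable def posn (v : M ⊕ E) : ℝ × ℝ := (xco src tgt x off v, (hgt src lev v : ℝ))

variable {src tgt lev x off}

theorem posn_injective (hoff : ∀ e, 0 ≤ off e ∧ off e < 1) (hinjo : Function.Injective off)
    (hinj : ∀ m m', lev m = lev m' → x m = x m' → m = m')
    (hpar : ∀ m m', lev m = lev m' → 2 ∣ x m - x m')
    (hlev : ∀ e, lev (tgt e) = lev (src e) + 1) :
    Function.Injective (posn src tgt lev x off) := by
  rintro (m | e) (m' | e') h
  · simp only [posn, xco, hgt, Prod.mk.injEq, Int.cast_inj] at h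
    rw [hinj m m' (by omega) h.1]
  · simp only [posn, xco, hgt, Prod.mk.injEq, Int.cast_inj] at h
    omega
  · simp only [posn, xco, hgt, Prod.mk.injEq, Int.cast_inj] at h
    omega
  · simp only [posn, xco, hgt, Prod.mk.injEq, Int.cast_inj] at h
    obtain ⟨h1, h2⟩ := h
    have hl : lev (src e) = lev (src e') := by omega
    have hl' : lev (tgt e) = lev (tgt e') := by rw [hlev, hlev, hl]
    obtain ⟨a, ha⟩ := hpar _ _ hl
    obtain ⟨b, hb⟩ := hpar _ _ hl'
    have ha' : (x (src e) : ℝ) - x (src e') = 2 * a := by exact_mod_cast ha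
    have hb' : (x (tgt e) : ℝ) - x (tgt e') = 2 * b := by exact_mod_cast hb
    have h3 : ((a + b : ℤ) : ℝ) = off e' - off e := by
      push_cast
      linarith
    have h4 := hoff e
    have h5 := hoff e'
    have h6 : ((a + b : ℤ) : ℝ) < 1 := by rw [h3]; linarith
    have h7 : (-1 : ℝ) < ((a + b : ℤ) : ℝ) := by rw [h3]; linarith
    have h8 : a + b < 1 := by exact_mod_cast h6
    have h9 : -1 < a + b := by exact_mod_cast h7
    have h10 : a + b = 0 := by omega
    rw [h10] at h3
    have : off e = off e' := by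
      push_cast at h3
      linarith
    rw [hinjo this]

/-- Data of a point of the edge `s(inl v, inr e)`. -/
theorem mem_edge (hlev : ∀ e, lev (tgt e) = lev (src e) + 1) {v : M} {e : E}
    (hve : v = src e ∨ v = tgt e) :
    ∃ s : ℤ, (s = 1 ∨ s = -1) ∧ hgt src lev (Sum.inr e) = hgt src lev (Sum.inl v : M ⊕ E) + s ∧
      ∀ p ∈ segment ℝ (posn src tgt lev x off (Sum.inl v)) (posn src tgt lev x off (Sum.inr e)),
        ∃ t : ℝ, 0 ≤ t ∧ t ≤ 1 ∧
          p.1 = (x v : ℝ) + t * (xco src tgt x off (Sum.inr e) - x v) ∧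
          p.2 = (hgt src lev (Sum.inl v : M ⊕ E) : ℝ) + t * s := by
  have key : ∀ s : ℤ, hgt src lev (Sum.inr e) = hgt src lev (Sum.inl v : M ⊕ E) + s →
      ∀ p ∈ segment ℝ (posn src tgt lev x off (Sum.inl v)) (posn src tgt lev x off (Sum.inr e)),
        ∃ t : ℝ, 0 ≤ t ∧ t ≤ 1 ∧
          p.1 = (x v : ℝ) + t * (xco src tgt x off (Sum.inr e) - x v) ∧
          p.2 = (hgt src lev (Sum.inl v : M ⊕ E) : ℝ) + t * s := by
    intro s hs p hp
    rw [segment_eq_image'] at hp
    obtain ⟨t, ⟨ht0, ht1⟩, rfl⟩ := hp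
    refine ⟨t, ht0, ht1, ?_, ?_⟩
    · simp [posn, xco]
    · simp only [posn, Prod.mk_sub_mk, Prod.smul_mk, Prod.mk_add_mk, smul_eq_mul, hs]
      push_cast
      ring
  rcases hve with rfl | rfl
  · refine ⟨-1, Or.inr rfl, ?_, key (-1) ?_⟩ <;>
    · simp only [hgt]
      ring
  · have h : hgt src lev (Sum.inr e) = hgt src lev (Sum.inl (tgt e) : M ⊕ E) + 1 := by
      simp only [hgt, hlev]
      push_cast
      ring
    exact ⟨1, Or.inl rfl, h, key 1 h⟩

theorem xco_bounds (hoff : ∀ e, 0 ≤ off e ∧ off e < 1)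
    (hx : ∀ e, |x (tgt e) - x (src e)| ≤ 1) {v : M} {e : E} (hve : v = src e ∨ v = tgt e) :
    (x v : ℝ) - 1 / 2 ≤ xco src tgt x off (Sum.inr e) ∧
      xco src tgt x off (Sum.inr e) < (x v : ℝ) + 3 / 2 := by
  have h1 := hx e
  rw [abs_le] at h1
  have h2 : (-1 : ℝ) ≤ (x (tgt e) : ℝ) - x (src e) := by exact_mod_cast h1.1
  have h3 : (x (tgt e) : ℝ) - x (src e) ≤ 1 := by exact_mod_cast h1.2
  have h4 := hoff e
  simp only [xco]
  rcases hve with rfl | rfl <;> constructor <;> linarith

/-- Two edges meet only in a common end. -/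
theorem edges_meet (hoff : ∀ e, 0 ≤ off e ∧ off e < 1) (hinjo : Function.Injective off)
    (hinj : ∀ m m', lev m = lev m' → x m = x m' → m = m')
    (hpar : ∀ m m', lev m = lev m' → 2 ∣ x m - x m')
    (hlev : ∀ e, lev (tgt e) = lev (src e) + 1) (hx : ∀ e, |x (tgt e) - x (src e)| ≤ 1)
    {v v' : M} {e e' : E} (hve : v = src e ∨ v = tgt e) (hve' : v' = src e' ∨ v' = tgt e')
    (hne : ¬ (v = v' ∧ e = e')) {p : ℝ × ℝ}
    (hp : p ∈ segment ℝ (posn src tgt lev x off (Sum.inl v)) (posn src tgt lev x off (Sum.inr e)))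
    (hp' : p ∈ segment ℝ (posn src tgt lev x off (Sum.inl v'))
      (posn src tgt lev x off (Sum.inr e'))) :
    (v = v' ∧ p = posn src tgt lev x off (Sum.inl v)) ∨
      (e = e' ∧ p = posn src tgt lev x off (Sum.inr e)) := by
  have hpi := posn_injective (src := src) (tgt := tgt) hoff hinjo hinj hpar hlev
  obtain ⟨s, hs, hse, hseg⟩ := mem_edge (x := x) (off := off) hlev hve
  obtain ⟨s', hs', hse', hseg'⟩ := mem_edge (x := x) (off := off) hlev hve'
  obtain ⟨t, ht0, ht1, hp1, hp2⟩ := hseg p hp
  obtain ⟨t', ht0', ht1', hp1', hp2'⟩ := hseg' p hp'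
  have hb := xco_bounds (x := x) (off := off) hoff hx hve
  have hb' := xco_bounds (x := x) (off := off) hoff hx hve'
  have hseR : (hgt src lev (Sum.inr e : M ⊕ E) : ℝ) = (hgt src lev (Sum.inl v : M ⊕ E) : ℝ) + s := by
    rw [hse]; push_cast; ring
  have hseR' : (hgt src lev (Sum.inr e' : M ⊕ E) : ℝ) =
      (hgt src lev (Sum.inl v' : M ⊕ E) : ℝ) + s' := by
    rw [hse']; push_cast; ring
  -- the point is `pos v` if `t = 0`, and `pos e` if `t = 1`
  have hP0 : t = 0 → p = posn src tgt lev x off (Sum.inl v) := by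
    rintro rfl
    refine Prod.ext ?_ ?_
    · rw [hp1]; simp [posn, xco]
    · rw [hp2]; simp [posn]
  have hP1 : t = 1 → p = posn src tgt lev x off (Sum.inr e) := by
    rintro rfl
    refine Prod.ext ?_ ?_
    · rw [hp1]; simp [posn]
    · rw [hp2]; simp [posn, hseR]
  have hP0' : t' = 0 → p = posn src tgt lev x off (Sum.inl v') := by
    rintro rfl
    refine Prod.ext ?_ ?_
    · rw [hp1']; simp [posn, xco]
    · rw [hp2']; simp [posn]
  have hP1' : t' = 1 → p = posn src tgt lev x off (Sum.inr e') := by
    rintro rfl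
    refine Prod.ext ?_ ?_
    · rw [hp1']; simp [posn]
    · rw [hp2']; simp [posn, hseR']
  have hcmp : (hgt src lev (Sum.inl v : M ⊕ E) : ℝ) + t * s =
      (hgt src lev (Sum.inl v' : M ⊕ E) : ℝ) + t' * s' := by rw [← hp2, hp2']
  by_cases hvv : v = v'
  · subst hvv
    have hee : e ≠ e' := fun h => hne ⟨rfl, h⟩
    have h1 : t * s = t' * s' := by linarith
    by_cases ht : t = 0
    · exact Or.inl ⟨rfl, hP0 ht⟩
    · exfalso
      have htpos : 0 < t := lt_of_le_of_ne ht0 (Ne.symm ht)
      have hss : s = s' ∧ t = t' := by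
        rcases hs with rfl | rfl <;> rcases hs' with rfl | rfl <;> push_cast at h1
        · exact ⟨rfl, by linarith⟩
        · exfalso; linarith
        · exfalso; linarith
        · exact ⟨rfl, by linarith⟩
      obtain ⟨rfl, rfl⟩ := hss
      have h2 : t * (xco src tgt x off (Sum.inr e) - xco src tgt x off (Sum.inr e')) = 0 := by
        have := hp1.symm.trans hp1'
        linarith
      have h3 : xco src tgt x off (Sum.inr e) = xco src tgt x off (Sum.inr e') := by
        rcases mul_eq_zero.mp h2 with h | h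
        · exact absurd h ht
        · linarith
      have h4 : posn src tgt lev x off (Sum.inr e) = posn src tgt lev x off (Sum.inr e') := by
        refine Prod.ext h3 ?_
        simp only [posn]
        rw [hse, hse']
      exact hee (Sum.inr_injective (hpi h4))
  · by_cases hee : e = e'
    · subst hee
      refine Or.inr ⟨rfl, ?_⟩
      -- the two ends of an edge are on different sides
      have hsum : s + s' = 0 := by
        rcases hve with rfl | rfl
        · rcases hve' with rfl | rfl
          · exact absurd rfl hvv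
          · simp only [hgt, hlev] at hse hse'
            push_cast at hse hse'
            omega
        · rcases hve' with rfl | rfl
          · simp only [hgt, hlev] at hse hse'
            push_cast at hse hse'
            omega
          · exact absurd rfl hvv
      apply hP1
      have h1 : (hgt src lev (Sum.inl v : M ⊕ E) : ℝ) + s =
          (hgt src lev (Sum.inl v' : M ⊕ E) : ℝ) + s' := by rw [← hseR, hseR']
      have hs'' : s' = -s := by omega
      rw [hs''] at hcmp h1
      push_cast at hcmp h1
      rcases hs with rfl | rfl <;> push_cast at hcmp h1 <;> linarith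
    · exfalso
      obtain ⟨k, hk⟩ : ∃ k : ℤ, hgt src lev (Sum.inl v : M ⊕ E) = 2 * k :=
        ⟨-(lev v : ℤ), by simp only [hgt]; ring⟩
      obtain ⟨k', hk'⟩ : ∃ k : ℤ, hgt src lev (Sum.inl v' : M ⊕ E) = 2 * k :=
        ⟨-(lev v' : ℤ), by simp only [hgt]; ring⟩
      rw [hk, hk'] at hcmp
      push_cast at hcmp
      by_cases hkk : k = k'
      · subst hkk
        have hll : lev v = lev v' := by
          simp only [hgt] at hk hk'
          omega
        obtain ⟨c, hc⟩ := hpar _ _ hll
        have hc0 : c ≠ 0 := by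
          rintro rfl
          exact hvv (hinj _ _ hll (by omega))
        have hcR : (x v : ℝ) - x v' = 2 * c := by exact_mod_cast hc
        have h1 : t * s = t' * s' := by linarith
        by_cases hss : s = s'
        · subst hss
          have htt : t = t' := by
            rcases hs with rfl | rfl <;> push_cast at h1 <;> linarith
          subst htt
          have h2 := hp1.symm.trans hp1'
          rcases lt_or_gt_of_ne hc0 with hneg | hpos
          · have hneg' : (c : ℝ) ≤ -1 := by exact_mod_cast (by omega : c ≤ -1)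
            -- x v + 2 ≤ x v'
            have h3 : (1 - t) * ((x v' : ℝ) - x v) + t * (xco src tgt x off (Sum.inr e') -
                xco src tgt x off (Sum.inr e)) = 0 := by linarith
            have h4 : 0 < xco src tgt x off (Sum.inr e') - xco src tgt x off (Sum.inr e) := by
              linarith [hb.2, hb'.1]
            have h5 : 0 ≤ (1 - t) * ((x v' : ℝ) - x v) := mul_nonneg (by linarith) (by linarith)
            have h6 : 0 ≤ t * (xco src tgt x off (Sum.inr e') -
                xco src tgt x off (Sum.inr e)) := mul_nonneg ht0 h4.le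
            have h7 : t * (xco src tgt x off (Sum.inr e') -
                xco src tgt x off (Sum.inr e)) = 0 := by linarith
            have h8 : t = 0 := by
              rcases mul_eq_zero.mp h7 with h | h
              · exact h
              · linarith
            rw [h8] at h3
            linarith
          · have hpos' : (1 : ℝ) ≤ (c : ℝ) := by exact_mod_cast (by omega : 1 ≤ c)
            have h3 : (1 - t) * ((x v : ℝ) - x v') + t * (xco src tgt x off (Sum.inr e) -
                xco src tgt x off (Sum.inr e')) = 0 := by linarith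
            have h4 : 0 < xco src tgt x off (Sum.inr e) - xco src tgt x off (Sum.inr e') := by
              linarith [hb.1, hb'.2]
            have h5 : 0 ≤ (1 - t) * ((x v : ℝ) - x v') := mul_nonneg (by linarith) (by linarith)
            have h6 : 0 ≤ t * (xco src tgt x off (Sum.inr e) -
                xco src tgt x off (Sum.inr e')) := mul_nonneg ht0 h4.le
            have h7 : t * (xco src tgt x off (Sum.inr e) -
                xco src tgt x off (Sum.inr e')) = 0 := by linarith
            have h8 : t = 0 := by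
              rcases mul_eq_zero.mp h7 with h | h
              · exact h
              · linarith
            rw [h8] at h3
            linarith
        · have h9 : t = 0 ∧ t' = 0 := by
            rcases hs with rfl | rfl <;> rcases hs' with rfl | rfl <;> push_cast at h1
            · exact absurd rfl hss
            · exact ⟨by linarith, by linarith⟩
            · exact ⟨by linarith, by linarith⟩
            · exact absurd rfl hss
          have := (hP0 h9.1).symm.trans (hP0' h9.2)
          exact hvv (Sum.inl_injective (hpi this))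
      · -- heights of `v` and `v'` differ by at least 2: both parameters are 1
        have h9 : t = 1 ∧ t' = 1 := by
          have h10 : k + 1 ≤ k' ∨ k' + 1 ≤ k := by omega
          rcases h10 with h10 | h10
          · have h11 : (k : ℝ) + 1 ≤ k' := by exact_mod_cast h10
            rcases hs with rfl | rfl <;> rcases hs' with rfl | rfl <;> push_cast at hcmp <;>
              constructor <;> linarith
          · have h11 : (k' : ℝ) + 1 ≤ k := by exact_mod_cast h10
            rcases hs with rfl | rfl <;> rcases hs' with rfl | rfl <;> push_cast at hcmp <;>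
              constructor <;> linarith
        have := (hP1 h9.1).symm.trans (hP1' h9.2)
        exact hee (Sum.inr_injective (hpi this))

/-- An edge contains no vertex but its ends. -/
theorem vertex_edge (hoff : ∀ e, 0 ≤ off e ∧ off e < 1) (hinjo : Function.Injective off)
    (hinj : ∀ m m', lev m = lev m' → x m = x m' → m = m')
    (hpar : ∀ m m', lev m = lev m' → 2 ∣ x m - x m')
    (hlev : ∀ e, lev (tgt e) = lev (src e) + 1)
    {v : M} {e : E} (hve : v = src e ∨ v = tgt e) {w : M ⊕ E}
    (hp : posn src tgt lev x off w ∈ segment ℝ (posn src tgt lev x off (Sum.inl v))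
      (posn src tgt lev x off (Sum.inr e))) : w = Sum.inl v ∨ w = Sum.inr e := by
  have hpi := posn_injective (src := src) (tgt := tgt) hoff hinjo hinj hpar hlev
  obtain ⟨s, hs, hse, hseg⟩ := mem_edge (x := x) (off := off) hlev hve
  obtain ⟨t, ht0, ht1, hp1, hp2⟩ := hseg _ hp
  have hseR : (hgt src lev (Sum.inr e : M ⊕ E) : ℝ) = (hgt src lev (Sum.inl v : M ⊕ E) : ℝ) + s := by
    rw [hse]; push_cast; ring
  have hts : t = 0 ∨ t = 1 := by
    have h1 : ((hgt src lev w - hgt src lev (Sum.inl v : M ⊕ E) : ℤ) : ℝ) = t * s := by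
      push_cast
      simp only [posn] at hp2
      linarith
    obtain ⟨k, hk⟩ : ∃ k : ℤ, (k : ℝ) = t := by
      rcases hs with rfl | rfl
      · exact ⟨_, by rw [h1]; push_cast; ring⟩
      · refine ⟨-(hgt src lev w - hgt src lev (Sum.inl v : M ⊕ E)), ?_⟩
        rw [Int.cast_neg, h1]
        push_cast
        ring
    rw [← hk] at ht0 ht1
    have h2 : 0 ≤ k := by exact_mod_cast ht0
    have h3 : k ≤ 1 := by exact_mod_cast ht1
    have h4 : k = 0 ∨ k = 1 := by omega
    rcases h4 with rfl | rfl
    · left; rw [← hk]; simp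
    · right; rw [← hk]; simp
  rcases hts with rfl | rfl
  · left
    apply hpi
    refine Prod.ext ?_ ?_
    · rw [hp1]; simp [posn, xco]
    · rw [hp2]; simp [posn]
  · right
    apply hpi
    refine Prod.ext ?_ ?_
    · rw [hp1]; simp [posn]
    · rw [hp2]; simp [posn, hseR]

/-- Edges of the subdivided graph. -/
theorem subG_edge {f : Sym2 (M ⊕ E)} (hf : f ∈ (SubG src tgt).edgeSet) :
    ∃ v e, (v = src e ∨ v = tgt e) ∧ f = s(Sum.inl v, Sum.inr e) := by
  induction f using Sym2.ind with
  | _ a b =>
    have h : (SubG src tgt).Adj a b := hf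
    rcases a with m | e <;> rcases b with m' | e'
    · exact absurd h (by intro h; exact h)
    · exact ⟨m, e', h, rfl⟩
    · exact ⟨m', e, h, Sym2.eq_swap⟩
    · exact absurd h (by intro h; exact h)

end Draw

/-- A levelled multigraph, subdivided once, is `(2 * L + 1)`-outerplanar. -/
theorem kouterplanar_subG {M E : Type*} {src tgt : E → M} [Finite M] [Finite E] (lev : M → ℕ)
    (x : M → ℤ) (L : ℕ)
    (hL : ∀ m, lev m ≤ L) (hinj : ∀ m m', lev m = lev m' → x m = x m' → m = m')
    (hpar : ∀ m m', lev m = lev m' → 2 ∣ x m - x m')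
    (hlev : ∀ e, lev (tgt e) = lev (src e) + 1) (hx : ∀ e, |x (tgt e) - x (src e)| ≤ 1) :
    KOuterplanar (SubG src tgt) (2 * L + 1) := by
  obtain ⟨n, ⟨φ⟩⟩ := Finite.exists_equiv_fin E
  obtain ⟨off, hoff⟩ : ∃ off : E → ℝ, off = fun e => ((φ e : ℕ) : ℝ) / n := ⟨_, rfl⟩
  have hn : ∀ e : E, (0 : ℝ) < n := fun e => by
    have := (φ e).pos
    exact_mod_cast this
  have hoff1 : ∀ e, 0 ≤ off e ∧ off e < 1 := by
    intro e
    rw [hoff]
    refine ⟨by positivity, ?_⟩
    show ((φ e : ℕ) : ℝ) / n < 1
    rw [div_lt_one (hn e)]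
    exact_mod_cast (φ e).2
  have hinjo : Function.Injective off := by
    intro e e' h
    rw [hoff] at h
    have h1 : ((φ e : ℕ) : ℝ) / n = ((φ e' : ℕ) : ℝ) / n := h
    have h2 : ((φ e : ℕ) : ℝ) = ((φ e' : ℕ) : ℝ) := by
      rw [div_eq_div_iff (hn e).ne' (hn e).ne'] at h1
      exact mul_right_cancel₀ (hn e).ne' h1
    have h3 : (φ e : ℕ) = (φ e' : ℕ) := by exact_mod_cast h2
    exact φ.injective (Fin.ext h3)
  have hpi := posn_injective (src := src) (tgt := tgt) hoff1 hinjo hinj hpar hlev
  let arc : Sym2 (M ⊕ E) → Set (ℝ × ℝ) := Sym2.lift ⟨fun u v =>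
    segment ℝ (posn src tgt lev x off u) (posn src tgt lev x off v),
    fun u v => segment_symm ℝ _ _⟩
  have harc : ∀ u v, arc s(u, v) =
      segment ℝ (posn src tgt lev x off u) (posn src tgt lev x off v) := fun u v => rfl
  let D : PlaneEmbedding (SubG src tgt) :=
    { pos := posn src tgt lev x off
      arc := arc
      pos_injective := hpi
      isArc := fun u v huv => isArc_segment (fun h => huv.ne (hpi h))
      vertex_arc := by
        intro f hf w hw
        obtain ⟨v, e, hve, rfl⟩ := subG_edge hf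
        rw [harc] at hw
        rcases vertex_edge hoff1 hinjo hinj hpar hlev hve hw with rfl | rfl
        · exact Sym2.mem_mk_left _ _
        · exact Sym2.mem_mk_right _ _
      arc_inter := by
        intro f hf f' hf' hne p hp hp'
        obtain ⟨v, e, hve, rfl⟩ := subG_edge hf
        obtain ⟨v', e', hve', rfl⟩ := subG_edge hf'
        rw [harc] at hp hp'
        have hne' : ¬ (v = v' ∧ e = e') := by
          rintro ⟨rfl, rfl⟩
          exact hne rfl
        rcases edges_meet hoff1 hinjo hinj hpar hlev hx hve hve' hne' hp hp' with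
          ⟨rfl, h⟩ | ⟨rfl, h⟩
        · exact ⟨Sum.inl v, Sym2.mem_mk_left _ _, Sym2.mem_mk_left _ _, h⟩
        · exact ⟨Sum.inr e, Sym2.mem_mk_right _ _, Sym2.mem_mk_right _ _, h⟩ }
  refine ⟨D, ?_⟩
  apply kouter_of_levels D (hgt src lev) (fun v => rfl) (fun u v _ => harc u v) (-(2 * (L : ℤ)))
  · rintro (m | e)
    · have := hL m
      simp only [hgt]
      omega
    · have h1 := hL (tgt e)
      have h2 := hlev e
      simp only [hgt]
      omega
  · rintro (m | e) -
    · simp only [hgt]
      push_cast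
      omega
    · simp only [hgt]
      push_cast
      omega

end Pool.Agent.Lib.MP_20e1d9_lc
end

section

/-!
The output graph is isomorphic to the gadget graph; the gadget graph is `(8 k + 1)`-outerplanar and
connected.
-/

set_option autoImplicit false

namespace Pool.Agent.Lib.MP_20e1d9_lc

namespace Par

variable (P : Par)

theorem mem_bundles_iff (t : Tg) (i j : ℕ) :
    (t, i, j) ∈ P.bundles ↔ i < P.cols t ∧ j < P.k := by
  simp only [bundles, Finset.mem_filter, Finset.mem_product, Finset.mem_univ, Finset.mem_range,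
    true_and]
  constructor
  · rintro ⟨⟨-, h2⟩, h3⟩
    exact ⟨h3, h2⟩
  · rintro ⟨h1, h2⟩
    refine ⟨⟨?_, h2⟩, h1⟩
    cases t <;> simp only [cols] at h1 <;> omega

/-! ### The lists -/

theorem mem_nodeList_iff (x : Nd) : x ∈ P.nodeList ↔ P.IsNode x := by
  unfold nodeList
  simp only [List.mem_append, List.mem_flatMap, List.mem_map, List.mem_range, List.mem_cons,
    List.not_mem_nil, or_false]
  cases x with
  | q i j =>
    simp only [IsNode, Nd.q.injEq, reduceCtorEq, or_self, and_false, exists_false, or_false]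
    constructor
    · rintro ⟨a, ha, c, hc, rfl, rfl⟩
      omega
    · rintro ⟨h1, h2⟩
      exact ⟨i, by omega, j, by omega, rfl, rfl⟩
  | u i j =>
    simp only [IsNode, Nd.u.injEq, reduceCtorEq, or_self, and_false, exists_false, false_or,
      or_false]
    constructor
    · rintro ⟨a, ha, c, hc, rfl, rfl⟩
      omega
    · rintro ⟨h1, h2⟩
      exact ⟨i, by omega, j, by omega, rfl, rfl⟩
  | g i j =>
    simp only [IsNode, Nd.g.injEq, reduceCtorEq, or_self, and_false, exists_false, false_or,
      or_false]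
    constructor
    · rintro ⟨a, ha, c, hc, rfl, rfl⟩
      omega
    · rintro ⟨h1, h2⟩
      exact ⟨i, by omega, j, by omega, rfl, rfl⟩
  | v i j =>
    simp only [IsNode, Nd.v.injEq, reduceCtorEq, or_self, and_false, exists_false, false_or,
      or_false]
    constructor
    · rintro ⟨a, ha, c, hc, rfl, rfl⟩
      omega
    · rintro ⟨h1, h2⟩
      exact ⟨i, by omega, j, by omega, rfl, rfl⟩

theorem nodup_nodeList : P.nodeList.Nodup := by
  unfold nodeList
  rw [List.nodup_append]
  refine ⟨?_, ?_, ?_⟩
  · rw [List.nodup_flatMap]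
    refine ⟨?_, ?_⟩
    · intro i _
      exact List.nodup_range.map (fun a b h => by simpa using h)
    · refine List.Pairwise.imp ?_ (List.nodup_range (n := P.n + 1))
      intro a b hab
      simp only [Function.onFun, List.disjoint_left, List.mem_map, List.mem_range]
      rintro x ⟨c, _, rfl⟩ ⟨d, _, h⟩
      simp only [Nd.q.injEq] at h
      exact hab h.1.symm
  · rw [List.nodup_flatMap]
    refine ⟨?_, ?_⟩
    · intro i _
      rw [List.nodup_flatMap]
      refine ⟨?_, ?_⟩
      · intro j _
        simp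
      · refine List.Pairwise.imp ?_ (List.nodup_range (n := P.k))
        intro a b hab
        simp only [Function.onFun, List.disjoint_left, List.mem_cons, List.not_mem_nil, or_false]
        rintro x (rfl | rfl | rfl) <;>
          · simp only [Nd.u.injEq, Nd.g.injEq, Nd.v.injEq, reduceCtorEq, true_and, or_false,
              false_or]
            exact hab
    · refine List.Pairwise.imp ?_ (List.nodup_range (n := P.n + 2))
      intro a b hab
      simp only [Function.onFun, List.disjoint_left, List.mem_flatMap, List.mem_cons,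
        List.not_mem_nil, or_false, List.mem_range]
      rintro x ⟨j, _, (rfl | rfl | rfl)⟩ ⟨j', _, h⟩ <;>
        · simp only [Nd.u.injEq, Nd.g.injEq, Nd.v.injEq, reduceCtorEq, or_false,
            false_or] at h
          exact hab h.1
  · intro x hx y hy
    simp only [List.mem_flatMap, List.mem_map, List.mem_range, List.mem_cons,
      List.not_mem_nil, or_false] at hx hy
    obtain ⟨i, _, j, _, rfl⟩ := hx
    obtain ⟨i', _, j', _, h⟩ := hy
    rintro rfl
    rcases h with h | h | h <;> cases h

theorem mem_bundleList_iff (b : Bn) : b ∈ P.bundleList ↔ b ∈ P.bundles := by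
  obtain ⟨t, i, j⟩ := b
  rw [mem_bundles_iff]
  unfold bundleList
  simp only [List.mem_append, List.mem_flatMap, List.mem_range, List.mem_cons,
    List.not_mem_nil, or_false, Prod.mk.injEq]
  cases t <;> simp only [cols, reduceCtorEq, false_and, true_and, or_false, false_or, or_self,
    and_false, exists_false] <;>
    · constructor
      · rintro ⟨a, ha, c, hc, rfl, rfl⟩
        omega
      · rintro ⟨h1, h2⟩
        exact ⟨i, by omega, j, by omega, rfl, rfl⟩

theorem nodup_bundleList : P.bundleList.Nodup := by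
  unfold bundleList
  rw [List.nodup_append]
  refine ⟨?_, ?_, ?_⟩
  · rw [List.nodup_flatMap]
    refine ⟨?_, ?_⟩
    · intro i _
      rw [List.nodup_flatMap]
      refine ⟨?_, ?_⟩
      · intro j _
        simp
      · refine List.Pairwise.imp ?_ (List.nodup_range (n := P.k))
        intro a b hab
        simp only [Function.onFun, List.disjoint_left, List.mem_cons, List.not_mem_nil, or_false]
        rintro x (rfl | rfl | rfl | rfl) <;>
          · simp only [Prod.mk.injEq, reduceCtorEq, false_and, true_and, or_false,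
              false_or]
            exact hab
    · refine List.Pairwise.imp ?_ (List.nodup_range (n := P.n + 1))
      intro a b hab
      simp only [Function.onFun, List.disjoint_left, List.mem_flatMap, List.mem_cons,
        List.not_mem_nil, or_false, List.mem_range]
      rintro x ⟨j, _, (rfl | rfl | rfl | rfl)⟩ ⟨j', _, h⟩ <;>
        · simp only [Prod.mk.injEq, reduceCtorEq, false_and, true_and, or_false,
            false_or] at h
          exact hab h.1
  · rw [List.nodup_flatMap]
    refine ⟨?_, ?_⟩
    · intro i _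
      rw [List.nodup_flatMap]
      refine ⟨?_, ?_⟩
      · intro j _
        simp
      · refine List.Pairwise.imp ?_ (List.nodup_range (n := P.k))
        intro a b hab
        simp only [Function.onFun, List.disjoint_left, List.mem_cons, List.not_mem_nil, or_false]
        rintro x (rfl | rfl) <;>
          · simp only [Prod.mk.injEq, reduceCtorEq, false_and, true_and, or_false,
              false_or]
            exact hab
    · refine List.Pairwise.imp ?_ (List.nodup_range (n := P.n + 2))
      intro a b hab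
      simp only [Function.onFun, List.disjoint_left, List.mem_flatMap, List.mem_cons,
        List.not_mem_nil, or_false, List.mem_range]
      rintro x ⟨j, _, (rfl | rfl)⟩ ⟨j', _, h⟩ <;>
        · simp only [Prod.mk.injEq, reduceCtorEq, false_and, true_and, or_false,
            false_or] at h
          exact hab h.1
  · intro x hx y hy
    simp only [List.mem_flatMap, List.mem_range, List.mem_cons,
      List.not_mem_nil, or_false] at hx hy
    obtain ⟨i, _, j, _, hx⟩ := hx
    obtain ⟨i', _, j', _, hy⟩ := hy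
    rintro rfl
    rcases hx with rfl | rfl | rfl | rfl <;> rcases hy with h | h <;> cases h

/-- The edges with their indices. -/
def pairList : List (Bn × ℕ) :=
  P.bundleList.flatMap fun b => (List.range (P.w b)).map fun r => (b, r)

theorem mem_pairList_iff (p : Bn × ℕ) : p ∈ P.pairList ↔ p.1 ∈ P.bundles ∧ p.2 < P.w p.1 := by
  obtain ⟨b, r⟩ := p
  simp only [pairList, List.mem_flatMap, List.mem_map, List.mem_range, Prod.mk.injEq,
    mem_bundleList_iff]
  constructor
  · rintro ⟨b', hb', r', hr', rfl, rfl⟩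
    exact ⟨hb', hr'⟩
  · rintro ⟨h1, h2⟩
    exact ⟨b, h1, r, h2, rfl, rfl⟩

theorem nodup_pairList : P.pairList.Nodup := by
  unfold pairList
  rw [List.nodup_flatMap]
  refine ⟨?_, ?_⟩
  · intro b _
    exact List.nodup_range.map (fun a b h => by simpa using h)
  · refine List.Pairwise.imp ?_ P.nodup_bundleList
    intro a b hab
    simp only [Function.onFun, List.disjoint_left, List.mem_map, List.mem_range]
    rintro x ⟨c, _, rfl⟩ ⟨d, _, h⟩
    simp only [Prod.mk.injEq] at h
    exact hab h.1.symm

theorem edgeList_eq : P.edgeList = P.pairList.map fun p => (bsrc p.1, btgt p.1) := by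
  unfold edgeList pairList
  rw [List.map_flatMap]
  congr 1
  funext b
  rw [List.map_map]
  apply List.ext_getElem
  · simp
  · intro i h1 h2
    simp

/-- Numbering of the main vertices. -/
theorem exists_nodeEquiv : ∃ e : P.M ≃ Fin P.nodeList.length,
    ∀ m, P.nodeList.get (e m) = m.1 := by
  let e0 : P.M ≃ {x : Nd // x ∈ P.nodeList} :=
    Equiv.subtypeEquivRight (fun x => (P.mem_nodeList_iff x).symm)
  let e1 := (List.Nodup.getEquiv P.nodeList P.nodup_nodeList).symm
  refine ⟨e0.trans e1, fun m => ?_⟩
  have h := (List.Nodup.getEquiv P.nodeList P.nodup_nodeList).apply_symm_apply (e0 m)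
  have h2 := congrArg Subtype.val h
  exact h2

/-- Numbering of the edges. -/
theorem exists_edgeEquiv : ∃ e : P.Ed ≃ Fin P.edgeList.length,
    ∀ f, P.edgeList.get (e f) = (bsrc f.1.1, btgt f.1.1) := by
  let e0 : P.Ed ≃ {x : Bn × ℕ // x ∈ P.pairList} :=
    Equiv.subtypeEquivRight (fun x => (P.mem_pairList_iff x).symm)
  let e1 := (List.Nodup.getEquiv P.pairList P.nodup_pairList).symm
  have hlen : P.pairList.length = P.edgeList.length := by rw [edgeList_eq, List.length_map]
  refine ⟨(e0.trans e1).trans (finCongr hlen), fun m => ?_⟩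
  have h := (List.Nodup.getEquiv P.pairList P.nodup_pairList).apply_symm_apply (e0 m)
  have h2 : P.pairList.get (e1 (e0 m)) = m.1 := congrArg Subtype.val h
  have h3 : ∀ i : Fin P.pairList.length, P.edgeList.get (finCongr hlen i) =
      (bsrc (P.pairList.get i).1, btgt (P.pairList.get i).1) := by
    intro i
    simp only [List.get_eq_getElem, finCongr_apply, Fin.val_cast]
    simp only [edgeList_eq, List.getElem_map]
  rw [Equiv.trans_apply, h3, Equiv.trans_apply, h2]

theorem finite_M : Finite P.M := by
  obtain ⟨e, -⟩ := P.exists_nodeEquiv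
  exact Finite.of_equiv _ e.symm

theorem finite_Ed : Finite P.Ed := by
  obtain ⟨e, -⟩ := P.exists_edgeEquiv
  exact Finite.of_equiv _ e.symm

/-- The list version of the graph is the gadget graph. -/
theorem outGraph_iso : Nonempty (P.graph ≃g P.outGraph) := by
  obtain ⟨e1, h1⟩ := P.exists_nodeEquiv
  obtain ⟨e2, h2⟩ := P.exists_edgeEquiv
  refine ⟨⟨(Equiv.sumCongr e1 e2).trans finSumFinEquiv, ?_⟩⟩
  intro a b
  show (listGraph P.nodeList P.edgeList).Adj (finSumFinEquiv.symm (finSumFinEquiv
    (Equiv.sumCongr e1 e2 a))) (finSumFinEquiv.symm (finSumFinEquiv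
    (Equiv.sumCongr e1 e2 b))) ↔ P.graph.Adj a b
  rw [Equiv.symm_apply_apply, Equiv.symm_apply_apply]
  have key : ∀ (m : P.M) (f : P.Ed), inc (P.nodeList.get (e1 m)) (P.edgeList.get (e2 f)) = true ↔
      (m = P.esrc f ∨ m = P.etgt f) := by
    intro m f
    rw [h1, h2]
    simp only [inc, Bool.or_eq_true, decide_eq_true_eq]
    constructor
    · rintro (h | h)
      · exact Or.inl (Subtype.ext h)
      · exact Or.inr (Subtype.ext h)
    · rintro (rfl | rfl)
      · exact Or.inl rfl
      · exact Or.inr rfl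
  rcases a with m | f <;> rcases b with m' | f'
  · exact Iff.rfl
  · exact key m f'
  · exact key m' f
  · exact Iff.rfl

/-! ### Outerplanarity -/

/-- Levels of the main vertices. -/
def lv : Nd → ℕ
  | .q _ j => 4 * j
  | .u _ j => 4 * j + 1
  | .g _ j => 4 * j + 2
  | .v _ j => 4 * j + 3

/-- Horizontal coordinates of the main vertices. -/
def xc : Nd → ℤ
  | .q i _ => 2 * i + 1
  | .u i _ => 2 * i
  | .g i _ => 2 * i
  | .v i _ => 2 * i

theorem kouterplanar_graph : KOuterplanar P.graph (8 * P.k + 1) := by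
  have := P.finite_M
  have := P.finite_Ed
  have h := kouterplanar_subG (src := P.esrc) (tgt := P.etgt) (fun m => lv m.1)
    (fun m => xc m.1) (4 * P.k) ?_ ?_ ?_ ?_ ?_
  · have e : 2 * (4 * P.k) + 1 = 8 * P.k + 1 := by ring
    rw [e] at h
    exact h
  · rintro ⟨m, hm⟩
    cases m <;> simp only [IsNode] at hm <;> simp only [lv] <;> omega
  · rintro ⟨m, hm⟩ ⟨m', hm'⟩ h1 h2
    apply Subtype.ext
    show m = m'
    cases m <;> cases m' <;> simp only [lv, xc] at h1 h2 <;> first
      | (exfalso; omega)
      | (congr 1 <;> omega)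
  · rintro ⟨m, hm⟩ ⟨m', hm'⟩ h1
    cases m <;> cases m' <;> simp only [lv] at h1 <;> simp only [xc] <;> omega
  · rintro ⟨⟨⟨t, i, j⟩, r⟩, he⟩
    cases t <;> simp only [esrc, etgt, bsrc, btgt, lv] <;> ring
  · rintro ⟨⟨⟨t, i, j⟩, r⟩, he⟩
    cases t <;> simp only [esrc, etgt, bsrc, btgt, xc] <;> rw [abs_le] <;> push_cast <;>
      constructor <;> omega

/-! ### Connectedness -/

variable {P}

theorem Good.cw_pos (hP : P.Good) (j : ℕ) : 1 ≤ P.cw j := by
  have h1 := hP.hs
  have h2 := hP.hb j
  have hk := hP.hk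
  unfold cw K
  have h3 : 20 * P.s * (P.n + 2) * (P.k + 1) = 2 * P.s * (P.n + 1) + P.s + 1 +
      (20 * P.s * (P.n + 2) * (P.k + 1) - (2 * P.s * (P.n + 1) + P.s + 1)) := by
    have h4 : 2 * P.s * (P.n + 1) + P.s + 1 ≤ 20 * P.s * (P.n + 2) * (P.k + 1) := by
      nlinarith [Nat.zero_le (P.s * P.n), Nat.zero_le (P.s * P.n * P.k),
        Nat.zero_le (P.s * P.k)]
    omega
  omega

theorem Good.ew_pos (hP : P.Good) : 1 ≤ P.ew := by
  have h1 := hP.hs
  unfold ew K
  have h4 : 3 * P.s + 1 ≤ 20 * P.s * (P.n + 2) * (P.k + 1) := by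
    nlinarith [Nat.zero_le (P.s * P.n), Nat.zero_le (P.s * P.n * P.k),
      Nat.zero_le (P.s * P.k)]
  omega

theorem Good.w_pos (hP : P.Good) (b : Bn) : 0 < P.w b := by
  obtain ⟨t, i, j⟩ := b
  have h1 := hP.hs
  have h2 := hP.cw_pos j
  have h3 := hP.ew_pos
  cases t <;> simp only [w] <;> split_ifs <;> omega

/-- Two main vertices in the same component. -/
def Rch (P : Par) (x y : Nd) : Prop :=
  ∃ (hx : P.IsNode x) (hy : P.IsNode y),
    P.graph.Reachable (Sum.inl ⟨x, hx⟩) (Sum.inl ⟨y, hy⟩)

theorem Rch.symm' {x y : Nd} (h : P.Rch x y) : P.Rch y x := by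
  obtain ⟨hx, hy, h⟩ := h
  exact ⟨hy, hx, h.symm⟩

theorem Rch.trans' {x y z : Nd} (h : P.Rch x y) (h' : P.Rch y z) : P.Rch x z := by
  obtain ⟨hx, hy, h⟩ := h
  obtain ⟨hy', hz, h'⟩ := h'
  exact ⟨hx, hz, h.trans h'⟩

theorem rch_refl {x : Nd} (hx : P.IsNode x) : P.Rch x x := ⟨hx, hx, SimpleGraph.Reachable.refl _⟩

theorem rch_bundle (hP : P.Good) {b : Bn} (hb : b ∈ P.bundles) : P.Rch (bsrc b) (btgt b) := by
  refine ⟨P.isNode_src hb, P.isNode_tgt hb, ?_⟩
  let e : P.Ed := ⟨(b, 0), hb, hP.w_pos b⟩
  have h1 : P.graph.Adj (Sum.inl (P.esrc e)) (Sum.inr e) := Or.inl rfl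
  have h2 : P.graph.Adj (Sum.inr e) (Sum.inl (P.etgt e)) := Or.inr rfl
  exact h1.reachable.trans h2.reachable

theorem rch_q_zero (hP : P.Good) {i : ℕ} (hi : i ≤ P.n) : ∀ j ≤ P.k, P.Rch (.q i 0) (.q i j) := by
  intro j
  induction j with
  | zero => intro hj; exact rch_refl ⟨hi, hj⟩
  | succ j ih =>
    intro hj
    have h1 : P.Rch (.q i j) (.u i j) :=
      rch_bundle hP (b := (.UR, i, j)) ((P.mem_bundles_iff _ _ _).2 ⟨by simp only [cols]; omega,
        by omega⟩)
    have h2 : P.Rch (.u i j) (.g i j) :=
      rch_bundle hP (b := (.E, i, j)) ((P.mem_bundles_iff _ _ _).2 ⟨by simp only [cols]; omega,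
        by omega⟩)
    have h3 : P.Rch (.g i j) (.v i j) :=
      rch_bundle hP (b := (.D, i, j)) ((P.mem_bundles_iff _ _ _).2 ⟨by simp only [cols]; omega,
        by omega⟩)
    have h4 : P.Rch (.v i j) (.q i (j + 1)) :=
      rch_bundle hP (b := (.VR, i, j)) ((P.mem_bundles_iff _ _ _).2 ⟨by simp only [cols]; omega,
        by omega⟩)
    exact ((((ih (by omega)).trans' h1).trans' h2).trans' h3).trans' h4

theorem rch_q (hP : P.Good) : ∀ i ≤ P.n, P.Rch (.q 0 0) (.q i 0) := by
  intro i
  induction i with
  | zero => intro hi; exact rch_refl ⟨hi, Nat.zero_le _⟩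
  | succ i ih =>
    intro hi
    have hk := hP.hk
    have h1 : P.Rch (.q i 0) (.u (i + 1) 0) :=
      rch_bundle hP (b := (.UL, i, 0)) ((P.mem_bundles_iff _ _ _).2 ⟨by simp only [cols]; omega,
        by omega⟩)
    have h2 : P.Rch (.q (i + 1) 0) (.u (i + 1) 0) :=
      rch_bundle hP (b := (.UR, i + 1, 0)) ((P.mem_bundles_iff _ _ _).2
        ⟨by simp only [cols]; omega, by omega⟩)
    exact ((ih (by omega)).trans' h1).trans' h2.symm'

theorem rch_all (hP : P.Good) {x : Nd} (hx : P.IsNode x) : P.Rch (.q 0 0) x := by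
  have hq : ∀ i j, i ≤ P.n → j ≤ P.k → P.Rch (.q 0 0) (.q i j) := fun i j hi hj =>
    (rch_q hP i hi).trans' (rch_q_zero hP hi j hj)
  have hu : ∀ i j, i ≤ P.n + 1 → j < P.k → P.Rch (.q 0 0) (.u i j) := by
    intro i j hi hj
    by_cases h : i ≤ P.n
    · have h1 : P.Rch (.q i j) (.u i j) :=
        rch_bundle hP (b := (.UR, i, j)) ((P.mem_bundles_iff _ _ _).2
          ⟨by simp only [cols]; omega, by omega⟩)
      exact (hq i j h hj.le).trans' h1
    · have hi' : i = P.n + 1 := by omega
      subst hi'
      have h1 : P.Rch (.q P.n j) (.u (P.n + 1) j) :=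
        rch_bundle hP (b := (.UL, P.n, j)) ((P.mem_bundles_iff _ _ _).2
          ⟨by simp only [cols]; omega, by omega⟩)
      exact (hq P.n j le_rfl hj.le).trans' h1
  have hg : ∀ i j, i ≤ P.n + 1 → j < P.k → P.Rch (.q 0 0) (.g i j) := by
    intro i j hi hj
    have h1 : P.Rch (.u i j) (.g i j) :=
      rch_bundle hP (b := (.E, i, j)) ((P.mem_bundles_iff _ _ _).2
        ⟨by simp only [cols]; omega, by omega⟩)
    exact (hu i j hi hj).trans' h1
  have hv : ∀ i j, i ≤ P.n + 1 → j < P.k → P.Rch (.q 0 0) (.v i j) := by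
    intro i j hi hj
    have h1 : P.Rch (.g i j) (.v i j) :=
      rch_bundle hP (b := (.D, i, j)) ((P.mem_bundles_iff _ _ _).2
        ⟨by simp only [cols]; omega, by omega⟩)
    exact (hg i j hi hj).trans' h1
  cases x with
  | q i j => exact hq i j hx.1 hx.2
  | u i j => exact hu i j hx.1 hx.2
  | g i j => exact hg i j hx.1 hx.2
  | v i j => exact hv i j hx.1 hx.2

theorem connected_graph (P : Par) (hP : P.Good) : P.graph.Connected := by
  have h0 : P.IsNode (.q 0 0) := ⟨Nat.zero_le _, Nat.zero_le _⟩
  have h1 : ∀ v : P.M ⊕ P.Ed, P.graph.Reachable (Sum.inl ⟨.q 0 0, h0⟩) v := by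
    have h2 : ∀ m : P.M, P.graph.Reachable (Sum.inl ⟨.q 0 0, h0⟩) (Sum.inl m) := by
      rintro ⟨m, hm⟩
      obtain ⟨_, _, h⟩ := rch_all hP hm
      exact h
    rintro (m | e)
    · exact h2 m
    · have h3 : P.graph.Adj (Sum.inl (P.esrc e)) (Sum.inr e) := Or.inl rfl
      exact (h2 _).trans h3.reachable
  have : Nonempty (P.M ⊕ P.Ed) := ⟨Sum.inl ⟨.q 0 0, h0⟩⟩
  exact ⟨fun a b => (h1 a).symm.trans (h1 b)⟩

end Par

end Pool.Agent.Lib.MP_20e1d9_lc
end
end

section

/-!
The clique instance as a selection problem.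
-/

set_option autoImplicit false

namespace Pool.Agent.Lib.MP_20e1d9_lc

/-! ### Sums over lists -/

theorem sum_map_range (n : ℕ) (f : ℕ → ℕ) :
    ((List.range n).map f).sum = ∑ i ∈ Finset.range n, f i := by
  induction n with
  | zero => simp
  | succ n ih => simp [List.range_succ, Finset.sum_range_succ, ih]

theorem sum_flatMap_nat {α β : Type*} (l : List α) (g : α → List β) (f : β → ℕ) :
    ((l.flatMap g).map f).sum = (l.map fun a => ((g a).map f).sum).sum := by
  induction l with
  | nil => simp
  | cons a l ih => simp [List.flatMap_cons, ih]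

theorem sum_range_getD {α : Type*} (l : List α) (f : α → ℕ) (d : α) :
    ∑ i ∈ Finset.range l.length, f (l.getD i d) = (l.map f).sum := by
  induction l with
  | nil => simp
  | cons a l ih =>
    rw [List.length_cons, Finset.sum_range_succ']
    simp only [List.getD_cons_succ, List.getD_cons_zero, ih, List.map_cons, List.sum_cons]
    ring

theorem sum_itemList (κ L : ℕ) (f : Item → ℕ) :
    ((itemList κ L).map f).sum = ∑ a ∈ Finset.range κ, ∑ b ∈ Finset.range κ,
      ∑ x ∈ Finset.range L, ∑ y ∈ Finset.range L, f (a, b, x, y) := by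
  unfold itemList
  simp only [sum_flatMap_nat, List.map_map, sum_map_range, Function.comp_def]

theorem length_itemList (κ L : ℕ) : (itemList κ L).length = κ * κ * L * L := by
  have h := sum_itemList κ L (fun _ => 1)
  simp at h
  rw [h]
  ring

/-- The interior rows. -/
def midList (κ : ℕ) : List Row :=
  ((List.range κ).flatMap fun a => (List.range κ).flatMap fun b =>
    [(1, a, b), (2, a, b), (3, a, b), (4, a, b), (5, a, b)]) ++ [(6, 0, 0)]

theorem rowList_eq (κ : ℕ) : rowList κ = (0, 0, 0) :: (midList κ ++ [(7, 0, 0)]) := by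
  simp [rowList, midList]

theorem length_midList (κ : ℕ) : (midList κ).length = 5 * κ ^ 2 + 1 := by
  simp [midList, List.length_flatMap]
  ring

theorem length_rowList (κ : ℕ) : (rowList κ).length = 5 * κ ^ 2 + 3 := by
  simp [rowList_eq, length_midList]

theorem mem_midList {κ : ℕ} {r : Row} (h : r ∈ midList κ) :
    (∃ a < κ, ∃ b < κ, r = (1, a, b) ∨ r = (2, a, b) ∨ r = (3, a, b) ∨ r = (4, a, b) ∨
      r = (5, a, b)) ∨ r = (6, 0, 0) := by
  simp only [midList, List.mem_append, List.mem_flatMap, List.mem_range, List.mem_cons,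
    List.not_mem_nil, or_false] at h
  exact h


/-! ### Table lookup -/

theorem getD_map_lt {α β : Type*} (l : List α) (f : α → β) (d : α) (e : β) {i : ℕ}
    (h : i < l.length) : (l.map f).getD i e = f (l.getD i d) := by
  rw [List.getD_eq_getElem _ _ (by simpa using h), List.getD_eq_getElem _ _ h]
  simp

theorem tab_eq {α β : Type*} (l : List α) (r : List β) (F : α → β → ℕ) (d : α) (e : β) {i j : ℕ}
    (hi : i < l.length) (hj : j < r.length) :
    tab (l.map fun a => r.map fun b => F a b) i j = F (l.getD i d) (r.getD j e) := by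
  unfold tab
  rw [getD_map_lt l _ d [] hi, getD_map_lt r _ e 0 hj]

theorem tab_le {α β : Type*} (l : List α) (r : List β) (F : α → β → ℕ) (s : ℕ)
    (h : ∀ a ∈ l, ∀ b ∈ r, F a b ≤ s) (i j : ℕ) :
    tab (l.map fun a => r.map fun b => F a b) i j ≤ s := by
  rcases lt_or_ge i l.length with hi | hi
  · rcases lt_or_ge j r.length with hj | hj
    · rw [tab_eq l r F (l[i]) (r[j]) hi hj]
      rw [List.getD_eq_getElem _ _ hi, List.getD_eq_getElem _ _ hj]
      exact h _ (List.getElem_mem hi) _ (List.getElem_mem hj)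
    · have : (tab (l.map fun a => r.map fun b => F a b) i j) = 0 := by
        unfold tab
        rw [getD_map_lt l _ (l[i]) [] hi]
        rw [List.getD_eq_default _ _ (by simpa using hj)]
      omega
  · have : (tab (l.map fun a => r.map fun b => F a b) i j) = 0 := by
      unfold tab
      rw [List.getD_eq_default (l.map _) _ (by simpa using hi)]
      simp
    omega

theorem mem_itemList {κ L : ℕ} {it : Item} (h : it ∈ itemList κ L) :
    ∃ a < κ, ∃ b < κ, ∃ x < L, ∃ y < L, it = (a, b, x, y) := by
  simp only [itemList, List.mem_flatMap, List.mem_range, List.mem_map] at h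
  obtain ⟨a, ha, b, hb, x, hx, y, hy, rfl⟩ := h
  exact ⟨a, ha, b, hb, x, hx, y, hy, rfl⟩

theorem mem_rowList {κ : ℕ} {r : Row} (h : r ∈ rowList κ) :
    r = (0, 0, 0) ∨ r ∈ midList κ ∨ r = (7, 0, 0) := by
  simpa [rowList_eq] using h

section

variable (N κ : ℕ) (adj : ℕ → ℕ → Bool)

theorem n_eq : (cliquePar N κ adj).n = nItems N κ := rfl

theorem length_items : (itemList κ (N + 1)).length = nItems N κ := by
  rw [length_itemList]; rfl

theorem sq_le_nItems : κ * κ ≤ nItems N κ := by
  unfold nItems
  calc κ * κ = κ * κ * 1 * 1 := by ring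
    _ ≤ κ * κ * (N + 1) * (N + 1) := by gcongr <;> omega

theorem nsq_le_nItems (h : 0 < κ) : (N + 1) * (N + 1) ≤ nItems N κ := by
  unfold nItems
  calc (N + 1) * (N + 1) = 1 * 1 * (N + 1) * (N + 1) := by ring
    _ ≤ κ * κ * (N + 1) * (N + 1) := by gcongr <;> omega

theorem n_le_nItems (h : 0 < κ) : N ≤ nItems N κ := by
  have := nsq_le_nItems N κ h
  nlinarith

theorem alphaOf_le {it : Item} (hi : it ∈ itemList κ (N + 1)) (r : Row) :
    alphaOf N adj it r ≤ nItems N κ + 1 := by
  obtain ⟨a, ha, b, hb, x, hx, y, hy, rfl⟩ := mem_itemList hi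
  have h0 : 0 < κ := by omega
  have h1 := n_le_nItems N κ h0
  obtain ⟨t, a', b'⟩ := r
  simp only [alphaOf]
  split_ifs <;> omega

theorem betaOf_le (it : Item) (r : Row) : betaOf it r ≤ nItems N κ + 1 := by
  obtain ⟨a, b, x, y⟩ := it
  obtain ⟨t, a', b'⟩ := r
  simp only [betaOf]
  split_ifs <;> omega

theorem deltaOf_le (r : Row) : deltaOf N κ r ≤ nItems N κ + 1 := by
  obtain ⟨t, a', b'⟩ := r
  simp only [deltaOf]
  split_ifs <;> omega

/-- Rows of the middle have capacities smaller than the number of items. -/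
theorem capOf_mid {r : Row} (h : r ∈ midList κ) : capOf N κ r ≤ nItems N κ := by
  rcases mem_midList h with ⟨a, ha, b, hb, h | h | h | h | h⟩ | h
  all_goals subst h
  all_goals simp only [capOf]
  all_goals norm_num
  · have := nsq_le_nItems N κ (by omega)
    omega
  all_goals exact n_le_nItems N κ (by omega)

theorem capOf_le {r : Row} (h : r ∈ rowList κ) : capOf N κ r ≤ nItems N κ + 1 := by
  have h1 := sq_le_nItems N κ
  rcases mem_rowList h with h | h | h
  · subst h
    simp only [capOf]
    norm_num
    omega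
  · have := capOf_mid N κ h
    omega
  · subst h
    simp only [capOf]
    norm_num
    omega

theorem cliquePar_k : (cliquePar N κ adj).k = 5 * κ ^ 2 + 3 := length_rowList κ

theorem cliquePar_good : (cliquePar N κ adj).Good where
  hk := by rw [cliquePar_k]; omega
  hs := by
    change 1 ≤ nItems N κ + 1
    omega
  hα := fun i j => tab_le _ _ _ _ (fun _ hi r _ => alphaOf_le N κ adj hi r) i j
  hβ := fun i j => tab_le _ _ _ _ (fun it _ r _ => betaOf_le N κ it r) i j
  hδ := fun i j => tab_le _ _ (fun _ r => deltaOf N κ r) _ (fun _ _ r _ => deltaOf_le N κ r) i j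
  hb := by
    intro j
    change ((rowList κ).map fun r => capOf N κ r).getD j 0 ≤ nItems N κ + 1
    rcases lt_or_ge j (rowList κ).length with hj | hj
    · rw [getD_map_lt _ _ ((rowList κ)[j]) 0 hj, List.getD_eq_getElem _ _ hj]
      exact capOf_le N κ (List.getElem_mem hj)
    · rw [List.getD_eq_default _ _ (by simpa using hj)]
      omega

/-- The item with a given index. -/
def itAt (i : ℕ) : Item := (itemList κ (N + 1)).getD i (0, 0, 0, 0)

/-- The row with a given index. -/
def rowAt (j : ℕ) : Row := (rowList κ).getD j (0, 0, 0)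

theorem alpha_eq {i j : ℕ} (hi : i < (cliquePar N κ adj).n) (hj : j < (cliquePar N κ adj).k) :
    (cliquePar N κ adj).α i j = alphaOf N adj (itAt N κ i) (rowAt κ j) :=
  tab_eq _ _ _ _ _ (by rw [length_items]; exact hi) hj

theorem beta_eq {i j : ℕ} (hi : i < (cliquePar N κ adj).n) (hj : j < (cliquePar N κ adj).k) :
    (cliquePar N κ adj).β i j = betaOf (itAt N κ i) (rowAt κ j) :=
  tab_eq _ _ _ _ _ (by rw [length_items]; exact hi) hj

theorem delta_eq {i j : ℕ} (hi : i < (cliquePar N κ adj).n) (hj : j < (cliquePar N κ adj).k) :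
    (cliquePar N κ adj).δ i j = deltaOf N κ (rowAt κ j) :=
  tab_eq (itemList κ (N + 1)) (rowList κ) (fun _ r => deltaOf N κ r) (0, 0, 0, 0) (0, 0, 0)
    (by rw [length_items]; exact hi) hj

theorem cap_eq {j : ℕ} (hj : j < (cliquePar N κ adj).k) :
    (cliquePar N κ adj).b j = capOf N κ (rowAt κ j) :=
  getD_map_lt _ _ _ _ hj

theorem sum_items (f : Item → ℕ) :
    ∑ i ∈ Finset.range (cliquePar N κ adj).n, f (itAt N κ i) =
      ∑ a ∈ Finset.range κ, ∑ b ∈ Finset.range κ,
        ∑ x ∈ Finset.range (N + 1), ∑ y ∈ Finset.range (N + 1), f (a, b, x, y) := by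
  rw [← sum_itemList, ← sum_range_getD (itemList κ (N + 1)) f (0, 0, 0, 0), length_items]
  rfl

theorem itAt_mem {i : ℕ} (hi : i < (cliquePar N κ adj).n) : itAt N κ i ∈ itemList κ (N + 1) := by
  have h : i < (itemList κ (N + 1)).length := by rw [length_items]; exact hi
  unfold itAt
  rw [List.getD_eq_getElem _ _ h]
  exact List.getElem_mem h

theorem rowAt_zero : rowAt κ 0 = (0, 0, 0) := by
  simp [rowAt, rowList_eq]

theorem rowAt_last {j : ℕ} (h : j + 1 = (cliquePar N κ adj).k) : rowAt κ j = (7, 0, 0) := by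
  have h2 : j + 1 = (rowList κ).length := h
  rw [rowList_eq] at h2
  simp only [List.length_cons, List.length_append, List.length_nil] at h2
  have h3 : j = (midList κ).length + 1 := by omega
  unfold rowAt
  rw [rowList_eq, h3, List.getD_cons_succ, List.getD_append_right _ _ _ _ le_rfl]
  simp

theorem rowAt_mid {j : ℕ} (h0 : j ≠ 0) (h : j + 1 < (cliquePar N κ adj).k) :
    rowAt κ j ∈ midList κ := by
  have h2 : j + 1 < (rowList κ).length := h
  rw [rowList_eq] at h2
  simp only [List.length_cons, List.length_append, List.length_nil] at h2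
  obtain ⟨i, rfl⟩ : ∃ i, j = i + 1 := ⟨j - 1, by omega⟩
  have h3 : i < (midList κ).length := by omega
  unfold rowAt
  rw [rowList_eq, List.getD_cons_succ, List.getD_append _ _ _ _ h3, List.getD_eq_getElem _ _ h3]
  exact List.getElem_mem h3

theorem exists_rowAt {r : Row} (h : r ∈ midList κ) :
    ∃ j, j ≠ 0 ∧ j + 1 < (cliquePar N κ adj).k ∧ rowAt κ j = r := by
  obtain ⟨i, hi, rfl⟩ := List.getElem_of_mem h
  refine ⟨i + 1, by omega, ?_, ?_⟩
  · change i + 1 + 1 < (rowList κ).length
    rw [rowList_eq]
    simp only [List.length_cons, List.length_append, List.length_nil]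
    omega
  · unfold rowAt
    rw [rowList_eq, List.getD_cons_succ, List.getD_append _ _ _ _ hi, List.getD_eq_getElem _ _ hi]

theorem mid_mem {a b t : ℕ} (ha : a < κ) (hb : b < κ) (h1 : 1 ≤ t) (h5 : t ≤ 5) :
    (t, a, b) ∈ midList κ := by
  simp only [midList, List.mem_append, List.mem_flatMap, List.mem_range, List.mem_cons,
    List.not_mem_nil, or_false]
  left
  refine ⟨a, ha, b, hb, ?_⟩
  simp only [Prod.mk.injEq, and_true]
  omega

theorem six_mem : (6, 0, 0) ∈ midList κ := by
  simp [midList]

theorem sum_xy {L c1 c2 : ℕ} (h1 : c1 < L) (h2 : c2 < L) (S : ℕ → ℕ → ℕ) (u : ℕ) :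
    ∑ x ∈ Finset.range L, ∑ y ∈ Finset.range L, (if x = c1 ∧ y = c2 then S x y else u) =
      S c1 c2 + (L * L - 1) * u := by
  classical
  rw [← Finset.sum_product' (Finset.range L) (Finset.range L)
    (fun x y => if x = c1 ∧ y = c2 then S x y else u)]
  rw [← Finset.add_sum_erase (Finset.range L ×ˢ Finset.range L) _
    (show (c1, c2) ∈ Finset.range L ×ˢ Finset.range L by simp [h1, h2])]
  simp only [and_self, if_true]
  congr 1
  rw [Finset.sum_congr rfl (g := fun _ => u)]
  · rw [Finset.sum_const, Finset.card_erase_of_mem (by simp [h1, h2])]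
    simp
  · rintro ⟨x, y⟩ hxy
    rw [Finset.mem_erase] at hxy
    rw [if_neg]
    rintro ⟨h, h'⟩
    exact hxy.1 (Prod.ext h h')

/-- The items selected for a clique. -/
def SelItem (c : ℕ → ℕ) : Item → Prop
  | (a, b, x, y) => x = c a ∧ y = c b

theorem sum_ind {κ a' b' : ℕ} (ha : a' < κ) (hb : b' < κ) (F : ℕ → ℕ → ℕ) :
    ∑ a ∈ Finset.range κ, ∑ b ∈ Finset.range κ, (if (a, b) = (a', b') then F a b else 0) =
      F a' b' := by
  rw [← Finset.sum_product' (Finset.range κ) (Finset.range κ)
    (fun a b => if (a, b) = (a', b') then F a b else 0)]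
  rw [Finset.sum_eq_single (a', b')]
  · simp
  · rintro ⟨a, b⟩ _ h
    exact if_neg h
  · intro h
    exact absurd (by simp [ha, hb]) h

open scoped Classical in
/-- a clique gives a selection -/
theorem sel_of_clique (hsymm : ∀ x y, adj x y = adj y x) (c : ℕ → ℕ) (hc : ∀ a < κ, c a < N)
    (hadj : ∀ a < κ, ∀ b < κ, a ≠ b → adj (c a) (c b) = true) :
    ∃ Sel : ℕ → Prop, ∀ j < (cliquePar N κ adj).k, ∑ i ∈ Finset.range (cliquePar N κ adj).n,
      (if Sel i then (if j = 0 then (cliquePar N κ adj).δ i j else (cliquePar N κ adj).α i j)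
      else (if j + 1 = (cliquePar N κ adj).k then (cliquePar N κ adj).δ i j
        else (cliquePar N κ adj).β i j)) ≤ (cliquePar N κ adj).b j := by
  refine ⟨fun i => SelItem c (itAt N κ i), fun j hj => ?_⟩
  rw [cap_eq N κ adj hj]
  have e1 : ∑ i ∈ Finset.range (cliquePar N κ adj).n,
      (if SelItem c (itAt N κ i) then
        (if j = 0 then (cliquePar N κ adj).δ i j else (cliquePar N κ adj).α i j)
      else (if j + 1 = (cliquePar N κ adj).k then (cliquePar N κ adj).δ i j
        else (cliquePar N κ adj).β i j)) =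
      ∑ a ∈ Finset.range κ, ∑ b ∈ Finset.range κ,
        ∑ x ∈ Finset.range (N + 1), ∑ y ∈ Finset.range (N + 1),
        (if SelItem c (a, b, x, y) then (if j = 0 then deltaOf N κ (rowAt κ j) else
          alphaOf N adj (a, b, x, y) (rowAt κ j))
        else (if j + 1 = (cliquePar N κ adj).k then deltaOf N κ (rowAt κ j)
          else betaOf (a, b, x, y) (rowAt κ j))) := by
    refine Eq.trans (Finset.sum_congr rfl fun i hi => ?_) (sum_items N κ adj (fun it : Item =>
        if SelItem c it then (if j = 0 then deltaOf N κ (rowAt κ j) else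
          alphaOf N adj it (rowAt κ j))
        else (if j + 1 = (cliquePar N κ adj).k then deltaOf N κ (rowAt κ j)
          else betaOf it (rowAt κ j))))
    rw [Finset.mem_range] at hi
    rw [alpha_eq N κ adj hi hj, beta_eq N κ adj hi hj, delta_eq N κ adj hi hj]
  rw [e1]
  have e2 : ∑ a ∈ Finset.range κ, ∑ b ∈ Finset.range κ,
        ∑ x ∈ Finset.range (N + 1), ∑ y ∈ Finset.range (N + 1),
        (if SelItem c (a, b, x, y) then (if j = 0 then deltaOf N κ (rowAt κ j) else
          alphaOf N adj (a, b, x, y) (rowAt κ j))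
        else (if j + 1 = (cliquePar N κ adj).k then deltaOf N κ (rowAt κ j)
          else betaOf (a, b, x, y) (rowAt κ j))) =
      ∑ a ∈ Finset.range κ, ∑ b ∈ Finset.range κ,
        ((if j = 0 then deltaOf N κ (rowAt κ j) else
          alphaOf N adj (a, b, c a, c b) (rowAt κ j)) + ((N + 1) * (N + 1) - 1) *
          (if j + 1 = (cliquePar N κ adj).k then deltaOf N κ (rowAt κ j)
          else betaOf (a, b, 0, 0) (rowAt κ j))) := by
    refine Finset.sum_congr rfl fun a ha => Finset.sum_congr rfl fun b hb => ?_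
    rw [Finset.mem_range] at ha hb
    have h1 := hc a ha
    have h2 := hc b hb
    rw [← sum_xy (by omega : c a < N + 1) (by omega : c b < N + 1)
      (fun x y => if j = 0 then deltaOf N κ (rowAt κ j) else
          alphaOf N adj (a, b, x, y) (rowAt κ j))]
    refine Finset.sum_congr rfl fun x _ => Finset.sum_congr rfl fun y _ => ?_
    have e : betaOf (a, b, x, y) (rowAt κ j) = betaOf (a, b, 0, 0) (rowAt κ j) := by
      obtain ⟨t, a', b'⟩ := rowAt κ j
      rfl
    by_cases hxy : x = c a ∧ y = c b
    · have h' : SelItem c (a, b, x, y) := hxy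
      rw [if_pos h', if_pos hxy]
    · have h' : ¬ SelItem c (a, b, x, y) := hxy
      rw [if_neg h', if_neg hxy, e]
  rw [e2]
  by_cases hj0 : j = 0
  · subst hj0
    have hk : ¬ (0 + 1 = (cliquePar N κ adj).k) := by rw [cliquePar_k]; omega
    simp only [if_true, if_neg hk, rowAt_zero, deltaOf, betaOf, capOf]
    simp
  by_cases hjk : j + 1 = (cliquePar N κ adj).k
  · simp only [if_neg hj0, if_pos hjk, rowAt_last N κ adj hjk, deltaOf, alphaOf, capOf]
    norm_num
    unfold nItems
    have : 1 ≤ (N + 1) * (N + 1) := Nat.one_le_iff_ne_zero.2 (by positivity)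
    obtain ⟨z, hz⟩ : ∃ z, (N + 1) * (N + 1) = z + 1 := ⟨(N + 1) * (N + 1) - 1, by omega⟩
    have e3 : κ * κ * (N + 1) * (N + 1) = κ * κ * ((N + 1) * (N + 1)) := by ring
    rw [e3, hz]
    have e4 : κ * κ * (z + 1) = κ * κ * z + κ * κ := by ring
    rw [e4, Nat.add_sub_cancel, Nat.add_sub_cancel]
    apply le_of_eq
    ring
  · have hmid := rowAt_mid N κ adj hj0 (by omega)
    simp only [if_neg hj0, if_neg hjk]
    rcases mem_midList hmid with ⟨a', ha', b', hb', h | h | h | h | h⟩ | h
    · rw [h]
      simp only [alphaOf, betaOf, capOf]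
      norm_num only [if_true, if_false, true_and, zero_add]
      simp only [← Finset.mul_sum]
      rw [sum_ind ha' hb' (fun _ _ => 1)]
      simp
    · rw [h]
      simp only [alphaOf, betaOf, capOf]
      norm_num only [if_true, if_false, true_and, false_and, mul_zero, add_zero]
      rw [Finset.sum_congr rfl fun a _ => Finset.sum_add_distrib, Finset.sum_add_distrib]
      rw [sum_ind ha' hb' (fun a _ => c a), sum_ind ha' ha' (fun a _ => N - c a)]
      have := hc a' ha'
      omega
    · rw [h]
      simp only [alphaOf, betaOf, capOf]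
      norm_num only [if_true, if_false, true_and, false_and, mul_zero, add_zero]
      rw [Finset.sum_congr rfl fun a _ => Finset.sum_add_distrib, Finset.sum_add_distrib]
      rw [sum_ind ha' hb' (fun a _ => N - c a), sum_ind ha' ha' (fun a _ => c a)]
      have := hc a' ha'
      omega
    · rw [h]
      simp only [alphaOf, betaOf, capOf]
      norm_num only [if_true, if_false, true_and, false_and, mul_zero, add_zero]
      rw [Finset.sum_congr rfl fun a _ => Finset.sum_add_distrib, Finset.sum_add_distrib]
      rw [sum_ind ha' hb' (fun _ b => c b), sum_ind hb' hb' (fun _ b => N - c b)]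
      have := hc b' hb'
      omega
    · rw [h]
      simp only [alphaOf, betaOf, capOf]
      norm_num only [if_true, if_false, true_and, false_and, mul_zero, add_zero]
      rw [Finset.sum_congr rfl fun a _ => Finset.sum_add_distrib, Finset.sum_add_distrib]
      rw [sum_ind ha' hb' (fun _ b => N - c b), sum_ind hb' hb' (fun _ b => c b)]
      have := hc b' hb'
      omega
    · rw [h]
      simp only [alphaOf, betaOf, capOf]
      norm_num only [if_true, if_false, true_and, false_and, mul_zero, add_zero]
      rw [Nat.le_zero]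
      refine Finset.sum_eq_zero fun a ha => Finset.sum_eq_zero fun b hb => ?_
      rw [Finset.mem_range] at ha hb
      rw [if_pos]
      simp only [allowed, Bool.and_eq_true, decide_eq_true_eq]
      refine ⟨⟨hc a ha, hc b hb⟩, ?_⟩
      by_cases hab : a = b
      · subst hab
        simp
      · rw [if_neg hab]
        exact hadj a ha b hb hab

theorem two_le_sum {n i1 i2 : ℕ} (f : ℕ → ℕ) (h1 : i1 < n) (h2 : i2 < n) (hne : i1 ≠ i2) :
    f i1 + f i2 ≤ ∑ i ∈ Finset.range n, f i := by
  classical
  rw [← Finset.sum_pair hne]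
  apply Finset.sum_le_sum_of_subset
  intro i hi
  simp only [Finset.mem_insert, Finset.mem_singleton] at hi
  rw [Finset.mem_range]
  omega

open scoped Classical in
/-- the states of the rows are those of a selection -/
theorem sel_of_states (A B : ℕ → ℕ → Prop)
    (h0 : ∀ i < (cliquePar N κ adj).n, ¬ A i 0)
    (h1 : ∀ i < (cliquePar N κ adj).n, ¬ B i ((cliquePar N κ adj).k - 1))
    (h2 : ∀ i < (cliquePar N κ adj).n, ∀ j, j + 1 < (cliquePar N κ adj).k → ¬ (B i j ∧ A i (j + 1)))
    (h3 : ∀ j < (cliquePar N κ adj).k, ∑ i ∈ Finset.range (cliquePar N κ adj).n,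
      (if A i j then (cliquePar N κ adj).α i j else if B i j then (cliquePar N κ adj).β i j
        else (cliquePar N κ adj).δ i j) ≤ (cliquePar N κ adj).b j) :
    ∃ Sel : ℕ → Prop, ∀ j, j ≠ 0 → j + 1 < (cliquePar N κ adj).k →
      ∑ i ∈ Finset.range (cliquePar N κ adj).n,
      (if Sel i then alphaOf N adj (itAt N κ i) (rowAt κ j) else betaOf (itAt N κ i) (rowAt κ j)) ≤
        capOf N κ (rowAt κ j) := by
  have hk : (cliquePar N κ adj).k = 5 * κ ^ 2 + 3 := cliquePar_k N κ adj
  have hn : (cliquePar N κ adj).n = nItems N κ := rfl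
  -- interior rows are not in the third state
  have third : ∀ j, j ≠ 0 → j + 1 < (cliquePar N κ adj).k → ∀ i < (cliquePar N κ adj).n,
      ¬ A i j → B i j := by
    intro j hj0 hj i hi hA
    by_contra hB
    have h4 := h3 j (by omega)
    have h5 := Finset.single_le_sum (f := fun i => (if A i j then (cliquePar N κ adj).α i j
      else if B i j then (cliquePar N κ adj).β i j
        else (cliquePar N κ adj).δ i j)) (fun _ _ => Nat.zero_le _) (Finset.mem_range.2 hi)
    have hmid := rowAt_mid N κ adj hj0 hj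
    simp only [if_neg hA, if_neg hB] at h5
    rw [delta_eq N κ adj hi (by omega)] at h5
    rw [cap_eq N κ adj (by omega)] at h4
    have h6 := capOf_mid N κ hmid
    have h7 : deltaOf N κ (rowAt κ j) = nItems N κ + 1 := by
      rcases mem_midList hmid with ⟨a, ha, b, hb, h | h | h | h | h⟩ | h <;> rw [h] <;>
        simp [deltaOf]
    omega
  have up : ∀ i < (cliquePar N κ adj).n, B i 0 → ∀ j, j + 1 < (cliquePar N κ adj).k → B i j := by
    intro i hi hB j
    induction j with
    | zero => intro _; exact hB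
    | succ j ih =>
      intro hj
      have hBj := ih (by omega)
      exact third (j + 1) (by omega) hj i hi (fun hA => h2 i hi j (by omega) ⟨hBj, hA⟩)
  have upA : ∀ i < (cliquePar N κ adj).n, B i 0 → ∀ j, j ≠ 0 → j < (cliquePar N κ adj).k →
      ¬ A i j := by
    intro i hi hB j hj0 hj hA
    obtain ⟨m, rfl⟩ : ∃ m, j = m + 1 := ⟨j - 1, by omega⟩
    exact h2 i hi m hj ⟨up i hi hB m hj, hA⟩
  have down : ∀ i < (cliquePar N κ adj).n, A i ((cliquePar N κ adj).k - 1) →
      ∀ m, m + 1 < (cliquePar N κ adj).k → A i ((cliquePar N κ adj).k - 1 - m) := by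
    intro i hi hA m
    induction m with
    | zero => intro _; exact hA
    | succ m ih =>
      intro hm
      have hAm := ih (by omega)
      by_contra hcon
      have hB := third _ (by omega) (by omega) i hi hcon
      apply h2 i hi ((cliquePar N κ adj).k - 1 - (m + 1)) (by omega)
      refine ⟨hB, ?_⟩
      rwa [show (cliquePar N κ adj).k - 1 - (m + 1) + 1 = (cliquePar N κ adj).k - 1 - m by omega]
  -- counting
  have c0 : ∑ i ∈ Finset.range (cliquePar N κ adj).n, (if B i 0 then 0 else 1) ≤ κ * κ := by
    have h4 := h3 0 (by omega)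
    rw [cap_eq N κ adj (by omega), rowAt_zero] at h4
    refine le_trans (le_of_eq ?_) h4
    refine Finset.sum_congr rfl fun i hi => ?_
    rw [Finset.mem_range] at hi
    rw [if_neg (h0 i hi), beta_eq N κ adj hi (by omega), delta_eq N κ adj hi (by omega), rowAt_zero]
    simp [betaOf, deltaOf]
  have c1 : ∑ i ∈ Finset.range (cliquePar N κ adj).n,
      (if A i ((cliquePar N κ adj).k - 1) then 0 else 1) ≤ nItems N κ - κ * κ := by
    have h4 := h3 ((cliquePar N κ adj).k - 1) (by omega)
    have e := rowAt_last N κ adj (j := (cliquePar N κ adj).k - 1) (by omega)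
    rw [cap_eq N κ adj (by omega), e] at h4
    refine le_trans (le_of_eq ?_) h4
    refine Finset.sum_congr rfl fun i hi => ?_
    rw [Finset.mem_range] at hi
    rw [if_neg (h1 i hi), alpha_eq N κ adj hi (by omega), delta_eq N κ adj hi (by omega), e]
    simp [alphaOf, deltaOf]
  have c2 : ∀ i ∈ Finset.range (cliquePar N κ adj).n,
      1 ≤ (if B i 0 then 0 else 1) + (if A i ((cliquePar N κ adj).k - 1) then 0 else 1) := by
    intro i hi
    rw [Finset.mem_range] at hi
    by_cases hB : B i 0
    · rw [if_pos hB, if_neg (upA i hi hB _ (by omega) (by omega))]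
    · rw [if_neg hB]
      omega
  have c3 : ∀ i < (cliquePar N κ adj).n, ¬ B i 0 → A i ((cliquePar N κ adj).k - 1) := by
    intro i hi hB
    by_contra hA
    have h4 : ∑ i ∈ Finset.range (cliquePar N κ adj).n, 1 < ∑ i ∈ Finset.range (cliquePar N κ adj).n,
      ((if B i 0 then 0 else 1) + (if A i ((cliquePar N κ adj).k - 1) then 0 else 1)) := by
      refine Finset.sum_lt_sum c2 ⟨i, Finset.mem_range.2 hi, ?_⟩
      rw [if_neg hB, if_neg hA]
      norm_num
    rw [Finset.sum_add_distrib, Finset.sum_const, Finset.card_range, smul_eq_mul, mul_one, hn] at h4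
    have := sq_le_nItems N κ
    rw [hn] at c0 c1
    omega
  refine ⟨fun i => ¬ B i 0, fun j hj0 hj => ?_⟩
  have h4 := h3 j (by omega)
  rw [cap_eq N κ adj (by omega)] at h4
  refine le_trans (le_of_eq ?_) h4
  refine Finset.sum_congr rfl fun i hi => ?_
  rw [Finset.mem_range] at hi
  by_cases hB : B i 0
  · rw [if_neg (not_not.2 hB), if_neg (upA i hi hB j hj0 (by omega)), if_pos (up i hi hB j hj),
      beta_eq N κ adj hi (by omega)]
  · have hA : A i j := by
      have := down i hi (c3 i hi hB) ((cliquePar N κ adj).k - 1 - j) (by omega)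
      rwa [show (cliquePar N κ adj).k - 1 - ((cliquePar N κ adj).k - 1 - j) = j by omega] at this
    rw [if_pos hB, if_pos hA, alpha_eq N κ adj hi (by omega)]

/-- The class of an item. -/
def cls (it : Item) : ℕ × ℕ := (it.1, it.2.1)

open scoped Classical in
/-- states of the rows give a clique. A i j, B i j: state of row j of item i -/
theorem clique_of_states (hsymm : ∀ x y, adj x y = adj y x) (A B : ℕ → ℕ → Prop)
    (h0 : ∀ i < (cliquePar N κ adj).n, ¬ A i 0)
    (h1 : ∀ i < (cliquePar N κ adj).n, ¬ B i ((cliquePar N κ adj).k - 1))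
    (h2 : ∀ i < (cliquePar N κ adj).n, ∀ j, j + 1 < (cliquePar N κ adj).k → ¬ (B i j ∧ A i (j + 1)))
    (h3 : ∀ j < (cliquePar N κ adj).k, ∑ i ∈ Finset.range (cliquePar N κ adj).n,
      (if A i j then (cliquePar N κ adj).α i j else if B i j then (cliquePar N κ adj).β i j
        else (cliquePar N κ adj).δ i j) ≤ (cliquePar N κ adj).b j) :
    ∃ c : ℕ → ℕ, (∀ a < κ, c a < N) ∧ ∀ a < κ, ∀ b < κ, a ≠ b → adj (c a) (c b) = true := by
  obtain ⟨Sel, hSel⟩ := sel_of_states N κ adj A B h0 h1 h2 h3
  -- every class has a selected item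
  have ex : ∀ a < κ, ∀ b < κ, ∃ i < (cliquePar N κ adj).n, Sel i ∧ ∃ x ≤ N, ∃ y ≤ N,
      itAt N κ i = (a, b, x, y) := by
    intro a ha b hb
    by_contra hcon
    push Not at hcon
    obtain ⟨j, hj0, hj, hr⟩ := exists_rowAt N κ adj (mid_mem κ ha hb (t := 1) (by norm_num)
      (by norm_num))
    have h4 := hSel j hj0 hj
    rw [hr] at h4
    have e1 : ∑ i ∈ Finset.range (cliquePar N κ adj).n,
        (if Sel i then alphaOf N adj (itAt N κ i) (1, a, b) else betaOf (itAt N κ i) (1, a, b)) =
        (N + 1) * (N + 1) := by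
      have e2 : ∑ i ∈ Finset.range (cliquePar N κ adj).n,
        (if Sel i then alphaOf N adj (itAt N κ i) (1, a, b) else betaOf (itAt N κ i) (1, a, b)) =
        ∑ i ∈ Finset.range (cliquePar N κ adj).n, betaOf (itAt N κ i) (1, a, b) := by
        refine Finset.sum_congr rfl fun i hi => ?_
        rw [Finset.mem_range] at hi
        split_ifs with hs
        · obtain ⟨a', ha', b', hb', x, hx, y, hy, hit⟩ := mem_itemList (itAt_mem N κ adj hi)
          have h5 := hcon i hi hs x (by omega) y (by omega)
          rw [hit] at h5 ⊢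
          have h6 : ¬ ((a', b') = (a, b)) := by
            intro h6
            simp only [Prod.mk.injEq] at h6
            exact h5 (by rw [h6.1, h6.2])
          simp [alphaOf, betaOf, h6]
        · rfl
      rw [e2, sum_items N κ adj (fun it => betaOf it (1, a, b))]
      simp only [betaOf, true_and, Finset.sum_const, Finset.card_range, smul_eq_mul]
      have e3 : ∀ a' b' : ℕ, (N + 1) * ((N + 1) * if (a', b') = (a, b) then 1 else 0) =
          if (a', b') = (a, b) then (N + 1) * (N + 1) else 0 := by
        intro a' b'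
        split_ifs <;> ring
      simp only [e3]
      rw [sum_ind ha hb (fun _ _ => (N + 1) * (N + 1))]
    rw [e1] at h4
    simp only [capOf] at h4
    norm_num at h4
    have h5 : 1 ≤ (N + 1) * (N + 1) := Nat.one_le_iff_ne_zero.2 (by positivity)
    omega
  -- selected items are allowed
  have al : ∀ i < (cliquePar N κ adj).n, Sel i → allowed N adj (itAt N κ i) = true := by
    intro i hi hs
    obtain ⟨j, hj0, hj, hr⟩ := exists_rowAt N κ adj (six_mem κ)
    have h4 := hSel j hj0 hj
    rw [hr] at h4
    have h5 := Finset.single_le_sum (f := fun i => (if Sel i then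
      alphaOf N adj (itAt N κ i) (6, 0, 0) else betaOf (itAt N κ i) (6, 0, 0)))
      (fun _ _ => Nat.zero_le _) (Finset.mem_range.2 hi)
    simp only [if_pos hs] at h5
    have h6 := h5.trans h4
    obtain ⟨a', ha', b', hb', x, hx, y, hy, hit⟩ := mem_itemList (itAt_mem N κ adj hi)
    rw [hit] at h6 ⊢
    simp only [alphaOf, capOf] at h6
    norm_num at h6
    exact h6
  -- pairs of selected items
  have pr : ∀ t, 1 ≤ t → t ≤ 5 → ∀ a < κ, ∀ b < κ, ∀ i1 < (cliquePar N κ adj).n,
      ∀ i2 < (cliquePar N κ adj).n, Sel i1 → Sel i2 → i1 ≠ i2 →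
      alphaOf N adj (itAt N κ i1) (t, a, b) + alphaOf N adj (itAt N κ i2) (t, a, b) ≤
        capOf N κ (t, a, b) := by
    intro t ht1 ht5 a ha b hb i1 hi1 i2 hi2 hs1 hs2 hne
    obtain ⟨j, hj0, hj, hr⟩ := exists_rowAt N κ adj (mid_mem κ ha hb ht1 ht5)
    have h4 := hSel j hj0 hj
    rw [hr] at h4
    have h5 := two_le_sum (fun i => (if Sel i then
      alphaOf N adj (itAt N κ i) (t, a, b) else betaOf (itAt N κ i) (t, a, b))) hi1 hi2 hne
    simp only [if_pos hs1, if_pos hs2] at h5
    exact h5.trans h4
  -- the diagonal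
  choose I hI hIs X hX Y hY hIt using ex
  refine ⟨fun a => if h : a < κ then X a h a h else 0, ?_, ?_⟩
  · intro a ha
    simp only [dif_pos ha]
    have h4 := al _ (hI a ha a ha) (hIs a ha a ha)
    rw [hIt a ha a ha] at h4
    simp only [allowed, Bool.and_eq_true, decide_eq_true_eq] at h4
    exact h4.1.1
  · intro a ha b hb hab
    simp only [dif_pos ha, dif_pos hb]
    have hda := al _ (hI a ha a ha) (hIs a ha a ha)
    have hdb := al _ (hI b hb b hb) (hIs b hb b hb)
    have hab' := al _ (hI a ha b hb) (hIs a ha b hb)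
    have ne1 : I a ha b hb ≠ I a ha a ha := by
      intro h
      have e1 := hIt a ha b hb
      rw [h, hIt a ha a ha] at e1
      simp only [Prod.mk.injEq] at e1
      exact hab e1.2.1
    have ne2 : I a ha b hb ≠ I b hb b hb := by
      intro h
      have e1 := hIt a ha b hb
      rw [h, hIt b hb b hb] at e1
      simp only [Prod.mk.injEq] at e1
      exact hab e1.1.symm
    have p2 := pr 2 (by norm_num) (by norm_num) a ha b hb _ (hI a ha b hb) _ (hI a ha a ha)
      (hIs a ha b hb) (hIs a ha a ha) ne1
    have p3 := pr 3 (by norm_num) (by norm_num) a ha b hb _ (hI a ha b hb) _ (hI a ha a ha)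
      (hIs a ha b hb) (hIs a ha a ha) ne1
    have p4 := pr 4 (by norm_num) (by norm_num) a ha b hb _ (hI a ha b hb) _ (hI b hb b hb)
      (hIs a ha b hb) (hIs b hb b hb) ne2
    have p5 := pr 5 (by norm_num) (by norm_num) a ha b hb _ (hI a ha b hb) _ (hI b hb b hb)
      (hIs a ha b hb) (hIs b hb b hb) ne2
    rw [hIt a ha b hb, hIt a ha a ha] at p2 p3
    rw [hIt a ha b hb, hIt b hb b hb] at p4 p5
    rw [hIt a ha a ha] at hda
    rw [hIt b hb b hb] at hdb
    rw [hIt a ha b hb] at hab'
    simp only [allowed, Bool.and_eq_true, decide_eq_true_eq, if_true] at hda hdb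
    simp only [allowed, Bool.and_eq_true, decide_eq_true_eq, if_neg hab] at hab'
    have hba : ¬ (b = a) := fun h => hab h.symm
    simp only [alphaOf, capOf, Prod.mk.injEq, hab, hba, and_true, and_false,
      if_true, if_false] at p2 p3 p4 p5
    norm_num at p2 p3 p4 p5
    have b1 := hX a ha b hb
    have b2 := hX a ha a ha
    have b3 := hY a ha b hb
    have b4 := hY b hb b hb
    have e1 : X a ha b hb = X a ha a ha := by omega
    have e2 : Y a ha b hb = X b hb b hb := by omega
    rw [← e1, ← e2]
    exact hab'.2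

end

end Pool.Agent.Lib.MP_20e1d9_lc
end
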