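import Mathlib
import Pool.Agent.Lib.MP_9c2350_lc.Defs

/-!
Spanning tree congestion, `k`-outerplanar graphs, and encodings of instances by words.
-/

set_option autoImplicit false

namespace Pool.Agent.Lib.MP_20e1d9_lc

/-! ### Spanning tree congestion -/

section Congestion

variable {V : Type*}

/-- The congestion of the edge `e` of the tree `T`: the number of edges of `G` whose two ends lie
in different components of `T - e`. -/
noncomputable def cng (G T : SimpleGraph V) (e : Sym2 V) : ℕ :=
  {f ∈ G.edgeSet | ∃ x y, f = s(x, y) ∧ ¬ (T.deleteEdges {e}).Reachable x y}.ncard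

/-- `T` is a spanning tree of `G`. -/
def IsSpanningTree (G T : SimpleGraph V) : Prop := T ≤ G ∧ T.IsTree

/-- The congestion of `T`: the largest congestion of an edge of `T`. -/
noncomputable def ec (G T : SimpleGraph V) : ℕ := sSup {c | ∃ e ∈ T.edgeSet, c = cng G T e}

/-- The spanning tree congestion of `G`: the least congestion of a spanning tree. -/
noncomputable def stc (G : SimpleGraph V) : ℕ := sInf {c | ∃ T, IsSpanningTree G T ∧ ec G T = c}

end Congestion

/-! ### Plane embeddings and `k`-outerplanar graphs -/

/-- `A` is a simple arc in the plane with end points `p` and `q`. -/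
def IsArc (A : Set (ℝ × ℝ)) (p q : ℝ × ℝ) : Prop :=
  ∃ γ : unitInterval → ℝ × ℝ, Continuous γ ∧ Function.Injective γ ∧ γ 0 = p ∧ γ 1 = q ∧
    Set.range γ = A

/-- A plane embedding of the graph `G`: vertices are distinct points, edges are simple arcs
joining their ends, an edge contains no other vertex, and two edges meet only in common ends. -/
structure PlaneEmbedding {V : Type*} (G : SimpleGraph V) where
  pos : V → ℝ × ℝ
  arc : Sym2 V → Set (ℝ × ℝ)
  pos_injective : Function.Injective pos
  isArc : ∀ u v, G.Adj u v → IsArc (arc s(u, v)) (pos u) (pos v)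
  vertex_arc : ∀ e ∈ G.edgeSet, ∀ w, pos w ∈ arc e → w ∈ e
  arc_inter : ∀ e ∈ G.edgeSet, ∀ f ∈ G.edgeSet, e ≠ f → ∀ p, p ∈ arc e → p ∈ arc f →
    ∃ w, w ∈ e ∧ w ∈ f ∧ p = pos w

namespace PlaneEmbedding

variable {V : Type*} {G : SimpleGraph V} (D : PlaneEmbedding G)

/-- The points used by the subgraph of `G` induced on `S`. -/
def drawn (S : Set V) : Set (ℝ × ℝ) :=
  D.pos '' S ∪ ⋃ e ∈ {e ∈ G.edgeSet | ∀ v ∈ e, v ∈ S}, D.arc e

/-- The outer face of the drawing of the subgraph induced on `S`: the points off the drawing
whose connected component in the complement of the drawing is unbounded. -/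
def outerFace (S : Set V) : Set (ℝ × ℝ) :=
  {p | p ∉ D.drawn S ∧ ¬ Bornology.IsBounded (connectedComponentIn (D.drawn S)ᶜ p)}

/-- The vertices of `S` on the outer face of the drawing of the subgraph induced on `S`. -/
def outerVerts (S : Set V) : Set V := {v ∈ S | D.pos v ∈ closure (D.outerFace S)}

/-- Deleting `k` times all the vertices on the outer face deletes all of `S`. -/
def KOuter : ℕ → Set V → Prop
  | 0, S => S = ∅
  | k + 1, S => KOuter k (S \ D.outerVerts S)

end PlaneEmbedding

/-- `G` is `k`-outerplanar (`k ≥ 1`): it has a plane embedding such that deleting the vertices on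
the outer face `k` times leaves nothing. -/
def KOuterplanar {V : Type*} (G : SimpleGraph V) (k : ℕ) : Prop :=
  ∃ D : PlaneEmbedding G, D.KOuter k Set.univ

/-! ### Encodings -/

open Pool.Agent.Lib.MP_9c2350_lc (Sym dig)

open scoped Classical in
/-- The adjacency matrix of a graph on `Fin n`: every row is a sequence of `n` binary digits
followed by a semicolon; a bar ends the matrix. -/
noncomputable def encGraph {n : ℕ} (G : SimpleGraph (Fin n)) : List Sym :=
  (List.ofFn fun i => (List.ofFn fun j => dig (decide (G.Adj i j))) ++ [Sym.semi]).flatten ++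
    [Sym.bar]

/-- A graph together with a number in unary. -/
noncomputable def encInst {n : ℕ} (G : SimpleGraph (Fin n)) (k : ℕ) : List Sym :=
  encGraph G ++ List.replicate k Sym.one

end Pool.Agent.Lib.MP_20e1d9_lc
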