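import Pool.Agent.Lib.MP_20e1d9_lc.Defs

/-!
Fixed-parameter tractability, with Turing machines as the model of computation.
-/

set_option autoImplicit false

namespace Pool.Agent.Lib.MP_20e1d9_lc

open Turing
open Pool.Agent.Lib.MP_9c2350_lc (Sym)

/-- The machine `tm`, whose input symbols and output symbols are identified with `Sym` by `a`
and `b`, started with the input `x` halts with the output `y` after at most `t` steps. -/
def Outputs (tm : FinTM2) (a : tm.Γ tm.k₀ ≃ Sym) (b : tm.Γ tm.k₁ ≃ Sym) (x y : List Sym)
    (t : ℕ) : Prop :=
  Nonempty (TM2OutputsInTime tm (x.map a.symm) (some (y.map b.symm)) t)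

/-- The optimisation problem STC is fixed-parameter tractable on `k`-outerplanar graphs,
parameterized by `k`: there are a machine, a computable function `f` and a constant `c` such
that, given a connected `k`-outerplanar graph on `n` vertices (and the number `k`), the machine
outputs a spanning tree of least congestion after at most `f k * n ^ c` steps. -/
def STCFpt : Prop :=
  ∃ (tm : FinTM2) (a : tm.Γ tm.k₀ ≃ Sym) (b : tm.Γ tm.k₁ ≃ Sym) (f : ℕ → ℕ) (c : ℕ),
    Computable f ∧ ∀ (n k : ℕ) (G : SimpleGraph (Fin n)), G.Connected → KOuterplanar G k →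
      ∃ T : SimpleGraph (Fin n), IsSpanningTree G T ∧ ec G T = stc G ∧
        Outputs tm a b (encInst G k) (encGraph T) (f k * n ^ c)

open scoped Classical in
/-- The problem Clique is fixed-parameter tractable, parameterized by the size of the clique:
there are a machine, a computable function `f` and a constant `c` such that, given a graph on `N`
vertices and a number `κ`, the machine decides after at most `f κ * (N + 1) ^ c` steps whether
the graph has a clique with `κ` vertices. -/
def CliqueFpt : Prop :=
  ∃ (tm : FinTM2) (a : tm.Γ tm.k₀ ≃ Sym) (b : tm.Γ tm.k₁ ≃ Sym) (f : ℕ → ℕ) (c : ℕ),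
    Computable f ∧ ∀ (N κ : ℕ) (Γ : SimpleGraph (Fin N)),
      Outputs tm a b (encInst Γ κ)
        (if ∃ C : Finset (Fin N), Γ.IsNClique κ C then [Sym.one] else [Sym.zero])
        (f κ * (N + 1) ^ c)

end Pool.Agent.Lib.MP_20e1d9_lc
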