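import Pool.Agent.Lib.MP_20e1d9_lc.Gadget

/-!
The tree belonging to a selection of items: connectivity and cuts.
-/

set_option autoImplicit false

namespace Pool.Agent.Lib.MP_20e1d9_lc

namespace Par

/-- The bundles of the tree belonging to a set `Sel` of items (item i is in column i+1). -/
def TB (P : Par) (Sel : ℕ → Prop) : Set Bn := {b | b ∈ P.bundles ∧
  match b with
  | (.E, _, _) => True
  | (.UL, i, j) => i = P.n ∨ ¬ Sel i ∨ j = 0
  | (.UR, i, j) => i = 0 ∨ ¬ Sel (i - 1) ∨ j = 0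
  | (.D, i, j) => i = P.n + 1 ∨ (i ≠ 0 ∧ ((Sel (i - 1) ∧ j ≠ 0) ∨ (¬ Sel (i - 1) ∧ j + 1 ≠ P.k)))
  | (.VL, i, j) => i = P.n ∨ Sel i ∨ j + 1 = P.k
  | (.VR, i, j) => i = 0 ∨ Sel (i - 1) ∨ j + 1 = P.k}

theorem mem_bundles_fc {P : Par} {t : Tg} {i j : ℕ} :
    (t, i, j) ∈ P.bundles ↔ i < P.cols t ∧ j < P.k := by
  simp only [bundles, Finset.mem_filter, Finset.mem_product, Finset.mem_univ, Finset.mem_range,
    true_and]
  constructor
  · rintro ⟨⟨-, h2⟩, h3⟩
    exact ⟨h3, h2⟩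
  · rintro ⟨h1, h2⟩
    refine ⟨⟨?_, h2⟩, h1⟩
    cases t <;> simp only [cols] at h1 <;> omega

theorem mem_UL_fc {P : Par} {Sel : ℕ → Prop} {i j : ℕ} : (Tg.UL, i, j) ∈ P.TB Sel ↔
    (i < P.n + 1 ∧ j < P.k) ∧ (i = P.n ∨ ¬ Sel i ∨ j = 0) := by
  have h : (Tg.UL, i, j) ∈ P.TB Sel ↔ (Tg.UL, i, j) ∈ P.bundles ∧
    (i = P.n ∨ ¬ Sel i ∨ j = 0) := Iff.rfl
  rw [h, mem_bundles_fc]; rfl

theorem mem_UR_fc {P : Par} {Sel : ℕ → Prop} {i j : ℕ} : (Tg.UR, i, j) ∈ P.TB Sel ↔
    (i < P.n + 1 ∧ j < P.k) ∧ (i = 0 ∨ ¬ Sel (i - 1) ∨ j = 0) := by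
  have h : (Tg.UR, i, j) ∈ P.TB Sel ↔ (Tg.UR, i, j) ∈ P.bundles ∧
    (i = 0 ∨ ¬ Sel (i - 1) ∨ j = 0) := Iff.rfl
  rw [h, mem_bundles_fc]; rfl

theorem mem_E_fc {P : Par} {Sel : ℕ → Prop} {i j : ℕ} : (Tg.E, i, j) ∈ P.TB Sel ↔
    (i < P.n + 2 ∧ j < P.k) := by
  have h : (Tg.E, i, j) ∈ P.TB Sel ↔ (Tg.E, i, j) ∈ P.bundles ∧ True := Iff.rfl
  rw [h, mem_bundles_fc, and_true]; rfl

theorem mem_D_fc {P : Par} {Sel : ℕ → Prop} {i j : ℕ} : (Tg.D, i, j) ∈ P.TB Sel ↔
    (i < P.n + 2 ∧ j < P.k) ∧ (i = P.n + 1 ∨ (i ≠ 0 ∧ ((Sel (i - 1) ∧ j ≠ 0) ∨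
      (¬ Sel (i - 1) ∧ j + 1 ≠ P.k)))) := by
  have h : (Tg.D, i, j) ∈ P.TB Sel ↔ (Tg.D, i, j) ∈ P.bundles ∧
    (i = P.n + 1 ∨ (i ≠ 0 ∧ ((Sel (i - 1) ∧ j ≠ 0) ∨
      (¬ Sel (i - 1) ∧ j + 1 ≠ P.k)))) := Iff.rfl
  rw [h, mem_bundles_fc]; rfl

theorem mem_VL_fc {P : Par} {Sel : ℕ → Prop} {i j : ℕ} : (Tg.VL, i, j) ∈ P.TB Sel ↔
    (i < P.n + 1 ∧ j < P.k) ∧ (i = P.n ∨ Sel i ∨ j + 1 = P.k) := by
  have h : (Tg.VL, i, j) ∈ P.TB Sel ↔ (Tg.VL, i, j) ∈ P.bundles ∧
    (i = P.n ∨ Sel i ∨ j + 1 = P.k) := Iff.rfl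
  rw [h, mem_bundles_fc]; rfl

theorem mem_VR_fc {P : Par} {Sel : ℕ → Prop} {i j : ℕ} : (Tg.VR, i, j) ∈ P.TB Sel ↔
    (i < P.n + 1 ∧ j < P.k) ∧ (i = 0 ∨ Sel (i - 1) ∨ j + 1 = P.k) := by
  have h : (Tg.VR, i, j) ∈ P.TB Sel ↔ (Tg.VR, i, j) ∈ P.bundles ∧
    (i = 0 ∨ Sel (i - 1) ∨ j + 1 = P.k) := Iff.rfl
  rw [h, mem_bundles_fc]; rfl

/-! ### Connectivity -/

/-- connectivity in the tree -/
def CnFC (P : Par) (Sel : ℕ → Prop) (x y : Nd) : Prop :=
  Relation.ReflTransGen
      (fun x y => ∃ b ∈ P.TB Sel, (x = bsrc b ∧ y = btgt b) ∨ (x = btgt b ∧ y = bsrc b)) x y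

theorem CnFC.symm {P : Par} {Sel : ℕ → Prop} {x y : Nd} (h : P.CnFC Sel x y) :
    P.CnFC Sel y x := by
  induction h with
  | refl => exact Relation.ReflTransGen.refl
  | tail _ hbc ih =>
    refine (Relation.ReflTransGen.single ?_).trans ih
    obtain ⟨c, hc, h1 | h1⟩ := hbc
    · exact ⟨c, hc, Or.inr ⟨h1.2, h1.1⟩⟩
    · exact ⟨c, hc, Or.inl ⟨h1.2, h1.1⟩⟩

theorem CnFC.trans {P : Par} {Sel : ℕ → Prop} {x y z : Nd} (h : P.CnFC Sel x y)
    (h' : P.CnFC Sel y z) : P.CnFC Sel x z := Relation.ReflTransGen.trans h h'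

theorem CnFC.edge {P : Par} {Sel : ℕ → Prop} {b : Bn} (h : b ∈ P.TB Sel) :
    P.CnFC Sel (bsrc b) (btgt b) :=
  Relation.ReflTransGen.single ⟨b, h, Or.inl ⟨rfl, rfl⟩⟩

theorem cn_strip_fc {P : Par} {Sel : ℕ → Prop} {i j : ℕ} (hi : i < P.n) (hj : j ≤ P.k)
    (hk : 2 ≤ P.k) : P.CnFC Sel (.q i j) (.q (i + 1) j) := by
  by_cases h : j = 0 ∨ (¬ Sel i ∧ j < P.k)
  · have hjk : j < P.k := by omega
    have h1 : (Tg.UL, i, j) ∈ P.TB Sel := mem_UL_fc.2 ⟨⟨by omega, hjk⟩, by tauto⟩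
    have h2 : (Tg.UR, i + 1, j) ∈ P.TB Sel := mem_UR_fc.2 ⟨⟨by omega, hjk⟩, by
      rw [Nat.add_sub_cancel]; tauto⟩
    exact (CnFC.edge h1).trans (CnFC.edge h2).symm
  · obtain ⟨j', rfl⟩ : ∃ j', j = j' + 1 := ⟨j - 1, by omega⟩
    have h0 : Sel i ∨ j' + 1 = P.k := by
      by_cases hs : Sel i
      · exact Or.inl hs
      · right
        have : ¬ (j' + 1 < P.k) := fun hlt => h (Or.inr ⟨hs, hlt⟩)
        omega
    have h1 : (Tg.VL, i, j') ∈ P.TB Sel := mem_VL_fc.2 ⟨⟨by omega, by omega⟩, Or.inr h0⟩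
    have h2 : (Tg.VR, i + 1, j') ∈ P.TB Sel := mem_VR_fc.2 ⟨⟨by omega, by omega⟩, by
      rw [Nat.add_sub_cancel]; exact Or.inr h0⟩
    exact (CnFC.edge h1).symm.trans (CnFC.edge h2)

theorem cn_spine_fc {P : Par} {Sel : ℕ → Prop} {j : ℕ} (hj : j < P.k) :
    P.CnFC Sel (.q P.n j) (.q P.n (j + 1)) := by
  have h1 : (Tg.UL, P.n, j) ∈ P.TB Sel := mem_UL_fc.2 ⟨⟨by omega, hj⟩, Or.inl rfl⟩
  have h2 : (Tg.E, P.n + 1, j) ∈ P.TB Sel := mem_E_fc.2 ⟨by omega, hj⟩
  have h3 : (Tg.D, P.n + 1, j) ∈ P.TB Sel := mem_D_fc.2 ⟨⟨by omega, hj⟩, Or.inl rfl⟩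
  have h4 : (Tg.VL, P.n, j) ∈ P.TB Sel := mem_VL_fc.2 ⟨⟨by omega, hj⟩, Or.inl rfl⟩
  exact (((CnFC.edge h1).trans (CnFC.edge h2)).trans (CnFC.edge h3)).trans (CnFC.edge h4)

theorem cn_q_fc {P : Par} {Sel : ℕ → Prop} (hk : 2 ≤ P.k) {i j : ℕ} (hi : i ≤ P.n)
    (hj : j ≤ P.k) : P.CnFC Sel (.q i j) (.q P.n 0) := by
  have h1 : ∀ d i, i + d = P.n → P.CnFC Sel (.q i j) (.q P.n j) := by
    intro d
    induction d with
    | zero =>
      intro i hi
      have : i = P.n := by omega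
      subst this
      exact Relation.ReflTransGen.refl
    | succ d ih =>
      intro i hi
      exact (cn_strip_fc (by omega) hj hk).trans (ih (i + 1) (by omega))
  have h2 : ∀ j, j ≤ P.k → P.CnFC Sel (.q P.n 0) (.q P.n j) := by
    intro j
    induction j with
    | zero => intro _; exact Relation.ReflTransGen.refl
    | succ j ih => intro hj; exact (ih (by omega)).trans (cn_spine_fc (by omega))
  exact (h1 (P.n - i) i (by omega)).trans (h2 j hj).symm

theorem cn_all_fc {P : Par} {Sel : ℕ → Prop} (hk : 2 ≤ P.k) (x : Nd) (hx : P.IsNode x) :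
    P.CnFC Sel x (.q P.n 0) := by
  -- the middle vertices
  have key : ∀ i j, i ≤ P.n + 1 → j < P.k → P.CnFC Sel (.g i j) (.q P.n 0) ∧
      P.CnFC Sel (.v i j) (.q P.n 0) := by
    intro i j hi hj
    have hE : P.CnFC Sel (.u i j) (.g i j) := CnFC.edge (b := (Tg.E, i, j))
      (mem_E_fc.2 ⟨by omega, hj⟩)
    rcases Nat.lt_or_ge P.n i with hin | hin
    · have hi1 : i = P.n + 1 := by omega
      subst hi1
      have h1 : P.CnFC Sel (.q P.n j) (.u (P.n + 1) j) := CnFC.edge (b := (Tg.UL, P.n, j))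
        (mem_UL_fc.2 ⟨⟨by omega, hj⟩, Or.inl rfl⟩)
      have h2 : P.CnFC Sel (.g (P.n + 1) j) (.v (P.n + 1) j) :=
        CnFC.edge (b := (Tg.D, P.n + 1, j)) (mem_D_fc.2 ⟨⟨by omega, hj⟩, Or.inl rfl⟩)
      have h3 := (h1.trans hE).symm.trans (cn_q_fc hk le_rfl hj.le)
      exact ⟨h3, h2.symm.trans h3⟩
    · have hUR : (i = 0 ∨ ¬ Sel (i - 1) ∨ j = 0) → P.CnFC Sel (.g i j) (.q P.n 0) := by
        intro h
        have h1 : P.CnFC Sel (.q i j) (.u i j) := CnFC.edge (b := (Tg.UR, i, j))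
          (mem_UR_fc.2 ⟨⟨by omega, hj⟩, h⟩)
        exact (h1.trans hE).symm.trans (cn_q_fc hk hin hj.le)
      have hVR : (i = 0 ∨ Sel (i - 1) ∨ j + 1 = P.k) → P.CnFC Sel (.v i j) (.q P.n 0) := by
        intro h
        have h1 : P.CnFC Sel (.v i j) (.q i (j + 1)) := CnFC.edge (b := (Tg.VR, i, j))
          (mem_VR_fc.2 ⟨⟨by omega, hj⟩, h⟩)
        exact h1.trans (cn_q_fc hk hin hj)
      by_cases h0 : i = 0
      · exact ⟨hUR (Or.inl h0), hVR (Or.inl h0)⟩
      · by_cases hs : Sel (i - 1)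
        · have hv := hVR (Or.inr (Or.inl hs))
          refine ⟨?_, hv⟩
          by_cases hj0 : j = 0
          · exact hUR (Or.inr (Or.inr hj0))
          · have h2 : P.CnFC Sel (.g i j) (.v i j) := CnFC.edge (b := (Tg.D, i, j))
              (mem_D_fc.2 ⟨⟨by omega, hj⟩, Or.inr ⟨h0, Or.inl ⟨hs, hj0⟩⟩⟩)
            exact h2.trans hv
        · have hg := hUR (Or.inr (Or.inl hs))
          refine ⟨hg, ?_⟩
          by_cases hjk : j + 1 = P.k
          · exact hVR (Or.inr (Or.inr hjk))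
          · have h2 : P.CnFC Sel (.g i j) (.v i j) := CnFC.edge (b := (Tg.D, i, j))
              (mem_D_fc.2 ⟨⟨by omega, hj⟩, Or.inr ⟨h0, Or.inr ⟨hs, hjk⟩⟩⟩)
            exact h2.symm.trans hg
  cases x with
  | q i j => exact cn_q_fc hk hx.1 hx.2
  | u i j =>
    have hE : P.CnFC Sel (.u i j) (.g i j) := CnFC.edge (b := (Tg.E, i, j))
      (mem_E_fc.2 ⟨by have := hx.1; omega, hx.2⟩)
    exact hE.trans (key i j hx.1 hx.2).1
  | g i j => exact (key i j hx.1 hx.2).1
  | v i j => exact (key i j hx.1 hx.2).2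

theorem TB_connected {P : Par} (hP : P.Good) (Sel : ℕ → Prop) (x y : Nd) (hx : P.IsNode x)
    (hy : P.IsNode y) : Relation.ReflTransGen
      (fun x y => ∃ b ∈ P.TB Sel, (x = bsrc b ∧ y = btgt b) ∨ (x = btgt b ∧ y = bsrc b)) x y :=
  (cn_all_fc hP.hk x hx).trans (cn_all_fc hP.hk y hy).symm

/-! ### Cuts -/

theorem sum_ins_fc {α : Type*} [DecidableEq α] (f : α → ℕ) (a : α) (s : Finset α) :
    ∑ b ∈ insert a s, f b ≤ f a + ∑ b ∈ s, f b := by
  by_cases h : a ∈ s
  · rw [Finset.insert_eq_of_mem h]; omega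
  · rw [Finset.sum_insert h]

theorem sum_union_fc {α : Type*} [DecidableEq α] (f : α → ℕ) (s t : Finset α) :
    ∑ b ∈ s ∪ t, f b ≤ ∑ b ∈ s, f b + ∑ b ∈ t, f b := by
  have := Finset.sum_union_inter (f := f) (s₁ := s) (s₂ := t)
  omega

theorem sum_biUnion_fc {α ι : Type*} [DecidableEq α] [DecidableEq ι] (f : α → ℕ)
    (I : Finset ι) (t : ι → Finset α) (c : ι → ℕ) (h : ∀ i ∈ I, ∑ b ∈ t i, f b ≤ c i) :
    ∑ b ∈ I.biUnion t, f b ≤ ∑ i ∈ I, c i := by
  induction I using Finset.induction_on with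
  | empty => simp
  | insert a I ha ih =>
    rw [Finset.biUnion_insert, Finset.sum_insert ha]
    have h1 := sum_union_fc f (t a) (I.biUnion t)
    have h2 := h a (Finset.mem_insert_self a I)
    have h3 := ih fun i hi => h i (Finset.mem_insert_of_mem hi)
    omega

theorem cutw_le_fc (P : Par) (S : Set Nd) (F : Finset Bn)
    (h : ∀ b ∈ P.bundles, ¬ (bsrc b ∈ S ↔ btgt b ∈ S) → b ∈ F) :
    P.cutw S ≤ ∑ b ∈ F, P.w b := by
  unfold cutw
  calc _ ≤ ∑ b ∈ P.bundles, if b ∈ F then P.w b else 0 := by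
        apply Finset.sum_le_sum
        intro b hb
        split_ifs with h1 h2
        · exact Nat.zero_le _
        · exact le_rfl
        · exact le_rfl
        · exact absurd (h b hb h1) ‹_›
    _ = ∑ b ∈ P.bundles ∩ F, P.w b := Finset.sum_ite_mem _ _ _
    _ ≤ _ := Finset.sum_le_sum_of_subset Finset.inter_subset_right

theorem K_ge_fc {P : Par} (hP : P.Good) : 6 * P.s ≤ P.K := by
  unfold K
  have h1 : 6 ≤ 20 * (P.n + 2) * (P.k + 1) := by nlinarith
  calc 6 * P.s ≤ (20 * (P.n + 2) * (P.k + 1)) * P.s := Nat.mul_le_mul_right _ h1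
    _ = _ := by ring

theorem K_ge2_fc {P : Par} (hP : P.Good) (j : ℕ) : 2 * P.s * (P.n + 1) + P.b j ≤ P.K := by
  unfold K
  have h1 := hP.hb j
  have h2 : 2 * (P.n + 1) + 1 ≤ 20 * (P.n + 2) * (P.k + 1) := by nlinarith
  calc 2 * P.s * (P.n + 1) + P.b j ≤ 2 * P.s * (P.n + 1) + P.s := by omega
    _ = (2 * (P.n + 1) + 1) * P.s := by ring
    _ ≤ (20 * (P.n + 2) * (P.k + 1)) * P.s := Nat.mul_le_mul_right _ h2
    _ = _ := by ring

/-- heavy bundles -/
def hvyFC (P : Par) : Bn → Prop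
  | (.UL, i, _) => i = P.n
  | (.UR, _, _) => False
  | (.E, _, _) => True
  | (.D, i, _) => i = P.n + 1
  | (.VL, i, _) => i = P.n
  | (.VR, _, _) => False

theorem w_le_fc {P : Par} (hP : P.Good) (b : Bn) (hb : ¬ P.hvyFC b) : P.w b ≤ 4 * P.s := by
  obtain ⟨t, i, j⟩ := b
  have h1 := hP.hα (i - 1) j
  have h2 := hP.hβ (i - 1) j
  have h3 := hP.hδ (i - 1) j
  cases t <;> simp only [hvyFC, not_true_eq_false, not_false_eq_true] at hb <;>
    simp only [w] <;> split_ifs <;> omega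

theorem cutw_light_fc {P : Par} (hP : P.Good) (S : Set Nd)
    (h : ∀ b ∈ P.bundles, P.hvyFC b → (bsrc b ∈ S ↔ btgt b ∈ S)) : P.cutw S ≤ P.K := by
  classical
  let T : Finset Tg := {.UL, .UR, .D, .VL, .VR}
  let F : Finset Bn := (T ×ˢ Finset.range (P.n + 1) ×ˢ Finset.range P.k).filter
    (fun b => ¬ P.hvyFC b)
  have h1 : P.cutw S ≤ ∑ b ∈ F, P.w b := by
    apply cutw_le_fc
    intro b hb hs
    have hh : ¬ P.hvyFC b := fun hh => hs (h b hb hh)
    obtain ⟨t, i, j⟩ := b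
    have hb' := mem_bundles_fc.1 hb
    simp only [F, Finset.mem_filter, Finset.mem_product, Finset.mem_range]
    refine ⟨⟨?_, ?_, hb'.2⟩, hh⟩
    · cases t <;> simp only [hvyFC, not_true_eq_false] at hh <;> decide
    · have := hb'.1
      cases t <;> simp only [hvyFC, not_true_eq_false] at hh <;> simp only [cols] at this <;> omega
  have h2 : ∑ b ∈ F, P.w b ≤ F.card * (4 * P.s) := by
    apply Finset.sum_le_card_nsmul
    intro b hb
    exact w_le_fc hP b (Finset.mem_filter.1 hb).2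
  have h3 : F.card ≤ 5 * ((P.n + 1) * P.k) := by
    calc F.card ≤ (T ×ˢ Finset.range (P.n + 1) ×ˢ Finset.range P.k).card :=
          Finset.card_filter_le _ _
      _ = 5 * ((P.n + 1) * P.k) := by
          rw [Finset.card_product, Finset.card_product, Finset.card_range, Finset.card_range]
          rfl
  calc P.cutw S ≤ F.card * (4 * P.s) := h1.trans h2
    _ ≤ 5 * ((P.n + 1) * P.k) * (4 * P.s) := Nat.mul_le_mul_right _ h3
    _ = 20 * P.s * ((P.n + 1) * P.k) := by ring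
    _ ≤ 20 * P.s * ((P.n + 2) * (P.k + 1)) := by
        apply Nat.mul_le_mul_left
        apply Nat.mul_le_mul <;> omega
    _ = P.K := by unfold K; ring

/-- own strip of a vertex -/
def ownFC (P : Par) (Sel : ℕ → Prop) : Nd → ℕ → Prop
  | .q _ j, r => r = j
  | .u i j, r => (i ≠ 0 ∧ Sel (i - 1) ∧ j ≠ 0 ∧ r = j + 1) ∨
      (¬ (i ≠ 0 ∧ Sel (i - 1) ∧ j ≠ 0) ∧ r = j)
  | .g i j, r => (i ≠ 0 ∧ Sel (i - 1) ∧ j ≠ 0 ∧ r = j + 1) ∨
      (¬ (i ≠ 0 ∧ Sel (i - 1) ∧ j ≠ 0) ∧ r = j)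
  | .v i j, r => ((i = 0 ∨ Sel (i - 1) ∨ j + 1 = P.k) ∧ r = j + 1) ∨
      (¬ (i = 0 ∨ Sel (i - 1) ∨ j + 1 = P.k) ∧ r = j)

/-- spine vertices -/
def spFC (P : Par) : Nd → Prop
  | .q _ _ => False
  | .u i _ => i = P.n + 1
  | .g i _ => i = P.n + 1
  | .v i _ => i = P.n + 1

/-- column number -/
def colFC : Nd → ℕ
  | .q i _ => 2 * i + 1
  | .u i _ => 2 * i
  | .g i _ => 2 * i
  | .v i _ => 2 * i

/-- position in the spine -/
def posFC : Nd → ℕ
  | .q _ j => 4 * j
  | .u _ j => 4 * j + 1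
  | .g _ j => 4 * j + 2
  | .v _ j => 4 * j + 3

/-- part of a strip -/
def strFC (P : Par) (Sel : ℕ → Prop) (j c : ℕ) : Set Nd :=
  {x | ¬ P.spFC x ∧ P.ownFC Sel x j ∧ colFC x ≤ c}

theorem mem_str_fc {P : Par} {Sel : ℕ → Prop} {j c : ℕ} {x : Nd} :
    x ∈ P.strFC Sel j c ↔ ¬ P.spFC x ∧ P.ownFC Sel x j ∧ colFC x ≤ c := Iff.rfl

theorem str_heavy_fc {P : Par} {Sel : ℕ → Prop} {j c : ℕ} (hc : c ≤ 2 * P.n) :
    ∀ b ∈ P.bundles, P.hvyFC b → (bsrc b ∈ P.strFC Sel j c ↔ btgt b ∈ P.strFC Sel j c) := by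
  rintro ⟨t, i, j'⟩ hb hh
  rw [mem_str_fc, mem_str_fc]
  cases t with
  | UL =>
    have hh' : i = P.n := hh
    subst hh'
    simp only [bsrc, btgt, spFC, colFC, not_true_eq_false, false_and, iff_false, not_and]
    intro _ _; omega
  | UR => exact absurd hh (fun h => h)
  | E => rfl
  | D =>
    have hh' : i = P.n + 1 := hh
    subst hh'
    simp only [bsrc, btgt, spFC, not_true_eq_false, false_and]
  | VL =>
    have hh' : i = P.n := hh
    subst hh'
    simp only [bsrc, btgt, spFC, colFC, not_true_eq_false, false_and, false_iff, not_and]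
    intro _ _; omega
  | VR => exact absurd hh (fun h => h)

theorem str_split_fc {P : Par} {Sel : ℕ → Prop} {j c : ℕ} (hc : c ≤ 2 * P.n) {b : Bn}
    (hb : b ∈ P.TB Sel)
    (hs : ¬ (bsrc b ∈ P.strFC Sel j c ↔ btgt b ∈ P.strFC Sel j c)) :
    (∃ i, c = 2 * i + 1 ∧ (b = (.UL, i, j) ∨ ∃ j', j = j' + 1 ∧ b = (.VL, i, j'))) ∨
    (∃ i, c = 2 * i ∧ (b = (.UR, i, j) ∨ ∃ j', j = j' + 1 ∧ b = (.VR, i, j'))) := by
  obtain ⟨t, i, j'⟩ := b
  rw [mem_str_fc, mem_str_fc] at hs
  cases t with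
  | UL =>
    obtain ⟨⟨h1, h2⟩, h3⟩ := mem_UL_fc.1 hb
    by_cases hin : i = P.n
    · exfalso
      subst hin
      apply hs
      simp only [bsrc, btgt, spFC, colFC, not_true_eq_false, false_and, iff_false, not_and]
      intro _ _; omega
    · have h4 : ¬ (i + 1 ≠ 0 ∧ Sel (i + 1 - 1) ∧ j' ≠ 0) := by
        rw [Nat.add_sub_cancel]; tauto
      simp only [bsrc, btgt, spFC, colFC, ownFC, h4, not_false_eq_true, true_and, Nat.add_right_cancel_iff, hin] at hs
      have h5 : ¬ (i + 1 ≠ 0 ∧ Sel (i + 1 - 1) ∧ j' ≠ 0 ∧ j = j' + 1) := by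
        rintro ⟨a, b, c, _⟩; exact h4 ⟨a, b, c⟩
      simp only [h5, false_or] at hs
      left
      refine ⟨i, ?_, Or.inl ?_⟩
      · by_contra hcc
        apply hs
        constructor <;> rintro ⟨h6, h7⟩ <;> exact ⟨h6, by omega⟩
      · have : j = j' := by
          by_contra hne
          apply hs
          simp [hne]
        rw [this]
  | UR =>
    obtain ⟨⟨h1, h2⟩, h3⟩ := mem_UR_fc.1 hb
    have hin : ¬ (i = P.n + 1) := by omega
    have h4 : ¬ (i ≠ 0 ∧ Sel (i - 1) ∧ j' ≠ 0) := by tauto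
    simp only [bsrc, btgt, spFC, colFC, ownFC, h4, not_false_eq_true, true_and, hin] at hs
    have h5 : ¬ (i ≠ 0 ∧ Sel (i - 1) ∧ j' ≠ 0 ∧ j = j' + 1) := by
      rintro ⟨a, b, c, _⟩; exact h4 ⟨a, b, c⟩
    simp only [h5, false_or] at hs
    right
    refine ⟨i, ?_, Or.inl ?_⟩
    · by_contra hcc
      apply hs
      constructor <;> rintro ⟨h6, h7⟩ <;> exact ⟨h6, by omega⟩
    · have : j = j' := by
        by_contra hne
        apply hs
        simp [hne]
      rw [this]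
  | E => exact absurd Iff.rfl hs
  | D =>
    exfalso
    obtain ⟨⟨h1, h2⟩, h3⟩ := mem_D_fc.1 hb
    by_cases hin : i = P.n + 1
    · subst hin
      apply hs
      simp only [bsrc, btgt, spFC, not_true_eq_false, false_and]
    · apply hs
      have h4 := h3.resolve_left hin
      simp only [bsrc, btgt, spFC, colFC, ownFC]
      rcases h4 with ⟨h4, ⟨h5, h6⟩ | ⟨h5, h6⟩⟩
      · simp [h4, h5, h6]
      · simp [h4, h5, h6]
  | VL =>
    obtain ⟨⟨h1, h2⟩, h3⟩ := mem_VL_fc.1 hb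
    by_cases hin : i = P.n
    · exfalso
      subst hin
      apply hs
      simp only [bsrc, btgt, spFC, colFC, not_true_eq_false, false_and, false_iff, not_and]
      intro _ _; omega
    · have h4 : (i + 1 = 0 ∨ Sel (i + 1 - 1) ∨ j' + 1 = P.k) := by
        rw [Nat.add_sub_cancel]; tauto
      simp only [bsrc, btgt, spFC, colFC, ownFC, h4, not_true_eq_false, false_and, or_false,
        not_false_eq_true, true_and, Nat.add_right_cancel_iff, hin] at hs
      left
      have hj : j = j' + 1 := by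
        by_contra hne
        apply hs
        simp [hne]
      refine ⟨i, ?_, Or.inr ⟨j', hj, rfl⟩⟩
      by_contra hcc
      apply hs
      constructor <;> rintro ⟨h6, h7⟩ <;> exact ⟨h6, by omega⟩
  | VR =>
    obtain ⟨⟨h1, h2⟩, h3⟩ := mem_VR_fc.1 hb
    have hin : ¬ (i = P.n + 1) := by omega
    simp only [bsrc, btgt, spFC, colFC, ownFC, h3, not_true_eq_false, false_and, or_false,
      not_false_eq_true, true_and, hin] at hs
    right
    have hj : j = j' + 1 := by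
      by_contra hne
      apply hs
      simp [hne]
    refine ⟨i, ?_, Or.inr ⟨j', hj, rfl⟩⟩
    by_contra hcc
    apply hs
    constructor <;> rintro ⟨h6, h7⟩ <;> exact ⟨h6, by omega⟩

/-- the conclusion of `TB_cut` -/
def ConclFC (P : Par) (Sel : ℕ → Prop) (b : Bn) : Prop :=
  ∃ S : Set Nd, ¬ (bsrc b ∈ S ↔ btgt b ∈ S) ∧
      (∀ b' ∈ P.TB Sel, b' ≠ b → (bsrc b' ∈ S ↔ btgt b' ∈ S)) ∧ P.cutw S ≤ P.K

theorem cut_UL_fc {P : Par} (hP : P.Good) {Sel : ℕ → Prop} {i j : ℕ} (hi : i < P.n)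
    (hb : (Tg.UL, i, j) ∈ P.TB Sel) : P.ConclFC Sel (.UL, i, j) := by
  obtain ⟨⟨h1, h2⟩, h3⟩ := mem_UL_fc.1 hb
  refine ⟨P.strFC Sel j (2 * i + 1), ?_, ?_, ?_⟩
  · rw [mem_str_fc, mem_str_fc]
    intro h
    have h4 : ¬ P.spFC (bsrc (.UL, i, j)) ∧ P.ownFC Sel (bsrc (.UL, i, j)) j ∧
      colFC (bsrc (.UL, i, j)) ≤ 2 * i + 1 := ⟨fun h => h, rfl, le_rfl⟩
    have h5 := (h.1 h4).2.2
    simp only [btgt, colFC] at h5
    omega
  · intro b' hb' hne
    by_contra hs
    rcases str_split_fc (by omega) hb' hs with ⟨i', hi', rfl | ⟨j', hj', rfl⟩⟩ | ⟨i', hi', -⟩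
    · apply hne
      have : i' = i := by omega
      rw [this]
    · have : i' = i := by omega
      subst this
      obtain ⟨-, h6⟩ := mem_VL_fc.1 hb'
      have h7 : ¬ (i' = P.n) := by omega
      have h8 : ¬ (j' + 1 = P.k) := by omega
      have h9 : ¬ (j = 0) := by omega
      tauto
    · omega
  · exact cutw_light_fc hP _ (str_heavy_fc (by omega))

theorem cut_VL_fc {P : Par} (hP : P.Good) {Sel : ℕ → Prop} {i j : ℕ} (hi : i < P.n)
    (hb : (Tg.VL, i, j) ∈ P.TB Sel) : P.ConclFC Sel (.VL, i, j) := by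
  obtain ⟨⟨h1, h2⟩, h3⟩ := mem_VL_fc.1 hb
  refine ⟨P.strFC Sel (j + 1) (2 * i + 1), ?_, ?_, ?_⟩
  · rw [mem_str_fc, mem_str_fc]
    intro h
    have h4 : ¬ P.spFC (btgt (.VL, i, j)) ∧ P.ownFC Sel (btgt (.VL, i, j)) (j + 1) ∧
      colFC (btgt (.VL, i, j)) ≤ 2 * i + 1 := ⟨fun h => h, rfl, le_rfl⟩
    have h5 := (h.2 h4).2.2
    simp only [bsrc, colFC] at h5
    omega
  · intro b' hb' hne
    by_contra hs
    rcases str_split_fc (by omega) hb' hs with ⟨i', hi', rfl | ⟨j', hj', rfl⟩⟩ | ⟨i', hi', -⟩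
    · have : i' = i := by omega
      subst this
      obtain ⟨h5, h6⟩ := mem_UL_fc.1 hb'
      have h7 : ¬ (i' = P.n) := by omega
      have h8 : ¬ (j + 1 = P.k) := by omega
      have h9 : ¬ (j + 1 = 0) := by omega
      tauto
    · apply hne
      have : i' = i := by omega
      have : j' = j := by omega
      subst i' j'
      rfl
    · omega
  · exact cutw_light_fc hP _ (str_heavy_fc (by omega))

theorem cut_UR_fc {P : Par} (hP : P.Good) {Sel : ℕ → Prop} {i j : ℕ} (hi : i ≠ 0)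
    (hb : (Tg.UR, i, j) ∈ P.TB Sel) : P.ConclFC Sel (.UR, i, j) := by
  obtain ⟨⟨h1, h2⟩, h3⟩ := mem_UR_fc.1 hb
  refine ⟨P.strFC Sel j (2 * i), ?_, ?_, ?_⟩
  · rw [mem_str_fc, mem_str_fc]
    intro h
    have h4 : ¬ P.spFC (btgt (.UR, i, j)) ∧ P.ownFC Sel (btgt (.UR, i, j)) j ∧
      colFC (btgt (.UR, i, j)) ≤ 2 * i := ⟨by simp only [btgt, spFC]; omega, by
        right
        refine ⟨?_, rfl⟩
        tauto, le_rfl⟩
    have h5 := (h.2 h4).2.2
    simp only [bsrc, colFC] at h5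
    omega
  · intro b' hb' hne
    by_contra hs
    rcases str_split_fc (by omega) hb' hs with ⟨i', hi', -⟩ | ⟨i', hi', rfl | ⟨j', hj', rfl⟩⟩
    · omega
    · apply hne
      have : i' = i := by omega
      rw [this]
    · have : i' = i := by omega
      subst this
      obtain ⟨-, h6⟩ := mem_VR_fc.1 hb'
      have h8 : ¬ (j' + 1 = P.k) := by omega
      have h9 : ¬ (j = 0) := by omega
      tauto
  · exact cutw_light_fc hP _ (str_heavy_fc (by omega))

theorem cut_VR_fc {P : Par} (hP : P.Good) {Sel : ℕ → Prop} {i j : ℕ} (hi : i ≠ 0)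
    (hb : (Tg.VR, i, j) ∈ P.TB Sel) : P.ConclFC Sel (.VR, i, j) := by
  obtain ⟨⟨h1, h2⟩, h3⟩ := mem_VR_fc.1 hb
  refine ⟨P.strFC Sel (j + 1) (2 * i), ?_, ?_, ?_⟩
  · rw [mem_str_fc, mem_str_fc]
    intro h
    have h4 : ¬ P.spFC (bsrc (.VR, i, j)) ∧ P.ownFC Sel (bsrc (.VR, i, j)) (j + 1) ∧
      colFC (bsrc (.VR, i, j)) ≤ 2 * i := ⟨by simp only [bsrc, spFC]; omega, by
        left
        exact ⟨h3, rfl⟩, le_rfl⟩
    have h5 := (h.1 h4).2.2
    simp only [btgt, colFC] at h5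
    omega
  · intro b' hb' hne
    by_contra hs
    rcases str_split_fc (by omega) hb' hs with ⟨i', hi', -⟩ | ⟨i', hi', rfl | ⟨j', hj', rfl⟩⟩
    · omega
    · have : i' = i := by omega
      subst this
      obtain ⟨h5, h6⟩ := mem_UR_fc.1 hb'
      have h8 : ¬ (j + 1 = P.k) := by omega
      have h9 : ¬ (j + 1 = 0) := by omega
      tauto
    · apply hne
      have : i' = i := by omega
      have : j' = j := by omega
      subst i' j'
      rfl
  · exact cutw_light_fc hP _ (str_heavy_fc (by omega))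

/-! small sets -/

/-- few crossing bundles -/
theorem cut_small_fc {P : Par} {Sel : ℕ → Prop} (b : Bn) (S : Set Nd) (F : Finset Bn)
    (hbS : ¬ (bsrc b ∈ S ↔ btgt b ∈ S))
    (hF : ∀ b' ∈ P.bundles, ¬ (bsrc b' ∈ S ↔ btgt b' ∈ S) → b' ∈ F)
    (hT : ∀ b' ∈ F, b' ∈ P.TB Sel → b' = b) (hw : ∑ b' ∈ F, P.w b' ≤ P.K) :
    P.ConclFC Sel b := by
  refine ⟨S, hbS, ?_, (cutw_le_fc P S F hF).trans hw⟩
  intro b' hb' hne
  by_contra hs
  exact hne (hT b' (hF b' hb'.1 hs) hb')

/-- column 0 and the columns of the items -/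
theorem cut_E_fc {P : Par} (hP : P.Good) {Sel : ℕ → Prop} {i j : ℕ} (hi : i ≤ P.n)
    (hb : (Tg.E, i, j) ∈ P.TB Sel) : P.ConclFC Sel (.E, i, j) := by
  have hK := K_ge_fc hP
  obtain ⟨h1, h2⟩ := mem_E_fc.1 hb
  have hα := hP.hα (i - 1) j
  have hβ := hP.hβ (i - 1) j
  have hδ := hP.hδ (i - 1) j
  have hwE : P.w (Tg.E, i, j) = P.K - 3 * P.s := by
    simp only [w, ew]
    rw [if_neg (by omega)]
  by_cases hA : i ≠ 0 ∧ Sel (i - 1) ∧ j ≠ 0
  · -- state A : S = {u}
    obtain ⟨hi0, hs, hj0⟩ := hA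
    obtain ⟨i', rfl⟩ : ∃ i', i = i' + 1 := ⟨i - 1, by omega⟩
    rw [Nat.add_sub_cancel] at hs hα
    refine cut_small_fc _ {x | x = Nd.u (i' + 1) j}
      {(Tg.E, i' + 1, j), (Tg.UL, i', j), (Tg.UR, i' + 1, j)} ?_ ?_ ?_ ?_
    · intro h
      have h5 : btgt (.E, i' + 1, j) = Nd.u (i' + 1) j := h.1 rfl
      simp [btgt] at h5
    · rintro ⟨t, i, j'⟩ hb' hs'
      by_contra hn
      simp only [Finset.mem_insert, Finset.mem_singleton, Prod.mk.injEq, not_or] at hn
      apply hs'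
      change (bsrc (t, i, j') = Nd.u (i' + 1) j ↔ btgt (t, i, j') = Nd.u (i' + 1) j)
      cases t <;> simp [bsrc, btgt] at hn ⊢ <;> tauto
    · intro b' hb' hT
      simp only [Finset.mem_insert, Finset.mem_singleton] at hb'
      rcases hb' with rfl | rfl | rfl
      · rfl
      · obtain ⟨-, h6⟩ := mem_UL_fc.1 hT
        have : ¬ (i' = P.n) := by omega
        tauto
      · obtain ⟨-, h6⟩ := mem_UR_fc.1 hT
        rw [Nat.add_sub_cancel] at h6
        have : ¬ (i' + 1 = 0) := by omega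
        tauto
    · have e1 := sum_ins_fc P.w (Tg.E, i' + 1, j) {(Tg.UL, i', j), (Tg.UR, i' + 1, j)}
      have e2 := sum_ins_fc P.w (Tg.UL, i', j) {(Tg.UR, i' + 1, j)}
      rw [Finset.sum_singleton] at e2
      have w1 : P.w (Tg.UL, i', j) = P.s := by
        simp only [w]; rw [if_neg (by omega), if_neg hj0]
      have w2 : P.w (Tg.UR, i' + 1, j) = P.s + P.α i' j := by
        simp only [w]; rw [if_neg (by omega), if_neg hj0, Nat.add_sub_cancel]
      omega
  · by_cases hB : i ≠ 0 ∧ ¬ Sel (i - 1) ∧ j + 1 ≠ P.k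
    · -- state B : S = {g, v}
      obtain ⟨hi0, hs, hjk⟩ := hB
      obtain ⟨i', rfl⟩ : ∃ i', i = i' + 1 := ⟨i - 1, by omega⟩
      rw [Nat.add_sub_cancel] at hs hβ
      refine cut_small_fc _ {x | x = Nd.g (i' + 1) j ∨ x = Nd.v (i' + 1) j}
        {(Tg.E, i' + 1, j), (Tg.VL, i', j), (Tg.VR, i' + 1, j)} ?_ ?_ ?_ ?_
      · intro h
        have h5 : bsrc (.E, i' + 1, j) = Nd.g (i' + 1) j ∨ bsrc (.E, i' + 1, j) = Nd.v (i' + 1) j :=
          h.2 (Or.inl rfl)
        simp [bsrc] at h5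
      · rintro ⟨t, i, j'⟩ hb' hs'
        by_contra hn
        simp only [Finset.mem_insert, Finset.mem_singleton, Prod.mk.injEq, not_or] at hn
        apply hs'
        change ((bsrc (t, i, j') = Nd.g (i' + 1) j ∨ bsrc (t, i, j') = Nd.v (i' + 1) j) ↔
          (btgt (t, i, j') = Nd.g (i' + 1) j ∨ btgt (t, i, j') = Nd.v (i' + 1) j))
        cases t <;> simp [bsrc, btgt] at hn ⊢ <;> tauto
      · intro b' hb' hT
        simp only [Finset.mem_insert, Finset.mem_singleton] at hb'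
        rcases hb' with rfl | rfl | rfl
        · rfl
        · obtain ⟨-, h6⟩ := mem_VL_fc.1 hT
          have : ¬ (i' = P.n) := by omega
          tauto
        · obtain ⟨-, h6⟩ := mem_VR_fc.1 hT
          rw [Nat.add_sub_cancel] at h6
          have : ¬ (i' + 1 = 0) := by omega
          tauto
      · have e1 := sum_ins_fc P.w (Tg.E, i' + 1, j) {(Tg.VL, i', j), (Tg.VR, i' + 1, j)}
        have e2 := sum_ins_fc P.w (Tg.VL, i', j) {(Tg.VR, i' + 1, j)}
        rw [Finset.sum_singleton] at e2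
        have w1 : P.w (Tg.VL, i', j) = P.s := by
          simp only [w]; rw [if_neg (by omega), if_neg hjk]
        have w2 : P.w (Tg.VR, i' + 1, j) = P.s + P.β i' j := by
          simp only [w]; rw [if_neg (by omega), if_neg hjk, Nat.add_sub_cancel]
        omega
    · -- state D or column 0 : S = {g}
      refine cut_small_fc _ {x | x = Nd.g i j} {(Tg.E, i, j), (Tg.D, i, j)} ?_ ?_ ?_ ?_
      · intro h
        have h5 : bsrc (.E, i, j) = Nd.g i j := h.2 rfl
        simp [bsrc] at h5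
      · rintro ⟨t, i', j'⟩ hb' hs'
        by_contra hn
        simp only [Finset.mem_insert, Finset.mem_singleton, Prod.mk.injEq, not_or] at hn
        apply hs'
        change (bsrc (t, i', j') = Nd.g i j ↔ btgt (t, i', j') = Nd.g i j)
        cases t <;> simp [bsrc, btgt] at hn ⊢ <;> tauto
      · intro b' hb' hT
        simp only [Finset.mem_insert, Finset.mem_singleton] at hb'
        rcases hb' with rfl | rfl
        · rfl
        · obtain ⟨-, h6⟩ := mem_D_fc.1 hT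
          have : ¬ (i = P.n + 1) := by omega
          tauto
      · have e1 := sum_ins_fc P.w (Tg.E, i, j) {(Tg.D, i, j)}
        rw [Finset.sum_singleton] at e1
        have w1 : P.w (Tg.D, i, j) ≤ 3 * P.s := by
          simp only [w]
          rw [if_neg (by omega : ¬ i = P.n + 1)]
          split_ifs <;> omega
        omega

theorem cut_D_fc {P : Par} (hP : P.Good) {Sel : ℕ → Prop} {i j : ℕ} (hi : i ≤ P.n)
    (hb : (Tg.D, i, j) ∈ P.TB Sel) : P.ConclFC Sel (.D, i, j) := by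
  have hK := K_ge_fc hP
  obtain ⟨⟨h1, h2⟩, h3⟩ := mem_D_fc.1 hb
  have hα := hP.hα (i - 1) j
  have hβ := hP.hβ (i - 1) j
  have hδ := hP.hδ (i - 1) j
  obtain ⟨hi0, h4⟩ := h3.resolve_left (by omega)
  obtain ⟨i', rfl⟩ : ∃ i', i = i' + 1 := ⟨i - 1, by omega⟩
  rw [Nat.add_sub_cancel] at h4 hα hβ hδ
  have hwD : P.w (Tg.D, i' + 1, j) = 2 * P.s + P.δ i' j := by
    simp only [w]; rw [if_neg (by omega), if_neg (by omega), Nat.add_sub_cancel]
  rcases h4 with ⟨hs, hj0⟩ | ⟨hs, hjk⟩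
  · refine cut_small_fc _ {x | x = Nd.u (i' + 1) j ∨ x = Nd.g (i' + 1) j}
      {(Tg.D, i' + 1, j), (Tg.UL, i', j), (Tg.UR, i' + 1, j)} ?_ ?_ ?_ ?_
    · intro h
      have h5 : btgt (.D, i' + 1, j) = Nd.u (i' + 1) j ∨ btgt (.D, i' + 1, j) = Nd.g (i' + 1) j :=
        h.1 (Or.inr rfl)
      simp [btgt] at h5
    · rintro ⟨t, i, j'⟩ hb' hs'
      by_contra hn
      simp only [Finset.mem_insert, Finset.mem_singleton, Prod.mk.injEq, not_or] at hn
      apply hs'
      change ((bsrc (t, i, j') = Nd.u (i' + 1) j ∨ bsrc (t, i, j') = Nd.g (i' + 1) j) ↔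
        (btgt (t, i, j') = Nd.u (i' + 1) j ∨ btgt (t, i, j') = Nd.g (i' + 1) j))
      cases t <;> simp [bsrc, btgt] at hn ⊢ <;> tauto
    · intro b' hb' hT
      simp only [Finset.mem_insert, Finset.mem_singleton] at hb'
      rcases hb' with rfl | rfl | rfl
      · rfl
      · obtain ⟨-, h6⟩ := mem_UL_fc.1 hT
        have : ¬ (i' = P.n) := by omega
        tauto
      · obtain ⟨-, h6⟩ := mem_UR_fc.1 hT
        rw [Nat.add_sub_cancel] at h6
        have : ¬ (i' + 1 = 0) := by omega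
        tauto
    · have e1 := sum_ins_fc P.w (Tg.D, i' + 1, j) {(Tg.UL, i', j), (Tg.UR, i' + 1, j)}
      have e2 := sum_ins_fc P.w (Tg.UL, i', j) {(Tg.UR, i' + 1, j)}
      rw [Finset.sum_singleton] at e2
      have w1 : P.w (Tg.UL, i', j) = P.s := by
        simp only [w]; rw [if_neg (by omega), if_neg hj0]
      have w2 : P.w (Tg.UR, i' + 1, j) = P.s + P.α i' j := by
        simp only [w]; rw [if_neg (by omega), if_neg hj0, Nat.add_sub_cancel]
      omega
  · refine cut_small_fc _ {x | x = Nd.v (i' + 1) j}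
      {(Tg.D, i' + 1, j), (Tg.VL, i', j), (Tg.VR, i' + 1, j)} ?_ ?_ ?_ ?_
    · intro h
      have h5 : bsrc (.D, i' + 1, j) = Nd.v (i' + 1) j := h.2 rfl
      simp [bsrc] at h5
    · rintro ⟨t, i, j'⟩ hb' hs'
      by_contra hn
      simp only [Finset.mem_insert, Finset.mem_singleton, Prod.mk.injEq, not_or] at hn
      apply hs'
      change (bsrc (t, i, j') = Nd.v (i' + 1) j ↔ btgt (t, i, j') = Nd.v (i' + 1) j)
      cases t <;> simp [bsrc, btgt] at hn ⊢ <;> tauto
    · intro b' hb' hT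
      simp only [Finset.mem_insert, Finset.mem_singleton] at hb'
      rcases hb' with rfl | rfl | rfl
      · rfl
      · obtain ⟨-, h6⟩ := mem_VL_fc.1 hT
        have : ¬ (i' = P.n) := by omega
        tauto
      · obtain ⟨-, h6⟩ := mem_VR_fc.1 hT
        rw [Nat.add_sub_cancel] at h6
        have : ¬ (i' + 1 = 0) := by omega
        tauto
    · have e1 := sum_ins_fc P.w (Tg.D, i' + 1, j) {(Tg.VL, i', j), (Tg.VR, i' + 1, j)}
      have e2 := sum_ins_fc P.w (Tg.VL, i', j) {(Tg.VR, i' + 1, j)}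
      rw [Finset.sum_singleton] at e2
      have w1 : P.w (Tg.VL, i', j) = P.s := by
        simp only [w]; rw [if_neg (by omega), if_neg hjk]
      have w2 : P.w (Tg.VR, i' + 1, j) = P.s + P.β i' j := by
        simp only [w]; rw [if_neg (by omega), if_neg hjk, Nat.add_sub_cancel]
      omega

theorem cut_UR0_fc {P : Par} (hP : P.Good) {Sel : ℕ → Prop} {j : ℕ} :
    P.ConclFC Sel (.UR, 0, j) := by
  have hK := K_ge_fc hP
  refine cut_small_fc _ {x | x = Nd.u 0 j ∨ x = Nd.g 0 j}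
    {(Tg.UR, 0, j), (Tg.D, 0, j)} ?_ ?_ ?_ ?_
  · intro h
    have h5 : bsrc (.UR, 0, j) = Nd.u 0 j ∨ bsrc (.UR, 0, j) = Nd.g 0 j :=
      h.2 (Or.inl rfl)
    simp [bsrc] at h5
  · rintro ⟨t, i, j'⟩ hb' hs'
    by_contra hn
    simp only [Finset.mem_insert, Finset.mem_singleton, Prod.mk.injEq, not_or] at hn
    apply hs'
    change ((bsrc (t, i, j') = Nd.u 0 j ∨ bsrc (t, i, j') = Nd.g 0 j) ↔
      (btgt (t, i, j') = Nd.u 0 j ∨ btgt (t, i, j') = Nd.g 0 j))
    cases t <;> simp [bsrc, btgt] at hn ⊢ <;> tauto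
  · intro b' hb' hT
    simp only [Finset.mem_insert, Finset.mem_singleton] at hb'
    rcases hb' with rfl | rfl
    · rfl
    · obtain ⟨-, h6⟩ := mem_D_fc.1 hT
      have : ¬ (0 = P.n + 1) := by omega
      tauto
  · have e1 := sum_ins_fc P.w (Tg.UR, 0, j) {(Tg.D, 0, j)}
    rw [Finset.sum_singleton] at e1
    have w1 : P.w (Tg.UR, 0, j) = 2 * P.s := by simp only [w, if_true]
    have w2 : P.w (Tg.D, 0, j) = 2 * P.s := by simp only [w, if_true]
    omega

theorem cut_VR0_fc {P : Par} (hP : P.Good) {Sel : ℕ → Prop} {j : ℕ} :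
    P.ConclFC Sel (.VR, 0, j) := by
  have hK := K_ge_fc hP
  refine cut_small_fc _ {x | x = Nd.v 0 j}
    {(Tg.VR, 0, j), (Tg.D, 0, j)} ?_ ?_ ?_ ?_
  · intro h
    have h5 : btgt (.VR, 0, j) = Nd.v 0 j := h.1 rfl
    simp [btgt] at h5
  · rintro ⟨t, i, j'⟩ hb' hs'
    by_contra hn
    simp only [Finset.mem_insert, Finset.mem_singleton, Prod.mk.injEq, not_or] at hn
    apply hs'
    change (bsrc (t, i, j') = Nd.v 0 j ↔ btgt (t, i, j') = Nd.v 0 j)
    cases t <;> simp [bsrc, btgt] at hn ⊢ <;> tauto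
  · intro b' hb' hT
    simp only [Finset.mem_insert, Finset.mem_singleton] at hb'
    rcases hb' with rfl | rfl
    · rfl
    · obtain ⟨-, h6⟩ := mem_D_fc.1 hT
      have : ¬ (0 = P.n + 1) := by omega
      tauto
  · have e1 := sum_ins_fc P.w (Tg.VR, 0, j) {(Tg.D, 0, j)}
    rw [Finset.sum_singleton] at e1
    have w1 : P.w (Tg.VR, 0, j) = 2 * P.s := by simp only [w, if_true]
    have w2 : P.w (Tg.D, 0, j) = 2 * P.s := by simp only [w, if_true]
    omega

/-! the spine -/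

/-- own strip at most `r` -/
def oleFC (P : Par) (Sel : ℕ → Prop) : Nd → ℕ → Prop
  | .q _ j, r => j ≤ r
  | .u i j, r => (i ≠ 0 ∧ Sel (i - 1) ∧ j ≠ 0 ∧ j + 1 ≤ r) ∨
      (¬ (i ≠ 0 ∧ Sel (i - 1) ∧ j ≠ 0) ∧ j ≤ r)
  | .g i j, r => (i ≠ 0 ∧ Sel (i - 1) ∧ j ≠ 0 ∧ j + 1 ≤ r) ∨
      (¬ (i ≠ 0 ∧ Sel (i - 1) ∧ j ≠ 0) ∧ j ≤ r)
  | .v i j, r => ((i = 0 ∨ Sel (i - 1) ∨ j + 1 = P.k) ∧ j + 1 ≤ r) ∨
      (¬ (i = 0 ∨ Sel (i - 1) ∨ j + 1 = P.k) ∧ j ≤ r)

/-- the upper part, cut in the spine -/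
def spnFC (P : Par) (Sel : ℕ → Prop) (j r : ℕ) : Set Nd :=
  {x | (¬ P.spFC x ∧ P.oleFC Sel x j) ∨ (P.spFC x ∧ posFC x ≤ 4 * j + r)}

theorem mem_spn_fc {P : Par} {Sel : ℕ → Prop} {j r : ℕ} {x : Nd} :
    x ∈ P.spnFC Sel j r ↔ (¬ P.spFC x ∧ P.oleFC Sel x j) ∨ (P.spFC x ∧ posFC x ≤ 4 * j + r) :=
  Iff.rfl

open scoped Classical in
/-- the bundles of item `i` that are split -/
noncomputable def itFC (P : Par) (Sel : ℕ → Prop) (j i : ℕ) : Finset Bn :=
  if Sel i then (if j = 0 then {(Tg.D, i + 1, j)} else {(Tg.UL, i, j), (Tg.UR, i + 1, j)})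
  else (if j + 1 = P.k then {(Tg.D, i + 1, j)} else {(Tg.VL, i, j), (Tg.VR, i + 1, j)})

theorem spn_split_fc {P : Par} {Sel : ℕ → Prop} {j r : ℕ} (hr : r ≤ 3) {b : Bn}
    (hb : b ∈ P.bundles)
    (hs : ¬ (bsrc b ∈ P.spnFC Sel j r ↔ btgt b ∈ P.spnFC Sel j r)) :
    ((r = 0 ∧ b = (.UL, P.n, j)) ∨ (r = 1 ∧ b = (.E, P.n + 1, j)) ∨
      (r = 2 ∧ b = (.D, P.n + 1, j)) ∨ (r = 3 ∧ b = (.VL, P.n, j))) ∨
    b = (.D, 0, j) ∨ ∃ i < P.n, b ∈ P.itFC Sel j i := by
  obtain ⟨t, i, j'⟩ := b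
  rw [mem_spn_fc, mem_spn_fc] at hs
  obtain ⟨hb1, hb2⟩ := mem_bundles_fc.1 hb
  cases t with
  | UL =>
    simp only [cols] at hb1
    by_cases hin : i = P.n
    · subst hin
      left; left
      simp only [bsrc, btgt, spFC, posFC, oleFC, not_true_eq_false, not_false_eq_true, true_and,
        false_and, false_or, or_false] at hs
      have : r = 0 ∧ j' = j := by omega
      refine ⟨this.1, ?_⟩
      rw [this.2]
    · right; right
      refine ⟨i, by omega, ?_⟩
      simp only [bsrc, btgt, spFC, oleFC, not_true_eq_false, not_false_eq_true, true_and,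
        false_and, false_or, or_false, Nat.add_right_cancel_iff, hin, Nat.add_sub_cancel] at hs
      by_cases hsel : Sel i
      · by_cases hj' : j' = 0
        · exfalso; apply hs; simp [hj']
        · simp only [hsel, hj', not_false_eq_true, ne_eq, Nat.add_eq_zero_iff, one_ne_zero,
            and_false, true_and, not_true_eq_false, false_and, or_false] at hs
          have : j' = j := by omega
          subst this
          simp [itFC, hsel, hj']
      · exfalso; apply hs; simp [hsel]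
  | UR =>
    simp only [cols] at hb1
    have hin : ¬ (i = P.n + 1) := by omega
    simp only [bsrc, btgt, spFC, oleFC, not_true_eq_false, not_false_eq_true, true_and,
        false_and, false_or, or_false, hin] at hs
    by_cases hi0 : i = 0
    · exfalso; apply hs; simp [hi0]
    · obtain ⟨i', rfl⟩ : ∃ i', i = i' + 1 := ⟨i - 1, by omega⟩
      rw [Nat.add_sub_cancel] at hs
      right; right
      refine ⟨i', by omega, ?_⟩
      by_cases hsel : Sel i'
      · by_cases hj' : j' = 0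
        · exfalso; apply hs; simp [hj']
        · simp only [hsel, hj', not_false_eq_true, ne_eq, Nat.add_eq_zero_iff, one_ne_zero,
            and_false, true_and, not_true_eq_false, false_and, or_false] at hs
          have : j' = j := by omega
          subst this
          simp [itFC, hsel, hj']
      · exfalso; apply hs; simp [hsel]
  | E =>
    simp only [cols] at hb1
    by_cases hin : i = P.n + 1
    · subst hin
      left; right; left
      simp only [bsrc, btgt, spFC, posFC, not_true_eq_false, true_and,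
        false_and, false_or] at hs
      have : r = 1 ∧ j' = j := by omega
      refine ⟨this.1, ?_⟩
      rw [this.2]
    · exfalso
      apply hs
      simp only [bsrc, btgt, spFC, oleFC, hin, not_false_eq_true, true_and, false_and, or_false]
  | D =>
    simp only [cols] at hb1
    by_cases hin : i = P.n + 1
    · subst hin
      left; right; right; left
      simp only [bsrc, btgt, spFC, posFC, not_true_eq_false, true_and,
        false_and, false_or] at hs
      have : r = 2 ∧ j' = j := by omega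
      refine ⟨this.1, ?_⟩
      rw [this.2]
    · simp only [bsrc, btgt, spFC, oleFC, hin, not_false_eq_true, true_and, false_and,
        or_false] at hs
      by_cases hi0 : i = 0
      · subst hi0
        right; left
        simp only [ne_eq, not_true_eq_false, false_and, not_false_eq_true, true_and, false_or,
          true_or, or_false] at hs
        have : j' = j := by omega
        rw [this]
      · obtain ⟨i', rfl⟩ : ∃ i', i = i' + 1 := ⟨i - 1, by omega⟩
        rw [Nat.add_sub_cancel] at hs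
        right; right
        refine ⟨i', by omega, ?_⟩
        by_cases hsel : Sel i'
        · by_cases hj' : j' = 0
          · subst hj'
            simp only [hsel, ne_eq, Nat.add_eq_zero_iff, one_ne_zero, and_false,
              not_false_eq_true, not_true_eq_false, true_and, false_and, false_or, true_or,
              or_true, or_false] at hs
            have : 0 = j := by omega
            subst this
            simp [itFC, hsel]
          · exfalso; apply hs; simp [hsel, hj']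
        · by_cases hjk : j' + 1 = P.k
          · simp only [hsel, hjk, ne_eq, Nat.add_eq_zero_iff, one_ne_zero, and_false,
              not_false_eq_true, not_true_eq_false, true_and, false_and, false_or, true_or,
              or_true, or_false] at hs
            have : j' = j := by omega
            subst this
            simp [itFC, hsel, hjk]
          · exfalso; apply hs; simp [hsel, hjk]
  | VL =>
    simp only [cols] at hb1
    by_cases hin : i = P.n
    · subst hin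
      left; right; right; right
      simp only [bsrc, btgt, spFC, posFC, oleFC, not_true_eq_false, not_false_eq_true, true_and,
        false_and, false_or, or_false] at hs
      have : r = 3 ∧ j' = j := by omega
      refine ⟨this.1, ?_⟩
      rw [this.2]
    · right; right
      refine ⟨i, by omega, ?_⟩
      simp only [bsrc, btgt, spFC, oleFC, not_true_eq_false, not_false_eq_true, true_and,
        false_and, false_or, or_false, Nat.add_right_cancel_iff, hin, Nat.add_sub_cancel,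
        Nat.add_eq_zero_iff, one_ne_zero, and_false] at hs
      by_cases hsel : Sel i
      · exfalso; apply hs; simp [hsel]
      · by_cases hjk : j' + 1 = P.k
        · exfalso; apply hs; simp [hjk]
        · simp only [hsel, hjk, or_self, false_and, not_false_eq_true, true_and, false_or] at hs
          have : j' = j := by omega
          subst this
          simp [itFC, hsel, hjk]
  | VR =>
    simp only [cols] at hb1
    have hin : ¬ (i = P.n + 1) := by omega
    simp only [bsrc, btgt, spFC, oleFC, not_true_eq_false, not_false_eq_true, true_and,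
        false_and, false_or, or_false, hin] at hs
    by_cases hi0 : i = 0
    · exfalso; apply hs; simp [hi0]
    · obtain ⟨i', rfl⟩ : ∃ i', i = i' + 1 := ⟨i - 1, by omega⟩
      rw [Nat.add_sub_cancel] at hs
      right; right
      refine ⟨i', by omega, ?_⟩
      by_cases hsel : Sel i'
      · exfalso; apply hs; simp [hsel]
      · by_cases hjk : j' + 1 = P.k
        · exfalso; apply hs; simp [hjk]
        · simp only [hsel, hjk, or_self, false_and, not_false_eq_true, true_and, false_or,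
            Nat.add_eq_zero_iff, one_ne_zero, and_false] at hs
          have : j' = j := by omega
          subst this
          simp [itFC, hsel, hjk]

theorem spn_TB_fc {P : Par} {Sel : ℕ → Prop} {j : ℕ} {b : Bn} (hb : b ∈ P.TB Sel)
    (h : b = (.D, 0, j) ∨ ∃ i < P.n, b ∈ P.itFC Sel j i) : False := by
  rcases h with rfl | ⟨i, hi, h⟩
  · obtain ⟨-, h6⟩ := mem_D_fc.1 hb
    have : ¬ (0 = P.n + 1) := by omega
    tauto
  · have hin : ¬ (i = P.n) := by omega
    have hi0 : ¬ (i + 1 = 0) := by omega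
    have hin' : ¬ (i + 1 = P.n + 1) := by omega
    unfold itFC at h
    split_ifs at h with h1 h2 h3
    · rw [Finset.mem_singleton] at h
      subst h
      obtain ⟨-, h6⟩ := mem_D_fc.1 hb
      rw [Nat.add_sub_cancel] at h6
      tauto
    · rw [Finset.mem_insert, Finset.mem_singleton] at h
      rcases h with rfl | rfl
      · obtain ⟨-, h6⟩ := mem_UL_fc.1 hb
        tauto
      · obtain ⟨-, h6⟩ := mem_UR_fc.1 hb
        rw [Nat.add_sub_cancel] at h6
        tauto
    · rw [Finset.mem_singleton] at h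
      subst h
      obtain ⟨-, h6⟩ := mem_D_fc.1 hb
      rw [Nat.add_sub_cancel] at h6
      tauto
    · rw [Finset.mem_insert, Finset.mem_singleton] at h
      rcases h with rfl | rfl
      · obtain ⟨-, h6⟩ := mem_VL_fc.1 hb
        tauto
      · obtain ⟨-, h6⟩ := mem_VR_fc.1 hb
        rw [Nat.add_sub_cancel] at h6
        tauto

open scoped Classical in
theorem sum_it_fc {P : Par} {Sel : ℕ → Prop} {i j : ℕ} (hi : i < P.n) :
    ∑ b ∈ P.itFC Sel j i, P.w b ≤ 2 * P.s + (if Sel i then (if j = 0 then P.δ i j else P.α i j)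
      else (if j + 1 = P.k then P.δ i j else P.β i j)) := by
  have wD : P.w (Tg.D, i + 1, j) = 2 * P.s + P.δ i j := by
    simp only [w]; rw [if_neg (by omega), if_neg (by omega), Nat.add_sub_cancel]
  unfold itFC
  split_ifs with h1 h2 h3
  · rw [Finset.sum_singleton, wD]
  · have e1 := sum_ins_fc P.w (Tg.UL, i, j) {(Tg.UR, i + 1, j)}
    rw [Finset.sum_singleton] at e1
    have w1 : P.w (Tg.UL, i, j) = P.s := by
      simp only [w]; rw [if_neg (by omega), if_neg h2]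
    have w2 : P.w (Tg.UR, i + 1, j) = P.s + P.α i j := by
      simp only [w]; rw [if_neg (by omega), if_neg h2, Nat.add_sub_cancel]
    omega
  · rw [Finset.sum_singleton, wD]
  · have e1 := sum_ins_fc P.w (Tg.VL, i, j) {(Tg.VR, i + 1, j)}
    rw [Finset.sum_singleton] at e1
    have w1 : P.w (Tg.VL, i, j) = P.s := by
      simp only [w]; rw [if_neg (by omega), if_neg h3]
    have w2 : P.w (Tg.VR, i + 1, j) = P.s + P.β i j := by
      simp only [w]; rw [if_neg (by omega), if_neg h3, Nat.add_sub_cancel]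
    omega

open scoped Classical in
theorem cut_spine_fc {P : Par} (hP : P.Good) (Sel : ℕ → Prop) {j r : ℕ} (hj : j < P.k)
    (hSel : ∑ i ∈ Finset.range P.n, (if Sel i then (if j = 0 then P.δ i j else P.α i j)
      else (if j + 1 = P.k then P.δ i j else P.β i j)) ≤ P.b j)
    (hr : r ≤ 3) (b : Bn) (hw : P.w b = P.cw j)
    (hbS : ¬ (bsrc b ∈ P.spnFC Sel j r ↔ btgt b ∈ P.spnFC Sel j r))
    (hb : ∀ b' : Bn, ((r = 0 ∧ b' = (.UL, P.n, j)) ∨ (r = 1 ∧ b' = (.E, P.n + 1, j)) ∨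
      (r = 2 ∧ b' = (.D, P.n + 1, j)) ∨ (r = 3 ∧ b' = (.VL, P.n, j))) → b' = b) :
    P.ConclFC Sel b := by
  let F : Finset Bn := insert b (insert (Tg.D, 0, j) ((Finset.range P.n).biUnion (P.itFC Sel j)))
  refine ⟨P.spnFC Sel j r, hbS, ?_, ?_⟩
  · intro b' hb' hne
    by_contra hs
    rcases spn_split_fc hr hb'.1 hs with h | h
    · exact hne (hb b' h)
    · exact spn_TB_fc hb' h
  · have h1 : P.cutw (P.spnFC Sel j r) ≤ ∑ b' ∈ F, P.w b' := by
      apply cutw_le_fc
      intro b' hb' hs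
      simp only [F, Finset.mem_insert, Finset.mem_biUnion, Finset.mem_range]
      rcases spn_split_fc hr hb' hs with h | h | h
      · exact Or.inl (hb b' h)
      · exact Or.inr (Or.inl h)
      · exact Or.inr (Or.inr h)
    have e1 := sum_ins_fc P.w b (insert (Tg.D, 0, j) ((Finset.range P.n).biUnion (P.itFC Sel j)))
    have e2 := sum_ins_fc P.w (Tg.D, 0, j) ((Finset.range P.n).biUnion (P.itFC Sel j))
    have e3 := sum_biUnion_fc P.w (Finset.range P.n) (P.itFC Sel j)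
      (fun i => 2 * P.s + (if Sel i then (if j = 0 then P.δ i j else P.α i j)
      else (if j + 1 = P.k then P.δ i j else P.β i j)))
      (fun i hi => sum_it_fc (Finset.mem_range.1 hi))
    rw [Finset.sum_add_distrib, Finset.sum_const, Finset.card_range, smul_eq_mul] at e3
    have w2 : P.w (Tg.D, 0, j) = 2 * P.s := by simp only [w, if_true]
    have hK := K_ge2_fc hP j
    have hcw : P.cw j = P.K - 2 * P.s * (P.n + 1) - P.b j := rfl
    have e4 : 2 * P.s * (P.n + 1) = 2 * P.s + P.n * (2 * P.s) := by ring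
    have e5 := hSel
    have e6 : ∑ b' ∈ F, P.w b' = ∑ b ∈ insert b (insert (Tg.D, 0, j)
      ((Finset.range P.n).biUnion (P.itFC Sel j))), P.w b := rfl
    rw [e6] at h1
    rw [e4] at hcw hK
    generalize P.n * (2 * P.s) = Y at *
    omega

open scoped Classical in
theorem TB_cut {P : Par} (hP : P.Good) (Sel : ℕ → Prop)
    (hSel : ∀ j < P.k, ∑ i ∈ Finset.range P.n, (if Sel i then (if j = 0 then P.δ i j else P.α i j)
      else (if j + 1 = P.k then P.δ i j else P.β i j)) ≤ P.b j)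
    (b : Bn) (hb : b ∈ P.TB Sel) : ∃ S : Set Nd, ¬ (bsrc b ∈ S ↔ btgt b ∈ S) ∧
      (∀ b' ∈ P.TB Sel, b' ≠ b → (bsrc b' ∈ S ↔ btgt b' ∈ S)) ∧ P.cutw S ≤ P.K := by
  change P.ConclFC Sel b
  obtain ⟨t, i, j⟩ := b
  cases t with
  | UL =>
    obtain ⟨⟨h1, h2⟩, h3⟩ := mem_UL_fc.1 hb
    by_cases hin : i = P.n
    · subst hin
      refine cut_spine_fc hP Sel h2 (hSel j h2) (r := 0) (by omega) _ (by simp only [w, if_true]) ?_
        (by rintro b' (⟨-, h⟩ | ⟨h, -⟩ | ⟨h, -⟩ | ⟨h, -⟩) <;> first | exact h | omega)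
      rw [mem_spn_fc, mem_spn_fc]
      simp only [bsrc, btgt, spFC, posFC, oleFC, not_true_eq_false, not_false_eq_true, true_and,
        false_and, false_or, or_false]
      omega
    · exact cut_UL_fc hP (by omega) hb
  | UR =>
    by_cases hi : i = 0
    · subst hi
      exact cut_UR0_fc hP
    · exact cut_UR_fc hP hi hb
  | E =>
    obtain ⟨h1, h2⟩ := mem_E_fc.1 hb
    by_cases hin : i = P.n + 1
    · subst hin
      refine cut_spine_fc hP Sel h2 (hSel j h2) (r := 1) (by omega) _ (by simp only [w, if_true]) ?_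
        (by rintro b' (⟨h, -⟩ | ⟨-, h⟩ | ⟨h, -⟩ | ⟨h, -⟩) <;> first | exact h | omega)
      rw [mem_spn_fc, mem_spn_fc]
      simp only [bsrc, btgt, spFC, posFC, not_true_eq_false, true_and, false_and, false_or]
      omega
    · exact cut_E_fc hP (by omega) hb
  | D =>
    obtain ⟨⟨h1, h2⟩, h3⟩ := mem_D_fc.1 hb
    by_cases hin : i = P.n + 1
    · subst hin
      refine cut_spine_fc hP Sel h2 (hSel j h2) (r := 2) (by omega) _ ?_ ?_
        (by rintro b' (⟨h, -⟩ | ⟨h, -⟩ | ⟨-, h⟩ | ⟨h, -⟩) <;> first | exact h | omega)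
      · simp only [w]
        rw [if_neg (by omega), if_pos trivial]
      rw [mem_spn_fc, mem_spn_fc]
      simp only [bsrc, btgt, spFC, posFC, not_true_eq_false, true_and, false_and, false_or]
      omega
    · exact cut_D_fc hP (by omega) hb
  | VL =>
    obtain ⟨⟨h1, h2⟩, h3⟩ := mem_VL_fc.1 hb
    by_cases hin : i = P.n
    · subst hin
      refine cut_spine_fc hP Sel h2 (hSel j h2) (r := 3) (by omega) _ (by simp only [w, if_true]) ?_
        (by rintro b' (⟨h, -⟩ | ⟨h, -⟩ | ⟨h, -⟩ | ⟨-, h⟩) <;> first | exact h | omega)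
      rw [mem_spn_fc, mem_spn_fc]
      simp only [bsrc, btgt, spFC, posFC, oleFC, not_true_eq_false, not_false_eq_true, true_and,
        false_and, false_or, or_false]
      omega
    · exact cut_VL_fc hP (by omega) hb
  | VR =>
    by_cases hi : i = 0
    · subst hi
      exact cut_VR0_fc hP
    · exact cut_VR_fc hP hi hb

end Par

end Pool.Agent.Lib.MP_20e1d9_lc
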