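import Mathlib
import Pool.Agent.Lib.PolyTime.FlatSim
import Pool.Agent.Lib.PolyTime.ToTM2

section

/-!
Functions computed by structured stack programs in a given time, adapted from the files
Closure, FlatSim, OfTM2 and ToTM2 of Pool.Agent.Lib.PolyTime.
-/

set_option autoImplicit false

namespace Pool.Agent.Lib.MP_20e1d9_lc

open Function Encodable Turing
open Pool.Agent.Lib.PolyTime

/-- The function `F`, on the inputs `a` with `X a` given as the list `ea a`, is computed by a
structured stack program in time `t a`. -/
def InTime {α A B : Type} [Encodable A] [Encodable B] (X : α → Prop) (ea : α → List A)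
    (F : α → List B) (t : α → ℕ) : Prop :=
  ∃ (ι τ : Type) (_ : Fintype ι) (_ : Fintype τ) (τ₀ : τ),
    (∀ a, X a → (F a).length ≤ t a) ∧
    ∀ (K σ : Type) [DecidableEq K] (inp out : K) (loc : ι → K) (L : Lens σ τ),
      inp ≠ out → Injective loc → (∀ i, loc i ≠ inp) → (∀ i, loc i ≠ out) →
      ∃ c : Cmd K σ, c.Only (fun k => k = inp ∨ k = out ∨ ∃ i, k = loc i) ∧
        ∀ a, X a → ∀ v S, L.get v = τ₀ → S inp = (ea a).map encode → (∀ i, S (loc i) = []) →
        Runs c v S v (update S out ((F a).map encode ++ S out)) (t a)

section

variable {α A B : Type} [Encodable A] [Encodable B] {X Y : α → Prop} {ea : α → List A}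
  {F G : α → List B} {t t' : α → ℕ}

theorem InTime.length_le (h : InTime X ea F t) (a : α) (ha : X a) : (F a).length ≤ t a := by
  obtain ⟨ι, τ, hι, hτ, τ₀, hlen, h⟩ := h
  exact hlen a ha

theorem InTime.mono (h : InTime X ea F t) (hXY : ∀ a, Y a → X a) (ht : ∀ a, Y a → t a ≤ t' a) :
    InTime Y ea F t' := by
  obtain ⟨ι, τ, hι, hτ, τ₀, hlen, h⟩ := h
  refine ⟨ι, τ, hι, hτ, τ₀, fun a ha => (hlen a (hXY a ha)).trans (ht a ha), ?_⟩
  intro K σ _ inp out loc L h1 h2 h3 h4
  obtain ⟨c, hc, hrun⟩ := h K σ inp out loc L h1 h2 h3 h4
  exact ⟨c, hc, fun a ha v S h5 h6 h7 => (hrun a (hXY a ha) v S h5 h6 h7).mono (ht a ha)⟩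

theorem InTime.congr (h : InTime X ea F t) (hFG : ∀ a, X a → F a = G a) : InTime X ea G t := by
  obtain ⟨ι, τ, hι, hτ, τ₀, hlen, h⟩ := h
  refine ⟨ι, τ, hι, hτ, τ₀, fun a ha => by rw [← hFG a ha]; exact hlen a ha, ?_⟩
  intro K σ _ inp out loc L h1 h2 h3 h4
  obtain ⟨c, hc, hrun⟩ := h K σ inp out loc L h1 h2 h3 h4
  exact ⟨c, hc, fun a ha => by rw [← hFG a ha]; exact hrun a ha⟩

/-- Concatenation of the outputs. -/
theorem InTime.append (hF : InTime X ea F t) (hG : InTime X ea G t') :
    InTime X ea (fun a => F a ++ G a) (fun a => t a + t' a) := by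
  obtain ⟨ι, τ, hι, hτ, τ₀, hlen, h⟩ := hF
  obtain ⟨ι', τ', hι', hτ', τ₀', hlen', h'⟩ := hG
  refine ⟨ι ⊕ ι', τ × τ', inferInstance, inferInstance, (τ₀, τ₀'), ?_, ?_⟩
  · intro a ha
    rw [List.length_append]
    exact Nat.add_le_add (hlen a ha) (hlen' a ha)
  · intro K σ _ inp out loc L h1 h2 h3 h4
    obtain ⟨c, hc, hrun⟩ := h K σ inp out (fun i => loc (Sum.inl i)) L.fst h1
      (h2.comp Sum.inl_injective) (fun i => h3 _) (fun i => h4 _)
    obtain ⟨d, hd, hrun'⟩ := h' K σ inp out (fun i => loc (Sum.inr i)) L.snd h1
      (h2.comp Sum.inr_injective) (fun i => h3 _) (fun i => h4 _)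
    refine ⟨.seq d c, ⟨hd.mono ?_, hc.mono ?_⟩, ?_⟩
    · rintro k (h | h | ⟨i, h⟩)
      · exact Or.inl h
      · exact Or.inr (Or.inl h)
      · exact Or.inr (Or.inr ⟨_, h⟩)
    · rintro k (h | h | ⟨i, h⟩)
      · exact Or.inl h
      · exact Or.inr (Or.inl h)
      · exact Or.inr (Or.inr ⟨_, h⟩)
    · intro a ha v S hv hinp hloc
      have r1 := hrun' a ha v S (L.snd_get_of hv) hinp (fun i => hloc _)
      have r2 := hrun a ha v (update S out ((G a).map encode ++ S out)) (L.fst_get_of hv)
        (by rw [update_of_ne h1]; exact hinp)
        (fun i => by rw [update_of_ne (h4 _)]; exact hloc _)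
      refine ((r1.seq r2).of_eq rfl ?_).mono ?_
      · simp
      · dsimp only
        omega

/-- Composition. -/
theorem InTime.comp {β M : Type} [Encodable M] [Fintype M] {Z : β → Prop} {eb : β → List M}
    {H : β → List B} {s : β → ℕ} (hH : InTime Z eb H s) {φ : α → β}
    (hφ : InTime X ea (fun a => eb (φ a)) t) (hX : ∀ a, X a → Z (φ a)) :
    InTime X ea (fun a => H (φ a))
      (fun a => t a + s (φ a) + (3 * (eb (φ a)).length + 2)) := by
  obtain ⟨ι, τ, hι, hτ, τ₀, hlen, h⟩ := hφ
  obtain ⟨ι', τ', hι', hτ', τ₀', hlen', h'⟩ := hH
  refine ⟨(ι ⊕ ι') ⊕ Unit, Option M × (τ × τ'), inferInstance, inferInstance,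
    (none, (τ₀, τ₀')), ?_, ?_⟩
  · intro a ha
    have h1 := hlen' (φ a) (hX a ha)
    dsimp only
    omega
  · intro K σ _ inp out loc L h1 h2 h3 h4
    set mid : K := loc (Sum.inr ()) with hmid
    have hmidinp : mid ≠ inp := h3 _
    have hmidout : mid ≠ out := h4 _
    obtain ⟨c, hc, hrun⟩ := h K σ inp mid (fun i => loc (Sum.inl (Sum.inl i))) L.snd.fst
      hmidinp.symm
      (h2.comp (Sum.inl_injective.comp Sum.inl_injective)) (fun i => h3 _)
      (fun i => h2.ne (by simp))
    obtain ⟨d, hd, hrun'⟩ := h' K σ mid out (fun i => loc (Sum.inl (Sum.inr i))) L.snd.snd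
      hmidout (h2.comp (Sum.inl_injective.comp Sum.inr_injective)) (fun i => h2.ne (by simp))
      (fun i => h4 _)
    refine ⟨.seq c (.seq d (clear L.fst mid)), ⟨hc.mono ?_, hd.mono ?_, ?_⟩, ?_⟩
    · rintro k (h | h | ⟨i, h⟩)
      · exact Or.inl h
      · exact Or.inr (Or.inr ⟨_, h.trans hmid⟩)
      · exact Or.inr (Or.inr ⟨_, h⟩)
    · rintro k (h | h | ⟨i, h⟩)
      · exact Or.inr (Or.inr ⟨_, h.trans hmid⟩)
      · exact Or.inr (Or.inl h)
      · exact Or.inr (Or.inr ⟨_, h⟩)
    · exact ⟨trivial, trivial, trivial⟩
    · intro a ha v S hv hinp hloc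
      have hv1 : L.fst.get v = none := L.fst_get_of hv
      have hv2 : L.snd.get v = (τ₀, τ₀') := L.snd_get_of hv
      have r1 := hrun a ha v S (L.snd.fst_get_of hv2) hinp (fun i => hloc _)
      rw [show S mid = [] from hloc _, List.append_nil] at r1
      set S1 := update S mid ((eb (φ a)).map encode) with hS1
      have r2 := hrun' (φ a) (hX a ha) v S1 (L.snd.snd_get_of hv2) (by simp [hS1])
        (fun i => by rw [hS1, update_of_ne (h2.ne (by simp))]; exact hloc _)
      have r3 := runs_clear L.fst (k := mid) (v := v)
        (S := update S1 out ((H (φ a)).map encode ++ S1 out)) (l := eb (φ a)) hv1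
        (by rw [update_of_ne hmidout, hS1, update_self])
      refine ((r1.seq (r2.seq r3)).of_eq rfl ?_).mono ?_
      · funext k
        by_cases e1 : k = mid
        · subst e1
          rw [update_self, update_of_ne hmidout, hmid, hloc]
        · by_cases e2 : k = out
          · subst e2
            simp [hS1, update_of_ne e1]
          · simp [hS1, update_of_ne e1, update_of_ne e2]
      · dsimp only
        omega

end

/-- A function computed by a flat machine. -/
theorem InTime.of_flat {α A B : Type} [Encodable A] [Fintype A] [Encodable B] {X : α → Prop}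
    {ea : α → List A} {F : α → List B} (M : Flat) (kin kout : M.K) (q₀ : M.Q) (g : A → M.A)
    (dec : M.A → B) (halted : M.Q → Bool)
    (hfix : ∀ c : M.Conf, halted c.1 = true → M.step c = c) (s : α → ℕ)
    (h : ∀ a, X a → ∃ n, n ≤ s a ∧
      halted (M.step^[n] (startConf M kin q₀ ((ea a).map g))).1 = true ∧
      ((M.step^[n] (startConf M kin q₀ ((ea a).map g))).2 kout).map dec = F a ∧
      ∀ k, k ≠ kout → (M.step^[n] (startConf M kin q₀ ((ea a).map g))).2 k = []) :
    ∃ C : ℕ, InTime X ea F (fun a => C * (s a + (ea a).length + 1)) := by
  classical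
  let := Fintype.toEncodable M.A
  have hlen : ∀ a, X a → (F a).length ≤ (ea a).length + s a := by
    intro a ha
    obtain ⟨n, hn, -, h2, -⟩ := h a ha
    rw [← h2, List.length_map]
    have h3 := Flat.length_iterate M (startConf M kin q₀ ((ea a).map g)) n kout
    have h4 : ((startConf M kin q₀ ((ea a).map g)).2 kout).length ≤ (ea a).length := by
      simp only [startConf]
      split_ifs <;> simp
    omega
  refine ⟨stepCost M + 21, M.K ⊕ Unit, (M.Q × (M.K → Option M.A)) × (Option A × Option M.A),
    inferInstance, inferInstance, ((q₀, fun _ => none), (none, none)), ?_, ?_⟩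
  · intro a ha
    have := hlen a ha
    nlinarith [Nat.zero_le (stepCost M * (s a + (ea a).length + 1))]
  · intro K σ _ inp out loc L h1 h2 h3 h4
    set tmp : K := loc (Sum.inr ()) with htmp
    set stk : M.K → K := fun k => loc (Sum.inl k) with hstkdef
    have hstk : Injective stk := h2.comp Sum.inl_injective
    have htmpinp : tmp ≠ inp := h3 _
    have htmpout : tmp ≠ out := h4 _
    have hstktmp : ∀ k, stk k ≠ tmp := fun k => h2.ne (by simp)
    have hstkinp : ∀ k, stk k ≠ inp := fun k => h3 _
    have hstkout : ∀ k, stk k ≠ out := fun k => h4 _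
    refine ⟨.seq (mv2 L.snd.fst inp tmp) (.seq (mv3 L.snd.fst g tmp inp (stk kin))
      (.seq (simCmd M L.fst stk halted) (.seq (mv2 L.snd.snd (stk kout) tmp)
        (.seq (mvMap L.snd.snd dec tmp out)
          (.load (fun v => L.fst.put (q₀, fun _ => none) v)))))), ?_, ?_⟩
    · refine ⟨⟨trivial, Or.inr (Or.inr ⟨_, htmp⟩), trivial⟩, ⟨trivial, ⟨Or.inl rfl,
        Or.inr (Or.inr ⟨_, rfl⟩)⟩, trivial⟩, ?_, ⟨trivial, Or.inr (Or.inr ⟨_, htmp⟩), trivial⟩,
        ⟨trivial, Or.inr (Or.inl rfl), trivial⟩, trivial⟩
      exact only_stepCmd M L.fst stk _ (fun k => Or.inr (Or.inr ⟨_, rfl⟩))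
    · intro a ha v S hv hinp hloc
      obtain ⟨n, hn, hh, hF, hempty⟩ := h a ha
      have hv1 : L.fst.get v = (q₀, fun _ => none) := L.fst_get_of hv
      have hv2 : L.snd.get v = (none, none) := L.snd_get_of hv
      have hreg1 : L.snd.fst.get v = none := L.snd.fst_get_of hv2
      have hreg2 : L.snd.snd.get v = none := L.snd.snd_get_of hv2
      have r1 := runs_mv2 L.snd.fst (k₁ := inp) (k₂ := tmp) htmpinp.symm (v := v) (S := S)
        (l := ea a) hreg1 hinp
      rw [show S tmp = [] from hloc _, List.append_nil] at r1
      set S1 := update (update S inp []) tmp ((ea a).reverse.map encode) with hS1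
      have r2 := runs_mv3 L.snd.fst g (k₁ := tmp) (k₂ := inp) (k₃ := stk kin) htmpinp
        (hstktmp kin).symm (hstkinp kin).symm (v := v) (S := S1) (l := (ea a).reverse) hreg1
        (by rw [hS1, update_self])
      have hS2 : update (update (update S1 tmp []) inp
          ((ea a).reverse.reverse.map encode ++ S1 inp)) (stk kin)
          (((ea a).reverse.reverse.map g).map encode ++ S1 (stk kin)) =
          update S (stk kin) (((ea a).map g).map encode) := by
        funext k
        by_cases e1 : k = stk kin
        · subst e1
          rw [update_self, update_self, List.reverse_reverse, hS1, update_of_ne (hstktmp _),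
            update_of_ne (hstkinp _), show S (stk kin) = [] from hloc _, List.append_nil]
        · rw [update_of_ne e1, update_of_ne e1]
          by_cases e2 : k = inp
          · subst e2
            rw [update_self, List.reverse_reverse, hS1, update_of_ne htmpinp.symm, update_self,
              List.append_nil, hinp]
          · rw [update_of_ne e2]
            by_cases e3 : k = tmp
            · subst e3
              rw [update_self]
              exact (hloc _).symm
            · rw [update_of_ne e3, hS1, update_of_ne e3, update_of_ne e2]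
      rw [hS2] at r2
      have hholds : Holds M L.fst stk v S (startConf M kin q₀ ((ea a).map g)) v
          (update S (stk kin) (((ea a).map g).map encode)) := by
        refine ⟨?_, ?_, ?_⟩
        · exact (L.fst.put_eq hv1).symm
        · intro k
          by_cases e : k = kin
          · subst e
            simp [startConf]
          · rw [update_of_ne (fun h => e (hstk h))]
            simp only [startConf, if_neg e]
            exact hloc _
        · intro j hj
          rw [update_of_ne (hj kin)]
      obtain ⟨v3, S3, r3, hv3, hS3, hS3'⟩ := runs_simCmd M L.fst stk halted hfix hstk v S n _ v _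
        hholds hh
      set c := M.step^[n] (startConf M kin q₀ ((ea a).map g)) with hc
      have hreg3 : L.snd.snd.get v3 = none := by
        rw [hv3]
        have : L.snd.get (L.fst.put (c.1, fun _ => none) v) = (none, none) := by
          rw [Lens.snd_get_fst_put]
          exact hv2
        exact L.snd.snd_get_of this
      have r4 := runs_mv2 L.snd.snd (k₁ := stk kout) (k₂ := tmp) (hstktmp kout) (v := v3)
        (S := S3) (l := c.2 kout) hreg3 (hS3 kout)
      rw [hS3' tmp (fun k => (hstktmp k).symm), show S tmp = [] from hloc _, List.append_nil]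
        at r4
      set S4 := update (update S3 (stk kout) []) tmp ((c.2 kout).reverse.map encode) with hS4
      have r5 := runs_mvMap L.snd.snd dec (k₁ := tmp) (k₂ := out) htmpout (v := v3)
        (S := S4) (l := (c.2 kout).reverse) hreg3 (by rw [hS4, update_self])
      rw [List.reverse_reverse, hF] at r5
      refine ((r1.seq (r2.seq (r3.seq (r4.seq (r5.seq (Runs.load _ _ _)))))).of_eq ?_ ?_).mono ?_
      · rw [hv3, Lens.put_put]
        exact L.fst.put_eq hv1
      · have hout4 : S4 out = S out := by
          rw [hS4, update_of_ne htmpout.symm, update_of_ne (hstkout kout).symm,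
            hS3' out (fun k => (hstkout k).symm)]
        rw [hout4]
        funext k
        by_cases e1 : k = out
        · subst e1
          rw [update_self, update_self]
        · rw [update_of_ne e1, update_of_ne e1]
          by_cases e2 : k = tmp
          · subst e2
            rw [update_self]
            exact (hloc _).symm
          · rw [update_of_ne e2, hS4, update_of_ne e2]
            by_cases e3 : ∃ j, k = stk j
            · obtain ⟨j, rfl⟩ := e3
              by_cases e4 : j = kout
              · subst e4
                rw [update_self]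
                exact (hloc _).symm
              · rw [update_of_ne (fun h => e4 (hstk h)), hS3 j, hempty j e4]
                exact (hloc _).symm
            · have e3' : ∀ j, k ≠ stk j := fun j hj => e3 ⟨j, hj⟩
              rw [update_of_ne (e3' kout), hS3' k e3']
      · have hl1 : (c.2 kout).length ≤ (ea a).length + s a := by
          have := hlen a ha
          rw [← hF, List.length_map] at this
          exact this
        simp only [List.length_reverse]
        have hl2 : (stepCost M + 1) * n ≤ (stepCost M + 1) * s a :=
          Nat.mul_le_mul_left _ hn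
        have hl3 : (stepCost M + 21) * (s a + (ea a).length + 1) =
          (stepCost M + 1) * s a + (20 * s a + stepCost M * (ea a).length + stepCost M +
            21 * (ea a).length + 21) := by ring
        rw [hl3]
        have hl4 : 0 ≤ stepCost M * (ea a).length := Nat.zero_le _
        omega

end Pool.Agent.Lib.MP_20e1d9_lc
end

section

/-!
Turing machines and structured stack programs, with the time.
-/

set_option autoImplicit false

namespace Pool.Agent.Lib.MP_20e1d9_lc

open Function Encodable Turing
open Pool.Agent.Lib.PolyTime

theorem flat_step_halted' (tm : FinTM2) (c : (flat tm).Conf) (h : c.1.1.1 = none) :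
    (flat tm).step c = c := by
  obtain ⟨⟨⟨o, ho⟩, v⟩, T⟩ := c
  dsimp only at h
  subst h
  rfl

/-- A function computed by a Turing machine. -/
theorem InTime.of_tm2 {α A B : Type} [Encodable A] [Fintype A] [Encodable B] [Inhabited B]
    {X : α → Prop} {ea : α → List A} {F : α → List B} (tm : FinTM2)
    (eA : tm.Γ tm.k₀ ≃ A) (eB : tm.Γ tm.k₁ ≃ B) (s : α → ℕ)
    (h : ∀ x, X x → Nonempty (TM2OutputsInTime tm ((ea x).map eA.symm)
      (some ((F x).map eB.symm)) (s x))) :
    ∃ C : ℕ, InTime X ea F (fun x => C * (s x + (ea x).length + 1)) := by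
  classical
  obtain ⟨C, hC⟩ := InTime.of_flat (X := X) (ea := ea) (F := F) (flat tm) tm.k₀ tm.k₁
    (⟨some (tm.m tm.main), stm_some_m tm _⟩, tm.initialState)
    (fun b => (Sum.inr (eA.symm b) : FA tm))
    (fun s => match val tm tm.k₁ s with
      | some s => eB s
      | none => default)
    (fun q => decide (q.1.1 = none)) (by
      intro c hc
      exact flat_step_halted' tm c (by simpa using hc))
    (fun x => stepBound tm * s x) (by
      intro x hx
      obtain ⟨hout⟩ := h x hx
      have hn₀ := hout.evals_in_steps
      have hle := hout.steps_le_m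
      generalize hout.steps = n₀ at hn₀ hle
      obtain ⟨m, hs, hmicro⟩ := micro_iterate tm n₀ _ _ hn₀
      set q₀ : (flat tm).Q :=
        (⟨some (tm.m tm.main), stm_some_m tm _⟩, tm.initialState) with hq₀
      set sy : A → (flat tm).A := fun b => (Sum.inr (eA.symm b) : FA tm)
        with hsy
      set c₀ := startConf (flat tm) tm.k₀ q₀ ((ea x).map sy) with hc₀
      have hsim0 : Sim tm c₀ (toMicro tm (initList tm
          (List.map eA.symm (ea x)))) := by
        refine ⟨rfl, rfl, ?_⟩
        intro (k : tm.K)
        by_cases hk : k = tm.k₀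
        · subst hk
          have e1 : c₀.2 tm.k₀ = (ea x).map sy := by
            rw [hc₀]
            exact if_pos rfl
          have e2 : (toMicro tm (initList tm (List.map eA.symm
              (ea x)))).2.2 tm.k₀ = List.map eA.symm (ea x) := by
            simp [toMicro, initList]
          rw [e1, e2]
          have e3 : ∀ l : List A, (l.map (fun b => (Sum.inr (eA.symm b) :
              FA tm))).map (val tm tm.k₀) =
              (l.map eA.symm).map some := by
            intro l
            rw [List.map_map, List.map_map]
            apply List.map_congr_left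
            intro b _
            simp [val]
          exact e3 _
        · have e1 : c₀.2 k = [] := by
            rw [hc₀]
            exact if_neg hk
          have e2 : (toMicro tm (initList tm (List.map eA.symm
              (ea x)))).2.2 k = [] := by
            simp only [toMicro, initList]
            exact dif_neg hk
          rw [e1, e2]
          rfl
      have hsim := sim_iterate tm m c₀ _ hsim0
      rw [hmicro] at hsim
      have hhalt : ((flat tm).step^[m] c₀).1.1.1 = none := hsim.1
      refine ⟨m, hs.trans (Nat.mul_le_mul_left _ hle), ?_, ?_, ?_⟩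
      · simpa using hhalt
      · have h3 := hsim.2.2 tm.k₁
        have e2 : (toMicro tm (haltList tm (List.map eB.symm
            (F x)))).2.2 tm.k₁ = List.map eB.symm (F x) := by
          change (haltList tm _).stk tm.k₁ = _
          simp only [haltList]
          rw [dif_pos trivial]
          rfl
        rw [e2] at h3
        have h4 := congrArg (List.map (fun o : Option (tm.Γ tm.k₁) => match o with
          | some s => eB s
          | none => default)) h3
        rw [List.map_map (l := F x), List.map_map (l := F x)] at h4
        refine ((List.map_map ..).symm.trans h4).trans ?_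
        have : ∀ l : List B, List.map ((fun o : Option (tm.Γ tm.k₁) => match o with
          | some s => eB s
          | none => default) ∘ some ∘ eB.symm) l = l := by
          intro l
          induction l with
          | nil => rfl
          | cons b l ih =>
            rw [List.map_cons, ih]
            simp
        exact this _
      · intro (k : tm.K) hk
        have h3 := hsim.2.2 k
        have e2 : (toMicro tm (haltList tm (List.map eB.symm
            (F x)))).2.2 k = [] := by
          change (haltList tm _).stk k = _
          simp only [haltList]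
          exact dif_neg hk
        rw [e2, List.map_nil] at h3
        exact List.map_eq_nil_iff.1 h3)
  refine ⟨C * (stepBound tm + 1), hC.mono (fun _ hx => hx) (fun x _ => ?_)⟩
  rw [Nat.mul_assoc]
  refine Nat.mul_le_mul_left _ ?_
  have : (stepBound tm + 1) * (s x + (ea x).length + 1) = stepBound tm * s x +
    (s x + (ea x).length + 1 + stepBound tm * (ea x).length + stepBound tm) := by ring
  rw [this]
  omega

/-! ### From programs to machines -/

/-- Alphabets of the compiled machine. -/
abbrev GΓ (A : Type) (ι : Type) : MK ι → Type
  | Sum.inl _ => A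
  | Sum.inr _ => ℕ

/-- Codes of the symbols of the compiled machine. -/
def genc (A : Type) [Encodable A] (ι : Type) : ∀ k, GΓ A ι k → ℕ
  | Sum.inl _ => fun b => encode b
  | Sum.inr _ => fun n => n

/-- Decoding the symbols of the compiled machine. -/
def gdec (A : Type) [Encodable A] [Inhabited A] (ι : Type) : ∀ k, ℕ → GΓ A ι k
  | Sum.inl _ => fun n => (decode n).getD default
  | Sum.inr _ => fun n => n

theorem genc_injective (A : Type) [Encodable A] (ι : Type) (k : MK ι) :
    Injective (genc A ι k) := by
  rcases k with b | k
  · exact Encodable.encode_injective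
  · exact fun _ _ h => h

/-- The compiled machine of a program. -/
noncomputable def gmachine {A ι σ : Type} [Encodable A] [Inhabited A] [Fintype A] [Fintype ι]
    [DecidableEq ι] [Fintype σ] (v₀ : σ) (c : Cmd (MK ι) σ) : FinTM2 :=
  letI := c.labFintype
  { K := MK ι
    k₀ := Sum.inl true
    k₁ := Sum.inl false
    Γ := GΓ A ι
    Λ := Option c.Lab
    main := some c.entry
    σ := σ
    initialState := v₀
    Γk₀Fin := (inferInstance : Fintype A)
    m := fun l => match l with
      | none => TM2.Stmt.halt
      | some l => c.comp (genc A ι) (gdec A ι) some none l }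

/-- A run of the program gives a run of the machine. -/
theorem gmachine_outputs {A ι σ : Type} [Encodable A] [Inhabited A] [Fintype A] [Fintype ι]
    [DecidableEq ι] [Fintype σ] (v₀ : σ)
    (c : Cmd (MK ι) σ) (hc : c.Pushes (fun k n => genc A ι k (gdec A ι k n) = n))
    {x y : List A} {t T : ℕ} (hT : t + 1 ≤ T)
    (h : Exec c v₀ (update (fun _ => []) (Sum.inl true) (x.map encode)) v₀
      (update (fun _ => []) (Sum.inl false) (y.map encode)) t) :
    Nonempty (TM2OutputsInTime (gmachine (A := A) v₀ c) (x : List A) (some (y : List A)) T) := by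
  have hrepr : Repr (genc A ι) (initList (gmachine (A := A) v₀ c) x).stk
      (update (fun _ => []) (Sum.inl true) (x.map encode)) := by
    intro k
    by_cases hk : k = Sum.inl true
    · subst hk
      rw [update_self]
      have : (initList (gmachine (A := A) v₀ c) x).stk (Sum.inl true) = x := by
        simp only [initList, gmachine]
        rfl
      rw [this]
      rfl
    · rw [update_of_ne hk]
      have : (initList (gmachine (A := A) v₀ c) x).stk k = [] := by
        simp only [initList, gmachine]
        exact dif_neg hk
      rw [this]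
      rfl
  obtain ⟨s', hs', hst⟩ := h.steps (genc A ι) (gdec A ι) (gmachine (A := A) v₀ c).m some none
    (fun l => rfl) hc (initList (gmachine (A := A) v₀ c) x).stk hrepr
  have hhalt : (⟨none, v₀, s'⟩ : TM2.Cfg (GΓ A ι) (Option c.Lab) σ) =
      haltList (gmachine (A := A) v₀ c) y := by
    have : s' = (haltList (gmachine (A := A) v₀ c) y).stk := by
      funext k
      have hk' := hs' k
      by_cases hk : k = Sum.inl false
      · subst hk
        rw [update_self] at hk'
        have : (haltList (gmachine (A := A) v₀ c) y).stk (Sum.inl false) = y := by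
          simp only [haltList, gmachine]
          rfl
        rw [this]
        exact List.map_injective_iff.2 (genc_injective A ι _) hk'
      · rw [update_of_ne hk] at hk'
        have : (haltList (gmachine (A := A) v₀ c) y).stk k = [] := by
          simp only [haltList, gmachine]
          exact dif_neg hk
        rw [this]
        exact List.map_eq_nil_iff.1 hk'
    rw [this]
    rfl
  have hst2 : Steps (gmachine (A := A) v₀ c).m ⟨some none, v₀, s'⟩
      (haltList (gmachine (A := A) v₀ c) y) 1 := by
    refine Steps.step ?_ (Steps.refl _)
    rw [← hhalt]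
    rfl
  refine ⟨⟨⟨t + 1, ?_⟩, hT⟩⟩
  exact (hst.trans hst2).iterate

theorem gdec_genc_regCode (A : Type) [Encodable A] [Inhabited A] (ι : Type) (b : Bool)
    (h0 : encode (default : A) = 0) (o : Option A) :
    genc A ι (Sum.inl b) (gdec A ι (Sum.inl b) (regCode o)) = regCode o := by
  rcases o with _ | o
  · show encode ((decode 0 : Option A).getD default) = 0
    have : (decode 0 : Option A) = some default := by
      rw [← h0]
      exact encodek _
    rw [this]
    exact h0
  · show encode ((decode (encode o) : Option A).getD default) = encode o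
    rw [encodek]
    rfl

/-- A function computed by a structured program in a given time is computed by a Turing machine
in about the same time. -/
theorem InTime.toTM2 {α A : Type} [Encodable A] [Inhabited A] [Fintype A]
    (h0 : encode (default : A) = 0) {X : α → Prop} {ea : α → List A}
    {F : α → List A} {t : α → ℕ} (h : InTime X ea F t) :
    ∃ (tm : FinTM2) (eA : tm.Γ tm.k₀ ≃ A) (eB : tm.Γ tm.k₁ ≃ A), ∀ x, X x →
      Nonempty (TM2OutputsInTime tm ((ea x).map eA.symm) (some ((F x).map eB.symm))
        (10 * t x + 9 * (ea x).length + 12)) := by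
  classical
  obtain ⟨ι, τ, hι, hτ, τ₀, hlen, h⟩ := h
  let K := MK ι
  let σ := Option A × τ
  let L : Lens σ (Option A × τ) := Lens.id _
  let inp : K := Sum.inr (Sum.inl 0)
  let out : K := Sum.inr (Sum.inl 1)
  let tmp : K := Sum.inr (Sum.inl 2)
  let kin : K := Sum.inl true
  let kout : K := Sum.inl false
  obtain ⟨c, hc, hrun⟩ := h K σ inp out (fun i => Sum.inr (Sum.inr i)) L.snd
    (MK.ne_inr (by decide))
    (Sum.inr_injective.comp Sum.inr_injective) (MK.ne_loc _) (MK.ne_loc _)
  have n1 : kin ≠ tmp := Sum.inl_ne_inr
  have n2 : tmp ≠ inp := MK.ne_inr (by decide)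
  have n3 : out ≠ tmp := MK.ne_inr (by decide)
  have n4 : tmp ≠ kout := Sum.inr_ne_inl
  have n5 : inp ≠ out := MK.ne_inr (by decide)
  let prog : Cmd K σ := .seq (mv2 L.fst kin tmp) (.seq (mv2 L.fst tmp inp) (.seq c
    (.seq (clear L.fst inp) (.seq (mv2 L.fst out tmp) (mv2 L.fst tmp kout)))))
  have hpush : prog.Pushes (fun k n => genc A ι k (gdec A ι k n) = n) := by
    refine ⟨⟨trivial, ?_, trivial⟩, ⟨trivial, ?_, trivial⟩, hc.pushes ?_,
      ⟨trivial, trivial, trivial⟩, ⟨trivial, ?_, trivial⟩, ⟨trivial, ?_, trivial⟩⟩
    · intro v
      rfl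
    · intro v
      rfl
    · rintro k (rfl | rfl | ⟨i, rfl⟩) n <;> rfl
    · intro v
      rfl
    · intro v
      exact gdec_genc_regCode A ι false h0 _
  have hprog : ∀ a, X a → ∃ n, n + 1 ≤ 10 * t a + 9 * (ea a).length + 12 ∧
      Exec prog (none, τ₀) (update (fun _ => []) kin ((ea a).map encode)) (none, τ₀)
        (update (fun _ => []) kout ((F a).map encode)) n := by
    intro a ha
    have r1 := runs_mv2 L.fst n1 (v := (none, τ₀))
      (S := update (fun _ => []) kin ((ea a).map encode)) (l := ea a) rfl (update_self _ _ _)
    have e1 : update (update (update (fun _ => []) kin ((ea a).map encode)) kin []) tmp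
        ((ea a).reverse.map encode ++
          update (fun _ => []) kin ((ea a).map encode) tmp) =
        update (fun _ : K => ([] : List ℕ)) tmp ((ea a).reverse.map encode) := by
      rw [update_idem, update_of_ne n1.symm, List.append_nil]
      congr 1
      exact update_eq_self kin (fun _ : K => ([] : List ℕ))
    rw [e1] at r1
    have r2 := runs_mv2 L.fst n2 (v := (none, τ₀))
      (S := update (fun _ => []) tmp ((ea a).reverse.map encode)) (l := (ea a).reverse) rfl
      (update_self _ _ _)
    have e2 : update (update (update (fun _ => []) tmp ((ea a).reverse.map encode)) tmp []) inp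
        ((ea a).reverse.reverse.map encode ++
          update (fun _ => []) tmp ((ea a).reverse.map encode) inp) =
        update (fun _ : K => ([] : List ℕ)) inp ((ea a).map encode) := by
      rw [update_idem, update_of_ne n2.symm, List.append_nil, List.reverse_reverse]
      congr 1
      exact update_eq_self tmp (fun _ : K => ([] : List ℕ))
    rw [e2] at r2
    have r3 := hrun a ha (none, τ₀) (update (fun _ => []) inp ((ea a).map encode)) rfl
      (update_self _ _ _) (fun i => update_of_ne (MK.ne_loc _ _) _ _)
    rw [update_of_ne n5.symm, List.append_nil] at r3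
    have r4 := runs_clear L.fst (k := inp) (v := (none, τ₀))
      (S := update (update (fun _ => []) inp ((ea a).map encode)) out ((F a).map encode))
      (l := ea a) rfl (by rw [update_of_ne n5, update_self])
    have e4 : update (update (update (fun _ => []) inp ((ea a).map encode)) out
        ((F a).map encode)) inp [] =
        update (fun _ : K => ([] : List ℕ)) out ((F a).map encode) := by
      rw [update_comm n5.symm, update_idem]
      congr 1
      exact update_eq_self inp (fun _ : K => ([] : List ℕ))
    rw [e4] at r4
    have r5 := runs_mv2 L.fst n3 (v := (none, τ₀))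
      (S := update (fun _ => []) out ((F a).map encode)) (l := F a) rfl
      (update_self _ _ _)
    have e5 : update (update (update (fun _ => []) out ((F a).map encode)) out []) tmp
        ((F a).reverse.map encode ++
          update (fun _ => []) out ((F a).map encode) tmp) =
        update (fun _ : K => ([] : List ℕ)) tmp ((F a).reverse.map encode) := by
      rw [update_idem, update_of_ne n3.symm, List.append_nil]
      congr 1
      exact update_eq_self out (fun _ : K => ([] : List ℕ))
    rw [e5] at r5
    have r6 := runs_mv2 L.fst n4 (v := (none, τ₀))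
      (S := update (fun _ => []) tmp ((F a).reverse.map encode))
      (l := (F a).reverse) rfl (update_self _ _ _)
    have e6 : update (update (update (fun _ => []) tmp ((F a).reverse.map encode)) tmp [])
        kout ((F a).reverse.reverse.map encode ++
          update (fun _ => []) tmp ((F a).reverse.map encode) kout) =
        update (fun _ : K => ([] : List ℕ)) kout ((F a).map encode) := by
      rw [update_idem, update_of_ne n4.symm, List.append_nil, List.reverse_reverse]
      congr 1
      exact update_eq_self tmp (fun _ : K => ([] : List ℕ))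
    rw [e6] at r6
    obtain ⟨n, hn, hex⟩ := r1.seq (r2.seq (r3.seq (r4.seq (r5.seq r6))))
    refine ⟨n, ?_, hex⟩
    have hl := hlen a ha
    simp only [List.length_reverse] at hn
    omega
  refine ⟨gmachine (A := A) (none, τ₀) prog, Equiv.refl A, Equiv.refl A, fun a ha => ?_⟩
  have e : ∀ l : List A, List.map (Equiv.refl A).symm l = l := List.map_id
  have key : ∀ x y : List A, x = ea a → y = F a →
      Nonempty (TM2OutputsInTime (gmachine (A := A) (none, τ₀) prog) (x : List A)
        (some (y : List A)) (10 * t a + 9 * (ea a).length + 12)) := by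
    rintro x y rfl rfl
    obtain ⟨n, hn, hex⟩ := hprog a ha
    exact gmachine_outputs (A := A) (none, τ₀) prog hpush hn hex
  exact key _ _ (e _) (e _)

end Pool.Agent.Lib.MP_20e1d9_lc
end
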