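import Pool.Agent.Lib.MP_20e1d9_lc.PolyNat

/-!
The reduction is computable in polynomial time.
-/

set_option autoImplicit false
set_option linter.unusedSimpArgs false
set_option linter.unusedSectionVars false
set_option linter.unusedVariables false

namespace Pool.Agent.Lib.MP_20e1d9_lc

open Pool.Agent.Lib.MP_9c2350_lc (Sym dig Enc word sz PB sz_foldl_le sz_pair sz_cons sz_nil
  sz_reverse sz_take_le length_le_sz sz_bool)

variable {α β γ σ δ : Type} [Enc α] [Enc β] [Enc γ] [Enc σ] [Enc δ]

/-! ### Codes of vertices and kinds -/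

/-- The code of a main vertex. -/
def ndCode : Nd → ℕ × ℕ × ℕ
  | .q i j => (0, i, j)
  | .u i j => (1, i, j)
  | .g i j => (2, i, j)
  | .v i j => (3, i, j)

/-- The code of a kind of bundle. -/
def tgCode : Tg → ℕ
  | .UL => 0
  | .UR => 1
  | .E => 2
  | .D => 3
  | .VL => 4
  | .VR => 5

instance : Enc Nd := ⟨fun x => Enc.enc (ndCode x)⟩
instance : Enc Tg := ⟨fun x => Enc.enc (tgCode x)⟩

theorem ndCode_injective : Function.Injective ndCode := by
  intro x y h
  cases x <;> cases y <;> simp_all [ndCode]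

theorem tgCode_injective : Function.Injective tgCode := by
  intro x y h
  cases x <;> cases y <;> simp_all [tgCode]

namespace PL

@[fun_prop]
theorem ndC {f : α → Nd} (hf : PT f) : PT (fun x => ndCode (f x)) :=
  hf.of_word (fun x => x) (fun _ => rfl) (fun _ => rfl)

@[fun_prop]
theorem tgC {f : α → Tg} (hf : PT f) : PT (fun x => tgCode (f x)) :=
  hf.of_word (fun x => x) (fun _ => rfl) (fun _ => rfl)

@[fun_prop]
theorem ndq {i j : α → ℕ} (hi : PT i) (hj : PT j) : PT (fun x => Nd.q (i x) (j x)) :=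
  PT.of_word (g := fun x => ((0 : ℕ), i x, j x)) (by fun_prop) (fun x => x) (fun _ => rfl)
    (fun _ => rfl)

@[fun_prop]
theorem ndu {i j : α → ℕ} (hi : PT i) (hj : PT j) : PT (fun x => Nd.u (i x) (j x)) :=
  PT.of_word (g := fun x => ((1 : ℕ), i x, j x)) (by fun_prop) (fun x => x) (fun _ => rfl)
    (fun _ => rfl)

@[fun_prop]
theorem ndg {i j : α → ℕ} (hi : PT i) (hj : PT j) : PT (fun x => Nd.g (i x) (j x)) :=
  PT.of_word (g := fun x => ((2 : ℕ), i x, j x)) (by fun_prop) (fun x => x) (fun _ => rfl)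
    (fun _ => rfl)

@[fun_prop]
theorem ndv {i j : α → ℕ} (hi : PT i) (hj : PT j) : PT (fun x => Nd.v (i x) (j x)) :=
  PT.of_word (g := fun x => ((3 : ℕ), i x, j x)) (by fun_prop) (fun x => x) (fun _ => rfl)
    (fun _ => rfl)

@[fun_prop]
theorem eqPair {f g : α → ℕ × ℕ} (hf : PT f) (hg : PT g) :
    PT (fun x => decide (f x = g x)) := by
  have h : PT (fun x => decide ((f x).1 = (g x).1 ∧ (f x).2 = (g x).2)) := by fun_prop
  exact h.of_eq fun x => by simp [Prod.ext_iff]

@[fun_prop]
theorem eqTriple {f g : α → ℕ × ℕ × ℕ} (hf : PT f) (hg : PT g) :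
    PT (fun x => decide (f x = g x)) := by
  have h : PT (fun x => decide ((f x).1 = (g x).1 ∧ (f x).2 = (g x).2)) := by fun_prop
  exact h.of_eq fun x => by simp [Prod.ext_iff]

@[fun_prop]
theorem eqNd {f g : α → Nd} (hf : PT f) (hg : PT g) : PT (fun x => decide (f x = g x)) := by
  have h : PT (fun x => decide (ndCode (f x) = ndCode (g x))) := by fun_prop
  exact h.of_eq fun x => by simp [ndCode_injective.eq_iff]

@[fun_prop]
theorem eqTg {f g : α → Tg} (hf : PT f) (hg : PT g) : PT (fun x => decide (f x = g x)) := by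
  have h : PT (fun x => decide (tgCode (f x) = tgCode (g x))) := by fun_prop
  exact h.of_eq fun x => by simp [tgCode_injective.eq_iff]

theorem bsrc_eq (b : Bn) : bsrc b = if b.1 = .UL then .q b.2.1 b.2.2
    else if b.1 = .UR then .q b.2.1 b.2.2
    else if b.1 = .E then .u b.2.1 b.2.2
    else if b.1 = .D then .g b.2.1 b.2.2
    else if b.1 = .VL then .v (b.2.1 + 1) b.2.2
    else .v b.2.1 b.2.2 := by
  obtain ⟨t, i, j⟩ := b
  cases t <;> rfl

theorem btgt_eq (b : Bn) : btgt b = if b.1 = .UL then .u (b.2.1 + 1) b.2.2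
    else if b.1 = .UR then .u b.2.1 b.2.2
    else if b.1 = .E then .g b.2.1 b.2.2
    else if b.1 = .D then .v b.2.1 b.2.2
    else if b.1 = .VL then .q b.2.1 (b.2.2 + 1)
    else .q b.2.1 (b.2.2 + 1) := by
  obtain ⟨t, i, j⟩ := b
  cases t <;> rfl

@[fun_prop]
theorem src {b : α → Bn} (hb : PT b) : PT (fun x => bsrc (b x)) := by
  simp only [bsrc_eq]
  fun_prop

@[fun_prop]
theorem tgt {b : α → Bn} (hb : PT b) : PT (fun x => btgt (b x)) := by
  simp only [btgt_eq]
  fun_prop

@[fun_prop]
theorem inc {x : α → Nd} {e : α → Nd × Nd} (hx : PT x) (he : PT e) :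
    PT (fun a => Par.inc (x a) (e a)) := by
  simp only [Par.inc]
  fun_prop

end PL

/-! ### The clique instance -/

/-- Adjacency given by a table. -/
def adjM (M : List (List Bool)) (x y : ℕ) : Bool := (M.getD x []).getD y false

namespace PL

@[fun_prop]
theorem adjM {M : α → List (List Bool)} {i j : α → ℕ} (hM : PT M) (hi : PT i) (hj : PT j) :
    PT (fun x => MP_20e1d9_lc.adjM (M x) (i x) (j x)) := by
  simp only [MP_20e1d9_lc.adjM]
  fun_prop

@[fun_prop]
theorem itemList {κ L : α → ℕ} (hκ : PT κ) (hL : PT L) :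
    PT (fun x => MP_20e1d9_lc.itemList (κ x) (L x)) := by
  simp only [MP_20e1d9_lc.itemList]
  fun_prop

@[fun_prop]
theorem rowList {κ : α → ℕ} (hκ : PT κ) : PT (fun x => MP_20e1d9_lc.rowList (κ x)) := by
  simp only [MP_20e1d9_lc.rowList]
  fun_prop

@[fun_prop]
theorem tab {l : α → List (List ℕ)} {i j : α → ℕ} (hl : PT l) (hi : PT i) (hj : PT j) :
    PT (fun x => MP_20e1d9_lc.tab (l x) (i x) (j x)) := by
  simp only [MP_20e1d9_lc.tab]
  fun_prop

theorem allowed_eq (N : ℕ) (adj : ℕ → ℕ → Bool) (it : Item) : allowed N adj it =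
    (decide (it.2.2.1 < N) && decide (it.2.2.2 < N) &&
      (if it.1 = it.2.1 then decide (it.2.2.1 = it.2.2.2) else adj it.2.2.1 it.2.2.2)) := rfl

@[fun_prop]
theorem allowed {N : α → ℕ} {M : α → List (List Bool)} {it : α → Item} (hN : PT N) (hM : PT M)
    (hit : PT it) : PT (fun x => MP_20e1d9_lc.allowed (N x) (MP_20e1d9_lc.adjM (M x)) (it x)) := by
  simp only [allowed_eq]
  fun_prop

theorem alphaOf_eq (N : ℕ) (adj : ℕ → ℕ → Bool) (it : Item) (r : Row) : alphaOf N adj it r =
    if r.1 = 2 then (if (it.1, it.2.1) = (r.2.1, r.2.2) then it.2.2.1 else 0) +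
      (if (it.1, it.2.1) = (r.2.1, r.2.1) then N - it.2.2.1 else 0)
    else if r.1 = 3 then
      (if (it.1, it.2.1) = (r.2.1, r.2.2) then N - it.2.2.1 else 0) +
        (if (it.1, it.2.1) = (r.2.1, r.2.1) then it.2.2.1 else 0)
    else if r.1 = 4 then
      (if (it.1, it.2.1) = (r.2.1, r.2.2) then it.2.2.2 else 0) +
        (if (it.1, it.2.1) = (r.2.2, r.2.2) then N - it.2.2.2 else 0)
    else if r.1 = 5 then
      (if (it.1, it.2.1) = (r.2.1, r.2.2) then N - it.2.2.2 else 0) +
        (if (it.1, it.2.1) = (r.2.2, r.2.2) then it.2.2.2 else 0)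
    else if r.1 = 6 then (if MP_20e1d9_lc.allowed N adj (it.1, it.2.1, it.2.2.1, it.2.2.2) = true
      then 0 else 1)
    else 0 := rfl

@[fun_prop]
theorem alphaOf {N : α → ℕ} {M : α → List (List Bool)} {it : α → Item} {r : α → Row} (hN : PT N)
    (hM : PT M) (hit : PT it) (hr : PT r) :
    PT (fun x => MP_20e1d9_lc.alphaOf (N x) (MP_20e1d9_lc.adjM (M x)) (it x) (r x)) := by
  simp only [alphaOf_eq]
  fun_prop

theorem betaOf_eq (it : Item) (r : Row) : betaOf it r =
    if r.1 = 1 ∧ (it.1, it.2.1) = (r.2.1, r.2.2) then 1 else 0 := rfl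

@[fun_prop]
theorem betaOf {it : α → Item} {r : α → Row} (hit : PT it) (hr : PT r) :
    PT (fun x => MP_20e1d9_lc.betaOf (it x) (r x)) := by
  simp only [betaOf_eq]
  fun_prop

@[fun_prop]
theorem nItems {N κ : α → ℕ} (hN : PT N) (hκ : PT κ) :
    PT (fun x => MP_20e1d9_lc.nItems (N x) (κ x)) := by
  simp only [MP_20e1d9_lc.nItems]
  fun_prop

theorem deltaOf_eq (N κ : ℕ) (r : Row) : deltaOf N κ r =
    if r.1 = 0 ∨ r.1 = 7 then 1 else MP_20e1d9_lc.nItems N κ + 1 := rfl

@[fun_prop]
theorem deltaOf {N κ : α → ℕ} {r : α → Row} (hN : PT N) (hκ : PT κ) (hr : PT r) :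
    PT (fun x => MP_20e1d9_lc.deltaOf (N x) (κ x) (r x)) := by
  simp only [deltaOf_eq]
  fun_prop

theorem capOf_eq (N κ : ℕ) (r : Row) : capOf N κ r =
    if r.1 = 0 then κ * κ
    else if r.1 = 1 then (N + 1) * (N + 1) - 1
    else if r.1 ≤ 5 then N
    else if r.1 = 6 then 0
    else MP_20e1d9_lc.nItems N κ - κ * κ := rfl

@[fun_prop]
theorem capOf {N κ : α → ℕ} {r : α → Row} (hN : PT N) (hκ : PT κ) (hr : PT r) :
    PT (fun x => MP_20e1d9_lc.capOf (N x) (κ x) (r x)) := by
  simp only [capOf_eq]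
  fun_prop

end PL

/-- The data of the clique instance, for an adjacency matrix. -/
def cP (N κ : ℕ) (M : List (List Bool)) : Par := cliquePar N κ (adjM M)

/-! ### The output word -/

/-- The adjacency matrix and the bound, as a word. -/
def outWord (P : Par) : List Sym :=
  (P.rows.flatMap fun r => r.map dig ++ [Sym.semi]) ++ [Sym.bar] ++ List.replicate P.K Sym.one

namespace PL

variable {N κ : α → ℕ} {M : α → List (List Bool)}

@[fun_prop]
theorem cPn (hN : PT N) (hκ : PT κ) (hM : PT M) : PT (fun x => (cP (N x) (κ x) (M x)).n) := by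
  simp only [cP, cliquePar]
  fun_prop

@[fun_prop]
theorem cPk (hN : PT N) (hκ : PT κ) (hM : PT M) : PT (fun x => (cP (N x) (κ x) (M x)).k) := by
  simp only [cP, cliquePar]
  fun_prop

@[fun_prop]
theorem cPs (hN : PT N) (hκ : PT κ) (hM : PT M) : PT (fun x => (cP (N x) (κ x) (M x)).s) := by
  simp only [cP, cliquePar]
  fun_prop

@[fun_prop]
theorem cPα {i j : α → ℕ} (hN : PT N) (hκ : PT κ) (hM : PT M) (hi : PT i) (hj : PT j) :
    PT (fun x => (cP (N x) (κ x) (M x)).α (i x) (j x)) := by
  simp only [cP, cliquePar]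
  fun_prop

@[fun_prop]
theorem cPβ {i j : α → ℕ} (hN : PT N) (hκ : PT κ) (hM : PT M) (hi : PT i) (hj : PT j) :
    PT (fun x => (cP (N x) (κ x) (M x)).β (i x) (j x)) :=
  tab (map (itemList hκ (by fun_prop)) (map (rowList (by fun_prop)) (betaOf (by fun_prop)
    (by fun_prop)))) hi hj

@[fun_prop]
theorem cPδ {i j : α → ℕ} (hN : PT N) (hκ : PT κ) (hM : PT M) (hi : PT i) (hj : PT j) :
    PT (fun x => (cP (N x) (κ x) (M x)).δ (i x) (j x)) :=
  tab (map (itemList hκ (by fun_prop)) (map (rowList (by fun_prop)) (deltaOf (by fun_prop)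
    (by fun_prop) (by fun_prop)))) hi hj

@[fun_prop]
theorem cPb {j : α → ℕ} (hN : PT N) (hκ : PT κ) (hM : PT M) (hj : PT j) :
    PT (fun x => (cP (N x) (κ x) (M x)).b (j x)) := by
  simp only [cP, cliquePar]
  fun_prop

@[fun_prop]
theorem cPK (hN : PT N) (hκ : PT κ) (hM : PT M) : PT (fun x => (cP (N x) (κ x) (M x)).K) := by
  simp only [Par.K]
  fun_prop

@[fun_prop]
theorem cPcw {j : α → ℕ} (hN : PT N) (hκ : PT κ) (hM : PT M) (hj : PT j) :
    PT (fun x => (cP (N x) (κ x) (M x)).cw (j x)) := by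
  simp only [Par.cw]
  fun_prop

@[fun_prop]
theorem cPew (hN : PT N) (hκ : PT κ) (hM : PT M) : PT (fun x => (cP (N x) (κ x) (M x)).ew) := by
  simp only [Par.ew]
  fun_prop

theorem w_eq (P : Par) (b : Bn) : P.w b =
    if b.1 = .UL then (if b.2.1 = P.n then P.cw b.2.2 else if b.2.2 = 0 then 4 * P.s else P.s)
    else if b.1 = .UR then (if b.2.1 = 0 then 2 * P.s else if b.2.2 = 0 then 4 * P.s
      else P.s + P.α (b.2.1 - 1) b.2.2)
    else if b.1 = .E then (if b.2.1 = P.n + 1 then P.cw b.2.2 else P.ew)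
    else if b.1 = .D then (if b.2.1 = 0 then 2 * P.s else if b.2.1 = P.n + 1 then P.cw b.2.2
      else 2 * P.s + P.δ (b.2.1 - 1) b.2.2)
    else if b.1 = .VL then (if b.2.1 = P.n then P.cw b.2.2 else if b.2.2 + 1 = P.k then 4 * P.s
      else P.s)
    else (if b.2.1 = 0 then 2 * P.s else if b.2.2 + 1 = P.k then 4 * P.s
      else P.s + P.β (b.2.1 - 1) b.2.2) := by
  obtain ⟨t, i, j⟩ := b
  cases t <;> rfl

@[fun_prop]
theorem cPw {b : α → Bn} (hN : PT N) (hκ : PT κ) (hM : PT M) (hb : PT b) :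
    PT (fun x => (cP (N x) (κ x) (M x)).w (b x)) := by
  have hi : PT fun x => (b x).2.1 := by fun_prop
  have hj : PT fun x => (b x).2.2 := by fun_prop
  have hn := cPn hN hκ hM
  have hk := cPk hN hκ hM
  have hs := cPs hN hκ hM
  have hcw := cPcw hN hκ hM hj
  have hew := cPew hN hκ hM
  have h4 := mul (const 4) hs
  have h2 := mul (const 2) hs
  have hi1 := sub hi (const 1)
  have hj1 := add hj (const 1)
  refine PT.of_eq ?_ fun x => (w_eq _ _).symm
  refine ite (by fun_prop) (ite (eqNat hi hn) hcw (ite (eqNat hj (const 0)) h4 hs)) ?_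
  refine ite (by fun_prop) (ite (eqNat hi (const 0)) h2 (ite (eqNat hj (const 0)) h4
    (add hs (cPα hN hκ hM hi1 hj)))) ?_
  refine ite (by fun_prop) (ite (eqNat hi (add hn (const 1))) hcw hew) ?_
  refine ite (by fun_prop) (ite (eqNat hi (const 0)) h2 (ite (eqNat hi (add hn (const 1))) hcw
    (add h2 (cPδ hN hκ hM hi1 hj)))) ?_
  refine ite (by fun_prop) (ite (eqNat hi hn) hcw (ite (eqNat hj1 hk) h4 hs)) ?_
  exact ite (eqNat hi (const 0)) h2 (ite (eqNat hj1 hk) h4 (add hs (cPβ hN hκ hM hi1 hj)))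

@[fun_prop]
theorem cPnodeList (hN : PT N) (hκ : PT κ) (hM : PT M) :
    PT (fun x => (cP (N x) (κ x) (M x)).nodeList) := by
  simp only [Par.nodeList]
  fun_prop

@[fun_prop]
theorem cPbundleList (hN : PT N) (hκ : PT κ) (hM : PT M) :
    PT (fun x => (cP (N x) (κ x) (M x)).bundleList) := by
  simp only [Par.bundleList]
  fun_prop

@[fun_prop]
theorem cPedgeList (hN : PT N) (hκ : PT κ) (hM : PT M) :
    PT (fun x => (cP (N x) (κ x) (M x)).edgeList) := by
  simp only [Par.edgeList]
  fun_prop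

@[fun_prop]
theorem cProws (hN : PT N) (hκ : PT κ) (hM : PT M) :
    PT (fun x => (cP (N x) (κ x) (M x)).rows) := by
  simp only [Par.rows]
  fun_prop

@[fun_prop]
theorem dig {b : α → Bool} (hb : PT b) : PT (fun x => MP_9c2350_lc.dig (b x)) := by
  simp only [MP_9c2350_lc.dig]
  fun_prop

@[fun_prop]
theorem cPoutWord (hN : PT N) (hκ : PT κ) (hM : PT M) :
    PT (fun x => outWord (cP (N x) (κ x) (M x))) := by
  simp only [outWord]
  fun_prop

/-! ### Parsing -/

/-- One step of the parser, which reads the input from right to left. -/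
def rstep (s : ℕ × Bool × List (List Bool)) (c : Sym) : ℕ × Bool × List (List Bool) :=
  if c = Sym.bar then (s.1, true, s.2.2)
  else if s.2.1 = true then
    (if c = Sym.semi then (s.1, true, [] :: s.2.2)
      else (s.1, true, (decide (c = Sym.one) :: s.2.2.headD []) :: s.2.2.tail))
  else (s.1 + 1, false, s.2.2)

@[fun_prop]
theorem eqSym {f : α → Sym} (hf : PT f) (a : Sym) : PT (fun x => decide (f x = a)) :=
  MP_9c2350_lc.Poly.eqSym hf a

@[fun_prop]
theorem tail {l : α → List γ} (hl : PT l) : PT (fun x => (l x).tail) :=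
  MP_9c2350_lc.Poly.tail hl

theorem rstepPT {s : α → ℕ × Bool × List (List Bool)} {c : α → Sym} (hs : PT s) (hc : PT c) :
    PT (fun x => rstep (s x) (c x)) := by
  simp only [rstep]
  fun_prop

theorem sz_rstep_le (s : ℕ × Bool × List (List Bool)) (c : Sym) : sz (rstep s c) ≤ sz s + 8 := by
  obtain ⟨k, b, M⟩ := s
  have hb := sz_bool b
  have ht : sz true = 3 := rfl
  have hf : sz false = 1 := rfl
  have hb1 : 1 ≤ sz b := MP_9c2350_lc.sz_pos b
  have hM : 1 ≤ sz M := MP_9c2350_lc.sz_pos M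
  unfold rstep
  simp only
  split_ifs
  · rw [sz_pair, sz_pair, sz_pair, sz_pair]; omega
  · rw [sz_pair, sz_pair, sz_pair, sz_pair, sz_cons, sz_nil]; omega
  · rw [sz_pair, sz_pair, sz_pair, sz_pair, sz_cons, sz_cons]
    have hd := sz_bool (decide (c = Sym.one))
    cases M with
    | nil => simp only [List.headD_nil, List.tail_nil, sz_nil]; omega
    | cons r M => simp only [List.headD_cons, List.tail_cons, sz_cons]; omega
  · rw [sz_pair, sz_pair, sz_pair, sz_pair, sz_nat, sz_nat]; omega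

/-- The parser. -/
def parse (x : List Sym) : ℕ × Bool × List (List Bool) := x.reverse.foldl rstep (0, false, [])

@[fun_prop]
theorem parsePT : PT parse := by
  have h := MP_9c2350_lc.Poly.foldl (α := List Sym) (l := fun x => x.reverse)
    (s0 := fun _ => ((0 : ℕ), false, ([] : List (List Bool))))
    (step := fun y => rstep y.2.1 y.2.2)
    (MP_9c2350_lc.Poly.reverse MP_9c2350_lc.Poly.id) (MP_9c2350_lc.Poly.const _)
    (rstepPT (by fun_prop) (by fun_prop))
    (q := fun n => sz ((0 : ℕ), false, ([] : List (List Bool))) + n * 8)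
    ((PB.const _).add (PB.id.mul (PB.const 8))) (by
      intro x l' hl'
      refine (sz_foldl_le (fun s b => sz_rstep_le s b) l' _).trans ?_
      have := (length_le_sz l').le.trans (sz_take_le hl')
      rw [sz_reverse] at this
      show _ ≤ sz ((0 : ℕ), false, ([] : List (List Bool))) + sz x * 8
      omega)
  exact h

/-- The reduction. -/
def red (x : List Sym) : List Sym :=
  outWord (cP (parse x).2.2.length (parse x).1 (parse x).2.2)

theorem redPT : PT red := by
  show PT fun x => outWord (cP (parse x).2.2.length (parse x).1 (parse x).2.2)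
  fun_prop

/-- The parser as a right fold. -/
theorem parse_eq (x : List Sym) :
    parse x = x.foldr (fun c s => rstep s c) (0, false, []) := by
  unfold parse
  rw [List.foldl_reverse]

theorem foldr_ones (κ : ℕ) : (List.replicate κ Sym.one).foldr (fun c s => rstep s c)
    (0, false, []) = (κ, false, []) := by
  induction κ with
  | zero => rfl
  | succ κ ih => rw [List.replicate_succ, List.foldr_cons, ih]; rfl

theorem foldr_digits (l : List Bool) (κ : ℕ) (r : List Bool) (M : List (List Bool)) :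
    (l.map MP_9c2350_lc.dig).foldr (fun c s => rstep s c) (κ, true, r :: M) =
      (κ, true, (l ++ r) :: M) := by
  induction l with
  | nil => rfl
  | cons b l ih =>
    rw [List.map_cons, List.foldr_cons, ih]
    cases b <;> rfl

theorem foldr_rows (R : List (List Bool)) (κ : ℕ) (M : List (List Bool)) :
    (R.map fun r => r.map MP_9c2350_lc.dig ++ [Sym.semi]).flatten.foldr (fun c s => rstep s c)
      (κ, true, M) = (κ, true, R ++ M) := by
  induction R with
  | nil => rfl
  | cons r R ih =>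
    rw [List.map_cons, List.flatten_cons, List.foldr_append, ih, List.foldr_append]
    have e : [Sym.semi].foldr (fun c s => rstep s c) (κ, true, R ++ M) =
      (κ, true, [] :: (R ++ M)) := rfl
    rw [e, foldr_digits, List.append_nil, List.cons_append]

open scoped Classical in
/-- The rows of the adjacency matrix. -/
noncomputable def adjRows {n : ℕ} (G : SimpleGraph (Fin n)) : List (List Bool) :=
  List.ofFn fun i => List.ofFn fun j => decide (G.Adj i j)

theorem encGraph_eq {n : ℕ} (G : SimpleGraph (Fin n)) : encGraph G =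
    ((adjRows G).map fun r => r.map MP_9c2350_lc.dig ++ [Sym.semi]).flatten ++ [Sym.bar] := by
  unfold encGraph adjRows
  rw [List.map_ofFn]
  congr 3
  funext i
  simp only [Function.comp, List.map_ofFn]
  rfl

theorem parse_encInst {n : ℕ} (G : SimpleGraph (Fin n)) (κ : ℕ) :
    parse (encInst G κ) = (κ, true, adjRows G) := by
  rw [parse_eq, encInst, encGraph_eq, List.foldr_append, foldr_ones, List.foldr_append]
  have e : [Sym.bar].foldr (fun c s => rstep s c) (κ, false, []) = (κ, true, []) := rfl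
  rw [e, foldr_rows, List.append_nil]

theorem outWord_eq (P : Par) (h : adjRows P.outGraph = P.rows) :
    outWord P = encInst P.outGraph P.K := by
  rw [outWord, encInst, encGraph_eq, h, List.flatMap_def]

theorem ofFn_get {β : Type} {γ : Type} (l : List β) (g : β → γ) :
    List.ofFn (fun i => g (l.get i)) = l.map g := by
  conv_rhs => rw [← List.ofFn_get l]
  rw [List.map_ofFn]
  rfl

theorem adj_ll (P : Par) (i j : Fin P.nodeList.length) :
    ¬ P.outGraph.Adj (Fin.castAdd _ i) (Fin.castAdd _ j) := by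
  unfold Par.outGraph
  rw [SimpleGraph.comap_adj, finSumFinEquiv_symm_apply_castAdd, finSumFinEquiv_symm_apply_castAdd]
  exact fun h => h

theorem adj_lr (P : Par) (i : Fin P.nodeList.length) (j : Fin P.edgeList.length) :
    P.outGraph.Adj (Fin.castAdd _ i) (Fin.natAdd _ j) ↔
      Par.inc (P.nodeList.get i) (P.edgeList.get j) = true := by
  unfold Par.outGraph
  rw [SimpleGraph.comap_adj, finSumFinEquiv_symm_apply_castAdd, finSumFinEquiv_symm_apply_natAdd]
  exact Iff.rfl

theorem adj_rl (P : Par) (i : Fin P.nodeList.length) (j : Fin P.edgeList.length) :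
    P.outGraph.Adj (Fin.natAdd _ j) (Fin.castAdd _ i) ↔
      Par.inc (P.nodeList.get i) (P.edgeList.get j) = true := by
  unfold Par.outGraph
  rw [SimpleGraph.comap_adj, finSumFinEquiv_symm_apply_castAdd, finSumFinEquiv_symm_apply_natAdd]
  exact Iff.rfl

theorem adj_rr (P : Par) (i j : Fin P.edgeList.length) :
    ¬ P.outGraph.Adj (Fin.natAdd _ i) (Fin.natAdd _ j) := by
  unfold Par.outGraph
  rw [SimpleGraph.comap_adj, finSumFinEquiv_symm_apply_natAdd, finSumFinEquiv_symm_apply_natAdd]
  exact fun h => h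

open scoped Classical in
theorem adjRows_outGraph (P : Par) : adjRows P.outGraph = P.rows := by
  unfold adjRows Par.rows
  rw [List.ofFn_add]
  congr 1
  · rw [← ofFn_get]
    congr 1
    funext i
    rw [List.ofFn_add]
    congr 1
    · rw [← ofFn_get]
      congr 1
      funext j
      exact decide_eq_false (adj_ll P i j)
    · rw [← ofFn_get]
      congr 1
      funext j
      rw [Bool.eq_iff_iff, decide_eq_true_iff]
      exact adj_lr P i j
  · rw [← ofFn_get]
    congr 1
    funext i
    rw [List.ofFn_add]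
    congr 1
    · rw [← ofFn_get]
      congr 1
      funext j
      rw [Bool.eq_iff_iff, decide_eq_true_iff]
      exact adj_rl P j i
    · rw [← ofFn_get]
      congr 1
      funext j
      exact decide_eq_false (adj_rr P i j)

end PL

open scoped Classical in
/-- adjacency on ℕ of a graph on Fin N -/
noncomputable def adjOf {N : ℕ} (Γ : SimpleGraph (Fin N)) (x y : ℕ) : Bool :=
  decide (∃ (hx : x < N) (hy : y < N), Γ.Adj ⟨x, hx⟩ ⟨y, hy⟩)

theorem getD_ofFn {β : Type} {n : ℕ} (f : Fin n → β) (d : β) (x : ℕ) (hx : x < n) :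
    (List.ofFn f).getD x d = f ⟨x, hx⟩ := by
  rw [List.getD_eq_getElem _ _ (by simpa using hx), List.getElem_ofFn]

theorem getD_ofFn' {β : Type} {n : ℕ} (f : Fin n → β) (d : β) (x : ℕ) (hx : ¬ x < n) :
    (List.ofFn f).getD x d = d :=
  List.getD_eq_default _ _ (by simpa using hx)

theorem adjM_adjRows {N : ℕ} (Γ : SimpleGraph (Fin N)) :
    adjM (PL.adjRows Γ) = adjOf Γ := by
  funext x y
  unfold adjM PL.adjRows adjOf
  by_cases hx : x < N
  · rw [getD_ofFn _ _ _ hx]
    by_cases hy : y < N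
    · rw [getD_ofFn _ _ _ hy]
      simp [hx, hy]
    · rw [getD_ofFn' _ _ _ hy]
      simp [hy]
  · rw [getD_ofFn' _ _ _ hx]
    simp [hx]

theorem exists_poly_reduction : ∃ f : List Sym → List Sym, MP_9c2350_lc.Poly f ∧
    ∀ (N κ : ℕ) (Γ : SimpleGraph (Fin N)), f (encInst Γ κ) =
      encInst (cliquePar N κ (adjOf Γ)).outGraph (cliquePar N κ (adjOf Γ)).K := by
  refine ⟨PL.red, PL.redPT, fun N κ Γ => ?_⟩
  have hl : (PL.adjRows Γ).length = N := by simp [PL.adjRows]
  rw [PL.red, PL.parse_encInst]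
  simp only
  rw [hl, PL.outWord_eq _ (PL.adjRows_outGraph _)]
  unfold cP
  rw [adjM_adjRows]

end Pool.Agent.Lib.MP_20e1d9_lc
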