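import Pool.Agent.Lib.MP_20e1d9_lc.Sub

/-!
The gadget graph.

There are `k` rows `j < k`, `k + 1` strips `j ≤ k` (strip `j` is above row `j`, and below row
`j - 1`), columns `0, ..., n + 1` (column `0` is the left chain, columns `1, ..., n` belong to the
items `0, ..., n - 1`, column `n + 1` is the right spine).
-/

set_option autoImplicit false

namespace Pool.Agent.Lib.MP_20e1d9_lc

/-- Names of the main vertices. -/
inductive Nd
  | q (i j : ℕ)
  | u (i j : ℕ)
  | g (i j : ℕ)
  | v (i j : ℕ)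
  deriving DecidableEq

/-- Kinds of bundles of parallel edges. -/
inductive Tg
  | UL | UR | E | D | VL | VR
  deriving DecidableEq, Fintype

/-- Names of bundles. -/
abbrev Bn : Type := Tg × ℕ × ℕ

/-- Upper end of a bundle. -/
def bsrc : Bn → Nd
  | (.UL, i, j) => .q i j
  | (.UR, i, j) => .q i j
  | (.E, i, j) => .u i j
  | (.D, i, j) => .g i j
  | (.VL, i, j) => .v (i + 1) j
  | (.VR, i, j) => .v i j

/-- Lower end of a bundle. -/
def btgt : Bn → Nd
  | (.UL, i, j) => .u (i + 1) j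
  | (.UR, i, j) => .u i j
  | (.E, i, j) => .g i j
  | (.D, i, j) => .v i j
  | (.VL, i, j) => .q i (j + 1)
  | (.VR, i, j) => .q i (j + 1)

/-- The data of an instance: `n` items, `k` rows, a unit `s`, costs `α`, `β`, `δ` of the states of
a row `j` in the column of item `i`, capacities `b j`. -/
structure Par where
  n : ℕ
  k : ℕ
  s : ℕ
  α : ℕ → ℕ → ℕ
  β : ℕ → ℕ → ℕ
  δ : ℕ → ℕ → ℕ
  b : ℕ → ℕ

namespace Par

/-- Standing assumptions. -/
structure Good (P : Par) : Prop where
  hk : 2 ≤ P.k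
  hs : 1 ≤ P.s
  hα : ∀ i j, P.α i j ≤ P.s
  hβ : ∀ i j, P.β i j ≤ P.s
  hδ : ∀ i j, P.δ i j ≤ P.s
  hb : ∀ j, P.b j ≤ P.s

variable (P : Par)

/-- The congestion bound. -/
def K : ℕ := 20 * P.s * (P.n + 2) * (P.k + 1)

/-- Weight of the bundles `E` of columns `≤ n`. -/
def ew : ℕ := P.K - 3 * P.s

/-- Weight of the bundles of the spine in row `j`. -/
def cw (j : ℕ) : ℕ := P.K - 2 * P.s * (P.n + 1) - P.b j

/-- Weight (multiplicity) of a bundle. -/
def w : Bn → ℕ
  | (.UL, i, j) => if i = P.n then P.cw j else if j = 0 then 4 * P.s else P.s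
  | (.UR, i, j) => if i = 0 then 2 * P.s else if j = 0 then 4 * P.s else P.s + P.α (i - 1) j
  | (.E, i, j) => if i = P.n + 1 then P.cw j else P.ew
  | (.D, i, j) => if i = 0 then 2 * P.s else if i = P.n + 1 then P.cw j
      else 2 * P.s + P.δ (i - 1) j
  | (.VL, i, j) => if i = P.n then P.cw j else if j + 1 = P.k then 4 * P.s else P.s
  | (.VR, i, j) => if i = 0 then 2 * P.s else if j + 1 = P.k then 4 * P.s
      else P.s + P.β (i - 1) j

/-- The number of columns in which a kind of bundle occurs. -/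
def cols : Tg → ℕ
  | .UL => P.n + 1
  | .UR => P.n + 1
  | .E => P.n + 2
  | .D => P.n + 2
  | .VL => P.n + 1
  | .VR => P.n + 1

/-- The bundles of the instance. -/
def bundles : Finset Bn :=
  (Finset.univ ×ˢ Finset.range (P.n + 2) ×ˢ Finset.range P.k).filter (fun b => b.2.1 < P.cols b.1)

/-- The main vertices of the instance. -/
def IsNode : Nd → Prop
  | .q i j => i ≤ P.n ∧ j ≤ P.k
  | .u i j => i ≤ P.n + 1 ∧ j < P.k
  | .g i j => i ≤ P.n + 1 ∧ j < P.k
  | .v i j => i ≤ P.n + 1 ∧ j < P.k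

/-- Type of main vertices. -/
def M : Type := {x : Nd // P.IsNode x}

/-- Type of edges. -/
def Ed : Type := {p : Bn × ℕ // p.1 ∈ P.bundles ∧ p.2 < P.w p.1}

theorem isNode_src {b : Bn} (hb : b ∈ P.bundles) : P.IsNode (bsrc b) := by
  obtain ⟨t, i, j⟩ := b
  simp only [bundles, Finset.mem_filter, Finset.mem_product, Finset.mem_univ, Finset.mem_range,
    true_and] at hb
  obtain ⟨⟨-, h2⟩, h3⟩ := hb
  cases t <;> simp only [cols] at h3 <;> simp only [bsrc, IsNode] <;> omega

theorem isNode_tgt {b : Bn} (hb : b ∈ P.bundles) : P.IsNode (btgt b) := by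
  obtain ⟨t, i, j⟩ := b
  simp only [bundles, Finset.mem_filter, Finset.mem_product, Finset.mem_univ, Finset.mem_range,
    true_and] at hb
  obtain ⟨⟨-, h2⟩, h3⟩ := hb
  cases t <;> simp only [cols] at h3 <;> simp only [btgt, IsNode] <;> omega

/-- Upper end of an edge. -/
def esrc (e : P.Ed) : P.M := ⟨bsrc e.1.1, P.isNode_src e.2.1⟩

/-- Lower end of an edge. -/
def etgt (e : P.Ed) : P.M := ⟨btgt e.1.1, P.isNode_tgt e.2.1⟩

/-- The graph of the instance. -/
def graph : SimpleGraph (P.M ⊕ P.Ed) := SubG P.esrc P.etgt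

open scoped Classical in
/-- The weight of a cut. -/
noncomputable def cutw (S : Set Nd) : ℕ :=
  ∑ b ∈ P.bundles, if (bsrc b ∈ S ↔ btgt b ∈ S) then 0 else P.w b

end Par

end Pool.Agent.Lib.MP_20e1d9_lc
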