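import Pool.Agent.Lib.MP_20e1d9_lc.Sub
import Pool.Agent.Lib.MP_20e1d9_lc.Gadget

section

/-!
Sides of tree edges, spanning trees from cuts, and isomorphism invariance.
-/

set_option autoImplicit false

namespace Pool.Agent.Lib.MP_20e1d9_lc

open SimpleGraph

section Tree

variable {V : Type*} {G T : SimpleGraph V}

theorem mem_side_self (T : SimpleGraph V) (a b : V) : a ∈ side T a b := by
  show (T.deleteEdges {s(a, b)}).Reachable a a
  exact Reachable.refl a

theorem mem_side_of_adj {a b x y : V} (hx : x ∈ side T a b) (hxy : T.Adj x y)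
    (hne : s(x, y) ≠ s(a, b)) : y ∈ side T a b := by
  have h : (T.deleteEdges {s(a, b)}).Reachable a x := hx
  have h2 : (T.deleteEdges {s(a, b)}).Adj x y := by
    rw [deleteEdges_adj]
    exact ⟨hxy, by simpa using hne⟩
  exact h.trans h2.reachable

theorem side_or (hT : T.Connected) (a b x : V) : x ∈ side T a b ∨ x ∈ side T b a := by
  obtain ⟨p⟩ := hT.preconnected a x
  have key : ∀ {u v : V} (p : T.Walk u v), (u ∈ side T a b ∨ u ∈ side T b a) →
      (v ∈ side T a b ∨ v ∈ side T b a) := by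
    intro u v p
    induction p with
    | nil => exact id
    | @cons u w v h p ih =>
      intro hu
      apply ih
      by_cases hne : s(u, w) = s(a, b)
      · rcases Sym2.eq_iff.1 hne with ⟨_, rfl⟩ | ⟨_, rfl⟩
        · exact Or.inr (mem_side_self _ _ _)
        · exact Or.inl (mem_side_self _ _ _)
      · rcases hu with hu | hu
        · exact Or.inl (mem_side_of_adj hu h hne)
        · exact Or.inr (mem_side_of_adj hu h (by rw [Sym2.eq_swap (a := b)]; exact hne))
  exact key p (Or.inl (mem_side_self _ _ _))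

theorem not_side_both (hT : T.IsAcyclic) {a b x : V} (h : T.Adj a b) (h1 : x ∈ side T a b)
    (h2 : x ∈ side T b a) : False := by
  have hb := isAcyclic_iff_forall_adj_isBridge.1 hT h
  rw [isBridge_iff] at hb
  have h1' : (T.deleteEdges {s(a, b)}).Reachable a x := h1
  have h2' : (T.deleteEdges {s(b, a)}).Reachable b x := h2
  rw [Sym2.eq_swap] at h2'
  exact hb (h1'.trans h2'.symm)

theorem side_compl (hT : T.IsTree) {a b : V} (h : T.Adj a b) : side T b a = (side T a b)ᶜ := by
  ext x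
  rw [Set.mem_compl_iff]
  constructor
  · intro h1 h2
    exact not_side_both hT.isAcyclic h h2 h1
  · intro h1
    exact (side_or hT.connected a b x).resolve_left h1

theorem eq_of_adj_of_side (hT : T.IsTree) {a b x y : V} (h : T.Adj a b) (hxy : T.Adj x y)
    (hx : x ∈ side T a b) (hy : y ∈ side T b a) : x = a ∧ y = b := by
  by_cases hne : s(x, y) = s(a, b)
  · rcases Sym2.eq_iff.1 hne with h1 | ⟨rfl, rfl⟩
    · exact h1
    · exact (not_side_both hT.isAcyclic h hx (mem_side_self _ _ _)).elim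
  · exact (not_side_both hT.isAcyclic h (mem_side_of_adj hx hxy hne) hy).elim

theorem exists_crossing_aux {A : Set V} {x y : V} (p : T.Walk x y) (hp : p.IsTrail)
    (hx : x ∈ A) (hy : y ∉ A) :
    ∃ a b, s(a, b) ∈ p.edges ∧ T.Adj a b ∧ a ∈ A ∧ b ∉ A ∧ x ∈ side T a b ∧ y ∈ side T b a := by
  induction p with
  | nil => exact (hy hx).elim
  | @cons x z y h p ih =>
    rw [Walk.isTrail_cons] at hp
    by_cases hz : z ∈ A
    · obtain ⟨a, b, h1, h2, h3, h4, h5, h6⟩ := ih hp.1 hz hy
      refine ⟨a, b, ?_, h2, h3, h4, ?_, h6⟩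
      · rw [Walk.edges_cons]
        exact List.mem_cons_of_mem _ h1
      · apply mem_side_of_adj h5 h.symm
        intro heq
        apply hp.2
        rw [Sym2.eq_swap, heq]
        exact h1
    · refine ⟨x, z, ?_, h, hx, hz, mem_side_self _ _ _, ?_⟩
      · rw [Walk.edges_cons]
        exact List.mem_cons_self
      · show (T.deleteEdges {s(z, x)}).Reachable z y
        rw [reachable_deleteEdges_iff_exists_walk]
        exact ⟨p, by rw [Sym2.eq_swap]; exact hp.2⟩

theorem exists_crossing (hT : T.IsTree) {A : Set V} {x y : V} (hx : x ∈ A) (hy : y ∉ A) :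
    ∃ a b, T.Adj a b ∧ a ∈ A ∧ b ∉ A ∧ x ∈ side T a b ∧ y ∈ side T b a := by
  obtain ⟨p, hp, _⟩ := hT.existsUnique_path x y
  obtain ⟨a, b, _, h⟩ := exists_crossing_aux p hp.isTrail hx hy
  exact ⟨a, b, h⟩

theorem cng_eq (hT : T.IsTree) {a b : V} (h : T.Adj a b) : cng G T s(a, b) =
    {f ∈ G.edgeSet | ∃ x y, f = s(x, y) ∧ x ∈ side T a b ∧ y ∉ side T a b}.ncard := by
  unfold cng
  congr 1
  ext f
  constructor
  · rintro ⟨hf, x, y, rfl, hxy⟩
    refine ⟨hf, ?_⟩
    rcases side_or hT.connected a b x with hx | hx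
    · refine ⟨x, y, rfl, hx, ?_⟩
      intro hy
      have hx' : (T.deleteEdges {s(a, b)}).Reachable a x := hx
      have hy' : (T.deleteEdges {s(a, b)}).Reachable a y := hy
      exact hxy (hx'.symm.trans hy')
    · rcases side_or hT.connected a b y with hy | hy
      · refine ⟨y, x, Sym2.eq_swap, hy, ?_⟩
        intro hx2
        exact not_side_both hT.isAcyclic h hx2 hx
      · exfalso
        have hx' : (T.deleteEdges {s(b, a)}).Reachable b x := hx
        have hy' : (T.deleteEdges {s(b, a)}).Reachable b y := hy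
        rw [Sym2.eq_swap] at hx' hy'
        exact hxy (hx'.symm.trans hy')
  · rintro ⟨hf, x, y, rfl, hx, hy⟩
    refine ⟨hf, x, y, rfl, ?_⟩
    intro hxy
    have hx' : (T.deleteEdges {s(a, b)}).Reachable a x := hx
    exact hy (hx'.trans hxy)

theorem not_reachable_of_cut {a b : V} {S : Set V}
    (hS : ∀ x y, T.Adj x y → x ∈ S → y ∉ S → x = a ∧ y = b) {x y : V} (hx : x ∈ S) (hy : y ∉ S) :
    ¬ (T.deleteEdges {s(a, b)}).Reachable x y := by
  rintro ⟨p⟩
  obtain ⟨d, _, h1, h2⟩ := p.exists_boundary_dart S hx hy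
  have hadj := d.adj
  rw [deleteEdges_adj] at hadj
  obtain ⟨h3, h4⟩ := hS _ _ hadj.1 h1 h2
  apply hadj.2
  rw [h3, h4]
  exact Set.mem_singleton _

theorem isTree_of_cuts (hT : T.Connected) (h : ∀ a b, T.Adj a b → ∃ S : Set V, a ∈ S ∧ b ∉ S ∧
    ∀ x y, T.Adj x y → x ∈ S → y ∉ S → x = a ∧ y = b) : T.IsTree := by
  refine ⟨hT, ?_⟩
  rw [isAcyclic_iff_forall_adj_isBridge]
  intro a b hab
  rw [isBridge_iff]
  obtain ⟨S, ha, hb, hS⟩ := h a b hab
  exact not_reachable_of_cut hS ha hb

theorem side_eq_of_cut (hT : T.Connected) {a b : V} (h : T.Adj a b) {S : Set V} (ha : a ∈ S)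
    (hb : b ∉ S) (hS : ∀ x y, T.Adj x y → x ∈ S → y ∉ S → x = a ∧ y = b) : side T a b = S := by
  ext x
  constructor
  · intro hx
    by_contra hxS
    exact not_reachable_of_cut hS ha hxS hx
  · intro hx
    rcases side_or hT a b x with h1 | h1
    · exact h1
    · exfalso
      have h2 : (T.deleteEdges {s(b, a)}).Reachable b x := h1
      rw [Sym2.eq_swap] at h2
      exact not_reachable_of_cut hS hx hb h2.symm

theorem stc_le_iff [Finite V] (hG : G.Connected) (K : ℕ) :
    stc G ≤ K ↔ ∃ T, IsSpanningTree G T ∧ ∀ e ∈ T.edgeSet, cng G T e ≤ K := by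
  constructor
  · intro h
    have hne : {c | ∃ T, IsSpanningTree G T ∧ ec G T = c}.Nonempty := by
      obtain ⟨T, hle, hT⟩ := hG.exists_isTree_le
      exact ⟨_, T, ⟨hle, hT⟩, rfl⟩
    obtain ⟨T, hT, hc⟩ := Nat.sInf_mem hne
    refine ⟨T, hT, ?_⟩
    intro e he
    have h1 : cng G T e ≤ ec G T := by
      unfold ec
      apply le_csSup
      · have : {c | ∃ e ∈ T.edgeSet, c = cng G T e} = (fun e => cng G T e) '' T.edgeSet := by
          ext c
          constructor
          · rintro ⟨e, he, rfl⟩; exact ⟨e, he, rfl⟩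
          · rintro ⟨e, he, rfl⟩; exact ⟨e, he, rfl⟩
        rw [this]
        exact ((Set.toFinite T.edgeSet).image _).bddAbove
      · exact ⟨e, he, rfl⟩
    calc cng G T e ≤ ec G T := h1
      _ = stc G := hc
      _ ≤ K := h
  · rintro ⟨T, hT, h⟩
    calc stc G ≤ ec G T := Nat.sInf_le ⟨T, hT, rfl⟩
      _ ≤ K := by
        unfold ec
        apply csSup_le'
        rintro c ⟨e, he, rfl⟩
        exact h e he

theorem cng_iso {W : Type*} {G' : SimpleGraph W} (e : G ≃g G') (T : SimpleGraph V) (f : Sym2 V) :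
    cng G' (T.comap e.symm) (f.map e) = cng G T f := by
  unfold cng
  have hiso : ∀ x y : V, ((T.comap e.symm).deleteEdges {f.map e}).Reachable (e x) (e y) ↔
      (T.deleteEdges {f}).Reachable x y := by
    intro x y
    let φ : T.deleteEdges {f} ≃g (T.comap e.symm).deleteEdges {f.map e} :=
      { toEquiv := e.toEquiv
        map_rel_iff' := by
          intro a b
          simp only [deleteEdges_adj, comap_adj, Set.mem_singleton_iff]
          have h1 : e.symm (e.toEquiv a) = a := e.symm_apply_apply a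
          have h2 : e.symm (e.toEquiv b) = b := e.symm_apply_apply b
          rw [h1, h2]
          have h3 : s(e.toEquiv a, e.toEquiv b) = f.map e ↔ s(a, b) = f := by
            rw [show s(e.toEquiv a, e.toEquiv b) = (s(a, b)).map e from rfl]
            exact (Sym2.map.injective e.injective).eq_iff
          rw [h3] }
    exact φ.reachable_iff
  rw [← Set.ncard_image_of_injective _ (Sym2.map.injective e.injective)]
  congr 1
  ext g
  constructor
  · rintro ⟨hg, x, y, rfl, hxy⟩
    refine ⟨s(e.symm x, e.symm y), ⟨?_, e.symm x, e.symm y, rfl, ?_⟩, ?_⟩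
    · rw [mem_edgeSet] at hg ⊢
      exact e.symm.map_adj_iff.2 hg
    · rw [← hiso, e.apply_symm_apply, e.apply_symm_apply]
      exact hxy
    · rw [Sym2.map_mk, e.apply_symm_apply, e.apply_symm_apply]
  · rintro ⟨g, ⟨hg, x, y, rfl, hxy⟩, rfl⟩
    refine ⟨?_, e x, e y, rfl, ?_⟩
    · rw [Sym2.map_mk, mem_edgeSet]
      exact e.map_adj_iff.2 hg
    · rw [hiso]
      exact hxy

theorem ec_iso {W : Type*} {G' : SimpleGraph W} (e : G ≃g G') (T : SimpleGraph V) :
    ec G' (T.comap e.symm) = ec G T := by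
  unfold ec
  congr 1
  ext c
  constructor
  · rintro ⟨f, hf, rfl⟩
    refine ⟨f.map e.symm, ?_, ?_⟩
    · induction f with
      | _ x y => exact hf
    · rw [← cng_iso e]
      congr 1
      induction f with
      | _ x y => rw [Sym2.map_mk, Sym2.map_mk, e.apply_symm_apply, e.apply_symm_apply]
  · rintro ⟨f, hf, rfl⟩
    refine ⟨f.map e, ?_, (cng_iso e T f).symm⟩
    induction f with
    | _ x y =>
      rw [Sym2.map_mk, mem_edgeSet, comap_adj, e.symm_apply_apply, e.symm_apply_apply]
      exact hf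

theorem isSpanningTree_iso {W : Type*} {G' : SimpleGraph W} (e : G ≃g G') {T : SimpleGraph V}
    (hT : IsSpanningTree G T) : IsSpanningTree G' (T.comap e.symm) := by
  refine ⟨?_, ?_⟩
  · intro x y hxy
    rw [comap_adj] at hxy
    exact e.symm.map_adj_iff.1 (hT.1 hxy)
  · let φ : T.comap e.symm ≃g T := Iso.comap e.symm.toEquiv T
    exact φ.isTree_iff.2 hT.2

theorem stc_iso {W : Type*} {G' : SimpleGraph W} (e : G ≃g G') : stc G = stc G' := by
  unfold stc
  congr 1
  ext c
  constructor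
  · rintro ⟨T, hT, rfl⟩
    exact ⟨T.comap e.symm, isSpanningTree_iso e hT, ec_iso e T⟩
  · rintro ⟨T, hT, rfl⟩
    exact ⟨T.comap e.symm.symm, isSpanningTree_iso e.symm hT, ec_iso e.symm T⟩

theorem kouterplanar_iso {W : Type*} {G' : SimpleGraph W} (e : G ≃g G') {k : ℕ}
    (h : KOuterplanar G k) : KOuterplanar G' k := by
  obtain ⟨D, hD⟩ := h
  have hedge : ∀ f : Sym2 W, f ∈ G'.edgeSet → f.map e.symm ∈ G.edgeSet := by
    intro f hf
    induction f with
    | _ x y =>
      rw [Sym2.map_mk, mem_edgeSet]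
      exact e.symm.map_adj_iff.2 hf
  have hmem : ∀ (f : Sym2 W) (w : V), w ∈ f.map e.symm → e w ∈ f := by
    intro f w hw
    rw [Sym2.mem_map] at hw
    obtain ⟨a, ha, rfl⟩ := hw
    rw [e.apply_symm_apply]
    exact ha
  let D' : PlaneEmbedding G' :=
    { pos := fun w => D.pos (e.symm w)
      arc := fun f => D.arc (f.map e.symm)
      pos_injective := D.pos_injective.comp e.symm.injective
      isArc := by
        intro u v huv
        exact D.isArc _ _ (e.symm.map_adj_iff.2 huv)
      vertex_arc := by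
        intro f hf w hw
        have := D.vertex_arc _ (hedge f hf) _ hw
        have := hmem _ _ this
        rwa [e.apply_symm_apply] at this
      arc_inter := by
        intro f hf g hg hfg p hpf hpg
        obtain ⟨w, h1, h2, h3⟩ := D.arc_inter _ (hedge f hf) _ (hedge g hg)
          (fun h => hfg (Sym2.map.injective e.symm.injective h)) p hpf hpg
        refine ⟨e w, hmem _ _ h1, hmem _ _ h2, ?_⟩
        show p = D.pos (e.symm (e w))
        rw [e.symm_apply_apply]
        exact h3 }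
  have hdrawn : ∀ S : Set V, D'.drawn (e.symm ⁻¹' S) = D.drawn S := by
    intro S
    unfold PlaneEmbedding.drawn
    congr 1
    · ext p
      constructor
      · rintro ⟨w, hw, rfl⟩
        exact ⟨e.symm w, hw, rfl⟩
      · rintro ⟨v, hv, rfl⟩
        refine ⟨e v, ?_, ?_⟩
        · show e.symm (e v) ∈ S
          rw [e.symm_apply_apply]; exact hv
        · show D.pos (e.symm (e v)) = D.pos v
          rw [e.symm_apply_apply]
    · ext p
      simp only [Set.mem_iUnion]
      constructor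
      · rintro ⟨f, ⟨hf, hfS⟩, hp⟩
        refine ⟨f.map e.symm, ⟨hedge f hf, ?_⟩, hp⟩
        intro v hv
        rw [Sym2.mem_map] at hv
        obtain ⟨a, ha, rfl⟩ := hv
        exact hfS a ha
      · rintro ⟨f, ⟨hf, hfS⟩, hp⟩
        have hff : (f.map e).map e.symm = f := by
          induction f with
          | _ x y => rw [Sym2.map_mk, Sym2.map_mk, e.symm_apply_apply, e.symm_apply_apply]
        refine ⟨f.map e, ⟨?_, ?_⟩, ?_⟩
        · induction f with
          | _ x y =>
            rw [Sym2.map_mk, mem_edgeSet]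
            exact e.map_adj_iff.2 hf
        · intro v hv
          rw [Sym2.mem_map] at hv
          obtain ⟨a, ha, rfl⟩ := hv
          show e.symm (e a) ∈ S
          rw [e.symm_apply_apply]
          exact hfS a ha
        · show p ∈ D.arc ((f.map e).map e.symm)
          rw [hff]
          exact hp
  have hface : ∀ S : Set V, D'.outerFace (e.symm ⁻¹' S) = D.outerFace S := by
    intro S
    unfold PlaneEmbedding.outerFace
    rw [hdrawn]
  have hverts : ∀ S : Set V, D'.outerVerts (e.symm ⁻¹' S) = e.symm ⁻¹' (D.outerVerts S) := by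
    intro S
    unfold PlaneEmbedding.outerVerts
    rw [hface]
    rfl
  have hK : ∀ (k : ℕ) (S : Set V), D.KOuter k S → D'.KOuter k (e.symm ⁻¹' S) := by
    intro k
    induction k with
    | zero =>
      intro S hS
      have hS' : S = ∅ := hS
      show e.symm ⁻¹' S = ∅
      rw [hS', Set.preimage_empty]
    | succ k ih =>
      intro S hS
      have hS' : D.KOuter k (S \ D.outerVerts S) := hS
      show D'.KOuter k ((e.symm ⁻¹' S) \ D'.outerVerts (e.symm ⁻¹' S))
      rw [hverts, ← Set.preimage_diff]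
      exact ih _ hS'
  refine ⟨D', ?_⟩
  have := hK k Set.univ hD
  rwa [Set.preimage_univ] at this

end Tree

end Pool.Agent.Lib.MP_20e1d9_lc
end

section

section

/-!
Three lower bounds for the weights of cuts of the gadget.
-/

set_option autoImplicit false

namespace Pool.Agent.Lib.MP_20e1d9_lc

namespace Par

theorem mem_bundles {P : Par} {t : Tg} {i j : ℕ} :
    ((t, i, j) : Bn) ∈ P.bundles ↔ i < P.cols t ∧ j < P.k := by
  simp only [bundles, Finset.mem_filter, Finset.mem_product, Finset.mem_univ, Finset.mem_range,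
    true_and]
  cases t <;> simp only [cols] <;> omega

instance (P : Par) : Finite P.M := by
  have h : Set.Finite {x : Nd | P.IsNode x} := by
    have hsub : {x : Nd | P.IsNode x} ⊆
        ((fun p : ℕ × ℕ => Nd.q p.1 p.2) '' (Set.Iic (P.n + 1) ×ˢ Set.Iic P.k)) ∪
        ((fun p : ℕ × ℕ => Nd.u p.1 p.2) '' (Set.Iic (P.n + 1) ×ˢ Set.Iic P.k)) ∪
        ((fun p : ℕ × ℕ => Nd.g p.1 p.2) '' (Set.Iic (P.n + 1) ×ˢ Set.Iic P.k)) ∪
        ((fun p : ℕ × ℕ => Nd.v p.1 p.2) '' (Set.Iic (P.n + 1) ×ˢ Set.Iic P.k)) := by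
      intro x hx
      rcases x with ⟨i, j⟩ | ⟨i, j⟩ | ⟨i, j⟩ | ⟨i, j⟩ <;>
        simp only [Set.mem_ofPred_eq, IsNode] at hx
      · exact Or.inl (Or.inl (Or.inl ⟨(i, j), ⟨by simp only [Set.mem_Iic]; omega,
          by simp only [Set.mem_Iic]; omega⟩, rfl⟩))
      · exact Or.inl (Or.inl (Or.inr ⟨(i, j), ⟨by simp only [Set.mem_Iic]; omega,
          by simp only [Set.mem_Iic]; omega⟩, rfl⟩))
      · exact Or.inl (Or.inr ⟨(i, j), ⟨by simp only [Set.mem_Iic]; omega,
          by simp only [Set.mem_Iic]; omega⟩, rfl⟩)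
      · exact Or.inr ⟨(i, j), ⟨by simp only [Set.mem_Iic]; omega,
          by simp only [Set.mem_Iic]; omega⟩, rfl⟩
    have hf : (Set.Iic (P.n + 1) ×ˢ Set.Iic P.k : Set (ℕ × ℕ)).Finite :=
      (Set.finite_Iic _).prod (Set.finite_Iic _)
    exact ((((hf.image _).union (hf.image _)).union (hf.image _)).union (hf.image _)).subset hsub
  exact h.to_subtype

/-- The finite set underlying the edges of a set of bundles. -/
def edgeFin (P : Par) (T : Finset Bn) : Finset (Bn × ℕ) :=
  T.biUnion (fun b => (Finset.range (P.w b)).map ⟨fun m => (b, m), fun x y h => by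
    simpa using h⟩)

theorem mem_edgeFin {P : Par} {T : Finset Bn} {p : Bn × ℕ} :
    p ∈ P.edgeFin T ↔ p.1 ∈ T ∧ p.2 < P.w p.1 := by
  simp only [edgeFin, Finset.mem_biUnion, Finset.mem_map, Finset.mem_range]
  constructor
  · rintro ⟨b, hb, m, hm, rfl⟩
    exact ⟨hb, hm⟩
  · rintro ⟨h1, h2⟩
    exact ⟨p.1, h1, p.2, h2, rfl⟩

theorem card_edgeFin (P : Par) (T : Finset Bn) : (P.edgeFin T).card = ∑ b ∈ T, P.w b := by
  rw [edgeFin, Finset.card_biUnion]
  · exact Finset.sum_congr rfl (fun b _ => by rw [Finset.card_map, Finset.card_range])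
  · intro x _ y _ hxy
    rw [Function.onFun, Finset.disjoint_left]
    intro p hp hp'
    simp only [Finset.mem_map, Finset.mem_range] at hp hp'
    obtain ⟨m, -, rfl⟩ := hp
    obtain ⟨m', -, h⟩ := hp'
    exact hxy (congrArg Prod.fst h).symm

instance (P : Par) : Finite P.Ed := by
  have h : Set.Finite {p : Bn × ℕ | p.1 ∈ P.bundles ∧ p.2 < P.w p.1} := by
    refine (P.edgeFin P.bundles).finite_toSet.subset ?_
    intro p hp
    exact Finset.mem_coe.mpr (mem_edgeFin.mpr hp)
  exact h.to_subtype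

open scoped Classical in
theorem cutw_eq_filter (P : Par) (S : Set Nd) :
    P.cutw S = ∑ b ∈ P.bundles.filter (fun b => ¬ (bsrc b ∈ S ↔ btgt b ∈ S)), P.w b := by
  rw [cutw, Finset.sum_filter]
  refine Finset.sum_congr rfl (fun b _ => ?_)
  by_cases h : (bsrc b ∈ S ↔ btgt b ∈ S)
  · rw [if_pos h, if_neg (fun h' => h' h)]
  · rw [if_neg h, if_pos h]

theorem spl_eq_cutw (P : Par) (S : Set Nd) : spl P.esrc P.etgt {m | m.1 ∈ S} = P.cutw S := by
  classical
  rw [spl, cutw_eq_filter, ← card_edgeFin, ← Set.ncard_coe_finset]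
  rw [← Set.ncard_image_of_injective (f := fun e : P.Ed => e.1)
    {e : P.Ed | ¬ (P.esrc e ∈ {m : P.M | m.1 ∈ S} ↔ P.etgt e ∈ {m : P.M | m.1 ∈ S})}
    (fun x y h => Subtype.ext h)]
  congr 1
  ext p
  simp only [Set.mem_image, Set.mem_ofPred_eq, Finset.mem_coe, mem_edgeFin, Finset.mem_filter]
  constructor
  · rintro ⟨e, he, rfl⟩
    exact ⟨⟨e.2.1, he⟩, e.2.2⟩
  · rintro ⟨⟨h1, h2⟩, h3⟩
    exact ⟨⟨p, h1, h3⟩, h2, rfl⟩

/-- Heavy bundles. -/
def Heavy (P : Par) : Bn → Prop
  | (.UL, i, _) => i = P.n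
  | (.UR, _, _) => False
  | (.E, _, _) => True
  | (.D, i, _) => i = P.n + 1
  | (.VL, i, _) => i = P.n
  | (.VR, _, _) => False

open scoped Classical in
/-- The contribution of a bundle to the weight of a cut. -/
noncomputable def sw (P : Par) (S : Set Nd) (b : Bn) : ℕ :=
  if (bsrc b ∈ S ↔ btgt b ∈ S) then 0 else P.w b

theorem sw_of_split {P : Par} {S : Set Nd} {b : Bn} (h : ¬ (bsrc b ∈ S ↔ btgt b ∈ S)) :
    P.sw S b = P.w b := by
  rw [sw, if_neg h]

theorem cutw_eq_sw (P : Par) (S : Set Nd) : P.cutw S = ∑ b ∈ P.bundles, P.sw S b := rfl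

/-- Distinct bundles contribute their total. -/
theorem list_le (P : Par) (S : Set Nd) (T : Finset Bn) (l : List Bn) (hl : l.Nodup)
    (hT : ∀ b ∈ l, b ∈ T) : (l.map (P.sw S)).sum ≤ ∑ b ∈ T, P.sw S b := by
  have h : ∑ b ∈ l.toFinset, P.sw S b = (l.map (P.sw S)).sum := by
    rw [List.sum_toFinset _ hl]
  rw [← h]
  refine Finset.sum_le_sum_of_subset (fun b hb => hT b ?_)
  exact List.mem_toFinset.mp hb

theorem K_ge {P : Par} (hP : P.Good) : 60 * (P.s * P.n) + 120 * P.s ≤ P.K := by
  have hk := hP.hk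
  have h : 20 * P.s * (P.n + 2) * 3 ≤ 20 * P.s * (P.n + 2) * (P.k + 1) :=
    Nat.mul_le_mul_left _ (by omega)
  rw [K]
  refine le_trans (le_of_eq ?_) h
  ring

theorem cw_add {P : Par} (hP : P.Good) (j : ℕ) :
    P.cw j + 2 * (P.s * P.n) + 2 * P.s + P.b j = P.K := by
  have h := K_ge hP
  have hb := hP.hb j
  have e : 2 * P.s * (P.n + 1) = 2 * (P.s * P.n) + 2 * P.s := by ring
  rw [cw, e]
  have hs := hP.hs
  omega

theorem ew_add {P : Par} (hP : P.Good) : P.ew + 3 * P.s = P.K := by
  have h := K_ge hP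
  rw [ew]
  omega

theorem two_heavy {P : Par} (hP : P.Good) {b : Bn} (hb : b ∈ P.bundles) (H : P.Heavy b) :
    P.K < 2 * P.w b := by
  have hK := K_ge hP
  have hs := hP.hs
  have he := ew_add hP
  obtain ⟨t, i, j⟩ := b
  have hc := cw_add hP j
  have hbj := hP.hb j
  have hE : P.K < 2 * P.ew := by omega
  have hC : P.K < 2 * P.cw j := by omega
  cases t
  · simp only [Heavy] at H
    simp only [w, H, if_true]
    exact hC
  · exact absurd H (by simp [Heavy])
  · simp only [w]
    split_ifs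
    · exact hC
    · exact hE
  · simp only [Heavy] at H
    have h0 : ¬ i = 0 := by omega
    simp only [w]
    rw [if_neg (by omega), if_pos H]
    exact hC
  · simp only [Heavy] at H
    simp only [w, H, if_true]
    exact hC
  · exact absurd H (by simp [Heavy])

theorem lemH {P : Par} (hP : P.Good) (S : Set Nd) {b₁ b₂ : Bn} (h₁ : b₁ ∈ P.bundles)
    (h₂ : b₂ ∈ P.bundles) (hne : b₁ ≠ b₂) (H₁ : P.Heavy b₁) (H₂ : P.Heavy b₂)
    (c₁ : ¬ (bsrc b₁ ∈ S ↔ btgt b₁ ∈ S)) (c₂ : ¬ (bsrc b₂ ∈ S ↔ btgt b₂ ∈ S)) :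
    P.K < P.cutw S := by
  have h := list_le P S P.bundles [b₁, b₂] (by simp [hne]) (by
    intro b hb
    simp only [List.mem_cons, List.not_mem_nil, or_false] at hb
    rcases hb with rfl | rfl
    · exact h₁
    · exact h₂)
  simp only [List.map_cons, List.map_nil, List.sum_cons, List.sum_nil, add_zero] at h
  rw [sw_of_split c₁, sw_of_split c₂, ← cutw_eq_sw] at h
  have a1 := two_heavy hP h₁ H₁
  have a2 := two_heavy hP h₂ H₂
  omega

/-- A change along a sequence. -/
theorem exists_drop {p : ℕ → Prop} {a b : ℕ} (hab : a ≤ b) (ha : p a) (hb : ¬ p b) :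
    ∃ i, a ≤ i ∧ i < b ∧ p i ∧ ¬ p (i + 1) := by
  by_contra hcon
  push Not at hcon
  have h : ∀ d, a + d ≤ b → p (a + d) := by
    intro d
    induction d with
    | zero => intro _; exact ha
    | succ d ih =>
      intro hd
      exact hcon (a + d) (by omega) (by omega) (ih (by omega))
  obtain ⟨d, rfl⟩ := Nat.exists_eq_add_of_le hab
  exact hb (h d le_rfl)

/-- Upper half of a diamond. -/
theorem up_half {P : Par} (S : Set Nd) {i j : ℕ} (hi : i < P.n)
    (hc : ¬ (Nd.q i j ∈ S ↔ Nd.q (i + 1) j ∈ S)) :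
    (if j = 0 then 4 * P.s else P.s) ≤ P.sw S (.UL, i, j) + P.sw S (.UR, i + 1, j) := by
  have hn : ¬ i = P.n := by omega
  have h01 : ¬ i + 1 = 0 := by omega
  by_cases h : (Nd.q i j ∈ S ↔ Nd.u (i + 1) j ∈ S)
  · have h' : ¬ (Nd.q (i + 1) j ∈ S ↔ Nd.u (i + 1) j ∈ S) := by tauto
    have e : P.sw S (.UR, i + 1, j) = P.w (.UR, i + 1, j) := sw_of_split h'
    rw [e]
    simp only [w, if_neg h01]
    split_ifs <;> omega
  · have e : P.sw S (.UL, i, j) = P.w (.UL, i, j) := sw_of_split h
    rw [e]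
    simp only [w, if_neg hn]
    split_ifs <;> omega

/-- Lower half of a diamond. -/
theorem down_half {P : Par} (S : Set Nd) {i j : ℕ} (hi : i < P.n)
    (hc : ¬ (Nd.q i (j + 1) ∈ S ↔ Nd.q (i + 1) (j + 1) ∈ S)) :
    (if j + 1 = P.k then 4 * P.s else P.s) ≤
      P.sw S (.VL, i, j) + P.sw S (.VR, i + 1, j) := by
  have hn : ¬ i = P.n := by omega
  have h01 : ¬ i + 1 = 0 := by omega
  by_cases h : (Nd.v (i + 1) j ∈ S ↔ Nd.q i (j + 1) ∈ S)
  · have h' : ¬ (Nd.v (i + 1) j ∈ S ↔ Nd.q (i + 1) (j + 1) ∈ S) := by tauto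
    have e : P.sw S (.VR, i + 1, j) = P.w (.VR, i + 1, j) := sw_of_split h'
    rw [e]
    simp only [w, if_neg h01]
    split_ifs <;> omega
  · have e : P.sw S (.VL, i, j) = P.w (.VL, i, j) := sw_of_split h
    rw [e]
    simp only [w, if_neg hn]
    split_ifs <;> omega

/-- The left chain. -/
theorem chain {P : Par} (S : Set Nd) {j : ℕ}
    (hc : ¬ (Nd.q 0 j ∈ S ↔ Nd.q 0 (j + 1) ∈ S)) (hE : (Nd.u 0 j ∈ S ↔ Nd.g 0 j ∈ S)) :
    2 * P.s ≤ P.sw S (.UR, 0, j) + P.sw S (.D, 0, j) + P.sw S (.VR, 0, j) := by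
  by_cases h1 : (Nd.q 0 j ∈ S ↔ Nd.u 0 j ∈ S)
  · by_cases h2 : (Nd.g 0 j ∈ S ↔ Nd.v 0 j ∈ S)
    · have h3 : ¬ (Nd.v 0 j ∈ S ↔ Nd.q 0 (j + 1) ∈ S) := by tauto
      have e : P.sw S (.VR, 0, j) = P.w (.VR, 0, j) := sw_of_split h3
      rw [e]
      simp only [w, if_true]
      omega
    · have e : P.sw S (.D, 0, j) = P.w (.D, 0, j) := sw_of_split h2
      rw [e]
      simp only [w, if_true]
      omega
  · have e : P.sw S (.UR, 0, j) = P.w (.UR, 0, j) := sw_of_split h1
    rw [e]
    simp only [w, if_true]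
    omega

/-- The contribution of the bundles with a given label. -/
noncomputable def fib (P : Par) (S : Set Nd) {L : Type} [DecidableEq L] (lab : Bn → L) (l : L) :
    ℕ := ∑ b ∈ P.bundles.filter (fun b => lab b = l), P.sw S b

theorem fib_le (P : Par) (S : Set Nd) {L : Type} [DecidableEq L] (lab : Bn → L)
    (T : Finset L) : ∑ l ∈ T, P.fib S lab l ≤ P.cutw S := by
  have h : ∀ l ∈ T, P.fib S lab l = ∑ b ∈ P.bundles, if lab b = l then P.sw S b else 0 := by
    intro l _
    rw [fib, Finset.sum_filter]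
  rw [Finset.sum_congr rfl h, Finset.sum_comm, cutw_eq_sw]
  refine Finset.sum_le_sum (fun b _ => ?_)
  rw [Finset.sum_ite_eq]
  split_ifs
  · exact le_rfl
  · exact Nat.zero_le _

theorem le_fib (P : Par) (S : Set Nd) {L : Type} [DecidableEq L] (lab : Bn → L) (l : L)
    (ls : List Bn) (hl : ls.Nodup) (h : ∀ b ∈ ls, b ∈ P.bundles ∧ lab b = l) :
    (ls.map (P.sw S)).sum ≤ P.fib S lab l :=
  list_le P S _ ls hl (fun b hb => Finset.mem_filter.mpr (h b hb))

/-- Labels: diamonds, left chain, `E`, other bundles. -/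
def lab : Bn → ℕ × ℕ × ℕ
  | (.UL, i, j) => (0, i, j)
  | (.UR, 0, j) => (1, 0, j)
  | (.UR, i + 1, j) => (0, i, j)
  | (.E, i, j) => (2, i, j)
  | (.D, 0, j) => (1, 0, j)
  | (.D, i + 1, j) => (3, i, j)
  | (.VL, i, j) => (0, i, j + 1)
  | (.VR, 0, j) => (1, 0, j)
  | (.VR, i + 1, j) => (0, i, j + 1)

theorem dia {P : Par} (hP : P.Good) (S : Set Nd) {i j : ℕ} (hi : i < P.n) (hj : j ≤ P.k)
    (hc : ¬ (Nd.q i j ∈ S ↔ Nd.q (i + 1) j ∈ S)) :
    2 * P.s ≤ P.fib S lab (0, i, j) ∧ (j = 0 ∨ j = P.k → 4 * P.s ≤ P.fib S lab (0, i, j)) := by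
  have hk := hP.hk
  rcases Nat.eq_zero_or_pos j with rfl | hj0
  · have h1 := up_half S hi hc
    have h2 := le_fib P S lab (0, i, 0) [(.UL, i, 0), (.UR, i + 1, 0)] (by simp) (by
      intro b hb
      simp only [List.mem_cons, List.not_mem_nil, or_false] at hb
      rcases hb with rfl | rfl
      · exact ⟨mem_bundles.mpr ⟨by simp only [cols]; omega, by omega⟩, rfl⟩
      · exact ⟨mem_bundles.mpr ⟨by simp only [cols]; omega, by omega⟩, rfl⟩)
    simp only [List.map_cons, List.map_nil, List.sum_cons, List.sum_nil, add_zero] at h2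
    rw [if_pos rfl] at h1
    constructor <;> omega
  · obtain ⟨j, rfl⟩ : ∃ j', j = j' + 1 := ⟨j - 1, by omega⟩
    have h1 := down_half S hi hc
    rcases Nat.eq_or_lt_of_le hj with hjk | hjk
    · have h2 := le_fib P S lab (0, i, j + 1) [(.VL, i, j), (.VR, i + 1, j)] (by simp) (by
        intro b hb
        simp only [List.mem_cons, List.not_mem_nil, or_false] at hb
        rcases hb with rfl | rfl
        · exact ⟨mem_bundles.mpr ⟨by simp only [cols]; omega, by omega⟩, rfl⟩
        · exact ⟨mem_bundles.mpr ⟨by simp only [cols]; omega, by omega⟩, rfl⟩)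
      simp only [List.map_cons, List.map_nil, List.sum_cons, List.sum_nil, add_zero] at h2
      rw [if_pos hjk] at h1
      constructor <;> omega
    · have h0 := up_half S hi hc
      have h2 := le_fib P S lab (0, i, j + 1) [(.UL, i, j + 1), (.UR, i + 1, j + 1),
        (.VL, i, j), (.VR, i + 1, j)] (by simp) (by
        intro b hb
        simp only [List.mem_cons, List.not_mem_nil, or_false] at hb
        rcases hb with rfl | rfl | rfl | rfl
        · exact ⟨mem_bundles.mpr ⟨by simp only [cols]; omega, by omega⟩, rfl⟩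
        · exact ⟨mem_bundles.mpr ⟨by simp only [cols]; omega, by omega⟩, rfl⟩
        · exact ⟨mem_bundles.mpr ⟨by simp only [cols]; omega, by omega⟩, rfl⟩
        · exact ⟨mem_bundles.mpr ⟨by simp only [cols]; omega, by omega⟩, rfl⟩)
      simp only [List.map_cons, List.map_nil, List.sum_cons, List.sum_nil, add_zero] at h2
      rw [if_neg (by omega)] at h1 h0
      constructor <;> omega

theorem chain_fib {P : Par} (S : Set Nd) {j : ℕ} (hj : j < P.k)
    (hc : ¬ (Nd.q 0 j ∈ S ↔ Nd.q 0 (j + 1) ∈ S)) (hE : (Nd.u 0 j ∈ S ↔ Nd.g 0 j ∈ S)) :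
    2 * P.s ≤ P.fib S lab (1, 0, j) := by
  have h1 := chain (P := P) S hc hE
  have h2 := le_fib P S lab (1, 0, j) [(.UR, 0, j), (.D, 0, j), (.VR, 0, j)] (by simp) (by
    intro b hb
    simp only [List.mem_cons, List.not_mem_nil, or_false] at hb
    rcases hb with rfl | rfl | rfl
    · exact ⟨mem_bundles.mpr ⟨by simp only [cols]; omega, by omega⟩, rfl⟩
    · exact ⟨mem_bundles.mpr ⟨by simp only [cols]; omega, by omega⟩, rfl⟩
    · exact ⟨mem_bundles.mpr ⟨by simp only [cols]; omega, by omega⟩, rfl⟩)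
  simp only [List.map_cons, List.map_nil, List.sum_cons, List.sum_nil, add_zero] at h2
  omega

theorem lemB {P : Par} (hP : P.Good) (S : Set Nd) (hspine : ∀ j ≤ P.k, Nd.q P.n j ∉ S)
    {i₀ j₀ : ℕ} (hi₀ : i₀ ≤ P.n) (hj₀ : j₀ ≤ P.k) (hq : Nd.q i₀ j₀ ∈ S) {i' j' : ℕ}
    (hi' : i' ≤ P.n) (hj' : j' < P.k) (hE : ¬ (Nd.u i' j' ∈ S ↔ Nd.g i' j' ∈ S)) :
    P.K < P.cutw S := by
  by_contra hcut
  have hcut' : P.cutw S ≤ P.K := Nat.le_of_not_lt hcut
  have he := ew_add hP
  have hs := hP.hs
  have hk := hP.hk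
  have hEm : ((Tg.E, i', j') : Bn) ∈ P.bundles :=
    mem_bundles.mpr ⟨by simp only [cols]; omega, hj'⟩
  have hEw : P.ew ≤ P.fib S lab (2, i', j') := by
    have e : P.sw S (.E, i', j') = P.w (.E, i', j') := sw_of_split hE
    have h2 := le_fib P S lab (2, i', j') [(.E, i', j')] (by simp) (by
      intro b hb
      simp only [List.mem_cons, List.not_mem_nil, or_false] at hb
      subst hb
      exact ⟨hEm, rfl⟩)
    simp only [List.map_cons, List.map_nil, List.sum_cons, List.sum_nil, add_zero] at h2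
    rw [e] at h2
    simp only [w] at h2
    rw [if_neg (by omega)] at h2
    exact h2
  have hEo : ∀ i j, i ≤ P.n + 1 → j < P.k → (i, j) ≠ (i', j') →
      (Nd.u i j ∈ S ↔ Nd.g i j ∈ S) := by
    intro i j hi hj hne
    by_contra hc
    refine hcut (lemH hP S (b₁ := (.E, i', j')) (b₂ := (.E, i, j)) hEm
      (mem_bundles.mpr ⟨by simp only [cols]; omega, hj⟩) ?_ trivial trivial hE hc)
    intro h
    exact hne (congrArg Prod.snd h).symm
  have hT : ∀ T : Finset (ℕ × ℕ × ℕ), (2, i', j') ∉ T → ∑ l ∈ T, P.fib S lab l ≤ 3 * P.s := by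
    intro T hT
    have h := fib_le P S lab (insert (2, i', j') T)
    rw [Finset.sum_insert hT] at h
    omega
  have hdrop : ∀ i j, i ≤ P.n → j ≤ P.k → Nd.q i j ∈ S → ∃ i₁, i ≤ i₁ ∧ i₁ < P.n ∧
      ¬ (Nd.q i₁ j ∈ S ↔ Nd.q (i₁ + 1) j ∈ S) := by
    intro i j hi hj h
    obtain ⟨i₁, h1, h2, h3, h4⟩ := exists_drop (p := fun i => Nd.q i j ∈ S) hi h (hspine j hj)
    exact ⟨i₁, h1, h2, fun h => h4 (h.mp h3)⟩
  obtain ⟨i₁, hi₁, hi₁', hc₁⟩ := hdrop i₀ j₀ hi₀ hj₀ hq
  have hd₁ := dia hP S hi₁' hj₀ hc₁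
  have hj0 : j₀ ≠ 0 ∧ j₀ ≠ P.k := by
    have h := hT {(0, i₁, j₀)} (by simp)
    rw [Finset.sum_singleton] at h
    constructor
    · intro h0
      have := hd₁.2 (Or.inl h0)
      omega
    · intro h0
      have := hd₁.2 (Or.inr h0)
      omega
  have hother : ∀ i j, i ≤ P.n → j ≤ P.k → j ≠ j₀ → Nd.q i j ∉ S := by
    intro i j hi hj hne h
    obtain ⟨i₂, -, hi₂, hc₂⟩ := hdrop i j hi hj h
    have hd₂ := (dia hP S hi₂ hj hc₂).1
    have h := hT {(0, i₁, j₀), (0, i₂, j)} (by simp)
    rw [Finset.sum_insert (by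
      simp only [Finset.mem_singleton, Prod.mk.injEq, true_and]
      exact fun h => hne h.2.symm), Finset.sum_singleton] at h
    omega
  have hq0 : Nd.q 0 j₀ ∈ S := by
    by_contra h0
    obtain ⟨i₂, -, h2, h3, h4⟩ := exists_drop (p := fun i => Nd.q i j₀ ∉ S) (Nat.zero_le i₀) h0
      (fun h => h hq)
    have hd₂ := (dia hP S (i := i₂) (by omega) hj₀ (fun h => h4 (fun h' => h3 (h.mpr h')))).1
    have h := hT {(0, i₁, j₀), (0, i₂, j₀)} (by simp)
    rw [Finset.sum_insert (by
      simp only [Finset.mem_singleton, Prod.mk.injEq, true_and]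
      intro h
      omega), Finset.sum_singleton] at h
    omega
  obtain ⟨j₁, rfl⟩ : ∃ j₁, j₀ = j₁ + 1 := ⟨j₀ - 1, by omega⟩
  have hrow : ∃ j, j < P.k ∧ (0, j) ≠ (i', j') ∧ ¬ (Nd.q 0 j ∈ S ↔ Nd.q 0 (j + 1) ∈ S) := by
    by_cases hcase : (0, j₁) = (i', j')
    · refine ⟨j₁ + 1, by omega, ?_, fun h => ?_⟩
      · intro h
        have h1 := (congrArg Prod.snd hcase)
        have h2 := (congrArg Prod.snd h)
        simp only at h1 h2
        omega
      · exact hother 0 (j₁ + 1 + 1) (Nat.zero_le _) (by omega) (by omega) (h.mp hq0)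
    · refine ⟨j₁, by omega, hcase, fun h => ?_⟩
      exact hother 0 j₁ (Nat.zero_le _) (by omega) (by omega) (h.mpr hq0)
  obtain ⟨j, hj, hne, hc⟩ := hrow
  have hch := chain_fib S hj hc (hEo 0 j (by omega) hj hne)
  have h := hT {(0, i₁, j₁ + 1), (1, 0, j)} (by simp)
  rw [Finset.sum_insert (by simp), Finset.sum_singleton] at h
  omega

/-- The column of a bundle. -/
def col : Bn → ℕ
  | (.UL, i, _) => i + 1
  | (.UR, i, _) => i
  | (.E, i, _) => i
  | (.D, i, _) => i
  | (.VL, i, _) => i + 1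
  | (.VR, i, _) => i

open scoped Classical in
theorem lemD {P : Par} (hP : P.Good) (S : Set Nd) (hcut : P.cutw S ≤ P.K) {j : ℕ} (hj : j < P.k)
    (hc : ¬ (Nd.u (P.n + 1) j ∈ S ↔ Nd.g (P.n + 1) j ∈ S)) (hup : ∀ i ≤ P.n, Nd.q i j ∈ S)
    (hdown : ∀ i ≤ P.n, Nd.q i (j + 1) ∉ S) :
    ∑ i ∈ Finset.range P.n, (if Nd.u (i + 1) j ∉ S then P.α i j
      else if Nd.v (i + 1) j ∈ S then P.β i j else P.δ i j) ≤ P.b j := by
  have hs := hP.hs
  have hk := hP.hk
  have hcw := cw_add hP j
  have hEm : ((Tg.E, P.n + 1, j) : Bn) ∈ P.bundles :=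
    mem_bundles.mpr ⟨by simp only [cols]; omega, hj⟩
  have hEo : ∀ i, i ≤ P.n → (Nd.u i j ∈ S ↔ Nd.g i j ∈ S) := by
    intro i hi
    by_contra hc'
    refine absurd (lemH hP S (b₁ := (.E, P.n + 1, j)) (b₂ := (.E, i, j)) hEm
      (mem_bundles.mpr ⟨by simp only [cols]; omega, hj⟩) ?_ trivial trivial hc hc')
      (Nat.not_lt.mpr hcut)
    intro h
    have := congrArg (fun b : Bn => b.2.1) h
    simp only at this
    omega
  have hlast : P.cw j ≤ P.fib S col (P.n + 1) := by
    have e : P.sw S (.E, P.n + 1, j) = P.w (.E, P.n + 1, j) := sw_of_split hc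
    have h2 := le_fib P S col (P.n + 1) [(.E, P.n + 1, j)] (by simp) (by
      intro b hb
      simp only [List.mem_cons, List.not_mem_nil, or_false] at hb
      subst hb
      exact ⟨hEm, rfl⟩)
    simp only [List.map_cons, List.map_nil, List.sum_cons, List.sum_nil, add_zero] at h2
    rw [e] at h2
    simp only [w, if_true] at h2
    exact h2
  have hzero : 2 * P.s ≤ P.fib S col 0 := by
    have h1 := chain (P := P) S (j := j) (fun h => hdown 0 (Nat.zero_le _)
      (h.mp (hup 0 (Nat.zero_le _)))) (hEo 0 (Nat.zero_le _))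
    have h2 := le_fib P S col 0 [(.UR, 0, j), (.D, 0, j), (.VR, 0, j)] (by simp) (by
      intro b hb
      simp only [List.mem_cons, List.not_mem_nil, or_false] at hb
      rcases hb with rfl | rfl | rfl
      · exact ⟨mem_bundles.mpr ⟨by simp only [cols]; omega, by omega⟩, rfl⟩
      · exact ⟨mem_bundles.mpr ⟨by simp only [cols]; omega, by omega⟩, rfl⟩
      · exact ⟨mem_bundles.mpr ⟨by simp only [cols]; omega, by omega⟩, rfl⟩)
    simp only [List.map_cons, List.map_nil, List.sum_cons, List.sum_nil, add_zero] at h2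
    omega
  have hmid : ∀ i ∈ Finset.range P.n, 2 * P.s + (if Nd.u (i + 1) j ∉ S then P.α i j
      else if Nd.v (i + 1) j ∈ S then P.β i j else P.δ i j) ≤ P.fib S col (i + 1) := by
    intro i hi
    rw [Finset.mem_range] at hi
    have hni : ¬ i = P.n := by omega
    have hni1 : ¬ i + 1 = P.n + 1 := by omega
    have h01 : ¬ i + 1 = 0 := by omega
    have hα := hP.hα i j
    have hβ := hP.hβ i j
    have hδ := hP.hδ i j
    have h2 := le_fib P S col (i + 1) [(.UL, i, j), (.UR, i + 1, j), (.D, i + 1, j),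
      (.VL, i, j), (.VR, i + 1, j)] (by simp) (by
      intro b hb
      simp only [List.mem_cons, List.not_mem_nil, or_false] at hb
      rcases hb with rfl | rfl | rfl | rfl | rfl
      · exact ⟨mem_bundles.mpr ⟨by simp only [cols]; omega, by omega⟩, rfl⟩
      · exact ⟨mem_bundles.mpr ⟨by simp only [cols]; omega, by omega⟩, rfl⟩
      · exact ⟨mem_bundles.mpr ⟨by simp only [cols]; omega, by omega⟩, rfl⟩
      · exact ⟨mem_bundles.mpr ⟨by simp only [cols]; omega, by omega⟩, rfl⟩
      · exact ⟨mem_bundles.mpr ⟨by simp only [cols]; omega, by omega⟩, rfl⟩)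
    simp only [List.map_cons, List.map_nil, List.sum_cons, List.sum_nil, add_zero] at h2
    have q1 := hup i (by omega)
    have q2 := hup (i + 1) (by omega)
    have q3 := hdown i (by omega)
    have q4 := hdown (i + 1) (by omega)
    by_cases hu : Nd.u (i + 1) j ∈ S
    · rw [if_neg (not_not.mpr hu)]
      have hg : Nd.g (i + 1) j ∈ S := (hEo (i + 1) (by omega)).mp hu
      by_cases hv : Nd.v (i + 1) j ∈ S
      · rw [if_pos hv]
        have e1 : P.sw S (.VL, i, j) = P.w (.VL, i, j) := sw_of_split (fun h => q3 (h.mp hv))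
        have e2 : P.sw S (.VR, i + 1, j) = P.w (.VR, i + 1, j) :=
          sw_of_split (fun h => q4 (h.mp hv))
        rw [e1, e2] at h2
        simp only [w, if_neg hni, if_neg h01, Nat.add_sub_cancel] at h2
        split_ifs at h2 <;> omega
      · rw [if_neg hv]
        have e1 : P.sw S (.D, i + 1, j) = P.w (.D, i + 1, j) :=
          sw_of_split (fun h => hv (h.mp hg))
        rw [e1] at h2
        simp only [w, if_neg hni1, if_neg h01, Nat.add_sub_cancel] at h2
        omega
    · rw [if_pos hu]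
      have e1 : P.sw S (.UL, i, j) = P.w (.UL, i, j) := sw_of_split (fun h => hu (h.mp q1))
      have e2 : P.sw S (.UR, i + 1, j) = P.w (.UR, i + 1, j) :=
        sw_of_split (fun h => hu (h.mp q2))
      rw [e1, e2] at h2
      simp only [w, if_neg hni, if_neg h01, Nat.add_sub_cancel] at h2
      split_ifs at h2 <;> omega
  have htot := fib_le P S col (Finset.range (P.n + 2))
  rw [Finset.sum_range_succ, Finset.sum_range_succ'] at htot
  have hsum := Finset.sum_le_sum hmid
  rw [Finset.sum_add_distrib, Finset.sum_const, Finset.card_range, smul_eq_mul] at hsum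
  have e : P.n * (2 * P.s) = 2 * (P.s * P.n) := by ring
  rw [e] at hsum
  omega

end Par

end Pool.Agent.Lib.MP_20e1d9_lc
end

section

/-!
A spanning tree of a subdivided multigraph from a spanning tree of the multigraph with small cuts.
-/

set_option autoImplicit false

namespace Pool.Agent.Lib.MP_20e1d9_lc

namespace SubFwd

/-- The tree: all the first halves of the edges, and the second halves of the edges in `F`. -/
def tr {M E : Type*} (src tgt : E → M) (F : Set E) : SimpleGraph (M ⊕ E) where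
  Adj a b := match a, b with
    | .inl x, .inr e => x = src e ∨ (e ∈ F ∧ x = tgt e)
    | .inr e, .inl x => x = src e ∨ (e ∈ F ∧ x = tgt e)
    | .inl _, .inl _ => False
    | .inr _, .inr _ => False
  symm := ⟨by rintro (x | e) (y | f) h <;> exact h⟩
  loopless := ⟨by rintro (x | e) h <;> exact h⟩

/-- The edges of `G` leaving `S`. -/
def crossing {V : Type*} (G : SimpleGraph V) (S : Set V) : Set (Sym2 V) :=
  {f ∈ G.edgeSet | ∃ x y, f = s(x, y) ∧ x ∈ S ∧ y ∉ S}

/-- The edge `ab` of `T` is the only one leaving a set with few edges of `G` leaving it. -/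
def Cut {V : Type*} (G T : SimpleGraph V) (K : ℕ) (a b : V) : Prop :=
  ∃ S : Set V, a ∈ S ∧ b ∉ S ∧ (∀ x y, T.Adj x y → x ∈ S → y ∉ S → x = a ∧ y = b) ∧
    (crossing G S).ncard ≤ K

theorem crossing_compl {V : Type*} (G : SimpleGraph V) (S : Set V) :
    crossing G Sᶜ = crossing G S := by
  ext f
  constructor
  · rintro ⟨hf, x, y, rfl, hx, hy⟩
    exact ⟨hf, y, x, Sym2.eq_swap, by simpa using hy, by simpa using hx⟩
  · rintro ⟨hf, x, y, rfl, hx, hy⟩
    exact ⟨hf, y, x, Sym2.eq_swap, by simpa using hy, by simpa using hx⟩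

theorem Cut.symm {V : Type*} {G T : SimpleGraph V} {K : ℕ} {a b : V} (h : Cut G T K a b) :
    Cut G T K b a := by
  obtain ⟨S, ha, hb, h1, h2⟩ := h
  refine ⟨Sᶜ, by simpa using hb, by simpa using ha, ?_, ?_⟩
  · intro x y hxy hx hy
    have := h1 y x hxy.symm (by simpa using hy) (by simpa using hx)
    exact ⟨this.2, this.1⟩
  · rw [crossing_compl]
    exact h2

variable {M E : Type*} {src tgt : E → M} {F : Set E}

theorem tr_le (src tgt : E → M) (F : Set E) : tr src tgt F ≤ SubG src tgt := by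
  rintro (x | e) (y | f) h
  · exact h
  · rcases h with h | h
    · exact Or.inl h
    · exact Or.inr h.2
  · rcases h with h | h
    · exact Or.inl h
    · exact Or.inr h.2
  · exact h

theorem adj_src (e : E) : (tr src tgt F).Adj (.inl (src e)) (.inr e) := Or.inl rfl

theorem adj_tgt {e : E} (he : e ∈ F) : (tr src tgt F).Adj (.inl (tgt e)) (.inr e) :=
  Or.inr ⟨he, rfl⟩

theorem reach
    (x y : M) (h : Relation.ReflTransGen
      (fun x y => ∃ e ∈ F, (x = src e ∧ y = tgt e) ∨ (x = tgt e ∧ y = src e)) x y) :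
    (tr src tgt F).Reachable (.inl x) (.inl y) := by
  induction h with
  | refl => exact SimpleGraph.Reachable.refl _
  | tail _ h ih =>
    obtain ⟨e, he, ⟨h1, h2⟩ | ⟨h1, h2⟩⟩ := h
    · subst h1; subst h2
      exact ih.trans ((adj_src e).reachable.trans (adj_tgt he).symm.reachable)
    · subst h1; subst h2
      exact ih.trans ((adj_tgt he).reachable.trans (adj_src e).symm.reachable)

theorem connected [Nonempty M]
    (hF : ∀ x y : M, Relation.ReflTransGen
      (fun x y => ∃ e ∈ F, (x = src e ∧ y = tgt e) ∨ (x = tgt e ∧ y = src e)) x y) :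
    (tr src tgt F).Connected := by
  obtain ⟨x0⟩ := ‹Nonempty M›
  have hall : ∀ v : M ⊕ E, (tr src tgt F).Reachable (.inl x0) v := by
    rintro (x | e)
    · exact reach x0 x (hF x0 x)
    · exact (reach x0 (src e) (hF _ _)).trans (adj_src e).reachable
  have : Nonempty (M ⊕ E) := ⟨.inl x0⟩
  exact ⟨fun u v => (hall u).symm.trans (hall v)⟩

theorem cut_notMem {K : ℕ} (hK : 2 ≤ K) {e : E} (he : e ∉ F) :
    Cut (SubG src tgt) (tr src tgt F) K (.inr e) (.inl (src e)) := by
  refine ⟨{.inr e}, rfl, by simp, ?_, ?_⟩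
  · rintro x y hxy hx hy
    rw [Set.mem_singleton_iff] at hx
    subst hx
    rcases y with y | f
    · rcases hxy with h | h
      · exact ⟨rfl, by rw [h]⟩
      · exact absurd h.1 he
    · exact absurd hxy id
  · have hsub : crossing (SubG src tgt) {.inr e} ⊆
        ({s(.inr e, .inl (src e)), s(.inr e, .inl (tgt e))} : Set (Sym2 (M ⊕ E))) := by
      rintro f ⟨hf, x, y, rfl, hx, hy⟩
      rw [Set.mem_singleton_iff] at hx
      subst hx
      rw [SimpleGraph.mem_edgeSet] at hf
      rcases y with y | g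
      · rcases hf with h | h
        · left; rw [h]
        · right; rw [h]; rfl
      · exact absurd hf id
    refine (Set.ncard_le_ncard hsub (Set.toFinite _)).trans ?_
    refine (Set.ncard_insert_le _ _).trans ?_
    rw [Set.ncard_singleton]
    exact hK

theorem cut_src [Finite E] {K : ℕ} {e : E} {C : Set M} (hs : src e ∈ C) (ht : tgt e ∉ C)
    (h2 : ∀ e' ∈ F, e' ≠ e → (src e' ∈ C ↔ tgt e' ∈ C))
    (h3 : spl src tgt C ≤ K) :
    Cut (SubG src tgt) (tr src tgt F) K (.inl (src e)) (.inr e) := by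
  classical
  refine ⟨{v | Sum.elim (fun z => z ∈ C) (fun e' => src e' ∈ C ∧ e' ≠ e) v}, hs,
    fun h => h.2 rfl, ?_, ?_⟩
  · rintro (z | e') (w | e'') hxy hx hy
    · exact absurd hxy id
    · simp only [Set.mem_ofPred_eq, Sum.elim_inl, Sum.elim_inr] at hx hy
      have key : e'' = e := by
        by_contra hne
        rcases hxy with h | h
        · exact hy ⟨h ▸ hx, hne⟩
        · exact hy ⟨(h2 e'' h.1 hne).2 (h.2 ▸ hx), hne⟩
      subst key
      rcases hxy with h | h
      · exact ⟨by rw [h], rfl⟩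
      · exact absurd (h.2 ▸ hx) ht
    · simp only [Set.mem_ofPred_eq, Sum.elim_inl, Sum.elim_inr] at hx hy
      rcases hxy with h | h
      · exact absurd (h ▸ hx.1) hy
      · exact absurd (h.2 ▸ (h2 e' h.1 hx.2).1 hx.1) hy
    · exact absurd hxy id
  · refine le_trans ?_ h3
    have hsub : crossing (SubG src tgt)
        {v | Sum.elim (fun z => z ∈ C) (fun e' => src e' ∈ C ∧ e' ≠ e) v} ⊆
        (fun e' : E => if e' = e then s((.inl (src e) : M ⊕ E), .inr e)
          else s(.inl (tgt e'), .inr e')) '' {e' : E | ¬ (src e' ∈ C ↔ tgt e' ∈ C)} := by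
      rintro f ⟨hf, x, y, rfl, hx, hy⟩
      rw [SimpleGraph.mem_edgeSet] at hf
      rcases x with z | e' <;> rcases y with w | e''
      · exact absurd hf id
      · simp only [Set.mem_ofPred_eq, Sum.elim_inl, Sum.elim_inr, not_and_or, not_not] at hx hy
        by_cases hee : e'' = e
        · subst hee
          refine ⟨e'', ?_, ?_⟩
          · simp [hs, ht]
          · rcases hf with h | h
            · simp [h]
            · exact absurd (h ▸ hx) ht
        · refine ⟨e'', ?_, ?_⟩
          · rcases hf with h | h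
            · exact absurd (h ▸ hx) (hy.resolve_right hee)
            · simp only [Set.mem_ofPred_eq]
              intro hiff
              exact (hy.resolve_right hee) (hiff.2 (h ▸ hx))
          · rcases hf with h | h
            · exact absurd (h ▸ hx) (hy.resolve_right hee)
            · simp [hee, h]
      · simp only [Set.mem_ofPred_eq, Sum.elim_inl, Sum.elim_inr] at hx hy
        refine ⟨e', ?_, ?_⟩
        · rcases hf with h | h
          · exact absurd (h ▸ hx.1) hy
          · simp only [Set.mem_ofPred_eq]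
            intro hiff
            exact hy (h ▸ hiff.1 hx.1)
        · rcases hf with h | h
          · exact absurd (h ▸ hx.1) hy
          · simp only [hx.2, if_false]
            rw [h, Sym2.eq_swap]
      · exact absurd hf id
    refine (Set.ncard_le_ncard hsub (Set.toFinite _)).trans ?_
    exact Set.ncard_image_le (Set.toFinite _)

theorem cut_tgt [Finite E] {K : ℕ} {e : E} {C : Set M} (hs : src e ∈ C) (ht : tgt e ∉ C)
    (h2 : ∀ e' ∈ F, e' ≠ e → (src e' ∈ C ↔ tgt e' ∈ C))
    (h3 : spl src tgt C ≤ K) :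
    Cut (SubG src tgt) (tr src tgt F) K (.inr e) (.inl (tgt e)) := by
  classical
  refine ⟨{v | Sum.elim (fun z => z ∈ C) (fun e' => src e' ∈ C) v}, hs, ht, ?_, ?_⟩
  · rintro (z | e') (w | e'') hxy hx hy
    · exact absurd hxy id
    · simp only [Set.mem_ofPred_eq, Sum.elim_inl, Sum.elim_inr] at hx hy
      rcases hxy with h | h
      · exact absurd (h ▸ hx) hy
      · by_cases hee : e'' = e
        · subst hee
          exact absurd hs hy
        · exact absurd ((h2 e'' h.1 hee).2 (h.2 ▸ hx)) hy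
    · simp only [Set.mem_ofPred_eq, Sum.elim_inl, Sum.elim_inr] at hx hy
      rcases hxy with h | h
      · exact absurd (h ▸ hx) hy
      · by_cases hee : e' = e
        · subst hee
          exact ⟨rfl, by rw [h.2]⟩
        · exact absurd (h.2 ▸ (h2 e' h.1 hee).1 hx) hy
    · exact absurd hxy id
  · refine le_trans ?_ h3
    have hsub : crossing (SubG src tgt)
        {v | Sum.elim (fun z => z ∈ C) (fun e' => src e' ∈ C) v} ⊆
        (fun e' : E => s((.inl (tgt e') : M ⊕ E), .inr e')) ''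
          {e' : E | ¬ (src e' ∈ C ↔ tgt e' ∈ C)} := by
      rintro f ⟨hf, x, y, rfl, hx, hy⟩
      rw [SimpleGraph.mem_edgeSet] at hf
      rcases x with z | e' <;> rcases y with w | e''
      · exact absurd hf id
      · simp only [Set.mem_ofPred_eq, Sum.elim_inl, Sum.elim_inr] at hx hy
        rcases hf with h | h
        · exact absurd (h ▸ hx) hy
        · refine ⟨e'', ?_, ?_⟩
          · simp only [Set.mem_ofPred_eq]
            intro hiff
            exact hy (hiff.2 (h ▸ hx))
          · simp [h]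
      · simp only [Set.mem_ofPred_eq, Sum.elim_inl, Sum.elim_inr] at hx hy
        rcases hf with h | h
        · exact absurd (h ▸ hx) hy
        · refine ⟨e', ?_, ?_⟩
          · simp only [Set.mem_ofPred_eq]
            intro hiff
            exact hy (h ▸ hiff.1 hx)
          · simp only
            rw [h, Sym2.eq_swap]
      · exact absurd hf id
    refine (Set.ncard_le_ncard hsub (Set.toFinite _)).trans ?_
    exact Set.ncard_image_le (Set.toFinite _)

end SubFwd

open SubFwd in
theorem subG_forward {M E : Type*} {src tgt : E → M} [Finite M] [Finite E] [Nonempty M] (K : ℕ) (hK : 2 ≤ K)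
    (hne : ∀ e, src e ≠ tgt e) (F : Set E)
    (hF : ∀ x y : M, Relation.ReflTransGen
      (fun x y => ∃ e ∈ F, (x = src e ∧ y = tgt e) ∨ (x = tgt e ∧ y = src e)) x y)
    (C : E → Set M) (h1 : ∀ e ∈ F, ¬ (src e ∈ C e ↔ tgt e ∈ C e))
    (h2 : ∀ e ∈ F, ∀ e' ∈ F, e' ≠ e → (src e' ∈ C e ↔ tgt e' ∈ C e))
    (h3 : ∀ e ∈ F, spl src tgt (C e) ≤ K) :
    ∃ T, IsSpanningTree (SubG src tgt) T ∧ ∀ f ∈ T.edgeSet, cng (SubG src tgt) T f ≤ K := by
  classical
  -- orient the cut sets
  have hC : ∀ e ∈ F, ∃ C' : Set M, src e ∈ C' ∧ tgt e ∉ C' ∧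
      (∀ e' ∈ F, e' ≠ e → (src e' ∈ C' ↔ tgt e' ∈ C')) ∧ spl src tgt C' ≤ K := by
    intro e he
    by_cases hs : src e ∈ C e
    · refine ⟨C e, hs, fun ht => h1 e he ⟨fun _ => ht, fun _ => hs⟩, h2 e he, h3 e he⟩
    · have ht : tgt e ∈ C e := by
        by_contra ht
        exact h1 e he ⟨fun h => absurd h hs, fun h => absurd h ht⟩
      refine ⟨(C e)ᶜ, hs, fun h => h ht, ?_, ?_⟩
      · intro e' he' hne'
        have := h2 e he e' he' hne'
        simp only [Set.mem_compl_iff]
        tauto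
      · refine le_trans (le_of_eq ?_) (h3 e he)
        unfold spl
        congr 1
        ext e'
        simp only [Set.mem_ofPred_eq, Set.mem_compl_iff]
        tauto
  have hconn := SubFwd.connected hF
  have hcut : ∀ a b, (tr src tgt F).Adj a b → Cut (SubG src tgt) (tr src tgt F) K a b := by
    have hone : ∀ (x : M) (e : E), (tr src tgt F).Adj (.inl x) (.inr e) →
        Cut (SubG src tgt) (tr src tgt F) K (.inl x) (.inr e) := by
      intro x e h
      by_cases he : e ∈ F
      · obtain ⟨C', hs, ht, h2', h3'⟩ := hC e he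
        rcases h with h | h
        · rw [h]
          exact cut_src hs ht h2' h3'
        · rw [h.2]
          exact (cut_tgt hs ht h2' h3').symm
      · rcases h with h | h
        · rw [h]
          exact (cut_notMem hK he).symm
        · exact absurd h.1 he
    rintro (x | e) (y | f) h
    · exact absurd h id
    · exact hone x f h
    · exact (hone y e h.symm).symm
    · exact absurd h id
  have htree : (tr src tgt F).IsTree := by
    refine isTree_of_cuts hconn ?_
    intro a b hab
    obtain ⟨S, ha, hb, hS, _⟩ := hcut a b hab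
    exact ⟨S, ha, hb, hS⟩
  refine ⟨tr src tgt F, ⟨tr_le src tgt F, htree⟩, ?_⟩
  intro f hf
  induction f using Sym2.ind with
  | _ a b =>
    rw [SimpleGraph.mem_edgeSet] at hf
    obtain ⟨S, ha, hb, hS, hc⟩ := hcut a b hf
    rw [cng_eq htree hf, side_eq_of_cut hconn hf ha hb hS]
    exact hc

end Pool.Agent.Lib.MP_20e1d9_lc
end

section

/-!
Lower bounds for the congestion of a spanning tree of a subdivided multigraph.
-/

set_option autoImplicit false

namespace Pool.Agent.Lib.MP_20e1d9_lc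

open SimpleGraph

variable {M E : Type*} {src tgt : E → M} {T : SimpleGraph (M ⊕ E)}

/-- The edges of a subdivided multigraph. -/
theorem adj_cases (hT : IsSpanningTree (SubG src tgt) T) {a b : M ⊕ E} (h : T.Adj a b) :
    (∃ x e, a = .inl x ∧ b = .inr e ∧ (x = src e ∨ x = tgt e)) ∨
    (∃ x e, a = .inr e ∧ b = .inl x ∧ (x = src e ∨ x = tgt e)) := by
  have h' := hT.1 h
  rcases a with x | e <;> rcases b with y | f
  · exact h'.elim
  · exact Or.inl ⟨x, f, rfl, rfl, h'⟩
  · exact Or.inr ⟨y, e, rfl, rfl, h'⟩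
  · exact h'.elim

theorem inc_of_adj (hT : IsSpanningTree (SubG src tgt) T) {x : M} {e : E}
    (h : T.Adj (.inl x) (.inr e)) : x = src e ∨ x = tgt e := hT.1 h

/-- If the component of `inr e` after removal of the edge `inl x - inr e` contains something
else, then the other end of `e` is joined to `inr e`. -/
theorem mid_extend (hT : IsSpanningTree (SubG src tgt) T) {x : M} {e : E} {z : M ⊕ E}
    (hz : z ∈ side T (.inr e) (.inl x)) (hne : z ≠ .inr e) :
    ∃ y, y ≠ x ∧ (y = src e ∨ y = tgt e) ∧ T.Adj (.inl y) (.inr e) ∧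
      (.inl y) ∈ side T (.inr e) (.inl x) := by
  obtain ⟨w⟩ := hz
  cases w with
  | nil => exact absurd rfl hne
  | @cons _ b _ h p =>
    have h1 : T.Adj (.inr e) b := (SimpleGraph.deleteEdges_adj.1 h).1
    have h2 := (SimpleGraph.deleteEdges_adj.1 h).2
    rcases adj_cases hT h1 with ⟨y, f, h3, -, -⟩ | ⟨y, f, h3, rfl, h4⟩
    · exact absurd h3 (by simp)
    · have h5 : e = f := by simpa using h3
      subst h5
      refine ⟨y, ?_, h4, h1.symm, h.reachable⟩
      rintro rfl
      exact h2 (by simp)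

theorem spl_side_le [Finite M] [Finite E] (hT : IsSpanningTree (SubG src tgt) T) {a b : M ⊕ E}
    (hab : T.Adj a b) :
    spl src tgt {m | Sum.inl m ∈ side T a b} ≤ cng (SubG src tgt) T s(a, b) := by
  classical
  rw [cng_eq hT.2 hab, spl]
  set S := side T a b with hS
  have key : ∀ e : E, ∃ x : M, (x = src e ∨ x = tgt e) ∧
      (¬ ((Sum.inl (src e) : M ⊕ E) ∈ S ↔ (Sum.inl (tgt e) : M ⊕ E) ∈ S) →
        ¬ ((Sum.inl x : M ⊕ E) ∈ S ↔ (Sum.inr e : M ⊕ E) ∈ S)) := by
    intro e
    by_cases h1 : ((Sum.inl (src e) : M ⊕ E) ∈ S ↔ (Sum.inr e : M ⊕ E) ∈ S)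
    · exact ⟨tgt e, Or.inr rfl, fun he h2 => he (h1.trans h2.symm)⟩
    · exact ⟨src e, Or.inl rfl, fun _ => h1⟩
  choose f hf hf' using key
  refine Set.ncard_le_ncard_of_injOn (fun e => s(Sum.inl (f e), Sum.inr e)) ?_ ?_ (Set.toFinite _)
  · intro e he
    have h1 := hf e
    have h2 := hf' e he
    refine ⟨?_, ?_⟩
    · rw [SimpleGraph.mem_edgeSet]
      exact h1
    · by_cases h3 : (Sum.inl (f e) : M ⊕ E) ∈ S
      · refine ⟨_, _, rfl, h3, fun h4 => h2 ⟨fun _ => h4, fun _ => h3⟩⟩
      · refine ⟨_, _, Sym2.eq_swap, ?_, h3⟩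
        by_contra h4
        exact h2 ⟨fun h => absurd h h3, fun h => absurd h h4⟩
  · intro e _ e' _ h
    have h' : s((Sum.inl (f e) : M ⊕ E), Sum.inr e) = s(Sum.inl (f e'), Sum.inr e') := h
    rw [Sym2.eq_iff] at h'
    rcases h' with ⟨_, h'⟩ | ⟨h', _⟩
    · simpa using h'
    · exact absurd h' (by simp)

end Pool.Agent.Lib.MP_20e1d9_lc
end
end
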