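import Pool.Agent.Lib.MP_20e1d9_lc.Check
import Pool.Agent.Lib.MP_20e1d9_lc.SubBack
import Pool.Agent.Lib.MP_20e1d9_lc.FwdCuts
import Pool.Agent.Lib.MP_20e1d9_lc.CliqueSel
import Pool.Agent.Lib.MP_20e1d9_lc.PolyRed
import Pool.Agent.Lib.MP_20e1d9_lc.FptDefs
import Pool.Agent.Lib.MP_20e1d9_lc.InTimeTM
import Pool.Agent.Lib.MP_20e1d9_lc.CheckPoly

section

/-!
The search computes the sides of the edges of a tree, and the check computes the congestion.
-/

set_option autoImplicit false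

namespace Pool.Agent.Lib.MP_20e1d9_lc

open SimpleGraph

section CheckSem

variable {n : ℕ}

theorem getD_ofFn_lt {β : Type} {n : ℕ} (f : Fin n → β) (d : β) (x : ℕ) (hx : x < n) :
    (List.ofFn f).getD x d = f ⟨x, hx⟩ := by
  rw [List.getD_eq_getElem _ _ (by simpa using hx), List.getElem_ofFn]

theorem getD_ofFn_ge {β : Type} {n : ℕ} (f : Fin n → β) (d : β) (x : ℕ) (hx : ¬ x < n) :
    (List.ofFn f).getD x d = d :=
  List.getD_eq_default _ _ (by simpa using hx)

theorem ent_matOf (G : SimpleGraph (Fin n)) (x y : ℕ) :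
    ent (matOf G) x y = true ↔ ∃ (hx : x < n) (hy : y < n), G.Adj ⟨x, hx⟩ ⟨y, hy⟩ := by
  classical
  unfold ent matOf
  by_cases hx : x < n
  · rw [getD_ofFn_lt _ _ _ hx]
    by_cases hy : y < n
    · rw [getD_ofFn_lt _ _ _ hy]
      simp [hx, hy]
    · rw [getD_ofFn_ge _ _ _ hy]
      simp [hy]
  · rw [getD_ofFn_ge _ _ _ hx]
    simp [hx]

theorem getD_map_range (n : ℕ) (f : ℕ → Bool) (y : ℕ) :
    ((List.range n).map f).getD y false = true ↔ y < n ∧ f y = true := by
  by_cases hy : y < n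
  · rw [List.getD_eq_getElem _ _ (by simpa using hy)]
    simp [hy]
  · rw [List.getD_eq_default _ _ (by simpa using hy)]
    simp [hy]

/-- The set of vertices given by a list of truth values. -/
def setOf' (n : ℕ) (s : List Bool) : Set (Fin n) := {x | s.getD x false = true}

theorem mem_setOf' (s : List Bool) (x : Fin n) : x ∈ setOf' n s ↔ s.getD x false = true :=
  Iff.rfl

theorem setOf'_grow (T : SimpleGraph (Fin n)) (b : Fin n) (s : List Bool) :
    setOf' n (grow n (matOf T) b s) =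
      {y | y ≠ b ∧ (y ∈ setOf' n s ∨ ∃ x ∈ setOf' n s, T.Adj x y)} := by
  ext y
  rw [mem_setOf', grow, getD_map_range]
  simp only [Bool.and_eq_true, Bool.not_eq_true', decide_eq_false_iff_not, Bool.or_eq_true,
    List.any_eq_true, List.mem_range, Set.mem_ofPred_eq]
  constructor
  · rintro ⟨-, h1, h2⟩
    refine ⟨fun h => h1 (congrArg Fin.val h), ?_⟩
    rcases h2 with h2 | ⟨x, hx, h2, h3⟩
    · exact Or.inl h2
    · right
      rw [ent_matOf] at h3
      obtain ⟨hx', hy', h3⟩ := h3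
      exact ⟨⟨x, hx'⟩, h2, h3⟩
  · rintro ⟨h1, h2⟩
    refine ⟨y.2, fun h => h1 (Fin.ext h), ?_⟩
    rcases h2 with h2 | ⟨x, h2, h3⟩
    · exact Or.inl h2
    · right
      refine ⟨x, x.2, h2, ?_⟩
      rw [ent_matOf]
      exact ⟨x.2, y.2, h3⟩

/-- The set after `m` rounds. -/
def rounds (T : SimpleGraph (Fin n)) (a b : Fin n) : ℕ → Set (Fin n)
  | 0 => {a}
  | m + 1 => {y | y ≠ b ∧ (y ∈ rounds T a b m ∨ ∃ x ∈ rounds T a b m, T.Adj x y)}

theorem setOf'_reach (T : SimpleGraph (Fin n)) (a b : Fin n) :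
    setOf' n (reach n (matOf T) a b) = rounds T a b n := by
  have key : ∀ l : List ℕ, setOf' n (l.foldl (fun s _ => grow n (matOf T) b s)
      ((List.range n).map fun y => decide (y = (a : ℕ)))) = rounds T a b l.length := by
    intro l
    induction l using List.reverseRecOn with
    | nil =>
      ext y
      rw [List.foldl_nil, mem_setOf', getD_map_range]
      simp only [decide_eq_true_iff, List.length_nil, rounds, Set.mem_singleton_iff]
      exact ⟨fun h => Fin.ext h.2, fun h => ⟨y.2, congrArg Fin.val h⟩⟩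
    | append_singleton l c ih =>
      rw [List.foldl_append, List.foldl_cons, List.foldl_nil, setOf'_grow, ih,
        List.length_append, List.length_singleton]
      rfl
  have := key (List.range n)
  rw [List.length_range] at this
  exact this

theorem rounds_subset_side {T : SimpleGraph (Fin n)} (hT : T.IsTree) {a b : Fin n}
    (h : T.Adj a b) (m : ℕ) : rounds T a b m ⊆ side T a b := by
  induction m with
  | zero =>
    intro x hx
    rw [rounds, Set.mem_singleton_iff] at hx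
    rw [hx]
    exact mem_side_self _ _ _
  | succ m ih =>
    rintro y ⟨hyb, hy | ⟨x, hx, hxy⟩⟩
    · exact ih hy
    · by_contra hys
      have hys' : y ∈ side T b a := by
        rw [side_compl hT h]
        exact hys
      exact hyb (eq_of_adj_of_side hT h hxy (ih hx) hys').2

theorem rounds_mono (T : SimpleGraph (Fin n)) {a b : Fin n} (hab : a ≠ b) (m : ℕ) :
    rounds T a b m ⊆ rounds T a b (m + 1) := by
  have hb : ∀ m, b ∉ rounds T a b m := by
    intro m
    cases m with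
    | zero => exact fun h => hab h.symm
    | succ m => exact fun h => h.1 rfl
  intro x hx
  exact ⟨fun h => hb m (h ▸ hx), Or.inl hx⟩

theorem side_subset_rounds {T : SimpleGraph (Fin n)} {a b : Fin n}
    (hTt : T.IsTree) (h : T.Adj a b) : side T a b ⊆ rounds T a b n := by
  -- some step among the first n is stable
  have hstab : ∃ m ≤ n, rounds T a b (m + 1) = rounds T a b m := by
    by_contra hcon
    push Not at hcon
    have hcard : ∀ m ≤ n + 1, m + 1 ≤ (rounds T a b m).ncard := by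
      intro m
      induction m with
      | zero =>
        intro _
        rw [rounds, Set.ncard_singleton]
      | succ m ih =>
        intro hm
        have h1 := ih (by omega)
        have h2 : rounds T a b m ⊂ rounds T a b (m + 1) :=
          (rounds_mono T h.ne m).ssubset_of_ne (hcon m (by omega)).symm
        have h3 := Set.ncard_lt_ncard h2 (Set.toFinite _)
        omega
    have h1 := hcard (n + 1) le_rfl
    have h2 : (rounds T a b (n + 1)).ncard ≤ n := by
      have := Set.ncard_le_card (rounds T a b (n + 1))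
      simpa using this
    omega
  obtain ⟨m, hm, hst⟩ := hstab
  have hconst : ∀ k, rounds T a b (m + k) = rounds T a b m := by
    intro k
    induction k with
    | zero => rfl
    | succ k ih =>
      rw [← Nat.add_assoc]
      show {y | y ≠ b ∧ (y ∈ rounds T a b (m + k) ∨ ∃ x ∈ rounds T a b (m + k), T.Adj x y)} = _
      rw [ih]
      exact hst
  have hn : rounds T a b n = rounds T a b m := by
    have := hconst (n - m)
    rwa [Nat.add_sub_cancel' hm] at this
  have ha : a ∈ rounds T a b m := by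
    have h0 : ∀ k, a ∈ rounds T a b k := by
      intro k
      induction k with
      | zero => rfl
      | succ k ih => exact rounds_mono T h.ne k ih
    exact h0 m
  rw [hn]
  intro x hx
  by_contra hxm
  refine not_reachable_of_cut (T := T) (a := a) (b := b) (S := rounds T a b m) ?_ ha hxm hx
  intro y z hyz hy hz
  have hzb : z = b := by
    by_contra hzb
    apply hz
    rw [← hst]
    exact ⟨hzb, Or.inr ⟨y, hy, hyz⟩⟩
  refine ⟨?_, hzb⟩
  subst hzb
  exact (eq_of_adj_of_side hTt h hyz (rounds_subset_side hTt h m hy) (mem_side_self _ _ _)).1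

theorem setOf'_reach_eq {T : SimpleGraph (Fin n)} (hT : T.IsTree) {a b : Fin n}
    (h : T.Adj a b) : setOf' n (reach n (matOf T) a b) = side T a b := by
  rw [setOf'_reach]
  exact Set.Subset.antisymm (rounds_subset_side hT h n) (side_subset_rounds hT h)

theorem length_flatMap_ite (l : List ℕ) (p : ℕ → Bool) :
    (l.flatMap fun y => if p y then [0] else []).length = (l.filter p).length := by
  induction l with
  | nil => rfl
  | cons a l ih =>
    rw [List.flatMap_cons, List.length_append, ih, List.filter_cons]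
    by_cases h : p a = true
    · simp [h]; omega
    · simp [h]

theorem length_filter_range (n : ℕ) (p : ℕ → Bool) : ((List.range n).filter p).length =
    ((Finset.range n).filter fun y => p y = true).card := by
  induction n with
  | zero => rfl
  | succ n ih =>
    rw [List.range_succ, List.filter_append, List.length_append, ih, Finset.range_add_one,
      Finset.filter_insert]
    by_cases h : p n = true
    · rw [if_pos h, Finset.card_insert_of_notMem (by simp)]
      simp [h]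
    · rw [if_neg h]
      simp [h]

theorem length_cutList (G : SimpleGraph (Fin n)) (s : List Bool) :
    (cutList n (matOf G) s).length =
      {p : Fin n × Fin n | p.1 ∈ setOf' n s ∧ p.2 ∉ setOf' n s ∧ G.Adj p.1 p.2}.ncard := by
  classical
  have h1 : (cutList n (matOf G) s).length =
      ((Finset.range n ×ˢ Finset.range n).filter fun p : ℕ × ℕ =>
        (s.getD p.1 false && !(s.getD p.2 false) && ent (matOf G) p.1 p.2) = true).card := by
    unfold cutList
    rw [List.length_flatMap]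
    have h2 : ∀ x : ℕ, ((List.range n).flatMap fun y =>
        if s.getD x false && !(s.getD y false) && ent (matOf G) x y then [0] else []).length =
        ((Finset.range n).filter fun y =>
          (s.getD x false && !(s.getD y false) && ent (matOf G) x y) = true).card := by
      intro x
      rw [length_flatMap_ite (List.range n)
        (fun y => s.getD x false && !(s.getD y false) && ent (matOf G) x y)]
      exact length_filter_range n _
    rw [List.map_congr_left (fun x _ => h2 x)]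
    rw [Finset.card_filter, Finset.sum_product]
    simp only [Finset.card_filter]
    rfl
  rw [h1, ← Set.ncard_coe_finset]
  have h3 : (((Finset.range n ×ˢ Finset.range n).filter fun p : ℕ × ℕ =>
        (s.getD p.1 false && !(s.getD p.2 false) && ent (matOf G) p.1 p.2) = true : Finset (ℕ × ℕ)) :
          Set (ℕ × ℕ)) =
      (fun p : Fin n × Fin n => ((p.1 : ℕ), (p.2 : ℕ))) ''
        {p : Fin n × Fin n | p.1 ∈ setOf' n s ∧ p.2 ∉ setOf' n s ∧ G.Adj p.1 p.2} := by
    ext ⟨x, y⟩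
    simp only [Finset.coe_filter, Finset.mem_product, Finset.mem_range, Bool.and_eq_true,
      Bool.not_eq_true', Set.mem_ofPred_eq, Set.mem_image, Prod.mk.injEq, Prod.exists]
    constructor
    · rintro ⟨⟨hx, hy⟩, ⟨h4, h5⟩, h6⟩
      rw [ent_matOf] at h6
      obtain ⟨_, _, h6⟩ := h6
      refine ⟨⟨x, hx⟩, ⟨y, hy⟩, ⟨h4, ?_, h6⟩, rfl, rfl⟩
      intro h7
      rw [mem_setOf'] at h7
      rw [h5] at h7
      cases h7
    · rintro ⟨x', y', ⟨h4, h5, h6⟩, rfl, rfl⟩
      refine ⟨⟨x'.2, y'.2⟩, ⟨h4, ?_⟩, (ent_matOf G _ _).2 ⟨x'.2, y'.2, h6⟩⟩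
      rw [mem_setOf'] at h5
      simpa using h5
  rw [h3, Set.ncard_image_of_injective]
  rintro ⟨x, y⟩ ⟨x', y'⟩ h
  simp only [Prod.mk.injEq] at h
  exact Prod.ext (Fin.ext h.1) (Fin.ext h.2)

theorem cng_eq_pairs {G T : SimpleGraph (Fin n)} (hT : T.IsTree) {a b : Fin n} (h : T.Adj a b) :
    cng G T s(a, b) =
      {p : Fin n × Fin n | p.1 ∈ side T a b ∧ p.2 ∉ side T a b ∧ G.Adj p.1 p.2}.ncard := by
  rw [cng_eq hT h]
  have : {f ∈ G.edgeSet | ∃ x y, f = s(x, y) ∧ x ∈ side T a b ∧ y ∉ side T a b} =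
      (fun p : Fin n × Fin n => s(p.1, p.2)) ''
        {p : Fin n × Fin n | p.1 ∈ side T a b ∧ p.2 ∉ side T a b ∧ G.Adj p.1 p.2} := by
    ext f
    constructor
    · rintro ⟨hf, x, y, rfl, hx, hy⟩
      exact ⟨(x, y), ⟨hx, hy, hf⟩, rfl⟩
    · rintro ⟨⟨x, y⟩, ⟨hx, hy, hadj⟩, rfl⟩
      exact ⟨hadj, x, y, rfl, hx, hy⟩
  rw [this]
  apply Set.InjOn.ncard_image
  rintro ⟨x, y⟩ ⟨hx, hy, -⟩ ⟨x', y'⟩ ⟨hx', hy', -⟩ hxy
  rcases Sym2.eq_iff.1 hxy with ⟨h1, h2⟩ | ⟨h1, h2⟩
  · exact Prod.ext h1 h2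
  · dsimp only at hx hy hx' hy' h1 h2
    rw [h1] at hx
    exact (hy' hx).elim

theorem check_iff (G T : SimpleGraph (Fin n)) (hT : IsSpanningTree G T) (K : ℕ) :
    check n (matOf G) (matOf T) K = true ↔ ec G T ≤ K := by
  have hlen : ∀ a b : Fin n, T.Adj a b →
      (cutList n (matOf G) (reach n (matOf T) a b)).length = cng G T s(a, b) := by
    intro a b hab
    rw [length_cutList, setOf'_reach_eq hT.2 hab, cng_eq_pairs hT.2 hab]
  have h1 : check n (matOf G) (matOf T) K = true ↔ ∀ a b : Fin n, T.Adj a b →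
      cng G T s(a, b) ≤ K := by
    unfold check
    simp only [List.all_eq_true, List.mem_range, Bool.or_eq_true, Bool.not_eq_true',
      decide_eq_true_eq]
    constructor
    · intro h a b hab
      rw [← hlen a b hab]
      rcases h a a.2 b b.2 with h2 | h2
      · have h3 : ent (matOf T) a b = true := (ent_matOf T _ _).2 ⟨a.2, b.2, hab⟩
        rw [h3] at h2
        cases h2
      · exact h2
    · intro h a ha b hb
      by_cases hab : T.Adj ⟨a, ha⟩ ⟨b, hb⟩
      · right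
        have := h _ _ hab
        rw [← hlen _ _ hab] at this
        exact this
      · left
        rw [Bool.eq_false_iff]
        intro h3
        obtain ⟨_, _, h4⟩ := (ent_matOf T _ _).1 h3
        exact hab h4
  rw [h1]
  constructor
  · intro h
    unfold ec
    apply csSup_le'
    rintro c ⟨e, he, rfl⟩
    induction e with
    | _ a b => exact h a b he
  · intro h a b hab
    refine le_trans ?_ h
    unfold ec
    apply le_csSup
    · have : {c | ∃ e ∈ T.edgeSet, c = cng G T e} = (fun e => cng G T e) '' T.edgeSet := by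
        ext c
        constructor
        · rintro ⟨e, he, rfl⟩; exact ⟨e, he, rfl⟩
        · rintro ⟨e, he, rfl⟩; exact ⟨e, he, rfl⟩
      rw [this]
      exact ((Set.toFinite T.edgeSet).image _).bddAbove
    · exact ⟨s(a, b), hab, rfl⟩

end CheckSem

end Pool.Agent.Lib.MP_20e1d9_lc
end

section

/-!
From a spanning tree of small congestion to states of the rows.
-/

set_option autoImplicit false

namespace Pool.Agent.Lib.MP_20e1d9_lc

open SimpleGraph

namespace Par

variable {P : Par}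

/-- The main vertices of a set of vertices. -/
def sd (A : Set (P.M ⊕ P.Ed)) : Set Nd := {x | ∃ h : P.IsNode x, (Sum.inl ⟨x, h⟩ : P.M ⊕ P.Ed) ∈ A}

theorem mem_sd {A : Set (P.M ⊕ P.Ed)} {x : Nd} (h : P.IsNode x) :
    x ∈ sd A ↔ (Sum.inl ⟨x, h⟩ : P.M ⊕ P.Ed) ∈ A := ⟨fun ⟨_, h'⟩ => h', fun h' => ⟨h, h'⟩⟩

/-- Level of a main vertex. -/
def lev : Nd → ℕ
  | .q _ j => 4 * j
  | .u _ j => 4 * j + 1
  | .g _ j => 4 * j + 2
  | .v _ j => 4 * j + 3

theorem lev_tgt (b : Bn) : lev (btgt b) = lev (bsrc b) + 1 := by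
  obtain ⟨t, i, j⟩ := b
  cases t <;> simp only [bsrc, btgt, lev] <;> omega

section

variable {T : SimpleGraph (P.M ⊕ P.Ed)}

theorem cutw_side_le (hT : IsSpanningTree P.graph T) (hc : ∀ e ∈ T.edgeSet, cng P.graph T e ≤ P.K)
    {a b : P.M ⊕ P.Ed} (hab : T.Adj a b) : P.cutw (sd (side T a b)) ≤ P.K := by
  have h1 := spl_side_le (src := P.esrc) (tgt := P.etgt) hT hab
  have h2 := hc s(a, b) hab
  rw [← spl_eq_cutw]
  refine le_trans (le_of_eq ?_) (h1.trans h2)
  congr 1
  ext m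
  obtain ⟨x, hx⟩ := m
  exact mem_sd hx

/-- `e` is traversed by the tree. -/
def Direct (T : SimpleGraph (P.M ⊕ P.Ed)) (e : P.Ed) : Prop :=
  T.Adj (.inl (P.esrc e)) (.inr e) ∧ T.Adj (.inl (P.etgt e)) (.inr e)

theorem esrc_ne_etgt (e : P.Ed) : P.esrc e ≠ P.etgt e := by
  intro h
  have h1 := congrArg (fun m : P.M => lev m.1) h
  have h2 := lev_tgt e.1.1
  simp only [esrc, etgt] at h1
  omega

theorem lev_etgt (e : P.Ed) : lev (P.etgt e).1 = lev (P.esrc e).1 + 1 := lev_tgt e.1.1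

/-- Heavy bundles leaving a heavy cut are traversed directly. -/
theorem exists_direct (hP : P.Good) (hT : IsSpanningTree P.graph T)
    (hc : ∀ e ∈ T.edgeSet, cng P.graph T e ≤ P.K) (P₀ : Set Nd)
    (hP₀ : ∀ b ∈ P.bundles, ¬ (bsrc b ∈ P₀ ↔ btgt b ∈ P₀) → P.Heavy b ∧ bsrc b ∈ P₀) {b₀ : Bn}
    (hb₀ : b₀ ∈ P.bundles) (h1 : bsrc b₀ ∈ P₀) (h2 : btgt b₀ ∉ P₀) :
    ∃ e : P.Ed, e.1.1 = b₀ ∧ Direct T e := by
  set x : P.M ⊕ P.Ed := .inl ⟨bsrc b₀, P.isNode_src hb₀⟩ with hx
  set y : P.M ⊕ P.Ed := .inl ⟨btgt b₀, P.isNode_tgt hb₀⟩ with hy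
  let A : Set (P.M ⊕ P.Ed) := {v | match v with
    | .inl m => m.1 ∈ P₀
    | .inr e => btgt e.1.1 ∈ P₀}
  obtain ⟨a, b, hab, ha, hb, hxa, hyb⟩ := exists_crossing hT.2 (A := A) (x := x) (y := y) h1 h2
  rcases adj_cases hT hab with ⟨z, e, rfl, rfl, hz⟩ | ⟨z, e, rfl, rfl, hz⟩
  · have ha' : z.1 ∈ P₀ := ha
    have hb' : btgt e.1.1 ∉ P₀ := hb
    have hzs : z = P.esrc e := by
      rcases hz with hz | hz
      · exact hz
      · subst hz
        exact absurd ha' hb'
    subst hzs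
    obtain ⟨w, hw1, hw2, hw3, hw4⟩ := mid_extend hT hyb (by simp [hy])
    have hwt : w = P.etgt e := hw2.resolve_left hw1
    subst hwt
    have hs : bsrc e.1.1 ∈ P₀ := ha'
    have hheavy := (hP₀ e.1.1 e.2.1 (fun h => hb' (h.1 hs))).1
    have hheavy₀ := (hP₀ b₀ hb₀ (fun h => h2 (h.1 h1))).1
    refine ⟨e, ?_, hab, hw3⟩
    by_contra hne
    have hcut := cutw_side_le hT hc hab
    rw [side_compl hT.2 hab] at hyb hw4
    have c1 : ¬ (bsrc e.1.1 ∈ sd (side T (.inl (P.esrc e)) (.inr e)) ↔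
        btgt e.1.1 ∈ sd (side T (.inl (P.esrc e)) (.inr e))) := by
      intro h
      have h3 : bsrc e.1.1 ∈ sd (side T (.inl (P.esrc e)) (.inr e)) :=
        ⟨P.isNode_src e.2.1, Reachable.refl _⟩
      exact hw4 ((mem_sd (P.isNode_tgt e.2.1)).1 (h.1 h3))
    have c2 : ¬ (bsrc b₀ ∈ sd (side T (.inl (P.esrc e)) (.inr e)) ↔
        btgt b₀ ∈ sd (side T (.inl (P.esrc e)) (.inr e))) := by
      intro h
      exact hyb ((mem_sd (P.isNode_tgt hb₀)).1 (h.1 ((mem_sd (P.isNode_src hb₀)).2 hxa)))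
    have := lemH hP _ e.2.1 hb₀ hne hheavy hheavy₀ c1 c2
    omega
  · exfalso
    have ha' : btgt e.1.1 ∈ P₀ := ha
    have hb' : z.1 ∉ P₀ := hb
    have hzs : z = P.esrc e := by
      rcases hz with hz | hz
      · exact hz
      · subst hz
        exact absurd ha' hb'
    subst hzs
    have hs : bsrc e.1.1 ∉ P₀ := hb'
    exact hs (hP₀ e.1.1 e.2.1 (fun h => hs (h.2 ha'))).2

theorem direct_E (hP : P.Good) (hT : IsSpanningTree P.graph T)
    (hc : ∀ e ∈ T.edgeSet, cng P.graph T e ≤ P.K) {j : ℕ} (hj : j < P.k) :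
    ∃ e : P.Ed, e.1.1 = (.E, P.n + 1, j) ∧ Direct T e := by
  refine exists_direct hP hT hc {x | lev x ≤ 4 * j + 1} ?_ (mem_bundles.2 ⟨by simp [cols], hj⟩)
    (by simp [bsrc, lev]) (by simp [btgt, lev])
  rintro ⟨t, i, j'⟩ hb h
  have h1 := lev_tgt (t, i, j')
  simp only [Set.mem_ofPred_eq, not_iff] at h ⊢
  cases t <;> simp only [bsrc, btgt, lev, Heavy] at h h1 ⊢ <;>
    first | (exfalso; omega) | exact ⟨trivial, by omega⟩

theorem direct_UL (hP : P.Good) (hT : IsSpanningTree P.graph T)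
    (hc : ∀ e ∈ T.edgeSet, cng P.graph T e ≤ P.K) {j : ℕ} (hj : j < P.k) :
    ∃ e : P.Ed, e.1.1 = (.UL, P.n, j) ∧ Direct T e := by
  refine exists_direct hP hT hc {x | lev x ≤ 4 * j + 1 ∧ x ≠ .u (P.n + 1) j} ?_
    (mem_bundles.2 ⟨by simp [cols], hj⟩) (by simp [bsrc, lev]) (by simp [btgt])
  rintro ⟨t, i, j'⟩ hb h
  rw [mem_bundles] at hb
  simp only [Set.mem_ofPred_eq, not_iff] at h ⊢
  cases t <;> simp only [bsrc, btgt, lev, Heavy, cols, ne_eq, Nd.u.injEq, reduceCtorEq,
    not_false_eq_true, and_true] at h hb ⊢ <;>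
    first | (exfalso; omega) | exact ⟨trivial, by omega⟩ | exact ⟨by omega, by omega⟩

theorem direct_D (hP : P.Good) (hT : IsSpanningTree P.graph T)
    (hc : ∀ e ∈ T.edgeSet, cng P.graph T e ≤ P.K) {j : ℕ} (hj : j < P.k) :
    ∃ e : P.Ed, e.1.1 = (.D, P.n + 1, j) ∧ Direct T e := by
  refine exists_direct hP hT hc {x | lev x ≤ 4 * j + 1 ∨ x = .g (P.n + 1) j} ?_
    (mem_bundles.2 ⟨by simp [cols], hj⟩) (by simp [bsrc]) (by simp [btgt, lev]; try omega)
  rintro ⟨t, i, j'⟩ hb h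
  rw [mem_bundles] at hb
  simp only [Set.mem_ofPred_eq, not_iff] at h ⊢
  cases t <;> simp only [bsrc, btgt, lev, Heavy, cols, Nd.g.injEq, reduceCtorEq,
    or_false] at h hb ⊢ <;>
    first | (exfalso; omega) | exact ⟨trivial, by omega⟩ | exact ⟨by omega, by omega⟩

theorem direct_VL (hP : P.Good) (hT : IsSpanningTree P.graph T)
    (hc : ∀ e ∈ T.edgeSet, cng P.graph T e ≤ P.K) {j : ℕ} (hj : j < P.k) :
    ∃ e : P.Ed, e.1.1 = (.VL, P.n, j) ∧ Direct T e := by
  refine exists_direct hP hT hc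
    {x | lev x ≤ 4 * j + 1 ∨ x = .g (P.n + 1) j ∨ x = .v (P.n + 1) j} ?_
    (mem_bundles.2 ⟨by simp [cols], hj⟩) (by simp [bsrc]) (by simp [btgt, lev]; try omega)
  rintro ⟨t, i, j'⟩ hb h
  rw [mem_bundles] at hb
  simp only [Set.mem_ofPred_eq, not_iff] at h ⊢
  cases t <;> simp only [bsrc, btgt, lev, Heavy, cols, Nd.g.injEq, Nd.v.injEq, reduceCtorEq,
    or_false, false_or] at h hb ⊢ <;>
    first | (exfalso; omega) | exact ⟨trivial, by omega⟩ | exact ⟨by omega, by omega⟩

/-- A direct edge different from the removed one does not cross. -/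
theorem direct_side (hT : IsSpanningTree P.graph T) {a b : P.M ⊕ P.Ed} (hab : T.Adj a b)
    {e : P.Ed} (he : Direct T e) (ha : a ≠ .inr e) (hb : b ≠ .inr e) :
    ((.inl (P.esrc e) : P.M ⊕ P.Ed) ∈ side T a b ↔ (.inl (P.etgt e) : P.M ⊕ P.Ed) ∈ side T a b) := by
  have key : ∀ x : P.M, T.Adj (.inl x) (.inr e) →
      ((.inl x : P.M ⊕ P.Ed) ∈ side T a b ↔ (.inr e : P.M ⊕ P.Ed) ∈ side T a b) := by
    intro x hx
    constructor
    · intro h
      by_contra h'
      rw [← Set.mem_compl_iff, ← side_compl hT.2 hab] at h'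
      exact hb (eq_of_adj_of_side hT.2 hab hx h h').2.symm
    · intro h
      by_contra h'
      rw [← Set.mem_compl_iff, ← side_compl hT.2 hab] at h'
      exact ha (eq_of_adj_of_side hT.2 hab hx.symm h h').1.symm
  rw [key _ he.1, key _ he.2]

/-- All vertices of the spine are on one side of every edge outside the spine. -/
theorem spine_same (hP : P.Good) (hT : IsSpanningTree P.graph T)
    (hc : ∀ e ∈ T.edgeSet, cng P.graph T e ≤ P.K) {x : P.M} {e : P.Ed}
    (hab : T.Adj (.inl x) (.inr e)) {i' j' : ℕ} (hi' : i' ≤ P.n) (he : e.1.1 = (.E, i', j'))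
    {A : Set (P.M ⊕ P.Ed)} (hA : A = side T (.inl x) (.inr e) ∨ A = side T (.inr e) (.inl x)) :
    ∀ j ≤ P.k, (Nd.q P.n j ∈ sd A ↔ Nd.q P.n 0 ∈ sd A) ∧
      (j < P.k → (Nd.u (P.n + 1) j ∈ sd A ↔ Nd.q P.n 0 ∈ sd A) ∧
        (Nd.g (P.n + 1) j ∈ sd A ↔ Nd.q P.n 0 ∈ sd A)) := by
  have key : ∀ f : P.Ed, Direct T f → f.1.1 ≠ e.1.1 →
      (bsrc f.1.1 ∈ sd A ↔ btgt f.1.1 ∈ sd A) := by
    intro f hf hne
    rw [mem_sd (P.isNode_src f.2.1), mem_sd (P.isNode_tgt f.2.1)]
    have hne' : (.inr e : P.M ⊕ P.Ed) ≠ .inr f := by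
      intro h
      exact hne (by rw [Sum.inr.inj h])
    rcases hA with rfl | rfl
    · exact direct_side hT hab hf (by simp) hne'
    · exact direct_side hT hab.symm hf hne' (by simp)
  intro j
  induction j with
  | zero =>
    intro _
    refine ⟨Iff.rfl, fun h0 => ?_⟩
    obtain ⟨f₁, hf₁, hd₁⟩ := direct_UL hP hT hc h0
    obtain ⟨f₂, hf₂, hd₂⟩ := direct_E hP hT hc h0
    have k₁ := key f₁ hd₁ (by rw [hf₁, he]; simp)
    have k₂ := key f₂ hd₂ (by rw [hf₂, he]; simp; omega)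
    rw [hf₁] at k₁
    rw [hf₂] at k₂
    simp only [bsrc, btgt] at k₁ k₂
    exact ⟨k₁.symm, k₂.symm.trans k₁.symm⟩
  | succ j ih =>
    intro hj
    obtain ⟨h1, h2⟩ := ih (by omega)
    obtain ⟨h2, h3⟩ := h2 (by omega)
    obtain ⟨f₃, hf₃, hd₃⟩ := direct_D hP hT hc (j := j) (by omega)
    obtain ⟨f₄, hf₄, hd₄⟩ := direct_VL hP hT hc (j := j) (by omega)
    have k₃ := key f₃ hd₃ (by rw [hf₃, he]; simp)
    have k₄ := key f₄ hd₄ (by rw [hf₄, he]; simp)
    rw [hf₃] at k₃
    rw [hf₄] at k₄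
    simp only [bsrc, btgt] at k₃ k₄
    have h4 : Nd.q P.n (j + 1) ∈ sd A ↔ Nd.q P.n 0 ∈ sd A :=
      k₄.symm.trans (k₃.symm.trans h3)
    refine ⟨h4, fun h0 => ?_⟩
    obtain ⟨f₁, hf₁, hd₁⟩ := direct_UL hP hT hc h0
    obtain ⟨f₂, hf₂, hd₂⟩ := direct_E hP hT hc h0
    have k₁ := key f₁ hd₁ (by rw [hf₁, he]; simp)
    have k₂ := key f₂ hd₂ (by rw [hf₂, he]; simp; omega)
    rw [hf₁] at k₁
    rw [hf₂] at k₂
    simp only [bsrc, btgt] at k₁ k₂
    exact ⟨k₁.symm.trans h4, k₂.symm.trans (k₁.symm.trans h4)⟩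

/-- A tree edge in a bundle `E(i', j')` which splits this bundle does not separate a vertex `q`
from the spine. -/
theorem q_side (hP : P.Good) (hT : IsSpanningTree P.graph T)
    (hc : ∀ e ∈ T.edgeSet, cng P.graph T e ≤ P.K) {e : P.Ed}
    (hab : T.Adj (.inl (P.esrc e)) (.inr e)) {i' j' : ℕ} (hi' : i' ≤ P.n)
    (he : e.1.1 = (.E, i', j'))
    (hsplit : (.inl (P.etgt e) : P.M ⊕ P.Ed) ∉ side T (.inl (P.esrc e)) (.inr e))
    {i j : ℕ} (hi : i ≤ P.n) (hj : j ≤ P.k) :
    Nd.q i j ∈ sd (side T (.inl (P.esrc e)) (.inr e)) ↔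
      Nd.q P.n 0 ∈ sd (side T (.inl (P.esrc e)) (.inr e)) := by
  set A := side T (.inl (P.esrc e)) (.inr e) with hA
  have hcompl : ∀ x, P.IsNode x → (x ∈ sd (side T (.inr e) (.inl (P.esrc e))) ↔ x ∉ sd A) := by
    intro x hx
    rw [mem_sd hx, mem_sd hx, side_compl hT.2 hab, Set.mem_compl_iff]
  have hsp := spine_same hP hT hc hab hi' he (A := A) (Or.inl hA)
  have hq : P.IsNode (.q i j) := ⟨hi, hj⟩
  have hq0 : P.IsNode (.q P.n 0) := ⟨le_rfl, Nat.zero_le _⟩
  have hj'k : j' < P.k := by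
    have := e.2.1
    rw [he, mem_bundles] at this
    exact this.2
  have hu : Nd.u i' j' ∈ sd A := by
    have h1 : bsrc e.1.1 ∈ sd A := ⟨P.isNode_src e.2.1, Reachable.refl _⟩
    rw [he] at h1
    exact h1
  have hg : Nd.g i' j' ∉ sd A := by
    intro h
    have h1 : btgt e.1.1 ∈ sd A := by rw [he]; exact h
    exact hsplit ((mem_sd (P.isNode_tgt e.2.1)).1 h1)
  have hnu : P.IsNode (.u i' j') := ⟨by omega, hj'k⟩
  have hng : P.IsNode (.g i' j') := ⟨by omega, hj'k⟩
  constructor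
  · intro h
    by_contra h0
    have h1 := lemB hP (sd A) (fun j hj => fun h2 => h0 (((hsp j hj).1).1 h2)) hi hj h hi' hj'k
      (fun h3 => hg (h3.1 hu))
    have h2 : P.cutw (sd A) ≤ P.K := cutw_side_le hT hc hab
    omega
  · intro h0
    by_contra h
    have h1 := lemB hP (sd (side T (.inr e) (.inl (P.esrc e)))) (fun j hj => fun h2 => by
      rw [hcompl _ (show P.IsNode (.q P.n _) from ⟨le_rfl, hj⟩)] at h2
      exact h2 (((hsp j hj).1).2 h0)) hi hj ((hcompl _ hq).2 h) hi' hj'k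
      (fun h3 => (hcompl _ hnu).1 (h3.2 ((hcompl _ hng).2 hg)) hu)
    have h2 := cutw_side_le hT hc hab.symm
    omega

/-- The vertices above row `j`. -/
def AR (P : Par) (j : ℕ) : Set (P.M ⊕ P.Ed) := {v | match v with
  | .inl m => lev m.1 ≤ 4 * j + 1
  | .inr e => lev (btgt e.1.1) ≤ 4 * j + 1}

theorem cross_AR (hT : IsSpanningTree P.graph T) {j : ℕ} {a b : P.M ⊕ P.Ed} (hab : T.Adj a b)
    (ha : a ∈ AR P j) (hb : b ∉ AR P j) :
    ∃ i' e, i' ≤ P.n + 1 ∧ e.1.1 = (.E, i', j) ∧ a = .inl (P.esrc e) ∧ b = .inr e := by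
  rcases adj_cases hT hab with ⟨z, e, rfl, rfl, hz⟩ | ⟨z, e, rfl, rfl, hz⟩
  · have ha' : lev z.1 ≤ 4 * j + 1 := ha
    have hb' : ¬ lev (btgt e.1.1) ≤ 4 * j + 1 := hb
    have hzs : z = P.esrc e := by
      rcases hz with hz | hz
      · exact hz
      · subst hz
        exact absurd ha' hb'
    subst hzs
    have h1 := lev_tgt e.1.1
    have h2 : lev (bsrc e.1.1) ≤ 4 * j + 1 := ha'
    have h3 := e.2.1
    rcases he : e.1.1 with ⟨t, i, j'⟩
    rw [he] at h1 h2 h3 hb'
    rw [mem_bundles] at h3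
    cases t <;> simp only [bsrc, btgt, lev, cols] at h1 h2 h3 hb' <;>
      first | (exfalso; omega) | skip
    obtain rfl : j' = j := by omega
    exact ⟨i, e, by omega, he, rfl, rfl⟩
  · exfalso
    have ha' : lev (btgt e.1.1) ≤ 4 * j + 1 := ha
    have hb' : ¬ lev z.1 ≤ 4 * j + 1 := hb
    have h1 := lev_tgt e.1.1
    rcases hz with rfl | rfl
    · have h2 : ¬ lev (bsrc e.1.1) ≤ 4 * j + 1 := hb'
      omega
    · exact hb' ha'

/-- If the component of `inr e` after removal of `esrc e - inr e` contains another vertex, the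
bundle of `e` is split. -/
theorem split_of_mem (hT : IsSpanningTree P.graph T) {e : P.Ed}
    (hab : T.Adj (.inl (P.esrc e)) (.inr e)) {z : P.M ⊕ P.Ed}
    (hz : z ∈ side T (.inr e) (.inl (P.esrc e))) (hne : z ≠ .inr e) :
    (.inl (P.etgt e) : P.M ⊕ P.Ed) ∉ side T (.inl (P.esrc e)) (.inr e) ∧
      T.Adj (.inl (P.etgt e)) (.inr e) := by
  obtain ⟨w, hw1, hw2, hw3, hw4⟩ := mid_extend hT hz hne
  have hwt : w = P.etgt e := hw2.resolve_left hw1
  subst hwt
  rw [side_compl hT.2 hab] at hw4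
  exact ⟨hw4, hw3⟩

/-- Position of the vertices `q` with respect to row `j`. -/
theorem q_up (hP : P.Good) (hT : IsSpanningTree P.graph T)
    (hc : ∀ e ∈ T.edgeSet, cng P.graph T e ≤ P.K) {j : ℕ} {e₀ : P.Ed}
    (he₀ : e₀.1.1 = (.E, P.n + 1, j)) (hd : Direct T e₀) {i j' : ℕ} (hi : i ≤ P.n)
    (hj' : j' ≤ P.k) :
    Nd.q i j' ∈ sd (side T (.inl (P.esrc e₀)) (.inr e₀)) ↔ j' ≤ j := by
  set U := side T (.inl (P.esrc e₀)) (.inr e₀) with hU
  have hUc : side T (.inr e₀) (.inl (P.esrc e₀)) = Uᶜ := side_compl hT.2 hd.1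
  have hjk : j < P.k := by
    have := e₀.2.1
    rw [he₀, mem_bundles] at this
    exact this.2
  have hnq : P.IsNode (.q i j') := ⟨hi, hj'⟩
  have hlsrc : lev (P.esrc e₀).1 = 4 * j + 1 := by
    simp only [esrc, he₀, bsrc, lev]
  have hltgt : lev (P.etgt e₀).1 = 4 * j + 2 := by
    simp only [etgt, he₀, btgt, lev]
  have hsrcU : (.inl (P.esrc e₀) : P.M ⊕ P.Ed) ∈ U := Reachable.refl _
  have hmidU : (.inr e₀ : P.M ⊕ P.Ed) ∉ U := by
    rw [← Set.mem_compl_iff, ← hUc]
    exact Reachable.refl _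
  have htgtU : (.inl (P.etgt e₀) : P.M ⊕ P.Ed) ∉ U := by
    intro h
    have h1 := eq_of_adj_of_side hT.2 hd.1 hd.2 h (by rw [hUc]; exact hmidU)
    exact esrc_ne_etgt e₀ (Sum.inl.inj h1.1).symm
  rw [mem_sd hnq]
  constructor
  · intro hx
    by_contra hlt
    set x : P.M ⊕ P.Ed := .inl ⟨.q i j', hnq⟩ with hxdef
    have hxA : x ∈ {y | y ∈ U ∧ y ∉ AR P j} := by
      refine ⟨hx, ?_⟩
      intro h
      have h' : lev (.q i j') ≤ 4 * j + 1 := h
      simp only [lev] at h'
      omega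
    have hyA : (.inl (P.esrc e₀) : P.M ⊕ P.Ed) ∉ {y | y ∈ U ∧ y ∉ AR P j} := by
      rintro ⟨-, h⟩
      apply h
      change lev (P.esrc e₀).1 ≤ 4 * j + 1
      omega
    obtain ⟨a, b, hab, ha, hb, hxa, hyb⟩ := exists_crossing hT.2 hxA hyA
    have hbU : b ∈ U := by
      by_contra hbU
      have h1 := eq_of_adj_of_side hT.2 hd.1 hab ha.1 (by rw [hUc]; exact hbU)
      apply ha.2
      rw [h1.1]
      change lev (P.esrc e₀).1 ≤ 4 * j + 1
      omega
    have hbR : b ∈ AR P j := by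
      by_contra hbR
      exact hb ⟨hbU, hbR⟩
    obtain ⟨i', e, hi', he, rfl, rfl⟩ := cross_AR hT hab.symm hbR ha.2
    obtain ⟨hs1, hs2⟩ := split_of_mem hT hab.symm hxa (by simp [hxdef])
    by_cases hi'n : i' = P.n + 1
    · subst hi'n
      by_cases hee : e = e₀
      · subst hee
        exact hmidU ha.1
      · have h1 : (.inl (P.etgt e) : P.M ⊕ P.Ed) = .inl (P.etgt e₀) := by
          congr 1
          apply Subtype.ext
          simp only [etgt, he, he₀]
        have h2 : (.inl (P.esrc e₀) : P.M ⊕ P.Ed) = .inl (P.esrc e) := by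
          congr 1
          apply Subtype.ext
          simp only [esrc, he, he₀]
        rw [h1] at hs2
        have h3 := eq_of_adj_of_side hT.2 hd.1 hs2.symm ha.1 (by rw [hUc]; exact htgtU)
        exact absurd h3.1 (by simp)
    · have hi'le : i' ≤ P.n := by omega
      have h1 := q_side hP hT hc hab.symm hi'le he hs1 hi hj'
      have hsp := spine_same hP hT hc hab.symm hi'le he (Or.inl rfl)
      have h2 : (x : P.M ⊕ P.Ed) ∉ side T (.inl (P.esrc e)) (.inr e) := by
        rw [side_compl hT.2 hab.symm] at hxa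
        exact hxa
      have h3 : Nd.q P.n 0 ∉ sd (side T (.inl (P.esrc e)) (.inr e)) := by
        rw [← h1, mem_sd hnq]
        exact h2
      have h4 := (((hsp j hjk.le).2 hjk).1)
      apply h3
      rw [← h4, mem_sd (show P.IsNode (.u (P.n + 1) j) from ⟨le_rfl, hjk⟩)]
      have h5 : (P.esrc e₀) = ⟨.u (P.n + 1) j, ⟨le_rfl, hjk⟩⟩ := by
        apply Subtype.ext
        simp only [esrc, he₀, bsrc]
      rw [← h5]
      exact hyb
  · intro hle
    by_contra hx
    set x : P.M ⊕ P.Ed := .inl ⟨.q i j', hnq⟩ with hxdef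
    have hxA : x ∈ {y | y ∉ U ∧ y ∈ AR P j} := by
      refine ⟨hx, ?_⟩
      change lev (.q i j') ≤ 4 * j + 1
      simp only [lev]
      omega
    have hyA : (.inl (P.etgt e₀) : P.M ⊕ P.Ed) ∉ {y | y ∉ U ∧ y ∈ AR P j} := by
      rintro ⟨-, h⟩
      have h' : lev (P.etgt e₀).1 ≤ 4 * j + 1 := h
      omega
    obtain ⟨a, b, hab, ha, hb, hxa, hyb⟩ := exists_crossing hT.2 hxA hyA
    have hbU : b ∉ U := by
      intro hbU
      have h1 := eq_of_adj_of_side hT.2 hd.1 hab.symm hbU (by rw [hUc]; exact ha.1)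
      have h2 := ha.2
      rw [h1.2] at h2
      have h3 : lev (btgt e₀.1.1) ≤ 4 * j + 1 := h2
      have h4 : lev (btgt e₀.1.1) = 4 * j + 2 := hltgt
      omega
    have hbR : b ∉ AR P j := fun hbR => hb ⟨hbU, hbR⟩
    obtain ⟨i', e, hi', he, rfl, rfl⟩ := cross_AR hT hab ha.2 hbR
    obtain ⟨hs1, hs2⟩ := split_of_mem hT hab hyb (by simp)
    by_cases hi'n : i' = P.n + 1
    · subst hi'n
      have h2 : (.inl (P.esrc e₀) : P.M ⊕ P.Ed) = .inl (P.esrc e) := by
        congr 1
        apply Subtype.ext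
        simp only [esrc, he, he₀]
      exact ha.1 (h2 ▸ hsrcU)
    · have hi'le : i' ≤ P.n := by omega
      have h1 := q_side hP hT hc hab hi'le he hs1 hi hj'
      have hsp := spine_same hP hT hc hab hi'le he (Or.inl rfl)
      have h3 : Nd.q P.n 0 ∈ sd (side T (.inl (P.esrc e)) (.inr e)) := by
        rw [← h1, mem_sd hnq]
        exact hxa
      have h4 := (((hsp j hjk.le).2 hjk).2)
      rw [← h4, mem_sd (show P.IsNode (.g (P.n + 1) j) from ⟨le_rfl, hjk⟩)] at h3
      have h5 : (P.etgt e₀) = ⟨.g (P.n + 1) j, ⟨le_rfl, hjk⟩⟩ := by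
        apply Subtype.ext
        simp only [etgt, he₀, btgt]
      rw [side_compl hT.2 hab] at hyb
      rw [← h5] at h3
      exact hyb h3

/-- The left part of strip `J`, up to column `i`. -/
def PL (i J : ℕ) : Set Nd := {x | match x with
  | .q i' j' => i' ≤ i ∧ j' = J
  | .u i' j' => i' ≤ i ∧ j' = J
  | .g i' j' => i' ≤ i ∧ j' + 1 = J
  | .v i' j' => i' ≤ i ∧ j' + 1 = J}

/-- The vertices of the left part of strip `J`. -/
def A0 (P : Par) (i J : ℕ) : Set (P.M ⊕ P.Ed) := {y | match y with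
  | .inl m => m.1 ∈ PL i J
  | .inr e => (e.1.1.1 = .E → btgt e.1.1 ∈ PL i J) ∧
      (e.1.1.1 ≠ .E → bsrc e.1.1 ∈ PL i J ∨ btgt e.1.1 ∈ PL i J)}

theorem cross_A0 (hT : IsSpanningTree P.graph T) {i J : ℕ} {a b : P.M ⊕ P.Ed} (hab : T.Adj a b)
    (ha : a ∈ A0 P i J) (hb : b ∉ A0 P i J) :
    (∃ i' e, i' ≤ i ∧ e.1.1 = (.E, i', J) ∧ a = .inl (P.esrc e) ∧ b = .inr e) ∨
    (∃ i' j' e, i' ≤ i ∧ e.1.1 = (.E, i', j') ∧ a = .inr e ∧ b = .inl (P.esrc e)) ∨
    (∃ h : P.IsNode (.u (i + 1) J), b = .inl ⟨_, h⟩) ∨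
    (∃ r, r + 1 = J ∧ ∃ h : P.IsNode (.v (i + 1) r), b = .inl ⟨_, h⟩) := by
  rcases adj_cases hT hab with ⟨z, e, rfl, rfl, hz⟩ | ⟨z, e, rfl, rfl, hz⟩
  · have ha' : z.1 ∈ PL i J := ha
    have hb' : ¬ ((e.1.1.1 = .E → btgt e.1.1 ∈ PL i J) ∧
      (e.1.1.1 ≠ .E → bsrc e.1.1 ∈ PL i J ∨ btgt e.1.1 ∈ PL i J)) := hb
    have hz' : bsrc e.1.1 ∈ PL i J ∨ btgt e.1.1 ∈ PL i J := by
      rcases hz with rfl | rfl
      · exact Or.inl ha'
      · exact Or.inr ha'
    by_cases hE : e.1.1.1 = .E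
    · have h1 : btgt e.1.1 ∉ PL i J := fun h => hb' ⟨fun _ => h, fun h2 => absurd hE h2⟩
      have hzs : z = P.esrc e := by
        rcases hz with hz | hz
        · exact hz
        · subst hz
          exact absurd ha' h1
      subst hzs
      have h2 : bsrc e.1.1 ∈ PL i J := ha'
      rcases he : e.1.1 with ⟨t, i', j'⟩
      rw [he] at h2 hE
      simp only at hE
      subst hE
      obtain ⟨h3, rfl⟩ : i' ≤ i ∧ j' = J := h2
      exact Or.inl ⟨i', e, h3, he, rfl, rfl⟩
    · exact absurd ⟨fun h => absurd h hE, fun _ => hz'⟩ hb'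
  · have ha' : (e.1.1.1 = .E → btgt e.1.1 ∈ PL i J) ∧
      (e.1.1.1 ≠ .E → bsrc e.1.1 ∈ PL i J ∨ btgt e.1.1 ∈ PL i J) := ha
    have hb' : z.1 ∉ PL i J := hb
    have hnode := z.2
    by_cases hE : e.1.1.1 = .E
    · have h1 : btgt e.1.1 ∈ PL i J := ha'.1 hE
      have hzs : z = P.esrc e := by
        rcases hz with hz | hz
        · exact hz
        · subst hz
          exact absurd h1 hb'
      subst hzs
      rcases he : e.1.1 with ⟨t, i', j'⟩
      rw [he] at h1 hE
      simp only at hE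
      subst hE
      obtain ⟨h3, -⟩ : i' ≤ i ∧ j' + 1 = J := h1
      exact Or.inr (Or.inl ⟨i', j', e, h3, he, rfl, rfl⟩)
    · have h1 := ha'.2 hE
      have h2 : (z.1 = bsrc e.1.1 ∧ btgt e.1.1 ∈ PL i J) ∨
          (z.1 = btgt e.1.1 ∧ bsrc e.1.1 ∈ PL i J) := by
        rcases hz with rfl | rfl
        · rcases h1 with h1 | h1
          · exact absurd h1 hb'
          · exact Or.inl ⟨rfl, h1⟩
        · rcases h1 with h1 | h1
          · exact Or.inr ⟨rfl, h1⟩
          · exact absurd h1 hb'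
      right; right
      obtain ⟨z, hzn⟩ := z
      rcases he : e.1.1 with ⟨t, i', j'⟩
      rw [he] at h2 hE
      simp only at h2 hE hb'
      rcases h2 with ⟨rfl, h2⟩ | ⟨rfl, h2⟩
      · cases t
        · simp only [bsrc, btgt, PL, Set.mem_ofPred_eq] at h2 hb'
          omega
        · simp only [bsrc, btgt, PL, Set.mem_ofPred_eq] at h2 hb'
          omega
        · exact absurd rfl hE
        · simp only [bsrc, btgt, PL, Set.mem_ofPred_eq] at h2 hb'
          omega
        · right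
          simp only [bsrc, btgt, PL, Set.mem_ofPred_eq] at h2 hb'
          obtain rfl : i' = i := by omega
          exact ⟨j', h2.2, hzn, rfl⟩
        · simp only [bsrc, btgt, PL, Set.mem_ofPred_eq] at h2 hb'
          omega
      · cases t
        · left
          simp only [bsrc, btgt, PL, Set.mem_ofPred_eq] at h2 hb'
          obtain ⟨h2, rfl⟩ := h2
          obtain rfl : i' = i := by omega
          exact ⟨hzn, rfl⟩
        · simp only [bsrc, btgt, PL, Set.mem_ofPred_eq] at h2 hb'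
          omega
        · exact absurd rfl hE
        · simp only [bsrc, btgt, PL, Set.mem_ofPred_eq] at h2 hb'
          omega
        · simp only [bsrc, btgt, PL, Set.mem_ofPred_eq] at h2 hb'
          omega
        · simp only [bsrc, btgt, PL, Set.mem_ofPred_eq] at h2 hb'
          omega

/-- A strip is connected inside itself. -/
theorem strip (hP : P.Good) (hT : IsSpanningTree P.graph T)
    (hc : ∀ e ∈ T.edgeSet, cng P.graph T e ≤ P.K) (eE : ℕ → P.Ed)
    (heE : ∀ j < P.k, (eE j).1.1 = (.E, P.n + 1, j) ∧ Direct T (eE j)) {i J : ℕ} (hi : i < P.n)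
    (hJ : J ≤ P.k)
    (hv : ∀ r, r + 1 = J → Nd.v (i + 1) r ∈ sd (side T (.inl (P.esrc (eE r))) (.inr (eE r))))
    (hu : J < P.k → Nd.u (i + 1) J ∉ sd (side T (.inl (P.esrc (eE J))) (.inr (eE J)))) : False := by
  set U : ℕ → Set (P.M ⊕ P.Ed) := fun r => side T (.inl (P.esrc (eE r))) (.inr (eE r)) with hU
  have hUc : ∀ r < P.k, side T (.inr (eE r)) (.inl (P.esrc (eE r))) = (U r)ᶜ :=
    fun r hr => side_compl hT.2 (heE r hr).2.1
  have hnx : P.IsNode (.q i J) := ⟨hi.le, hJ⟩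
  have hny : P.IsNode (.q (i + 1) J) := ⟨hi, hJ⟩
  set x : P.M ⊕ P.Ed := .inl ⟨.q i J, hnx⟩ with hx
  set y : P.M ⊕ P.Ed := .inl ⟨.q (i + 1) J, hny⟩ with hy
  let W : Set (P.M ⊕ P.Ed) := {z | (∀ r, r + 1 = J → z ∉ U r) ∧ (J < P.k → z ∈ U J)}
  have hW : ∀ i', (h : i' ≤ P.n) → (.inl ⟨.q i' J, ⟨h, hJ⟩⟩ : P.M ⊕ P.Ed) ∈ W := by
    intro i' hi'
    refine ⟨?_, ?_⟩
    · rintro r rfl hm
      have h1 := (q_up hP hT hc (heE r (by omega)).1 (heE r (by omega)).2 hi' hJ).1
        ((mem_sd (show P.IsNode (.q i' (r + 1)) from ⟨hi', hJ⟩)).2 hm)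
      omega
    · intro hJk
      exact (mem_sd (show P.IsNode (.q i' J) from ⟨hi', hJ⟩)).1
        ((q_up hP hT hc (heE J hJk).1 (heE J hJk).2 hi' hJ).2 le_rfl)
  have hxW : x ∈ W := hW i hi.le
  have hyW : y ∈ W := hW (i + 1) hi
  have hxA : x ∈ A0 P i J ∩ W := by
    refine ⟨?_, hxW⟩
    change Nd.q i J ∈ PL i J
    exact ⟨le_rfl, rfl⟩
  have hyA : y ∉ A0 P i J ∩ W := by
    rintro ⟨h, -⟩
    have h' : Nd.q (i + 1) J ∈ PL i J := h
    have h'' : i + 1 ≤ i ∧ J = J := h'
    omega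
  obtain ⟨a, b, hab, ha, hb, hxa, hyb⟩ := exists_crossing hT.2 hxA hyA
  have hbW : b ∈ W := by
    refine ⟨?_, ?_⟩
    · rintro r rfl hbU
      have hr : r < P.k := by omega
      have haU := ha.2.1 r rfl
      have h1 := eq_of_adj_of_side hT.2 (heE r hr).2.1 hab.symm hbU (by rw [hUc r hr]; exact haU)
      rw [h1.1, h1.2] at hyb
      exact hyW.1 r rfl hyb
    · intro hJk
      by_contra hbU
      have haU := ha.2.2 hJk
      have h1 := eq_of_adj_of_side hT.2 (heE J hJk).2.1 hab haU (by rw [hUc J hJk]; exact hbU)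
      rw [h1.1, h1.2, hUc J hJk] at hyb
      exact hyb (hyW.2 hJk)
  have hbA : b ∉ A0 P i J := fun h => hb ⟨h, hbW⟩
  rcases cross_A0 hT hab ha.1 hbA with ⟨i', e, hi', he, rfl, rfl⟩ | ⟨i', j', e, hi', he, rfl, rfl⟩ |
    ⟨h, rfl⟩ | ⟨r, rfl, h, rfl⟩
  · have hs := split_of_mem hT hab hyb (by simp [hy])
    have h1 := q_side hP hT hc hab (hi'.trans hi.le) he hs.1 hi.le hJ
    have h2 := q_side hP hT hc hab (hi'.trans hi.le) he hs.1 (show i + 1 ≤ P.n from hi) hJ
    rw [side_compl hT.2 hab] at hyb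
    rw [mem_sd hnx] at h1
    rw [mem_sd hny] at h2
    exact hyb (h2.2 (h1.1 hxa))
  · have hs := split_of_mem hT hab.symm hxa (by simp [hx])
    have h1 := q_side hP hT hc hab.symm (hi'.trans hi.le) he hs.1 hi.le hJ
    have h2 := q_side hP hT hc hab.symm (hi'.trans hi.le) he hs.1 (show i + 1 ≤ P.n from hi) hJ
    rw [side_compl hT.2 hab.symm] at hxa
    rw [mem_sd hnx] at h1
    rw [mem_sd hny] at h2
    exact hxa (h1.2 (h2.1 hyb))
  · exact hu h.2 ((mem_sd h).2 (hbW.2 h.2))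
  · exact hbW.1 r rfl ((mem_sd h).1 (hv r rfl))

open scoped Classical in
/-- From a spanning tree of small congestion to states of the rows. -/
theorem backward (hP : P.Good) (hT : IsSpanningTree P.graph T)
    (hc : ∀ e ∈ T.edgeSet, cng P.graph T e ≤ P.K) :
    ∃ A B : ℕ → ℕ → Prop, (∀ i < P.n, ¬ A i 0) ∧ (∀ i < P.n, ¬ B i (P.k - 1)) ∧
      (∀ i < P.n, ∀ j, j + 1 < P.k → ¬ (B i j ∧ A i (j + 1))) ∧
      ∀ j < P.k, ∑ i ∈ Finset.range P.n, (if A i j then P.α i j else if B i j then P.β i j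
        else P.δ i j) ≤ P.b j := by
  have hk := hP.hk
  obtain ⟨e0, -⟩ := direct_E hP hT hc (j := 0) (by omega)
  have h : ∀ j, ∃ e : P.Ed, j < P.k → e.1.1 = (.E, P.n + 1, j) ∧ Direct T e := by
    intro j
    by_cases hj : j < P.k
    · obtain ⟨e, he⟩ := direct_E hP hT hc hj
      exact ⟨e, fun _ => he⟩
    · exact ⟨e0, fun h => absurd h hj⟩
  choose eE heE using h
  refine ⟨fun i j => Nd.u (i + 1) j ∉ sd (side T (.inl (P.esrc (eE j))) (.inr (eE j))),
    fun i j => Nd.v (i + 1) j ∈ sd (side T (.inl (P.esrc (eE j))) (.inr (eE j))), ?_, ?_, ?_, ?_⟩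
  · intro i hi hA
    exact strip hP hT hc eE heE hi (Nat.zero_le _) (fun r hr => absurd hr (by omega))
      (fun _ => hA)
  · intro i hi hB
    refine strip hP hT hc eE heE hi le_rfl ?_ (fun h => absurd h (lt_irrefl _))
    rintro r hr
    obtain rfl : r = P.k - 1 := by omega
    exact hB
  · rintro i hi j hj ⟨hB, hA⟩
    refine strip hP hT hc eE heE hi hj.le ?_ (fun _ => hA)
    intro r hr
    obtain rfl : r = j := by omega
    exact hB
  · intro j hj
    obtain ⟨h1, h2⟩ := heE j hj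
    have hcut := cutw_side_le hT hc h2.1
    have k1 : ¬ (Nd.u (P.n + 1) j ∈ sd (side T (.inl (P.esrc (eE j))) (.inr (eE j))) ↔
        Nd.g (P.n + 1) j ∈ sd (side T (.inl (P.esrc (eE j))) (.inr (eE j)))) := by
      intro h
      have hu : Nd.u (P.n + 1) j ∈ sd (side T (.inl (P.esrc (eE j))) (.inr (eE j))) := by
        have h3 : bsrc (eE j).1.1 ∈ sd (side T (.inl (P.esrc (eE j))) (.inr (eE j))) :=
          ⟨P.isNode_src (eE j).2.1, Reachable.refl _⟩
        rw [h1] at h3
        exact h3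
      have hg := h.1 hu
      have h4 : (.inl (P.etgt (eE j)) : P.M ⊕ P.Ed) ∈
          side T (.inl (P.esrc (eE j))) (.inr (eE j)) := by
        refine (mem_sd (P.isNode_tgt (eE j).2.1)).1 ?_
        rw [h1]
        exact hg
      have hmid : (.inr (eE j) : P.M ⊕ P.Ed) ∈ side T (.inr (eE j)) (.inl (P.esrc (eE j))) :=
        Reachable.refl _
      have h5 := eq_of_adj_of_side hT.2 h2.1 h2.2 h4 hmid
      exact esrc_ne_etgt _ (Sum.inl.inj h5.1).symm
    have k2 : ∀ i ≤ P.n, Nd.q i j ∈ sd (side T (.inl (P.esrc (eE j))) (.inr (eE j))) := by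
      intro i hi
      exact (q_up hP hT hc h1 h2 hi hj.le).2 le_rfl
    have k3 : ∀ i ≤ P.n, Nd.q i (j + 1) ∉ sd (side T (.inl (P.esrc (eE j))) (.inr (eE j))) := by
      intro i hi h
      have := (q_up hP hT hc h1 h2 hi hj).1 h
      omega
    convert lemD hP _ hcut hj k1 k2 k3

end

end Par

end Pool.Agent.Lib.MP_20e1d9_lc
end

section

/-!
Assembly of the reduction.
-/

set_option autoImplicit false

namespace Pool.Agent.Lib.MP_20e1d9_lc

open SimpleGraph

namespace Par

variable {P : Par}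

open scoped Classical in
/-- From a selection to a spanning tree of small congestion. -/
theorem forward (hP : P.Good) (Sel : ℕ → Prop)
    (hSel : ∀ j < P.k, ∑ i ∈ Finset.range P.n, (if Sel i then (if j = 0 then P.δ i j else P.α i j)
      else (if j + 1 = P.k then P.δ i j else P.β i j)) ≤ P.b j) :
    ∃ T, IsSpanningTree P.graph T ∧ ∀ f ∈ T.edgeSet, cng P.graph T f ≤ P.K := by
  have hk := hP.hk
  have hs := hP.hs
  have hnode : P.IsNode (.q 0 0) := ⟨Nat.zero_le _, Nat.zero_le _⟩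
  have : Nonempty P.M := ⟨⟨_, hnode⟩⟩
  have hcut := TB_cut hP Sel hSel
  choose! S hS1 hS2 hS3 using hcut
  have hTB : ∀ b ∈ P.TB Sel, b ∈ P.bundles := fun b hb => hb.1
  refine subG_forward P.K ?_ esrc_ne_etgt {e | e.1.1 ∈ P.TB Sel ∧ e.1.2 = 0} ?_
    (fun e => {m | m.1 ∈ S e.1.1}) ?_ ?_ ?_
  · have h1 : 1 ≤ P.s * (P.n + 2) * (P.k + 1) := by
      have : 0 < P.s * (P.n + 2) * (P.k + 1) := by positivity
      omega
    have h2 : P.K = 20 * (P.s * (P.n + 2) * (P.k + 1)) := by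
      simp only [K]
      ring
    omega
  · intro x y
    have key : ∀ z : Nd, Relation.ReflTransGen
        (fun x y => ∃ b ∈ P.TB Sel, (x = bsrc b ∧ y = btgt b) ∨ (x = btgt b ∧ y = bsrc b)) x.1 z →
        ∃ h : P.IsNode z, Relation.ReflTransGen (fun x y => ∃ e ∈ {e : P.Ed | e.1.1 ∈ P.TB Sel ∧
          e.1.2 = 0}, (x = P.esrc e ∧ y = P.etgt e) ∨ (x = P.etgt e ∧ y = P.esrc e)) x ⟨z, h⟩ := by
      intro z hz
      induction hz with
      | refl => exact ⟨x.2, Relation.ReflTransGen.refl⟩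
      | @tail b c _ hbc ih =>
        obtain ⟨hb, ih⟩ := ih
        obtain ⟨bd, hbd, hcase⟩ := hbc
        have hbb := hTB bd hbd
        let e : P.Ed := ⟨(bd, 0), hbb, hP.w_pos bd⟩
        rcases hcase with ⟨rfl, rfl⟩ | ⟨rfl, rfl⟩
        · exact ⟨P.isNode_tgt hbb, ih.tail ⟨e, ⟨hbd, rfl⟩, Or.inl ⟨rfl, rfl⟩⟩⟩
        · exact ⟨P.isNode_src hbb, ih.tail ⟨e, ⟨hbd, rfl⟩, Or.inr ⟨rfl, rfl⟩⟩⟩
    obtain ⟨_, h⟩ := key y.1 (TB_connected hP Sel x.1 y.1 x.2 y.2)
    exact h
  · rintro e ⟨he, -⟩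
    exact hS1 _ he
  · rintro e ⟨he, he0⟩ e' ⟨he', he0'⟩ hne
    refine hS2 _ he _ he' ?_
    intro h
    apply hne
    apply Subtype.ext
    exact Prod.ext h (he0'.trans he0.symm)
  · rintro e ⟨he, -⟩
    rw [spl_eq_cutw]
    exact hS3 _ he

end Par

theorem adjOf_symm {N : ℕ} (Γ : SimpleGraph (Fin N)) (x y : ℕ) : adjOf Γ x y = adjOf Γ y x := by
  unfold adjOf
  congr 1
  apply propext
  constructor
  · rintro ⟨hx, hy, h⟩
    exact ⟨hy, hx, h.symm⟩
  · rintro ⟨hx, hy, h⟩
    exact ⟨hy, hx, h.symm⟩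

theorem adjOf_iff {N : ℕ} (Γ : SimpleGraph (Fin N)) (x y : ℕ) :
    adjOf Γ x y = true ↔ ∃ (hx : x < N) (hy : y < N), Γ.Adj ⟨x, hx⟩ ⟨y, hy⟩ := by
  unfold adjOf
  classical
  exact decide_eq_true_iff

theorem clique_iff {N κ : ℕ} (Γ : SimpleGraph (Fin N)) :
    (∃ C : Finset (Fin N), Γ.IsNClique κ C) ↔ ∃ c : ℕ → ℕ, (∀ a < κ, c a < N) ∧
      ∀ a < κ, ∀ b < κ, a ≠ b → adjOf Γ (c a) (c b) = true := by
  constructor
  · rintro ⟨C, hC⟩
    let f := C.orderEmbOfFin hC.card_eq
    refine ⟨fun a => if h : a < κ then f ⟨a, h⟩ else 0, ?_, ?_⟩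
    · intro a ha
      simp only [ha, dif_pos]
      exact (f ⟨a, ha⟩).2
    · intro a ha b hb hab
      simp only [ha, hb, dif_pos]
      rw [adjOf_iff]
      refine ⟨(f ⟨a, ha⟩).2, (f ⟨b, hb⟩).2, ?_⟩
      apply hC.isClique (Finset.orderEmbOfFin_mem _ _ _) (Finset.orderEmbOfFin_mem _ _ _)
      intro h
      have := f.injective h
      rw [Fin.mk.injEq] at this
      exact hab this
  · rintro ⟨c, hc, hadj⟩
    let f : Fin κ → Fin N := fun a => ⟨c a, hc a a.2⟩
    have hf : ∀ a b : Fin κ, a ≠ b → Γ.Adj (f a) (f b) := by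
      intro a b hab
      have h := hadj a a.2 b b.2 (fun h => hab (Fin.ext h))
      rw [adjOf_iff] at h
      obtain ⟨_, _, h⟩ := h
      exact h
    have hinj : Function.Injective f := by
      intro a b h
      by_contra hab
      have := hf a b hab
      rw [h] at this
      exact this.ne rfl
    refine ⟨Finset.univ.map ⟨f, hinj⟩, ?_, ?_⟩
    · intro x hx y hy hxy
      simp only [Finset.coe_map, Set.mem_image] at hx hy
      obtain ⟨a, -, rfl⟩ := hx
      obtain ⟨b, -, rfl⟩ := hy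
      exact hf a b (fun h => hxy (by rw [h]))
    · simp

theorem stc_le_K_iff {N κ : ℕ} (Γ : SimpleGraph (Fin N)) :
    (∃ C : Finset (Fin N), Γ.IsNClique κ C) ↔
      stc (cliquePar N κ (adjOf Γ)).outGraph ≤ (cliquePar N κ (adjOf Γ)).K := by
  have hP := cliquePar_good N κ (adjOf Γ)
  obtain ⟨iso⟩ := (cliquePar N κ (adjOf Γ)).outGraph_iso
  rw [clique_iff, ← stc_iso iso, stc_le_iff (Par.connected_graph _ hP)]
  constructor
  · rintro ⟨c, hc, hadj⟩
    obtain ⟨Sel, hSel⟩ := sel_of_clique N κ (adjOf Γ) (adjOf_symm Γ) c hc hadj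
    exact Par.forward hP Sel hSel
  · rintro ⟨T, hT, hc⟩
    obtain ⟨A, B, h0, h1, h2, h3⟩ := Par.backward hP hT hc
    exact clique_of_states N κ (adjOf Γ) (adjOf_symm Γ) A B h0 h1 h2 h3

theorem reduction : ∃ f : List Pool.Agent.Lib.MP_9c2350_lc.Sym → List Pool.Agent.Lib.MP_9c2350_lc.Sym,
    Nonempty (Turing.TM2ComputableInPolyTime id id f) ∧
    ∀ (N κ : ℕ) (Γ : SimpleGraph (Fin N)), ∃ (n K : ℕ) (G : SimpleGraph (Fin n)),
      f (encInst Γ κ) = encInst G K ∧ G.Connected ∧ KOuterplanar G (40 * κ ^ 2 + 25) ∧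
      ((∃ C : Finset (Fin N), Γ.IsNClique κ C) ↔ stc G ≤ K) := by
  obtain ⟨f, hf, hspec⟩ := exists_poly_reduction
  refine ⟨f, Pool.Agent.Lib.MP_9c2350_lc.tm_of_poly hf, fun N κ Γ => ?_⟩
  have hP := cliquePar_good N κ (adjOf Γ)
  obtain ⟨iso⟩ := (cliquePar N κ (adjOf Γ)).outGraph_iso
  refine ⟨_, (cliquePar N κ (adjOf Γ)).K, (cliquePar N κ (adjOf Γ)).outGraph, hspec N κ Γ, ?_, ?_,
    stc_le_K_iff Γ⟩
  · exact (Iso.connected_iff iso).1 (Par.connected_graph _ hP)
  · have h := kouterplanar_iso iso (Par.kouterplanar_graph _)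
    rw [cliquePar_k] at h
    have e : 8 * (5 * κ ^ 2 + 3) + 1 = 40 * κ ^ 2 + 25 := by ring
    rw [e] at h
    exact h

end Pool.Agent.Lib.MP_20e1d9_lc
end

section

/-!
A fixed-parameter algorithm for STC on k-outerplanar graphs gives one for Clique.
-/

set_option autoImplicit false

namespace Pool.Agent.Lib.MP_20e1d9_lc

open Function Encodable Turing
open Pool.Agent.Lib.PolyTime (eval_mono)
open Pool.Agent.Lib.MP_9c2350_lc (Sym)

instance symEncodable : Encodable Sym where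
  encode a := match a with
    | .zero => 0
    | .one => 1
    | .slash => 2
    | .comma => 3
    | .semi => 4
    | .bar => 5
  decode n := match n with
    | 0 => some .zero
    | 1 => some .one
    | 2 => some .slash
    | 3 => some .comma
    | 4 => some .semi
    | 5 => some .bar
    | _ => none
  encodek a := by cases a <;> rfl

instance symInhabited : Inhabited Sym := ⟨.zero⟩

theorem encode_default_sym : encode (default : Sym) = 0 := rfl

/-- Polynomial time word functions are computed by structured programs in polynomial time. -/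
theorem inTime_of_poly {f : List Sym → List Sym} (hf : MP_9c2350_lc.Poly f) {α : Type}
    (ea : α → List Sym) : ∃ p : Polynomial ℕ,
      InTime (fun _ => True) ea (fun x => f (ea x)) (fun x => p.eval (ea x).length) := by
  obtain ⟨TC⟩ := MP_9c2350_lc.tm_of_poly hf
  obtain ⟨C, hC⟩ := InTime.of_tm2 (X := fun _ : α => True) (ea := ea) (F := fun x => f (ea x))
    TC.tm TC.inputAlphabet TC.outputAlphabet (fun x => TC.time.eval (ea x).length)
    (fun x _ => ⟨TC.outputsFun (ea x)⟩)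
  refine ⟨Polynomial.C C * (TC.time + Polynomial.X + 1), hC.mono (fun _ h => h) ?_⟩
  intro x _
  simp

theorem eval_le_pow (P : Polynomial ℕ) : ∃ S d : ℕ, ∀ u, 1 ≤ u → P.eval u ≤ S * u ^ d := by
  refine ⟨∑ i ∈ Finset.range (P.natDegree + 1), P.coeff i, P.natDegree, fun u hu => ?_⟩
  rw [Polynomial.eval_eq_sum_range, Finset.sum_mul]
  refine Finset.sum_le_sum fun i hi => Nat.mul_le_mul_left _ (Nat.pow_le_pow_right hu ?_)
  exact Nat.lt_succ_iff.1 (Finset.mem_range.1 hi)

theorem computable_pow {h : ℕ → ℕ} (hh : Computable h) (d : ℕ) :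
    Computable fun n => h n ^ d := by
  induction d with
  | zero => simpa using Computable.const 1
  | succ d ih =>
    have := (Primrec.nat_mul.to_comp).comp ih hh
    exact this.of_eq fun n => by rw [pow_succ]

theorem length_encGraph {n : ℕ} (G : SimpleGraph (Fin n)) :
    (encGraph G).length = n * (n + 1) + 1 := by
  unfold encGraph
  rw [List.length_append, List.length_flatten, List.map_ofFn]
  simp only [Function.comp_def, List.length_append, List.length_ofFn, List.length_singleton]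
  rw [List.sum_ofFn]
  simp

theorem length_encInst {n : ℕ} (G : SimpleGraph (Fin n)) (k : ℕ) :
    (encInst G k).length = n * (n + 1) + 1 + k := by
  rw [encInst, List.length_append, length_encGraph, List.length_replicate]

/-- Instances. -/
abbrev GInst : Type := Σ n : ℕ, ℕ × SimpleGraph (Fin n)

/-- The word of an instance. -/
noncomputable def GInst.enc (x : GInst) : List Sym := encInst x.2.2 x.2.1

/-- The image of a clique instance, with the parameter. -/
noncomputable def GInst.img (x : GInst) : GInst :=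
  ⟨_, 40 * x.2.1 ^ 2 + 25, (cliquePar x.1 x.2.1 (adjOf x.2.2)).outGraph⟩

theorem img_connected (x : GInst) : x.img.2.2.Connected := by
  obtain ⟨iso⟩ := (cliquePar x.1 x.2.1 (adjOf x.2.2)).outGraph_iso
  exact (SimpleGraph.Iso.connected_iff iso).1 (Par.connected_graph _ (cliquePar_good _ _ _))

theorem img_kouterplanar (x : GInst) : KOuterplanar x.img.2.2 x.img.2.1 := by
  obtain ⟨iso⟩ := (cliquePar x.1 x.2.1 (adjOf x.2.2)).outGraph_iso
  have h := kouterplanar_iso iso (Par.kouterplanar_graph _)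
  rw [cliquePar_k] at h
  have e : 8 * (5 * x.2.1 ^ 2 + 3) + 1 = 40 * x.2.1 ^ 2 + 25 := by ring
  rw [e] at h
  exact h

theorem cliqueFpt_of_stcFpt (hstc : STCFpt) : CliqueFpt := by
  classical
  obtain ⟨tm, a, b, f, c, hf, H⟩ := hstc
  -- the machine for STC
  choose! T hT1 hT2 hT3 using H
  obtain ⟨C, hC⟩ := InTime.of_tm2 (A := Sym) (B := Sym)
    (X := fun x : GInst => x.2.2.Connected ∧ KOuterplanar x.2.2 x.2.1)
    (ea := GInst.enc) (F := fun x => encGraph (T x.1 x.2.1 x.2.2)) tm a b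
    (fun x => f x.2.1 * x.1 ^ c)
    (fun x hx => hT3 x.1 x.2.1 x.2.2 hx.1 hx.2)
  -- the reduction
  obtain ⟨f1, hf1, e1⟩ := exists_poly_reduction'
  obtain ⟨p1, h1⟩ := inTime_of_poly hf1 GInst.enc
  have h1' : InTime (fun _ : GInst => True) GInst.enc (fun x => GInst.enc x.img)
      (fun x => p1.eval x.enc.length) := h1.congr fun x _ => e1 x.1 x.2.1 x.2.2
  have h2 := hC.comp h1' (fun x _ => ⟨img_connected x, img_kouterplanar x⟩)
  -- the instance
  obtain ⟨f2, hf2, e2⟩ := exists_poly_inst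
  obtain ⟨p2, h3⟩ := inTime_of_poly hf2 GInst.enc
  have h4 := h3.append h2
  -- the check
  obtain ⟨f3, hf3, e3⟩ := exists_poly_check
  obtain ⟨p3, h5⟩ := inTime_of_poly hf3 (fun x : List Sym => x)
  have h6 := h5.comp (φ := fun x : GInst => f2 x.enc ++
    encGraph (T x.img.1 x.img.2.1 x.img.2.2)) h4 (fun _ _ => trivial)
  obtain ⟨tm', a', b', H'⟩ := h6.toTM2 encode_default_sym
  -- the bound
  let P1 : Polynomial ℕ := p1 + Polynomial.C C * (Polynomial.X * p1 ^ c + p1 + 1) + (3 * p1 + 2)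
  let P2 : Polynomial ℕ := p2 + P1
  let P3 : Polynomial ℕ := P2 + p3.comp P2 + (3 * P2 + 2)
  let P4 : Polynomial ℕ := 10 * P3 + 9 * Polynomial.X + 12
  obtain ⟨S, d, hSd⟩ := eval_le_pow P4
  refine ⟨tm', a', b', fun κ => S * (κ + f (40 * κ ^ 2 + 25) + 2) ^ d, 2 * d, ?_, ?_⟩
  · have hk : Computable fun κ : ℕ => 40 * κ ^ 2 + 25 :=
      (Primrec.nat_add.to_comp).comp ((Primrec.nat_mul.to_comp).comp (Computable.const 40)
        (computable_pow Computable.id 2)) (Computable.const 25)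
    have hfk : Computable fun κ : ℕ => f (40 * κ ^ 2 + 25) := hf.comp hk
    have hb : Computable fun κ : ℕ => κ + f (40 * κ ^ 2 + 25) + 2 :=
      (Primrec.nat_add.to_comp).comp ((Primrec.nat_add.to_comp).comp Computable.id hfk)
        (Computable.const 2)
    exact (Primrec.nat_mul.to_comp).comp (Computable.const S) (computable_pow hb d)
  · intro N κ Γ
    set x : GInst := ⟨N, κ, Γ⟩ with hx
    have hout := H' x trivial
    -- the output
    have hval : f3 (f2 x.enc ++ encGraph (T x.img.1 x.img.2.1 x.img.2.2)) =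
        if ∃ C : Finset (Fin N), Γ.IsNClique κ C then [Sym.one] else [Sym.zero] := by
      have e4 : f2 x.enc = encInst (cliquePar N κ (adjOf Γ)).outGraph
        (cliquePar N κ (adjOf Γ)).K ++ [Sym.slash] := e2 N κ Γ
      rw [e4]
      refine (e3 _ _ _ _).trans ?_
      have hc1 := img_connected x
      have hc2 := img_kouterplanar x
      have e5 : check x.img.1 (matOf x.img.2.2) (matOf (T x.img.1 x.img.2.1 x.img.2.2))
          (cliquePar N κ (adjOf Γ)).K = true ↔ ∃ C : Finset (Fin N), Γ.IsNClique κ C := by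
        rw [check_iff _ _ (hT1 _ _ _ hc1 hc2), hT2 _ _ _ hc1 hc2]
        exact (stc_le_K_iff Γ).symm
      exact if_congr e5 rfl rfl
    unfold Outputs
    rw [← hval]
    refine hout.map fun o => ⟨o.toEvalsTo, o.steps_le_m.trans ?_⟩
    -- the time
    set u := x.enc.length + f (40 * κ ^ 2 + 25) with hu
    have hL : x.enc.length = N * (N + 1) + 1 + κ := length_encInst Γ κ
    have hlu : x.enc.length ≤ u := Nat.le_add_right _ _
    have hfu : f (40 * κ ^ 2 + 25) ≤ u := Nat.le_add_left _ _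
    have b1 : p1.eval x.enc.length ≤ p1.eval u := eval_mono p1 hlu
    have b2 : p2.eval x.enc.length ≤ p2.eval u := eval_mono p2 hlu
    have b3 : x.img.enc.length ≤ p1.eval u := (h1'.length_le x trivial).trans b1
    have b4 : x.img.1 ≤ p1.eval u := by
      refine le_trans ?_ b3
      show _ ≤ (encInst _ _).length
      rw [length_encInst]
      nlinarith
    have b5 : f x.img.2.1 * x.img.1 ^ c ≤ u * p1.eval u ^ c :=
      Nat.mul_le_mul hfu (Nat.pow_le_pow_left b4 c)
    have b6 : p1.eval x.enc.length + C * (f x.img.2.1 * x.img.1 ^ c +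
        x.img.enc.length + 1) + (3 * x.img.enc.length + 2) ≤ P1.eval u := by
      simp only [P1, Polynomial.eval_add, Polynomial.eval_mul, Polynomial.eval_C,
        Polynomial.eval_X, Polynomial.eval_pow, Polynomial.eval_one, Polynomial.eval_ofNat]
      have := Nat.mul_le_mul_left C (Nat.add_le_add_right (Nat.add_le_add b5 b3) 1)
      omega
    have b7 : p2.eval x.enc.length + (p1.eval x.enc.length + C *
        (f x.img.2.1 * x.img.1 ^ c + x.img.enc.length + 1) + (3 * x.img.enc.length + 2)) ≤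
        P2.eval u := by
      simp only [P2, Polynomial.eval_add]
      exact Nat.add_le_add b2 b6
    have b8 : (f2 x.enc ++ encGraph (T x.img.1 x.img.2.1 x.img.2.2)).length ≤ P2.eval u :=
      (h4.length_le x trivial).trans b7
    have b9 := eval_mono p3 b8
    have b10 : 10 * ((p2.eval x.enc.length + (p1.eval x.enc.length + C *
        (f x.img.2.1 * x.img.1 ^ c + x.img.enc.length + 1) + (3 * x.img.enc.length + 2))) +
        p3.eval (f2 x.enc ++ encGraph (T x.img.1 x.img.2.1 x.img.2.2)).length +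
        (3 * (f2 x.enc ++ encGraph (T x.img.1 x.img.2.1 x.img.2.2)).length + 2)) +
        9 * x.enc.length + 12 ≤ P4.eval u := by
      simp only [P4, P3, Polynomial.eval_add, Polynomial.eval_mul, Polynomial.eval_X,
        Polynomial.eval_ofNat, Polynomial.eval_comp]
      omega
    have hu1 : 1 ≤ u := by omega
    have hu2 : u ≤ (N + 1) ^ 2 * (κ + f (40 * κ ^ 2 + 25) + 2) := by
      rw [hu, hL]
      nlinarith [Nat.zero_le (N * κ), Nat.zero_le (N * f (40 * κ ^ 2 + 25)),
        Nat.zero_le (N * N * κ), Nat.zero_le (N * N * f (40 * κ ^ 2 + 25)), Nat.zero_le (N * N)]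
    refine (b10.trans (hSd u hu1)).trans ?_
    show S * u ^ d ≤ S * (κ + f (40 * κ ^ 2 + 25) + 2) ^ d * (N + 1) ^ (2 * d)
    calc S * u ^ d ≤ S * ((N + 1) ^ 2 * (κ + f (40 * κ ^ 2 + 25) + 2)) ^ d :=
          Nat.mul_le_mul_left _ (Nat.pow_le_pow_left hu2 d)
      _ = S * (κ + f (40 * κ ^ 2 + 25) + 2) ^ d * (N + 1) ^ (2 * d) := by
          rw [mul_pow, ← pow_mul]
          ring

end Pool.Agent.Lib.MP_20e1d9_lc
end
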