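import Pool.Agent.Lib.MP_20e1d9_lc.Out
import Pool.Agent.Lib.MP_9c2350_lc.Alg

/-!
Closure properties of polynomial time functions: unary natural numbers and lists.
-/

set_option autoImplicit false
set_option linter.unusedSimpArgs false
set_option linter.unusedSectionVars false

namespace Pool.Agent.Lib.MP_20e1d9_lc

open Pool.Agent.Lib.MP_9c2350_lc

/-- Natural numbers in unary. -/
instance : Enc ℕ := ⟨fun n => Enc.enc (List.replicate n ())⟩

/-- Polynomial time functions. -/
@[fun_prop]
def PT {α β : Type} [Enc α] [Enc β] (f : α → β) : Prop := MP_9c2350_lc.Poly f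

variable {α β γ σ δ : Type} [Enc α] [Enc β] [Enc γ] [Enc σ] [Enc δ]

namespace PL

theorem _root_.Pool.Agent.Lib.MP_20e1d9_lc.PT.of_eq {f g : α → β} (hf : PT f)
    (h : ∀ x, f x = g x) : PT g := MP_9c2350_lc.Poly.of_eq hf h

theorem _root_.Pool.Agent.Lib.MP_20e1d9_lc.PT.of_word {f : α → β} {α' β' : Type} [Enc α'] [Enc β']
    {g : α' → β'} (hg : PT g) (e : α → α') (h : ∀ x, word x = word (e x))
    (h' : ∀ x, word (f x) = word (g (e x))) : PT f := MP_9c2350_lc.Poly.of_word hg e h h'

theorem _root_.Pool.Agent.Lib.MP_20e1d9_lc.PT.size {f : α → β} (hf : PT f) :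
    ∃ g, PB g ∧ ∀ x, sz (f x) ≤ g (sz x) := MP_9c2350_lc.Poly.size hf

theorem _root_.Pool.Agent.Lib.MP_20e1d9_lc.PT.comp {f : β → γ} {g : α → β} (hf : PT f)
    (hg : PT g) : PT (fun x => f (g x)) := MP_9c2350_lc.Poly.comp hf hg

theorem sz_unit (u : Unit) : sz u = 1 := rfl

theorem sz_nat (n : ℕ) : sz n = 2 * n + 1 := by
  show sz (List.replicate n ()) = _
  induction n with
  | zero => rfl
  | succ n ih => rw [List.replicate_succ, sz_cons, ih, sz_unit]; omega

@[fun_prop]
theorem id : PT (fun x : α => x) := MP_9c2350_lc.Poly.id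

@[fun_prop]
theorem const (b : β) : PT (fun _ : α => b) := MP_9c2350_lc.Poly.const b

@[fun_prop]
theorem comp {f : β → γ} {g : α → β} (hf : PT f) (hg : PT g) : PT (fun x => f (g x)) :=
  MP_9c2350_lc.Poly.comp hf hg

@[fun_prop]
theorem pair {f : α → β} {g : α → γ} (hf : PT f) (hg : PT g) : PT (fun x => (f x, g x)) :=
  MP_9c2350_lc.Poly.pair hf hg

@[fun_prop]
theorem fst {f : α → β × γ} (hf : PT f) : PT (fun x => (f x).1) :=
  MP_9c2350_lc.Poly.comp MP_9c2350_lc.Poly.fst hf

@[fun_prop]
theorem snd {f : α → β × γ} (hf : PT f) : PT (fun x => (f x).2) :=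
  MP_9c2350_lc.Poly.comp MP_9c2350_lc.Poly.snd hf

@[fun_prop]
theorem cons {f : α → γ} {g : α → List γ} (hf : PT f) (hg : PT g) :
    PT (fun x => f x :: g x) := MP_9c2350_lc.Poly.cons hf hg

@[fun_prop]
theorem ite {p : α → Prop} [∀ x, Decidable (p x)] {f g : α → β} (hp : PT fun x => decide (p x))
    (hf : PT f) (hg : PT g) : PT (fun x => if p x then f x else g x) :=
  (MP_9c2350_lc.Poly.ite hp hf hg).of_eq fun x => by simp

/-- The units of a number. -/
theorem units {f : α → ℕ} (hf : PT f) : PT (fun x => List.replicate (f x) ()) :=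
  hf.of_word (fun x => x) (fun _ => rfl) (fun _ => rfl)

@[fun_prop]
theorem length {l : α → List γ} (hl : PT l) : PT (fun x => (l x).length) := by
  have h : PT (fun x => (l x).map fun _ => ()) :=
    MP_9c2350_lc.Poly.map (f := fun _ : α × γ => ()) hl (MP_9c2350_lc.Poly.const ())
  refine h.of_word (fun x => x) (fun _ => rfl) (fun x => ?_)
  show word (List.replicate _ ()) = _
  congr 1
  simp [List.map_const']

@[fun_prop]
theorem append {l m : α → List γ} (hl : PT l) (hm : PT m) : PT (fun x => l x ++ m x) :=
  MP_9c2350_lc.Poly.append hl hm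

@[fun_prop]
theorem map {l : α → List γ} {f : α → γ → β} (hl : PT l) (hf : PT fun p : α × γ => f p.1 p.2) :
    PT (fun x => (l x).map fun b => f x b) :=
  MP_9c2350_lc.Poly.map (f := fun p => f p.1 p.2) hl hf

@[fun_prop]
theorem flatMap {l : α → List γ} {f : α → γ → List β} (hl : PT l)
    (hf : PT fun p : α × γ => f p.1 p.2) :
    PT (fun x => (l x).flatMap fun b => f x b) :=
  MP_9c2350_lc.Poly.flatMap (f := fun p => f p.1 p.2) hl hf

@[fun_prop]
theorem add {f g : α → ℕ} (hf : PT f) (hg : PT g) : PT (fun x => f x + g x) :=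
  (length (append (units hf) (units hg))).of_eq fun x => by simp

@[fun_prop]
theorem mul {f g : α → ℕ} (hf : PT f) (hg : PT g) : PT (fun x => f x * g x) :=
  (length (flatMap (f := fun x _ => List.replicate (g x) ()) (units hf)
    ((units hg).comp (fst id)))).of_eq fun x => by
      simp [List.length_flatMap, List.map_const']

@[fun_prop]
theorem drop {l : α → List γ} {n : α → ℕ} (hl : PT l) (hn : PT n) :
    PT (fun x => (l x).drop (n x)) := by
  obtain ⟨ql, hql, Hql⟩ := hl.size
  have e : ∀ (u : List Unit) (s : List γ), u.foldl (fun s _ => s.tail) s = s.drop u.length := by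
    intro u
    induction u with
    | nil => intro s; rfl
    | cons a u ih => intro s; rw [List.foldl_cons, ih]; simp
  have h := MP_9c2350_lc.Poly.foldl (step := fun y : α × (List γ × Unit) => y.2.1.tail) (units hn)
    hl (MP_9c2350_lc.Poly.tail (fst (snd id))) hql (by
      intro x l' hl'
      show sz (l'.foldl (fun s _ => s.tail) (l x)) ≤ ql (sz x)
      rw [e]
      refine le_trans ?_ (Hql x)
      generalize l x = m
      generalize l'.length = k
      induction k generalizing m with
      | zero => simp
      | succ k ih =>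
        cases m with
        | nil => simp
        | cons a m =>
          rw [List.drop_succ_cons, sz_cons]
          have := ih m
          omega)
  exact h.of_eq fun x => by rw [e]; simp

@[fun_prop]
theorem headD {l : α → List γ} (hl : PT l) (d : γ) : PT (fun x => (l x).headD d) :=
  MP_9c2350_lc.Poly.headD hl d

@[fun_prop]
theorem getD {l : α → List γ} {n : α → ℕ} (hl : PT l) (hn : PT n) (d : γ) :
    PT (fun x => (l x).getD (n x) d) :=
  (headD (drop hl hn) d).of_eq fun x => by
    rw [List.getD_eq_getElem?_getD, List.headD_eq_head?_getD, List.head?_drop]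

@[fun_prop]
theorem sub {f g : α → ℕ} (hf : PT f) (hg : PT g) : PT (fun x => f x - g x) :=
  (length (drop (units hf) hg)).of_eq fun x => by simp

theorem isNilL {l : α → List γ} (hl : PT l) : PT (fun x => decide (l x = [])) := by
  have h : MP_9c2350_lc.Poly (fun x => match l x with
      | [] => (fun _ : α => true) x
      | a :: t => (fun _ : α × (γ × List γ) => false) (x, (a, t))) :=
    MP_9c2350_lc.Poly.listCase hl (MP_9c2350_lc.Poly.const _) (MP_9c2350_lc.Poly.const _)
  exact h.of_eq fun x => by cases l x <;> simp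

@[fun_prop]
theorem le {f g : α → ℕ} (hf : PT f) (hg : PT g) : PT (fun x => decide (f x ≤ g x)) :=
  (isNilL (drop (units hf) hg)).of_eq fun x => by
    simp [Nat.sub_eq_zero_iff_le]

@[fun_prop]
theorem lt {f g : α → ℕ} (hf : PT f) (hg : PT g) : PT (fun x => decide (f x < g x)) :=
  (le (add hf (const 1)) hg).of_eq fun _ => rfl

@[fun_prop]
theorem not {b : α → Bool} (hb : PT b) : PT (fun x => !(b x)) := MP_9c2350_lc.Poly.not hb

@[fun_prop]
theorem and {b c : α → Bool} (hb : PT b) (hc : PT c) : PT (fun x => b x && c x) :=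
  MP_9c2350_lc.Poly.and hb hc

@[fun_prop]
theorem or {b c : α → Bool} (hb : PT b) (hc : PT c) : PT (fun x => b x || c x) :=
  MP_9c2350_lc.Poly.or hb hc

@[fun_prop]
theorem dand {p q : α → Prop} [∀ x, Decidable (p x)] [∀ x, Decidable (q x)]
    (hp : PT fun x => decide (p x)) (hq : PT fun x => decide (q x)) :
    PT (fun x => decide (p x ∧ q x)) :=
  (and hp hq).of_eq fun x => by simp

@[fun_prop]
theorem dor {p q : α → Prop} [∀ x, Decidable (p x)] [∀ x, Decidable (q x)]
    (hp : PT fun x => decide (p x)) (hq : PT fun x => decide (q x)) :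
    PT (fun x => decide (p x ∨ q x)) :=
  (or hp hq).of_eq fun x => by simp

@[fun_prop]
theorem eqNat {f g : α → ℕ} (hf : PT f) (hg : PT g) : PT (fun x => decide (f x = g x)) :=
  (dand (le hf hg) (le hg hf)).of_eq fun x => by simp [Nat.le_antisymm_iff]

@[fun_prop]
theorem eqTrue {b : α → Bool} (hb : PT b) : PT (fun x => decide (b x = true)) :=
  hb.of_eq fun x => by simp

@[fun_prop]
theorem replicate {n : α → ℕ} {f : α → γ} (hn : PT n) (hf : PT f) :
    PT (fun x => List.replicate (n x) (f x)) :=
  (map (f := fun x _ => f x) (units hn) (hf.comp (fst id))).of_eq fun x => by simp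

@[fun_prop]
theorem reverse {l : α → List γ} (hl : PT l) : PT (fun x => (l x).reverse) :=
  MP_9c2350_lc.Poly.reverse hl

/-- The numbers below `n` in decreasing order. -/
def down : ℕ → List ℕ
  | 0 => []
  | n + 1 => n :: down n

theorem down_length (n : ℕ) : (down n).length = n := by
  induction n with
  | zero => rfl
  | succ n ih => rw [down, List.length_cons, ih]

theorem down_reverse (n : ℕ) : (down n).reverse = List.range n := by
  induction n with
  | zero => rfl
  | succ n ih => rw [down, List.reverse_cons, ih, List.range_succ]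

@[fun_prop]
theorem range {n : α → ℕ} (hn : PT n) : PT (fun x => List.range (n x)) := by
  obtain ⟨qn, hqn, Hqn⟩ := hn.size
  have e : ∀ (u : List Unit), u.foldl (fun s _ => s.length :: s) ([] : List ℕ) = down u.length := by
    intro u
    induction u using List.reverseRecOn with
    | nil => rfl
    | append_singleton u a ih =>
      rw [List.foldl_append, ih]
      simp [down, down_length]
  have hd : ∀ n, sz (down n) ≤ n * (2 * n + 2) + 1 := by
    intro n
    have h1 := sz_list_le (down n) (2 * n + 1) (fun a ha => by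
      have h2 : a ∈ List.range n := by rw [← down_reverse]; exact List.mem_reverse.2 ha
      rw [sz_nat]
      have := List.mem_range.1 h2
      omega)
    rw [down_length] at h1
    exact h1
  have h := MP_9c2350_lc.Poly.foldl
    (step := fun y : α × (List ℕ × Unit) => y.2.1.length :: y.2.1) (units hn)
    (MP_9c2350_lc.Poly.const ([] : List ℕ)) (cons (length (fst (snd id))) (fst (snd id)))
    (q := fun m => qn m * (2 * qn m + 2) + 1)
    ((hqn.mul (((PB.const 2).mul hqn).add (PB.const 2))).add (PB.const 1)) (by
      intro x l' hl'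
      show sz (l'.foldl (fun s _ => s.length :: s) []) ≤ qn (sz x) * (2 * qn (sz x) + 2) + 1
      rw [e]
      refine (hd _).trans ?_
      have h1 : l'.length ≤ qn (sz x) := by
        have h2 := hl'.length_le
        rw [List.length_replicate] at h2
        have h3 := Hqn x
        rw [sz_nat] at h3
        omega
      have h4 : l'.length * (2 * l'.length + 2) ≤ qn (sz x) * (2 * qn (sz x) + 2) :=
        Nat.mul_le_mul h1 (by omega)
      omega)
  have h' : PT _ := MP_9c2350_lc.Poly.reverse h
  exact h'.of_eq fun x => by rw [e, List.length_replicate, down_reverse]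

end PL



end Pool.Agent.Lib.MP_20e1d9_lc
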