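import Pool.Agent.Lib.MP_20e1d9_lc.Defs

/-!
Subdivided multigraphs.
-/

set_option autoImplicit false

namespace Pool.Agent.Lib.MP_20e1d9_lc

/-- The component of `T - ab` containing `a`. -/
def side {V : Type*} (T : SimpleGraph V) (a b : V) : Set V :=
  {x | (T.deleteEdges {s(a, b)}).Reachable a x}

/-- The multigraph with vertex type `M`, edge type `E` and ends `src e`, `tgt e`, with every edge
subdivided once: the vertex `inr e` is adjacent to `inl (src e)` and `inl (tgt e)`. -/
def SubG {M E : Type*} (src tgt : E → M) : SimpleGraph (M ⊕ E) where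
  Adj a b := match a, b with
    | .inl x, .inr e => x = src e ∨ x = tgt e
    | .inr e, .inl x => x = src e ∨ x = tgt e
    | .inl _, .inl _ => False
    | .inr _, .inr _ => False
  symm := ⟨by rintro (x | e) (y | f) h <;> exact h⟩
  loopless := ⟨by rintro (x | e) h <;> exact h⟩

/-- The number of edges of the multigraph with exactly one end in `S`. -/
noncomputable def spl {M E : Type*} (src tgt : E → M) (S : Set M) : ℕ :=
  {e : E | ¬ (src e ∈ S ↔ tgt e ∈ S)}.ncard

end Pool.Agent.Lib.MP_20e1d9_lc
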